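import Mathlib

/-!
Shared definitions.
-/

set_option autoImplicit false
set_option linter.unusedSectionVars false

namespace Pool.Agent.H55.Odd

open Finset

/-- Sum of reciprocals. -/
noncomputable def Lq (Q : Finset ℕ) : ℝ := ∑ q ∈ Q, (1:ℝ) / q

/-- The primes `≡ 1 (mod W)` in `(N, 2N]`. -/
noncomputable def PP (W N : ℕ) : Finset ℕ := (Ioc N (2 * N)).filter (fun p => p.Prime ∧ p % W = 1 % W)

/-- The primes `≡ 1 (mod W)` in `(a, b]`. -/
noncomputable def PB (W a b : ℕ) : Finset ℕ := (Ioc a b).filter (fun p => p.Prime ∧ p % W = 1 % W)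

variable {m : ℕ}

/-- The parameter of a pair of colours. -/
def tgt (r : ZMod m) (j : ℕ) : ZMod m := r + 2 * ((j : ZMod m) + 1)

/-- Positions violated by `p`. -/
noncomputable def finSet (r : ZMod m) (a H : ℕ) (v : ℕ → ZMod m) (E : Finset ℕ) (p : ℕ) : Finset ℕ :=
  (range H).filter (fun x => 3 ∣ a + x ∧ ∃ e ∈ E, e ∣ a + x ∧ e * p ≤ x ∧
    v x + v (x - e * p) = tgt r (ArithmeticFunction.cardFactors e))

end Pool.Agent.H55.Odd
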