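import Pool.Agent.H55.Odd.High
import Pool.Agent.H55.Odd.Defs

/-!
Averages over products of primes from disjoint blocks.
-/

set_option autoImplicit false
set_option linter.unusedSectionVars false

namespace Pool.Agent.H55.Odd

open Finset

/-- Average over products of one prime from each of the first `j` blocks. -/
noncomputable def Av (Q : ℕ → Finset ℕ) : ℕ → (ℕ → ℝ) → ℝ
  | 0, F => F 1
  | j+1, F => ∑ q ∈ Q j, (1 / (Lq (Q j) * q)) * Av Q j (fun s => F (s * q))

/-- The products. -/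
def Sp (Q : ℕ → Finset ℕ) : ℕ → Set ℕ
  | 0 => {1}
  | j+1 => {e | ∃ s ∈ Sp Q j, ∃ q ∈ Q j, e = s * q}

lemma Lq_nonneg (Q : Finset ℕ) : 0 ≤ Lq Q := Finset.sum_nonneg fun _ _ => by positivity

variable (Q : ℕ → Finset ℕ)

lemma Av_mono : ∀ (j : ℕ) (F G : ℕ → ℝ), (∀ e ∈ Sp Q j, F e ≤ G e) → Av Q j F ≤ Av Q j G
  | 0, F, G, h => h 1 rfl
  | j+1, F, G, h => by
    simp only [Av]
    refine Finset.sum_le_sum fun q hq => mul_le_mul_of_nonneg_left ?_ ?_
    · exact Av_mono j _ _ fun s hs => h _ ⟨s, hs, q, hq, rfl⟩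
    · have := Lq_nonneg (Q j); positivity

lemma Av_congr (j : ℕ) (F G : ℕ → ℝ) (h : ∀ e ∈ Sp Q j, F e = G e) : Av Q j F = Av Q j G :=
  le_antisymm (Av_mono Q j _ _ fun e he => (h e he).le) (Av_mono Q j _ _ fun e he => (h e he).ge)

lemma Av_add : ∀ (j : ℕ) (F G : ℕ → ℝ), Av Q j (fun e => F e + G e) = Av Q j F + Av Q j G
  | 0, F, G => rfl
  | j+1, F, G => by
    simp only [Av]
    rw [← Finset.sum_add_distrib]
    refine Finset.sum_congr rfl fun q _ => ?_
    rw [Av_add j, mul_add]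

lemma Av_mul_left : ∀ (j : ℕ) (c : ℝ) (F : ℕ → ℝ), Av Q j (fun e => c * F e) = c * Av Q j F
  | 0, c, F => rfl
  | j+1, c, F => by
    simp only [Av]
    rw [Finset.mul_sum]
    refine Finset.sum_congr rfl fun q _ => ?_
    rw [Av_mul_left j]; ring

lemma Av_sub (j : ℕ) (F G : ℕ → ℝ) : Av Q j (fun e => F e - G e) = Av Q j F - Av Q j G := by
  have h1 := Av_add Q j F (fun e => (-1) * G e)
  rw [Av_mul_left] at h1
  have : (fun e => F e + (-1) * G e) = fun e => F e - G e := by funext e; ring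
  rw [this] at h1
  rw [h1]; ring

lemma Av_sum {ι : Type*} (j : ℕ) (I : Finset ι) (F : ι → ℕ → ℝ) :
    Av Q j (fun e => ∑ i ∈ I, F i e) = ∑ i ∈ I, Av Q j (F i) := by
  classical
  induction I using Finset.induction_on with
  | empty =>
    simp only [Finset.sum_empty]
    have := Av_mul_left Q j 0 (fun _ => 0)
    simpa using this
  | insert i I hi ih =>
    simp only [Finset.sum_insert hi]
    rw [Av_add, ih]

lemma Av_const : ∀ (j : ℕ) (_ : ∀ i < j, 0 < Lq (Q i)) (c : ℝ), Av Q j (fun _ => c) = c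
  | 0, _, c => rfl
  | j+1, h, c => by
    simp only [Av]
    rw [Finset.sum_congr rfl fun q _ => by rw [Av_const j (fun i hi => h i (by omega)) c]]
    rw [← Finset.sum_mul]
    have hL := h j (Nat.lt_succ_self j)
    have : ∑ q ∈ Q j, (1:ℝ) / (Lq (Q j) * q) = 1 := by
      have e0 : ∀ q ∈ Q j, (1:ℝ) / (Lq (Q j) * q) = 1 / Lq (Q j) * (1 / q) :=
        fun q _ => (one_div_mul_one_div (Lq (Q j)) (q:ℝ)).symm
      rw [Finset.sum_congr rfl e0, ← Finset.mul_sum]
      change 1 / Lq (Q j) * Lq (Q j) = 1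
      field_simp
    rw [this, one_mul]

/-- Cauchy-Schwarz for `Av`. -/
lemma Av_sq (j : ℕ) (h : ∀ i < j, 0 < Lq (Q i)) (F : ℕ → ℝ) :
    (Av Q j F) ^ 2 ≤ Av Q j (fun e => F e ^ 2) := by
  set c := Av Q j F with hc
  have h1 : 0 ≤ Av Q j (fun e => (F e - c) ^ 2) := by
    rw [← Av_const Q j h 0]
    exact Av_mono Q j _ _ fun e _ => sq_nonneg _
  have h2 : Av Q j (fun e => (F e - c) ^ 2) = Av Q j (fun e => F e ^ 2) - c ^ 2 := by
    have : (fun e => (F e - c) ^ 2) = fun e => F e ^ 2 + ((-2 * c) * F e + c ^ 2) := by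
      funext e; ring
    rw [this, Av_add, Av_add, Av_mul_left, Av_const Q j h, ← hc]; ring
  linarith

lemma Av_last : ∀ (j : ℕ) (F : ℕ → ℝ), Av Q (j+1) F =
    Av Q j (fun s => ∑ q ∈ Q j, (1 / (Lq (Q j) * q)) * F (s * q)) := by
  intro j F
  rw [Av_sum]
  simp only [Av]
  refine Finset.sum_congr rfl fun q _ => ?_
  rw [← Av_mul_left]

lemma Av_abs_le (j : ℕ) (h : ∀ i < j, 0 < Lq (Q i)) (F : ℕ → ℝ) (B : ℝ)
    (hF : ∀ e ∈ Sp Q j, |F e| ≤ B) : |Av Q j F| ≤ B := by
  rw [abs_le]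
  constructor
  · rw [← Av_const Q j h (-B)]
    exact Av_mono Q j _ _ fun e he => (abs_le.1 (hF e he)).1
  · rw [← Av_const Q j h B]
    exact Av_mono Q j _ _ fun e he => (abs_le.1 (hF e he)).2

/-- If the average is large, then some value is large. -/
lemma Av_exists (j : ℕ) (h : ∀ i < j, 0 < Lq (Q i)) (F : ℕ → ℝ) (c : ℝ) (hc : c < Av Q j F) :
    ∃ e ∈ Sp Q j, c < F e := by
  by_contra hcon
  push Not at hcon
  have := Av_mono Q j F (fun _ => c) hcon
  rw [Av_const Q j h] at this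
  linarith

/-! ### The second moment -/

lemma Sp_coprime (hprime : ∀ i, ∀ q ∈ Q i, q.Prime) (hdisj : ∀ i i', i ≠ i' → Disjoint (Q i) (Q i'))
    (i : ℕ) (q : ℕ) (hq : q ∈ Q i) : ∀ j ≤ i, ∀ e ∈ Sp Q j, Nat.Coprime e q := by
  intro j
  induction j with
  | zero => intro _ e he; rw [show e = 1 from he]; exact Nat.coprime_one_left _
  | succ j ih =>
    intro hj e he
    obtain ⟨s, hs, q', hq', rfl⟩ := he
    refine Nat.Coprime.mul_left (ih (by omega) s hs) ?_
    rw [Nat.coprime_primes (hprime j q' hq') (hprime i q hq)]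
    rintro rfl
    exact Finset.disjoint_left.1 (hdisj j i (by omega)) hq' hq

lemma block_gcd (Q0 : Finset ℕ) (hprime : ∀ q ∈ Q0, q.Prime) (hL : 0 < Lq Q0) :
    ∑ q ∈ Q0, ∑ q' ∈ Q0, (1 / (Lq Q0 * q)) * (1 / (Lq Q0 * q')) * (Nat.gcd q q' : ℝ) ≤
      1 + 1 / Lq Q0 := by
  classical
  set L := Lq Q0 with hLdef
  have h1 : ∑ q ∈ Q0, (1:ℝ) / (L * q) = 1 := by
    have e0 : ∀ q ∈ Q0, (1:ℝ) / (L * q) = 1 / L * (1 / q) :=
      fun q _ => (one_div_mul_one_div L (q:ℝ)).symm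
    rw [Finset.sum_congr rfl e0, ← Finset.mul_sum]
    change 1 / L * Lq Q0 = 1
    rw [← hLdef]; field_simp
  have h2 : ∀ q ∈ Q0, ∑ q' ∈ Q0, (1 / (L * q)) * (1 / (L * q')) * (Nat.gcd q q' : ℝ) ≤
      1 / (L * q) + (1 / L^2) * (1 / q) := by
    intro q hq
    have hq0 : (0:ℝ) < q := by exact_mod_cast (hprime q hq).pos
    have h3 : ∀ q' ∈ Q0, (1 / (L * q)) * (1 / (L * q')) * (Nat.gcd q q' : ℝ) ≤
        (1 / (L * q)) * (1 / (L * q')) + (if q' = q then (1 / L^2) * (1 / q) else 0) := by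
      intro q' hq'
      have hq0' : (0:ℝ) < q' := by exact_mod_cast (hprime q' hq').pos
      by_cases h : q' = q
      · subst h
        rw [if_pos rfl, Nat.gcd_self]
        have : (1 / (L * q')) * (1 / (L * q')) * (q':ℝ) = (1 / L^2) * (1 / q') := by
          field_simp
        rw [this]
        have : 0 ≤ (1 / (L * (q':ℝ))) * (1 / (L * q')) := by positivity
        linarith
      · rw [if_neg h, (Nat.coprime_primes (hprime q hq) (hprime q' hq')).2 (Ne.symm h)]
        simp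
    refine (Finset.sum_le_sum h3).trans ?_
    rw [Finset.sum_add_distrib, ← Finset.mul_sum, h1, Finset.sum_ite_eq', if_pos hq, mul_one]
  refine (Finset.sum_le_sum h2).trans ?_
  rw [Finset.sum_add_distrib, h1, ← Finset.mul_sum]
  change 1 + 1 / L^2 * Lq Q0 ≤ _
  rw [← hLdef]
  apply le_of_eq; field_simp

lemma Av_gcd (hprime : ∀ i, ∀ q ∈ Q i, q.Prime) (hdisj : ∀ i i', i ≠ i' → Disjoint (Q i) (Q i'))
    (L : ℝ) (hL : 0 < L) : ∀ (j : ℕ) (_ : ∀ i < j, L ≤ Lq (Q i)),
    Av Q j (fun e => Av Q j (fun e' => (Nat.gcd e e' : ℝ))) ≤ (1 + 1 / L) ^ j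
  | 0, _ => by simp [Av]
  | j+1, h => by
    have ih := Av_gcd hprime hdisj L hL j (fun i hi => h i (by omega))
    set GG := Av Q j (fun e => Av Q j (fun e' => (Nat.gcd e e' : ℝ))) with hGG
    have hLj := h j (Nat.lt_succ_self j)
    have hLj0 : 0 < Lq (Q j) := hL.trans_le hLj
    have h1 : Av Q (j+1) (fun e => Av Q (j+1) (fun e' => (Nat.gcd e e' : ℝ))) =
        (∑ q ∈ Q j, ∑ q' ∈ Q j, (1 / (Lq (Q j) * q)) * (1 / (Lq (Q j) * q')) * (Nat.gcd q q' : ℝ)) * GG := by
      rw [Finset.sum_mul]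
      have e0 : Av Q (j+1) (fun e => Av Q (j+1) (fun e' => (Nat.gcd e e' : ℝ))) =
          ∑ q ∈ Q j, (1 / (Lq (Q j) * q)) * Av Q j (fun s => Av Q (j+1) (fun e' => (Nat.gcd (s*q) e' : ℝ))) := rfl
      rw [e0]
      refine Finset.sum_congr rfl fun q hq => ?_
      rw [Finset.sum_mul]
      have e1 : Av Q j (fun s => Av Q (j+1) (fun e' => (Nat.gcd (s*q) e' : ℝ))) =
          ∑ q' ∈ Q j, (1 / (Lq (Q j) * q')) * (Nat.gcd q q' : ℝ) * GG := by
        have e2 : (fun s => Av Q (j+1) (fun e' => (Nat.gcd (s*q) e' : ℝ))) =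
            fun s => ∑ q' ∈ Q j, (1 / (Lq (Q j) * q')) * Av Q j (fun s' => (Nat.gcd (s*q) (s'*q') : ℝ)) := rfl
        rw [e2, Av_sum]
        refine Finset.sum_congr rfl fun q' hq' => ?_
        rw [Av_mul_left, mul_assoc]
        congr 1
        rw [hGG, ← Av_mul_left]
        refine Av_congr Q j _ _ fun s hs => ?_
        rw [← Av_mul_left]
        refine Av_congr Q j _ _ fun s' hs' => ?_
        have c1 : Nat.Coprime s q' := Sp_coprime Q hprime hdisj j q' hq' j le_rfl s hs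
        have c2 : Nat.Coprime s' q := Sp_coprime Q hprime hdisj j q hq j le_rfl s' hs'
        have : Nat.gcd (s*q) (s'*q') = Nat.gcd s s' * Nat.gcd q q' := by
          have g1 : Nat.gcd (s * q) (s' * q') = Nat.gcd (s*q) s' * Nat.gcd (s*q) q' := by
            by_cases hqq : Nat.Coprime s' q'
            · exact hqq.gcd_mul _
            · -- s' and q' are coprime by disjointness
              exact absurd (Sp_coprime Q hprime hdisj j q' hq' j le_rfl s' hs') hqq
          rw [g1, Nat.Coprime.gcd_mul_right_cancel s c2.symm, Nat.Coprime.gcd_mul_left_cancel q c1]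
        rw [this]; push_cast; ring
      rw [e1, Finset.mul_sum]
      refine Finset.sum_congr rfl fun q' _ => ?_
      ring
    rw [h1, pow_succ']
    have h2 := block_gcd (Q j) (hprime j) hLj0
    have h3 : 1 + 1 / Lq (Q j) ≤ 1 + 1 / L := by
      have := one_div_le_one_div_of_le hL hLj
      linarith
    have hGG0 : 0 ≤ GG := by
      rw [hGG]
      have z : ∀ i < j, 0 < Lq (Q i) := fun i hi => hL.trans_le (h i (by omega))
      rw [← Av_const Q j z 0]
      refine Av_mono Q j _ _ fun e _ => ?_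
      rw [← Av_const Q j z 0]
      exact Av_mono Q j _ _ fun e' _ => Nat.cast_nonneg _
    exact mul_le_mul (h2.trans h3) ih hGG0 (by positivity)

variable {H : ℕ} [NeZero H]

lemma mean_Av (j : ℕ) (F : ℕ → ZMod H → ℝ) :
    mean (fun x => Av Q j (fun e => F e x)) = Av Q j (fun e => mean (F e)) := by
  simp only [mean]
  rw [← Av_sum, ← Av_mul_left]

/-- The mass of a product class. -/
noncomputable def Theta (a j : ℕ) (x : ZMod H) : ℝ := Av Q j (fun e => e * ind a e x)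

lemma mean_Theta (a j : ℕ) (h : ∀ i < j, 0 < Lq (Q i)) (hdiv : ∀ e ∈ Sp Q j, e ∣ H) :
    mean (fun x : ZMod H => Theta Q a j x) = 1 := by
  simp only [Theta]
  rw [mean_Av, ← Av_const Q j h 1]
  refine Av_congr Q j _ _ fun e he => ?_
  have he0 : (e:ℝ) ≠ 0 := by
    have : e ≠ 0 := by rintro rfl; exact NeZero.ne H (Nat.eq_zero_of_zero_dvd (hdiv 0 he))
    exact_mod_cast this
  change mean (fun x : ZMod H => (e:ℝ) * ind a e x) = 1
  rw [mean_mul_left, mean_ind (hdiv e he)]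
  field_simp

lemma mean_Theta_sq (hprime : ∀ i, ∀ q ∈ Q i, q.Prime)
    (hdisj : ∀ i i', i ≠ i' → Disjoint (Q i) (Q i')) (L : ℝ) (hL : 0 < L)
    (a j : ℕ) (h : ∀ i < j, L ≤ Lq (Q i)) (hdiv : ∀ e ∈ Sp Q j, ∀ e' ∈ Sp Q j, Nat.lcm e e' ∣ H) :
    mean (fun x : ZMod H => Theta Q a j x ^ 2) ≤ (1 + 1 / L) ^ j := by
  refine le_trans (le_of_eq ?_) (Av_gcd Q hprime hdisj L hL j h)
  have h1 : (fun x : ZMod H => Theta Q a j x ^ 2) =
      fun x => Av Q j (fun e => Av Q j (fun e' => (e * ind a e x) * (e' * ind a e' x))) := by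
    funext x
    rw [sq, Theta, ← Av_mul_left]
    congr 1
    funext e
    rw [mul_comm, ← Av_mul_left]
  rw [h1, mean_Av]
  refine Av_congr Q j _ _ fun e he => ?_
  rw [mean_Av]
  refine Av_congr Q j _ _ fun e' he' => ?_
  have hl := hdiv e he e' he'
  have he0 : e ≠ 0 := by
    rintro rfl
    rw [Nat.lcm_zero_left] at hl
    exact NeZero.ne H (Nat.eq_zero_of_zero_dvd hl)
  have he0' : e' ≠ 0 := by
    rintro rfl
    rw [Nat.lcm_zero_right] at hl
    exact NeZero.ne H (Nat.eq_zero_of_zero_dvd hl)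
  have hg : (Nat.gcd e e' : ℝ) * (Nat.lcm e e' : ℝ) = e * e' := by exact_mod_cast Nat.gcd_mul_lcm e e'
  have hl0 : (Nat.lcm e e' : ℝ) ≠ 0 := by
    have := Nat.lcm_ne_zero he0 he0'
    exact_mod_cast this
  have h2 : mean (fun x : ZMod H => (e * ind a e x) * (e' * ind a e' x)) =
      (e * e') * (1 / (Nat.lcm e e' : ℝ)) := by
    rw [← mean_ind hl a, ← mean_mul_left]
    congr 1; funext x
    rw [← ind_mul_lcm]; ring
  rw [h2, ← hg]
  field_simp

/-- The intermediate frequencies: average over classes of the square of a function. -/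
lemma mid_mass (hprime : ∀ i, ∀ q ∈ Q i, q.Prime)
    (hdisj : ∀ i i', i ≠ i' → Disjoint (Q i) (Q i')) (L : ℝ) (hL : 0 < L)
    (a j : ℕ) (h : ∀ i < j, L ≤ Lq (Q i)) (hdiv : ∀ e ∈ Sp Q j, ∀ e' ∈ Sp Q j, Nat.lcm e e' ∣ H)
    (F : ZMod H → ℝ) (hF : ∀ x, |F x| ≤ 1) :
    Av Q j (fun e => e * mean (fun x => ind a e x * F x ^ 2)) ≤
      mean (fun x => F x ^ 2) + Real.sqrt ((1 + 1 / L) ^ j - 1) := by
  have hpos : ∀ i < j, 0 < Lq (Q i) := fun i hi => hL.trans_le (h i hi)
  have hdiv1 : ∀ e ∈ Sp Q j, e ∣ H := fun e he => (Nat.dvd_lcm_left e e).trans (hdiv e he e he)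
  have h1 : Av Q j (fun e => e * mean (fun x => ind a e x * F x ^ 2)) =
      mean (fun x => F x ^ 2 * Theta Q a j x) := by
    have : (fun x => F x ^ 2 * Theta Q a j x) =
        fun x => Av Q j (fun e => e * (ind a e x * F x ^ 2)) := by
      funext x
      rw [Theta, ← Av_mul_left]
      congr 1; funext e; ring
    rw [this, mean_Av]
    refine Av_congr Q j _ _ fun e _ => ?_
    rw [← mean_mul_left]
  rw [h1]
  have h2 : mean (fun x => F x ^ 2 * Theta Q a j x) =
      mean (fun x => F x ^ 2) + mean (fun x => F x ^ 2 * (Theta Q a j x - 1)) := by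
    rw [← mean_add]; congr 1; funext x; ring
  rw [h2]
  have h3 : mean (fun x : ZMod H => (Theta Q a j x - 1) ^ 2) ≤ (1 + 1 / L) ^ j - 1 := by
    have e1 : (fun x : ZMod H => (Theta Q a j x - 1) ^ 2) =
        fun x => Theta Q a j x ^ 2 - (2 * Theta Q a j x - 1) := by funext x; ring
    rw [e1, mean_sub, mean_sub, mean_mul_left, mean_const, mean_Theta Q a j hpos hdiv1]
    have := mean_Theta_sq Q hprime hdisj L hL a j h hdiv
    linarith
  have h4 : (mean (fun x => F x ^ 2 * (Theta Q a j x - 1))) ^ 2 ≤ (1 + 1 / L) ^ j - 1 := by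
    refine (mean_mul_sq _ _).trans ?_
    have e2 : mean (fun x => (F x ^ 2) ^ 2) ≤ 1 := by
      rw [← mean_const (H := H) 1]
      refine mean_mono fun x => ?_
      have := abs_le.1 (hF x)
      have h5 : F x ^ 2 ≤ 1 := by nlinarith
      have h6 : 0 ≤ F x ^ 2 := sq_nonneg _
      nlinarith
    have e3 : 0 ≤ mean (fun x : ZMod H => (Theta Q a j x - 1) ^ 2) := mean_nonneg fun _ => sq_nonneg _
    calc mean (fun x => (F x ^ 2) ^ 2) * mean (fun x : ZMod H => (Theta Q a j x - 1) ^ 2)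
        ≤ 1 * mean (fun x : ZMod H => (Theta Q a j x - 1) ^ 2) := mul_le_mul_of_nonneg_right e2 e3
      _ ≤ _ := by rw [one_mul]; exact h3
  have h5 := Real.abs_le_sqrt h4
  linarith [le_abs_self (mean (fun x => F x ^ 2 * (Theta Q a j x - 1)))]

/-- Pointwise bound of `Phi` by the mass on the class. -/
lemma Phi_sq_left {e : ℕ} (he : e ∣ H) (a : ℕ) (F h : ZMod H → ℝ) (hh : ∀ x, |h x| ≤ 1) (n : ℕ) :
    (Phi a e F h n) ^ 2 ≤ e * mean (fun x => ind a e x * F x ^ 2) := by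
  have he0 : (0:ℝ) < e := by
    have : e ≠ 0 := by rintro rfl; exact NeZero.ne H (Nat.eq_zero_of_zero_dvd he)
    exact_mod_cast Nat.pos_of_ne_zero this
  have h1 : mean (fun x => ind a e x * F x * h (x - ((e * n : ℕ) : ZMod H))) =
      mean (fun x => (ind a e x * F x) * (ind a e x * h (x - ((e * n : ℕ) : ZMod H)))) := by
    congr 1; funext x
    rw [show (ind a e x * F x) * (ind a e x * h (x - ((e * n : ℕ) : ZMod H))) =
      ind a e x ^ 2 * F x * h (x - ((e * n : ℕ) : ZMod H)) by ring, ind_sq]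
  rw [Phi, h1, mul_pow]
  have h2 := mean_mul_sq (fun x => ind a e x * F x) (fun x => ind a e x * h (x - ((e * n : ℕ) : ZMod H)))
  have h3 : mean (fun x => (ind a e x * h (x - ((e * n : ℕ) : ZMod H))) ^ 2) ≤ 1 / e := by
    rw [← mean_ind he a]
    refine mean_mono fun x => ?_
    rw [mul_pow, ind_sq]
    have := abs_le.1 (hh (x - ((e * n : ℕ) : ZMod H)))
    have h4 := ind_nonneg (H := H) a e x
    have h5 : h (x - ((e * n : ℕ) : ZMod H)) ^ 2 ≤ 1 := by nlinarith
    nlinarith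
  have h4 : mean (fun x => (ind a e x * F x) ^ 2) = mean (fun x => ind a e x * F x ^ 2) := by
    congr 1; funext x; rw [mul_pow, ind_sq]
  have h5 : 0 ≤ mean (fun x => ind a e x * F x ^ 2) :=
    mean_nonneg fun x => mul_nonneg (ind_nonneg _ _ _) (sq_nonneg _)
  rw [h4] at h2
  calc (e:ℝ)^2 * (mean (fun x => (ind a e x * F x) * (ind a e x * h (x - ((e * n : ℕ) : ZMod H))))) ^ 2
      ≤ (e:ℝ)^2 * (mean (fun x => ind a e x * F x ^ 2) * (1 / e)) :=
        mul_le_mul_of_nonneg_left (h2.trans (mul_le_mul_of_nonneg_left h3 h5)) (by positivity)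
    _ = _ := by field_simp

lemma Phi_sq_right {e : ℕ} (he : e ∣ H) (a : ℕ) (F h : ZMod H → ℝ) (hh : ∀ x, |h x| ≤ 1) (n : ℕ) :
    (Phi a e h F n) ^ 2 ≤ e * mean (fun x => ind a e x * F x ^ 2) := by
  have he0 : (0:ℝ) < e := by
    have : e ≠ 0 := by rintro rfl; exact NeZero.ne H (Nat.eq_zero_of_zero_dvd he)
    exact_mod_cast Nat.pos_of_ne_zero this
  have h1 : mean (fun x => ind a e x * h x * F (x - ((e * n : ℕ) : ZMod H))) =
      mean (fun x => (ind a e x * h x) * (ind a e x * F (x - ((e * n : ℕ) : ZMod H)))) := by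
    congr 1; funext x
    rw [show (ind a e x * h x) * (ind a e x * F (x - ((e * n : ℕ) : ZMod H))) =
      ind a e x ^ 2 * h x * F (x - ((e * n : ℕ) : ZMod H)) by ring, ind_sq]
  rw [Phi, h1, mul_pow]
  have h2 := mean_mul_sq (fun x => ind a e x * h x) (fun x => ind a e x * F (x - ((e * n : ℕ) : ZMod H)))
  have h3 : mean (fun x => (ind a e x * h x) ^ 2) ≤ 1 / e := by
    rw [← mean_ind he a]
    refine mean_mono fun x => ?_
    rw [mul_pow, ind_sq]
    have := abs_le.1 (hh x)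
    have h4 := ind_nonneg (H := H) a e x
    have h5 : h x ^ 2 ≤ 1 := by nlinarith
    nlinarith
  have h4 : mean (fun x => (ind a e x * F (x - ((e * n : ℕ) : ZMod H))) ^ 2) =
      mean (fun x => ind a e x * F x ^ 2) := by
    rw [← mean_shift (fun x => (ind a e x * F (x - ((e * n : ℕ) : ZMod H))) ^ 2) ((e * n : ℕ) : ZMod H)]
    congr 1; funext x
    rw [add_sub_cancel_right, ind_shift he a _ (Dvd.intro _ rfl), mul_pow, ind_sq]
  have h5 : 0 ≤ mean (fun x => ind a e x * F x ^ 2) :=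
    mean_nonneg fun x => mul_nonneg (ind_nonneg _ _ _) (sq_nonneg _)
  rw [h4] at h2
  calc (e:ℝ)^2 * (mean (fun x => (ind a e x * h x) * (ind a e x * F (x - ((e * n : ℕ) : ZMod H))))) ^ 2
      ≤ (e:ℝ)^2 * ((1 / e) * mean (fun x => ind a e x * F x ^ 2)) :=
        mul_le_mul_of_nonneg_left (h2.trans (mul_le_mul_of_nonneg_right h3 h5)) (by positivity)
    _ = _ := by field_simp

end Pool.Agent.H55.Odd
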