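import Pool.Agent.H55.Odd.OneLevel2

/-!
The key inequality.
-/

set_option autoImplicit false
set_option linter.unusedSectionVars false

namespace Pool.Agent.H55.Odd

open Finset

variable {m : ℕ} [NeZero m]

lemma Concl_mono {W : ℕ} {r : ZMod m} {E E' : Finset ℕ} {Klo Klo' Khi Khi' : ℕ} {c c' : ℝ} {H a : ℕ}
    {v : ℕ → ZMod m} (hE : E ⊆ E') (h1 : Klo' ≤ Klo) (h0 : 0 < Klo') (h2 : Khi ≤ Khi') (h3 : 0 < Khi)
    (hc : c' ≤ c) (h : Concl W r E Klo Khi c H a v) : Concl W r E' Klo' Khi' c' H a v := by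
  rw [Concl] at h ⊢
  have hlog : 0 ≤ Real.log H := by
    rcases Nat.eq_zero_or_pos H with h | h
    · simp [h]
    · exact Real.log_nonneg (by exact_mod_cast h)
  calc c' * (H:ℝ)^2 / Real.log H ≤ c * (H:ℝ)^2 / Real.log H := by gcongr
    _ ≤ ∑ p ∈ PB W (H / Khi) (H / Klo), ((finSet r a H v E p).card : ℝ) := h
    _ ≤ ∑ p ∈ PB W (H / Khi') (H / Klo'), ((finSet r a H v E p).card : ℝ) := by
        refine Finset.sum_le_sum_of_subset_of_nonneg ?_ (fun _ _ _ => Nat.cast_nonneg _)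
        intro p hp
        obtain ⟨a1, a2⟩ := Finset.mem_filter.1 hp
        obtain ⟨a3, a4⟩ := Finset.mem_Ioc.1 a1
        refine Finset.mem_filter.2 ⟨Finset.mem_Ioc.2 ⟨?_, ?_⟩, a2⟩
        · exact lt_of_le_of_lt (Nat.div_le_div_left h2 h3) a3
        · exact a4.trans (Nat.div_le_div_left h1 h0)
    _ ≤ _ := by
        refine Finset.sum_le_sum fun p _ => ?_
        have : finSet r a H v E p ⊆ finSet r a H v E' p := by
          intro x hx
          obtain ⟨a1, a2, e, he, a3⟩ := Finset.mem_filter.1 hx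
          exact Finset.mem_filter.2 ⟨a1, a2, e, hE he, a3⟩
        exact_mod_cast Finset.card_le_card this

/-- Properties required of the finite set `E`. -/
def GoodE (E : Finset ℕ) (D : ℕ) : Prop :=
  ∀ e ∈ E, 0 < e ∧ Squarefree e ∧ (∀ p : ℕ, p.Prime → p ∣ e → p % 3 = 1) ∧ e ∣ D

lemma TotEn_step (H : ℕ) [NeZero H] (ε : ℝ) (M C μ C' a : ℕ) (v : ℕ → ZMod m)
    (hl' : 0 < H / (C' * (M * μ)))
    (hσ : 8 * ((μ:ℝ) * ((H / (C' * (M * μ)) : ℕ) : ℝ) / ((H / (C * M) : ℕ) : ℝ)) ≤ ε / 80 / (4 * m))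
    (hbig : ¬ ((∀ c, En (M * μ) (H / (C' * (M * μ))) (fc (H := H) a v c) -
      En M (H / (C * M)) (fc (H := H) a v c) ≤ ε / 80) ∧
      (∀ c, En (M * μ) (H / (C' * (M * μ))) (gc (H := H) v c) -
      En M (H / (C * M)) (gc (H := H) v c) ≤ ε / 80))) :
    TotEn H M C a v + ε / 160 ≤ TotEn H (M * μ) C' a v := by
  classical
  have hm0 : 0 < m := Nat.pos_of_ne_zero (NeZero.ne m)
  have hm' : (1:ℝ) ≤ m := by exact_mod_cast hm0
  set l := H / (C * M) with hl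
  set l' := H / (C' * (M * μ)) with hl'def
  set σ : ℝ := ε / 80 / (4 * m) with hσdef
  have hmono : ∀ f : ZMod H → ℝ, (∀ x, |f x| ≤ 1) → -σ ≤ En (M * μ) l' f - En M l f := by
    intro f hf
    have h1 := energy M l μ l' hl' f hf
    have h2 : 0 ≤ mean (fun x => (P (M * μ) l' f x - P M l f x) ^ 2) := mean_nonneg fun _ => sq_nonneg _
    linarith
  have hfa : ∀ c, ∀ x : ZMod H, |fc a v c x| ≤ 1 :=
    fun c x => abs_le.2 ⟨by linarith [fc_nonneg a v c x], fc_le_one a v c x⟩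
  have hga : ∀ c, ∀ x : ZMod H, |gc v c x| ≤ 1 :=
    fun c x => abs_le.2 ⟨by linarith [gc_nonneg v c x], gc_le_one v c x⟩
  set d : ZMod m → ℝ := fun c => (En (M * μ) l' (fc (H := H) a v c) + En (M * μ) l' (gc (H := H) v c)) -
    (En M l (fc (H := H) a v c) + En M l (gc (H := H) v c)) with hd
  have hdl : ∀ c, -(2 * σ) ≤ d c := by
    intro c
    have h1 := hmono _ (hfa c)
    have h2 := hmono _ (hga c)
    rw [hd]; simp only; linarith
  obtain ⟨c0, hc0⟩ : ∃ c0, ε / 80 - σ ≤ d c0 := by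
    rw [not_and_or] at hbig
    rcases hbig with h | h
    · push Not at h
      obtain ⟨c0, h0⟩ := h
      refine ⟨c0, ?_⟩
      have h2 := hmono _ (hga c0)
      rw [hd]; simp only; linarith
    · push Not at h
      obtain ⟨c0, h0⟩ := h
      refine ⟨c0, ?_⟩
      have h2 := hmono _ (hfa c0)
      rw [hd]; simp only; linarith
  have hsum : TotEn H (M * μ) C' a v - TotEn H M C a v = ∑ c, d c := by
    rw [TotEn, TotEn, ← Finset.sum_sub_distrib]
  have h1 : ε / 80 - σ - 2 * σ * (m - 1) ≤ ∑ c, d c := by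
    rw [← Finset.add_sum_erase _ _ (Finset.mem_univ c0)]
    have h2 : ∑ c ∈ Finset.univ.erase c0, (-(2 * σ)) ≤ ∑ c ∈ Finset.univ.erase c0, d c :=
      Finset.sum_le_sum fun c _ => hdl c
    rw [Finset.sum_const, Finset.card_erase_of_mem (Finset.mem_univ c0), Finset.card_univ, ZMod.card,
      nsmul_eq_mul, Nat.cast_sub hm0, Nat.cast_one] at h2
    linarith
  have h2 : σ * (4 * m) = ε / 80 := by rw [hσdef]; field_simp
  have hσ0 : 0 ≤ σ := by
    refine le_trans ?_ hσ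
    positivity
  rw [← hsum] at h1
  nlinarith

/-- Iteration over levels. -/
lemma levels (hm : Odd m) (r : ZMod m) (W : ℕ) (hW : 0 < W) (w ε : ℝ)
    (hk : 28800 * ((m * m : ℕ):ℝ)^2 * (W * ε + 24 / w) ≤ 1) (hw0 : 0 < w) (hε0 : 0 < ε) (hε1 : ε ≤ 1)
    (N0 b : ℕ) (hPM : PM W w N0) (hWP : WP W b) :
    ∀ (T M C : ℕ), 0 < M → 0 < C → 3 ∣ M → ∃ (E : Finset ℕ) (Klo Khi : ℕ) (c : ℝ) (D H0 M' C' : ℕ),
      0 < Klo ∧ 0 < Khi ∧ 0 < c ∧ 0 < D ∧ GoodE E D ∧
      ∀ (H : ℕ) [NeZero H], H0 ≤ H → D ∣ H → ∀ (a : ℕ) (v : ℕ → ZMod m),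
        Concl W r E Klo Khi c H a v ∨ TotEn H M C a v + T * (ε / 160) ≤ TotEn H M' C' a v := by
  intro T
  induction T with
  | zero =>
    intro M C hM hC _
    refine ⟨∅, 1, 1, 1, 1, 0, M, C, one_pos, one_pos, one_pos, one_pos,
      fun e he => absurd he (Finset.notMem_empty e), fun H _ _ _ a v => Or.inr ?_⟩
    simp
  | succ T ih =>
    intro M C hM hC h3M
    have hm0 : 0 < m := Nat.pos_of_ne_zero (NeZero.ne m)
    have hm' : (1:ℝ) ≤ m := by exact_mod_cast hm0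
    obtain ⟨Lv⟩ := lev_exists m hm0 ε hε0 hε1 (ε / 80 / (4 * m)) (by positivity) b M C hM hC
    obtain ⟨E2, Klo2, Khi2, c2, D2, H2, M2, C2, g1, g2, g3, g4, g5, g6⟩ :=
      ih (M * Lv.μ) Lv.C' (Nat.mul_pos hM Lv.hμ) Lv.hC' (h3M.mul_right _)
    classical
    set E1 : Finset ℕ := (Icc 1 Lv.B).filter (fun e => ∃ j, 1 ≤ j ∧ j ≤ m ∧ e ∈ Sp Lv.Q j) with hE1
    have hE1mem : ∀ j, 1 ≤ j → j ≤ m → ∀ e ∈ Sp Lv.Q j, e ∈ E1 := by
      intro j hj1 hjm e he
      obtain ⟨a1, a2, _⟩ := Lv.hB j hjm e he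
      exact Finset.mem_filter.2 ⟨Finset.mem_Icc.2 ⟨a1, a2⟩, j, hj1, hjm, he⟩
    have hB' : (1:ℝ) ≤ Lv.B := by exact_mod_cast Lv.hB0
    have hKlo16 := Lv.hKlo1
    have hKhi0 : 0 < 2^b * Lv.Klo := Nat.mul_pos (by positivity) (by omega)
    have hKhi0' : (0:ℝ) < ((2^b * Lv.Klo : ℕ) : ℝ) := by exact_mod_cast hKhi0
    have hφ : (0:ℝ) < Nat.totient W := by exact_mod_cast Nat.totient_pos.2 hW
    set c1 : ℝ := 1 / (80 * Nat.totient W * m * Lv.B * (2^b * Lv.Klo : ℕ)) with hc1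
    have hc10 : 0 < c1 := by rw [hc1]; positivity
    set D1 : ℕ := C * Lv.C' * (M * Lv.μ) * (2^b * Lv.Klo) with hD1
    have hD10 : 0 < D1 :=
      Nat.mul_pos (Nat.mul_pos (Nat.mul_pos hC Lv.hC') (Nat.mul_pos hM Lv.hμ)) hKhi0
    refine ⟨E1 ∪ E2, min Lv.Klo Klo2, max (2^b * Lv.Klo) Khi2, min c1 c2, D1 * D2,
      max ((N0 + 8) * (2^b * Lv.Klo)) H2, M2, C2, lt_min (by omega) g1, lt_max_of_lt_left hKhi0,
      lt_min hc10 g3, Nat.mul_pos hD10 g4, ?_, ?_⟩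
    · intro e he
      rcases Finset.mem_union.1 he with h | h
      · obtain ⟨a1, j, hj1, hjm, hj⟩ := Finset.mem_filter.1 h
        obtain ⟨b1, b2, b3⟩ := Lv.hB j hjm e hj
        obtain ⟨s1, s2, _⟩ := Sp_props Lv.Q M h3M Lv.hprime Lv.hdisj j e hj
        refine ⟨b1, s1, s2, b3.trans ?_⟩
        exact Dvd.intro (C * Lv.C' * M * (2^b * Lv.Klo) * D2) (by rw [hD1]; ring)
      · obtain ⟨a1, a2, a3, a4⟩ := g5 e h
        exact ⟨a1, a2, a3, a4.mul_left _⟩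
    · intro H _ hH hdiv a v
      have hdiv1 : D1 ∣ H := (Dvd.intro _ rfl).trans hdiv
      have hdiv2 : D2 ∣ H := (Dvd.intro_left _ rfl).trans hdiv
      have hd1 : C * Lv.C' * (M * Lv.μ) ∣ H := (Dvd.intro _ rfl).trans hdiv1
      have hd2 : 2^b * Lv.Klo ∣ H := (Dvd.intro_left _ rfl).trans hdiv1
      have hHa : (N0 + 8) * (2^b * Lv.Klo) ≤ H := (le_max_left _ _).trans hH
      have hHb : H2 ≤ H := (le_max_right _ _).trans hH
      obtain ⟨⟨hl', hl, hσ⟩, -⟩ := Lv.main H hd1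
      by_cases hsmall : ((∀ c, En (M * Lv.μ) (H / (Lv.C' * (M * Lv.μ))) (fc (H := H) a v c) -
          En M (H / (C * M)) (fc (H := H) a v c) ≤ ε / 80) ∧
          (∀ c, En (M * Lv.μ) (H / (Lv.C' * (M * Lv.μ))) (gc (H := H) v c) -
          En M (H / (C * M)) (gc (H := H) v c) ≤ ε / 80))
      · left
        have h1 := small_inc hm r W hW w ε hk hw0 N0 b hPM hWP _ M C h3M Lv E1 hE1mem H hHa hd1 hd2 a v
          hsmall.1 hsmall.2
        exact Concl_mono Finset.subset_union_left (min_le_left _ _) (lt_min (by omega) g1)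
          (le_max_left _ _) hKhi0 (min_le_left _ _) h1
      · have hstep := TotEn_step H ε M C Lv.μ Lv.C' a v hl' hσ hsmall
        rcases g6 H hHb hdiv2 a v with h | h
        · left
          exact Concl_mono Finset.subset_union_right (min_le_right _ _) (lt_min (by omega) g1)
            (le_max_right _ _) g2 (min_le_right _ _) h
        · right
          push_cast
          linarith

/-- **The key inequality.** -/
theorem keyBound (hm : Odd m) (r : ZMod m) :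
    ∃ (W : ℕ) (E : Finset ℕ) (Klo Khi : ℕ) (c : ℝ) (D H0 : ℕ), 0 < W ∧ 3 ∣ W ∧
      0 < Klo ∧ 0 < Khi ∧ 0 < c ∧ 0 < D ∧ GoodE E D ∧
      ∀ H : ℕ, 0 < H → H0 ≤ H → D ∣ H → ∀ (a : ℕ) (v : ℕ → ZMod m), Concl W r E Klo Khi c H a v := by
  have hm0 : 0 < m := Nat.pos_of_ne_zero (NeZero.ne m)
  have hm' : (1:ℝ) ≤ m := by exact_mod_cast hm0
  set w : ℝ := 1382400 * m^4 with hw
  have hw0 : 0 < w := by rw [hw]; positivity
  set W : ℕ := (⌊w⌋₊ + 3).factorial with hWdef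
  have hW0 : 0 < W := Nat.factorial_pos _
  have hW' : (1:ℝ) ≤ W := by exact_mod_cast hW0
  have hWp : ∀ p : ℕ, p.Prime → (p:ℝ) ≤ w → p ∣ W := by
    intro p hp hpw
    have : p ≤ ⌊w⌋₊ := Nat.le_floor hpw
    exact Nat.dvd_factorial hp.pos (by omega)
  have h3W : 3 ∣ W := Nat.dvd_factorial (by norm_num) (by omega)
  obtain ⟨N0, hN0⟩ := prime_mean W hW0 w hw0 hWp
  obtain ⟨b, hb⟩ := window_primes W hW0
  set ε : ℝ := 1 / (57600 * m^4 * W) with hε
  have hε0 : 0 < ε := by rw [hε]; positivity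
  have hε1 : ε ≤ 1 := by
    rw [hε, div_le_one (by positivity)]
    have h1 : (1:ℝ) ≤ m^4 := one_le_pow₀ hm'
    have h2 : (1:ℝ) * 1 ≤ m^4 * W := mul_le_mul h1 hW' zero_le_one (by positivity)
    nlinarith
  have hk : 28800 * ((m * m : ℕ):ℝ)^2 * (W * ε + 24 / w) ≤ 1 := by
    rw [hε, hw]
    have hm4 : (0:ℝ) < m := by linarith
    have hWW : (0:ℝ) < W := by linarith
    apply le_of_eq
    push_cast
    field_simp
    norm_num
  obtain ⟨T, hT⟩ := exists_nat_gt (2 * m / (ε / 160))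
  obtain ⟨E, Klo, Khi, c, D, H0, M', C', g1, g2, g3, g4, g5, g6⟩ :=
    levels hm r W hW0 w ε hk hw0 hε0 hε1 N0 b hN0 hb T 3 1 (by norm_num) one_pos (dvd_refl 3)
  refine ⟨W, E, Klo, Khi, c, D, H0, hW0, h3W, g1, g2, g3, g4, g5, fun H hH hH0 hD a v => ?_⟩
  have : NeZero H := ⟨hH.ne'⟩
  rcases g6 H hH0 hD a v with h | h
  · exact h
  · exfalso
    have h1 := TotEn_le H M' C' a v
    have h2 := TotEn_nonneg H 3 1 a v
    rw [div_lt_iff₀ (by positivity)] at hT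
    linarith

end Pool.Agent.H55.Odd
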