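import Pool.Agent.H55.Odd.Step
import Pool.Agent.H55.Odd.KeyBound

/-!
The finite certificate.
-/

set_option autoImplicit false
set_option linter.unusedSectionVars false

namespace Pool.Agent.H55.Odd

open Finset

variable {m : ℕ} [NeZero m]

/-- The windows. -/
def Hs (Hz B : ℕ) (i : ℕ) : ℕ := B ^ i * Hz

/-- The primes used up to stage `i`. -/
noncomputable def PSs (W Klo Khi Hz B : ℕ) : ℕ → Finset ℕ
  | 0 => ∅
  | i+1 => PSs W Klo Khi Hz B i ∪ PB W (Hs Hz B (i+1) / Khi) (Hs Hz B (i+1) / Klo)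

/-- **The certificate.** -/
theorem certificate (hm : Odd m) (r : ZMod m) :
    ∃ (K : ℕ) (DS : Finset ℕ), (∀ d ∈ DS, 0 < d ∧ Squarefree d ∧ (∀ p : ℕ, p.Prime → p ∣ d → p % 3 = 1)) ∧
      ∀ w : ℕ → ZMod m, ∃ y < K, ∃ d ∈ DS, 3 ∣ y ∧ d ∣ y ∧ d ≤ y ∧
        w y + w (y - d) = r + 2 * (ArithmeticFunction.cardFactors d : ZMod m) := by
  classical
  obtain ⟨W, E, Klo, Khi, c, D, H0, hW, h3W, hKlo, hKhi, hc, hD, hE, hkey⟩ := keyBound hm r
  set R0 : ℕ := 3 * D with hR0
  set Hz : ℕ := R0 * (H0 + 2) with hHz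
  set B : ℕ := 2 * Khi with hB
  have hR00 : 0 < R0 := by omega
  have hHz0 : 0 < Hz := Nat.mul_pos hR00 (by omega)
  have hR0Hz : R0 ≤ Hz := Nat.le_mul_of_pos_right _ (by omega)
  have hB0 : 0 < B := by omega
  have hHs0 : ∀ i, 0 < Hs Hz B i := fun i => Nat.mul_pos (pow_pos hB0 i) hHz0
  have hHzle : ∀ i, Hz ≤ Hs Hz B i := fun i => Nat.le_mul_of_pos_left _ (pow_pos hB0 i)
  have hHsucc : ∀ i, Hs Hz B (i+1) = B * Hs Hz B i := fun i => by rw [Hs, Hs, pow_succ]; ring
  have hHmono : ∀ i, Hs Hz B i ≤ Hs Hz B (i+1) := fun i => by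
    rw [hHsucc]; exact Nat.le_mul_of_pos_left _ hB0
  have hdivK : ∀ i, Hs Hz B (i+1) / Khi = 2 * Hs Hz B i := fun i => by
    rw [hHsucc, hB, show 2 * Khi * Hs Hz B i = (2 * Hs Hz B i) * Khi by ring, Nat.mul_div_cancel _ hKhi]
  -- properties of the primes
  have hPS : ∀ i, ∀ p ∈ PSs W Klo Khi Hz B i, p.Prime ∧ p % W = 1 % W ∧ p ≤ Hs Hz B i ∧ Hz < p := by
    intro i
    induction i with
    | zero => intro p hp; exact absurd hp (Finset.notMem_empty p)
    | succ i ih =>
      intro p hp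
      rcases Finset.mem_union.1 hp with h | h
      · obtain ⟨a1, a2, a3, a4⟩ := ih p h
        exact ⟨a1, a2, a3.trans (hHmono i), a4⟩
      · obtain ⟨h1, h2, h3⟩ := Finset.mem_filter.1 h
        obtain ⟨h4, h5⟩ := Finset.mem_Ioc.1 h1
        rw [hdivK] at h4
        have := hHzle i
        exact ⟨h2, h3, h5.trans (Nat.div_le_self _ _), by omega⟩
  set S : ℕ → Finset ℕ := fun i => PB W (Hs Hz B (i+1) / Khi) (Hs Hz B (i+1) / Klo) with hSdef
  set R : ℕ → ℕ := fun i => R0 * ∏ p ∈ PSs W Klo Khi Hz B i, p with hRdef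
  have hRpos : ∀ i, 0 < R i := fun i => Nat.mul_pos hR00 (Finset.prod_pos fun p hp => (hPS i p hp).1.pos)
  have h3R : ∀ i, 3 ∣ R i := fun i => (Dvd.intro _ rfl : 3 ∣ R0).mul_right _
  have hER : ∀ i, ∀ e ∈ E, e ∣ R i := fun i e he =>
    (((hE e he).2.2.2).mul_left 3 : e ∣ R0).mul_right _
  have hPSR : ∀ i, ∀ p ∈ PSs W Klo Khi Hz B i, p ∣ R i := fun i p hp =>
    (Finset.dvd_prod_of_mem _ hp).mul_left _
  have hSprop : ∀ i, ∀ p ∈ S i, p.Prime ∧ ¬ p ∣ R i ∧ p ≤ B * Hs Hz B i := by
    intro i p hp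
    obtain ⟨h1, h2, h3⟩ := Finset.mem_filter.1 hp
    obtain ⟨h4, h5⟩ := Finset.mem_Ioc.1 h1
    rw [hdivK] at h4
    refine ⟨h2, ?_, ?_⟩
    · intro hd
      rcases (Nat.Prime.dvd_mul h2).1 hd with h | h
      · have h6 := Nat.le_of_dvd hR00 h
        have h7 := hHzle i
        omega
      · obtain ⟨q, hq, hqd⟩ := (Prime.dvd_finsetProd_iff h2.prime _).1 h
        obtain ⟨a1, a2, a3, a4⟩ := hPS i q hq
        have := (Nat.prime_dvd_prime_iff_eq h2 a1).1 hqd
        omega
    · rw [← hHsucc]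
      exact h5.trans (Nat.div_le_self _ _)
  have hRsucc : ∀ i, R (i+1) = R i * ∏ p ∈ S i, p := by
    intro i
    have hdisj : Disjoint (PSs W Klo Khi Hz B i) (S i) := by
      rw [Finset.disjoint_left]
      intro p h1 h2
      exact (hSprop i p h2).2.1 (hPSR i p h1)
    rw [hRdef]
    simp only
    rw [PSs, Finset.prod_union hdisj]
    ring
  -- suppose every window has a valid colouring
  by_cases hall : ∀ i n, (VV r E n (Hs Hz B i) (PSs W Klo Khi Hz B i)).Nonempty
  · exfalso
    set SS : ℕ → ℝ := fun i => ∑ n ∈ range (R i), Real.log ((VV r E n (Hs Hz B i) (PSs W Klo Khi Hz B i)).card : ℝ)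
      with hSS
    have hSS0 : ∀ i, 0 ≤ SS i := fun i => Finset.sum_nonneg fun n _ => by
      refine Real.log_nonneg ?_
      exact_mod_cast Finset.card_pos.2 (hall i n)
    set sn : ℕ → ℝ := fun i => SS i / (R i * Hs Hz B i) with hsn
    have hdec : ∀ i, sn (i+1) ≤ sn i - c / (2 * Real.log (Hs Hz B (i+1))) := by
      intro i
      have hHi : (0:ℝ) < Hs Hz B i := by exact_mod_cast hHs0 i
      have hHi1 : (0:ℝ) < Hs Hz B (i+1) := by exact_mod_cast hHs0 (i+1)
      have hRi : (0:ℝ) < R i := by exact_mod_cast hRpos i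
      have hBR : (0:ℝ) < B := by exact_mod_cast hB0
      have hPi : (0:ℝ) < ((∏ p ∈ S i, p : ℕ) : ℝ) := by
        have : 0 < ∏ p ∈ S i, p := Finset.prod_pos fun p hp => (hSprop i p hp).1.pos
        exact_mod_cast this
      have h1 := step r E (R i) (hRpos i) (h3R i) (hER i) (PSs W Klo Khi Hz B i) (S i) (hPSR i) B
        (Hs Hz B i) (hSprop i)
        (c * (Hs Hz B (i+1) : ℝ)^2 / Real.log (Hs Hz B (i+1))) (by
          intro a v
          have hH0le : H0 ≤ Hs Hz B (i+1) := by
            have h6 := hHzle (i+1)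
            have h7 : H0 ≤ Hz := by
              rw [hHz]; nlinarith
            omega
          have hDdvd : D ∣ Hs Hz B (i+1) := by
            refine Dvd.dvd.mul_left ?_ _
            exact Dvd.intro (3 * (H0 + 2)) (by rw [hHz, hR0]; ring)
          have := hkey (Hs Hz B (i+1)) (hHs0 (i+1)) hH0le hDdvd a v
          rw [Concl] at this
          rw [← hHsucc]
          exact this)
        (hall i) (by
          intro n
          have := hall (i+1) n
          rw [PSs, hHsucc] at this
          rw [hSdef]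
          simp only
          rw [hHsucc]
          exact this)
      have h2 : SS (i+1) = ∑ n ∈ range (R i * ∏ p ∈ S i, p), Real.log ((VV r E n (B * Hs Hz B i)
          (PSs W Klo Khi Hz B i ∪ S i)).card : ℝ) := by
        rw [hSS]
        simp only
        rw [hRsucc, ← hHsucc]
        rfl
      rw [← h2] at h1
      have hSSi : ∑ n ∈ range (R i), Real.log ((VV r E n (Hs Hz B i) (PSs W Klo Khi Hz B i)).card : ℝ) = SS i := rfl
      rw [hSSi] at h1
      have hRi1 : (0:ℝ) < R (i+1) := by exact_mod_cast hRpos (i+1)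
      have h3 : (R (i+1) : ℝ) = R i * ((∏ p ∈ S i, p : ℕ) : ℝ) := by rw [hRsucc]; push_cast; ring
      have h4 : (Hs Hz B (i+1) : ℝ) = B * Hs Hz B i := by rw [hHsucc]; push_cast; ring
      rw [hsn]
      simp only
      rw [div_le_iff₀ (mul_pos hRi1 hHi1)]
      refine h1.trans (le_of_eq ?_)
      rw [h3]
      have h5 : (((B * Hs Hz B i : ℕ)) : ℝ) = Hs Hz B (i+1) := by rw [hHsucc]
      rw [h5]
      generalize ((∏ p ∈ S i, p : ℕ) : ℝ) = Pi0 at *
      by_cases hlog : Real.log (Hs Hz B (i+1) : ℝ) = 0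
      · rw [hlog]
        simp only [div_zero, mul_zero, sub_zero, zero_div]
        rw [h4]
        field_simp
      · rw [h4] at hlog ⊢
        generalize Real.log ((B:ℝ) * (Hs Hz B i : ℝ)) = ll at *
        field_simp
    -- divergence
    have hHz2 : (2:ℝ) ≤ Hz := by
      have : 2 ≤ Hz := by rw [hHz]; nlinarith
      exact_mod_cast this
    have hB2 : (2:ℝ) ≤ B := by
      have : 2 ≤ B := by omega
      exact_mod_cast this
    have hlogHz : 0 < Real.log Hz := Real.log_pos (by linarith)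
    have hlogB : 0 < Real.log B := Real.log_pos (by linarith)
    set α : ℝ := Real.log Hz + Real.log B with hα
    have hα0 : 0 < α := by rw [hα]; positivity
    have hlogH : ∀ i, Real.log (Hs Hz B (i+1)) ≤ α * (i + 1) := by
      intro i
      have h1 : (Hs Hz B (i+1) : ℝ) = (B:ℝ)^(i+1) * Hz := by rw [Hs]; push_cast; ring
      rw [h1, Real.log_mul (by positivity) (by positivity), Real.log_pow, hα]
      have hi : (0:ℝ) ≤ i := Nat.cast_nonneg i
      push_cast
      nlinarith
    have hlogH0 : ∀ i, 0 < Real.log (Hs Hz B (i+1)) := by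
      intro i
      apply Real.log_pos
      have : (Hz:ℝ) ≤ Hs Hz B (i+1) := by exact_mod_cast hHzle (i+1)
      linarith
    have htel : ∀ n : ℕ, sn n ≤ sn 0 - (c / (2 * α)) * ∑ i ∈ range n, (1 / ((i:ℝ) + 1)) := by
      intro n
      induction n with
      | zero => simp
      | succ n ih =>
        have h1 := hdec n
        have h2 : (c / (2 * α)) * (1 / ((n:ℝ) + 1)) ≤ c / (2 * Real.log (Hs Hz B (n+1))) := by
          have h3 := hlogH n
          have h4 := hlogH0 n
          rw [div_mul_div_comm, mul_one]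
          refine div_le_div_of_nonneg_left hc.le (by positivity) ?_
          linarith
        rw [Finset.sum_range_succ, mul_add]
        linarith
    have hdiv : Filter.Tendsto (fun n : ℕ => ∑ i ∈ range n, (1 / ((i:ℝ) + 1))) Filter.atTop Filter.atTop := by
      have := Real.tendsto_sum_range_one_div_nat_succ_atTop
      simpa using this
    obtain ⟨n, hn⟩ := (hdiv.eventually_gt_atTop (sn 0 / (c / (2 * α)))).exists
    have h1 := htel n
    have h2 : 0 ≤ sn n := div_nonneg (hSS0 n) (by positivity)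
    have hcα : 0 < c / (2 * α) := by positivity
    rw [div_lt_iff₀ hcα] at hn
    linarith
  · push Not at hall
    obtain ⟨i, n, hempty⟩ := hall
    set H := Hs Hz B i with hH
    refine ⟨n + H, (E ×ˢ PSs W Klo Khi Hz B i).image (fun t => t.1 * t.2), ?_, ?_⟩
    · intro d hd
      obtain ⟨⟨e, p⟩, hep, rfl⟩ := Finset.mem_image.1 hd
      obtain ⟨he, hp⟩ := Finset.mem_product.1 hep
      simp only at he hp ⊢
      obtain ⟨e1, e2, e3, e4⟩ := hE e he
      obtain ⟨p1, p2, p3, p4⟩ := hPS i p hp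
      have hcop : Nat.Coprime e p := by
        rw [Nat.coprime_comm, Nat.Prime.coprime_iff_not_dvd p1]
        intro h
        have h5 : p ≤ D := Nat.le_of_dvd hD (h.trans e4)
        omega
      refine ⟨Nat.mul_pos e1 p1.pos, (Nat.squarefree_mul hcop).2 ⟨e2, p1.squarefree⟩, ?_⟩
      intro q hq hqd
      rcases (Nat.Prime.dvd_mul hq).1 hqd with h | h
      · exact e3 q hq h
      · rw [(Nat.prime_dvd_prime_iff_eq hq p1).1 h]
        have h4 : p ≡ 1 [MOD 3] := Nat.ModEq.of_dvd h3W p2
        exact h4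
    · intro w
      set u : Fin H → ZMod m := fun x => w (n + x.val) with hu
      have hu1 : u ∉ VV r E n H (PSs W Klo Khi Hz B i) := by
        rw [hempty]; exact Finset.notMem_empty _
      rw [mem_VV] at hu1
      unfold Valid at hu1
      push Not at hu1
      obtain ⟨x, hx, p, hp, e, he, a1, a2, a3, a4, a5⟩ := hu1
      obtain ⟨e1, e2, e3, e4⟩ := hE e he
      obtain ⟨p1, p2, p3, p4⟩ := hPS i p hp
      have hcop : Nat.Coprime e p := by
        rw [Nat.coprime_comm, Nat.Prime.coprime_iff_not_dvd p1]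
        intro h
        have h5 : p ≤ D := Nat.le_of_dvd hD (h.trans e4)
        omega
      have hx1 : extv u x = w (n + x) := by rw [extv, dif_pos hx]
      have hx2 : extv u (x - e * p) = w (n + x - e * p) := by
        rw [extv, dif_pos (by omega), hu]
        simp only
        congr 1
        omega
      refine ⟨n + x, by omega, e * p, Finset.mem_image.2 ⟨(e, p), Finset.mem_product.2 ⟨he, hp⟩, rfl⟩,
        a1, hcop.mul_dvd_of_dvd_of_dvd a2 a3, by omega, ?_⟩
      rw [hx1, hx2] at a5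
      rw [a5, tgt, ArithmeticFunction.cardFactors_mul e2.ne_zero p1.ne_zero,
        ArithmeticFunction.cardFactors_apply_prime p1]
      push_cast
      ring

end Pool.Agent.H55.Odd
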