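import Pool.Agent.H41.Eis.Edges
import Pool.Agent.H41.Eis.Divisor

/-!
Eisenstein configurations: every squarefree `d` composed of primes
`≡ 1 (mod 3)` is the norm of an Eisenstein integer `δ d` dividing `a + b ρ` as soon as
`d ∣ a + b τ`, where `τ² - τ + 1 ≡ 0`.
-/

set_option autoImplicit false

namespace Pool.Agent.H55.Odd

open Pool.Agent.H41.Eis Finset

/-- A root of `x² - x + 1` modulo a prime `p ≡ 1 (mod 3)`. -/
lemma exists_root (p : ℕ) (hp : p.Prime) (hp3 : p % 3 = 1) : ∃ t : ℤ, (p:ℤ) ∣ t^2 - t + 1 := by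
  have : Fact p.Prime := ⟨hp⟩
  have : Fact (Nat.Prime 3) := ⟨Nat.prime_three⟩
  have hcard : 3 ∣ Fintype.card (ZMod p)ˣ := by
    rw [ZMod.card_units]
    have := hp.two_le
    omega
  obtain ⟨x, hx⟩ := exists_prime_orderOf_dvd_card 3 hcard
  have hx1 : x ≠ 1 := by
    intro h; rw [h, orderOf_one] at hx; norm_num at hx
  have hx3 : x^3 = 1 := by rw [← hx]; exact pow_orderOf_eq_one x
  have h1 : ((x : (ZMod p)ˣ) : ZMod p) - 1 ≠ 0 := by
    intro h
    exact hx1 (Units.ext (by simpa using sub_eq_zero.1 h))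
  have h2 : ((x : (ZMod p)ˣ) : ZMod p)^3 = 1 := by
    have := congrArg (fun u : (ZMod p)ˣ => (u : ZMod p)) hx3
    simpa using this
  have h3 : ((x : (ZMod p)ˣ) : ZMod p)^2 + x + 1 = 0 := by
    have : (((x : (ZMod p)ˣ) : ZMod p) - 1) * (((x : (ZMod p)ˣ) : ZMod p)^2 + x + 1) = 0 := by
      linear_combination h2
    exact (mul_eq_zero.1 this).resolve_left h1
  obtain ⟨t, ht⟩ := ZMod.intCast_surjective (-((x : (ZMod p)ˣ) : ZMod p))
  refine ⟨t, ?_⟩
  rw [← ZMod.intCast_zmod_eq_zero_iff_dvd]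
  push_cast
  rw [ht]
  linear_combination h3

/-- Chinese remainder theorem for the roots. -/
lemma exists_tau (S : Finset ℕ) (hS : ∀ p ∈ S, p.Prime ∧ p % 3 = 1) :
    ∃ t : ℤ, (3:ℤ) ∣ t + 1 ∧ ∀ p ∈ S, (p:ℤ) ∣ t^2 - t + 1 := by
  classical
  induction S using Finset.induction_on with
  | empty => exact ⟨-1, by norm_num, by simp⟩
  | insert p S hpS ih =>
    obtain ⟨t0, h0, h1⟩ := ih (fun q hq => hS q (Finset.mem_insert_of_mem hq))
    obtain ⟨hp, hp3⟩ := hS p (Finset.mem_insert_self _ _)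
    obtain ⟨ρ, hρ⟩ := exists_root p hp hp3
    set N : ℕ := 3 * ∏ q ∈ S, q with hN
    have hcop : Nat.Coprime N p := by
      rw [hN]
      refine Nat.Coprime.mul_left ?_ ?_
      · rw [Nat.coprime_primes Nat.prime_three hp]; intro h; rw [← h] at hp3; norm_num at hp3
      · refine Nat.Coprime.prod_left fun q hq => ?_
        rw [Nat.coprime_primes (hS q (Finset.mem_insert_of_mem hq)).1 hp]
        rintro rfl; exact hpS hq
    obtain ⟨u, v, huv⟩ := Nat.isCoprime_iff_coprime.2 hcop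
    -- `u N + v p = 1`
    set t : ℤ := t0 * (v * p) + ρ * (u * N) with ht
    have ht0 : (N:ℤ) ∣ t - t0 := by
      refine ⟨u * (ρ - t0), ?_⟩
      rw [ht]; linear_combination t0 * huv
    have htρ : (p:ℤ) ∣ t - ρ := by
      refine ⟨v * (t0 - ρ), ?_⟩
      rw [ht]; linear_combination ρ * huv
    have key : ∀ (n s : ℤ), n ∣ t - s → n ∣ s^2 - s + 1 → n ∣ t^2 - t + 1 := by
      intro n s ha hb
      have : t^2 - t + 1 = (t - s) * (t + s - 1) + (s^2 - s + 1) := by ring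
      rw [this]
      exact dvd_add (ha.mul_right _) hb
    refine ⟨t, ?_, ?_⟩
    · have h3 : (3:ℤ) ∣ t - t0 := by
        refine dvd_trans ?_ ht0
        rw [hN]; push_cast; exact Dvd.intro _ rfl
      have : t + 1 = (t - t0) + (t0 + 1) := by ring
      rw [this]; exact dvd_add h3 h0
    · intro q hq
      rcases Finset.mem_insert.1 hq with rfl | hq
      · exact key _ ρ htρ hρ
      · refine key _ t0 (dvd_trans ?_ ht0) (h1 q hq)
        have : q ∣ N := by rw [hN]; exact (Finset.dvd_prod_of_mem _ hq).mul_left 3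
        exact_mod_cast this

/-- Thue's lemma: a prime dividing `τ² - τ + 1` is the norm of an Eisenstein integer. -/
lemma exists_delta_prime (p : ℕ) (hp : p.Prime) (hp3 : p % 3 = 1) (t : ℤ)
    (ht : (p:ℤ) ∣ t^2 - t + 1) : ∃ δ : ℤ × ℤ, nrm δ = p ∧ (p:ℤ) ∣ δ.1 + δ.2 * t := by
  classical
  have : Fact p.Prime := ⟨hp⟩
  have : NeZero p := ⟨hp.ne_zero⟩
  set s : ℕ := Nat.sqrt p with hs
  have hs1 : s * s ≤ p := Nat.sqrt_le p
  have hs2 : p < (s+1) * (s+1) := Nat.lt_succ_sqrt p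
  have hs3 : s * s ≠ p := by
    intro h
    have h1 : s ∣ p := ⟨s, h.symm⟩
    rcases (Nat.dvd_prime hp).1 h1 with h2 | h2
    · rw [h2] at h; have := hp.two_le; omega
    · rw [h2] at h
      have := hp.two_le
      nlinarith
  have hs4 : s * s < p := lt_of_le_of_ne hs1 hs3
  -- pigeonhole
  obtain ⟨x, hx, y, hy, hxy, he⟩ := Finset.exists_ne_map_eq_of_card_lt_of_maps_to
    (s := (Finset.range (s+1)) ×ˢ (Finset.range (s+1))) (t := (Finset.univ : Finset (ZMod p)))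
    (f := fun x : ℕ × ℕ => (x.1 : ZMod p) + (x.2 : ZMod p) * ((t : ℤ) : ZMod p))
    (by rw [Finset.card_product, Finset.card_range, Finset.card_univ, ZMod.card]; exact hs2)
    (by intro x _; exact Finset.mem_coe.2 (Finset.mem_univ _))
  obtain ⟨hx1, hx2⟩ := Finset.mem_product.1 hx
  obtain ⟨hy1, hy2⟩ := Finset.mem_product.1 hy
  rw [Finset.mem_range] at hx1 hx2 hy1 hy2
  set a : ℤ := (x.1:ℤ) - y.1 with ha
  set b : ℤ := (x.2:ℤ) - y.2 with hb
  have hdiv : (p:ℤ) ∣ a + b * t := by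
    rw [← ZMod.intCast_zmod_eq_zero_iff_dvd]
    rw [ha, hb]
    push_cast
    linear_combination he
  have hab : (a, b) ≠ (0:ℤ × ℤ) := by
    intro h
    have h1 : a = 0 := congrArg Prod.fst h
    have h2 : b = 0 := congrArg Prod.snd h
    apply hxy
    refine Prod.ext ?_ ?_
    · have : (x.1:ℤ) = y.1 := by rw [ha] at h1; linarith
      exact_mod_cast this
    · have : (x.2:ℤ) = y.2 := by rw [hb] at h2; linarith
      exact_mod_cast this
  have ha' : |a| ≤ s := by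
    rw [abs_le, ha]; constructor <;> omega
  have hb' : |b| ≤ s := by
    rw [abs_le, hb]; constructor <;> omega
  have hnpos := nrm_pos hab
  have hndiv : (p:ℤ) ∣ nrm (a, b) := by
    have : nrm (a, b) = (a + b * t) * (a + b - b * t) + b^2 * (t^2 - t + 1) := by
      simp only [nrm]; ring
    rw [this]
    exact dvd_add (hdiv.mul_right _) (ht.mul_left _)
  have hs4' : (s:ℤ) * s < p := by exact_mod_cast hs4
  have hnlt : nrm (a, b) < 3 * p := by
    have h1 : a^2 ≤ (s:ℤ)^2 := sq_le_sq' (abs_le.1 ha').1 (abs_le.1 ha').2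
    have h2 : b^2 ≤ (s:ℤ)^2 := sq_le_sq' (abs_le.1 hb').1 (abs_le.1 hb').2
    simp only [nrm]
    nlinarith [sq_nonneg (a - b)]
  obtain ⟨q, hq⟩ := hndiv
  have hp0 : (0:ℤ) < p := by exact_mod_cast hp.pos
  have hq0 : 0 < q := by
    by_contra h
    push Not at h
    rw [hq] at hnpos
    nlinarith
  have hq3 : q < 3 := by
    by_contra h
    push Not at h
    rw [hq] at hnlt
    nlinarith
  have hq12 : q = 1 ∨ q = 2 := by omega
  rcases hq12 with h | h
  · refine ⟨(a, b), ?_, hdiv⟩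
    rw [hq, h, mul_one]
  · exfalso
    rw [h] at hq
    simp only [nrm] at hq
    -- parity
    have hpodd : p % 2 = 1 := by
      rcases hp.eq_two_or_odd with h2 | h2
      · rw [h2] at hp3; norm_num at hp3
      · exact h2
    obtain ⟨p', hp'⟩ : ∃ p' : ℤ, (p:ℤ) = 2 * p' + 1 := ⟨p / 2, by omega⟩
    rw [hp'] at hq
    have h4 : (a^2 + a * b + b^2) % 4 = 2 := by rw [hq]; omega
    obtain ⟨a', ha2⟩ : ∃ a', a = 2 * a' ∨ a = 2 * a' + 1 := ⟨a / 2, by omega⟩
    obtain ⟨b', hb2⟩ : ∃ b', b = 2 * b' ∨ b = 2 * b' + 1 := ⟨b / 2, by omega⟩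
    rcases ha2 with h5 | h5 <;> rcases hb2 with h6 | h6
    · rw [h5, h6] at h4
      have : (2*a')^2 + (2*a') * (2*b') + (2*b')^2 = 4 * (a'^2 + a'*b' + b'^2) := by ring
      omega
    · rw [h5, h6] at h4
      have : (2*a')^2 + (2*a') * (2*b'+1) + (2*b'+1)^2 =
        2 * (2*a'^2 + 2*a'*b' + a' + 2*b'^2 + 2*b') + 1 := by ring
      omega
    · rw [h5, h6] at h4
      have : (2*a'+1)^2 + (2*a'+1) * (2*b') + (2*b')^2 =
        2 * (2*a'^2 + 2*a' + 2*a'*b' + b' + 2*b'^2) + 1 := by ring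
      omega
    · rw [h5, h6] at h4
      have : (2*a'+1)^2 + (2*a'+1) * (2*b'+1) + (2*b'+1)^2 =
        2 * (2*a'^2 + 2*a' + 2*a'*b' + a' + b' + 2*b'^2 + 2*b' + 1) + 1 := by ring
      omega

/-- Squarefree numbers composed of good primes. -/
lemma exists_delta (S : Finset ℕ) (hS : ∀ p ∈ S, p.Prime ∧ p % 3 = 1) (t : ℤ)
    (ht : ∀ p ∈ S, (p:ℤ) ∣ t^2 - t + 1) :
    ∀ d : ℕ, Squarefree d → (∀ p, p.Prime → p ∣ d → p ∈ S) →
      ∃ δ : ℤ × ℤ, nrm δ = d ∧ (d:ℤ) ∣ δ.1 + δ.2 * t ∧ (d:ℤ) ∣ t^2 - t + 1 := by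
  intro d
  induction d using induction_on_primes with
  | zero => intro h; exact absurd h not_squarefree_zero
  | one => intro _ _; exact ⟨(1, 0), by simp [nrm], by simp, by simp⟩
  | prime_mul p a hp ih =>
    intro hsq hd
    obtain ⟨hcop, -, hsa⟩ := Nat.squarefree_mul_iff.1 hsq
    obtain ⟨δ, h1, h2, h3⟩ := ih hsa (fun q hq hqa => hd q hq (hqa.mul_left p))
    have hpS := hd p hp (Dvd.intro _ rfl)
    obtain ⟨ε, g1, g2⟩ := exists_delta_prime p hp (hS p hpS).2 t (ht p hpS)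
    have h4 : ((p * a : ℕ) : ℤ) ∣ t^2 - t + 1 := by
      push_cast
      exact IsCoprime.mul_dvd (Nat.isCoprime_iff_coprime.2 hcop) (ht p hpS) h3
    refine ⟨emul ε δ, ?_, ?_, h4⟩
    · rw [nrm_emul, g1, h1]; push_cast; rfl
    · have e : (emul ε δ).1 + (emul ε δ).2 * t =
          (ε.1 + ε.2 * t) * (δ.1 + δ.2 * t) - ε.2 * δ.2 * (t^2 - t + 1) := by
        simp only [emul]; ring
      rw [e]
      refine dvd_sub ?_ (h4.mul_left _)
      push_cast
      exact mul_dvd_mul g2 h2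

/-- An Eisenstein configuration for the residue `r` modulo `m`. -/
structure Cfg {m : ℕ} (r : ZMod m) where
  K : ℕ
  DS : Finset ℕ
  m3 : ℕ
  tau : ℤ
  δ : ℕ → ℤ × ℤ
  m3_pos : 0 < m3
  three : 3 ∣ m3
  tau3 : (3:ℤ) ∣ tau + 1
  dpos : ∀ d ∈ DS, 0 < d
  dnrm : ∀ d ∈ DS, nrm (δ d) = d
  ddiv : ∀ d ∈ DS, (d:ℤ) ∣ (δ d).1 + (δ d).2 * tau
  dtau : ∀ d ∈ DS, (d:ℤ) ∣ tau^2 - tau + 1
  dm3 : ∀ d ∈ DS, d ∣ m3
  d3 : ∀ d ∈ DS, ¬ 3 ∣ d
  cert : ∀ w : ℕ → ZMod m, ∃ y < K, ∃ d ∈ DS, 3 ∣ y ∧ d ∣ y ∧ d ≤ y ∧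
    w y + w (y - d) = r + 1 + 2 * (ArithmeticFunction.cardFactors d : ZMod m)


end Pool.Agent.H55.Odd
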