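import Pool.Agent.H55.Odd.Certificate
import Pool.Agent.H55.Odd.CfgBase

/-!
From the finite certificate to an Eisenstein configuration.
-/

set_option autoImplicit false

namespace Pool.Agent.H55.Odd

open Pool.Agent.H41.Eis Finset

theorem exists_cfg {m : ℕ} [NeZero m] (hm : Odd m) (r : ZMod m) : Nonempty (Cfg r) := by
  classical
  obtain ⟨K, DS, hDS, hcert⟩ := certificate hm (r + 1)
  set S : Finset ℕ := DS.biUnion (fun d => d.primeFactors) with hS
  have hSp : ∀ p ∈ S, p.Prime ∧ p % 3 = 1 := by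
    intro p hp
    obtain ⟨d, hd, hpd⟩ := Finset.mem_biUnion.1 hp
    have hp1 := Nat.prime_of_mem_primeFactors hpd
    exact ⟨hp1, (hDS d hd).2.2 p hp1 (Nat.dvd_of_mem_primeFactors hpd)⟩
  obtain ⟨t, ht3, ht⟩ := exists_tau S hSp
  have hmem : ∀ d ∈ DS, ∀ p, p.Prime → p ∣ d → p ∈ S := by
    intro d hd p hp hpd
    refine Finset.mem_biUnion.2 ⟨d, hd, ?_⟩
    exact Nat.mem_primeFactors.2 ⟨hp, hpd, (hDS d hd).1.ne'⟩
  have hδ : ∀ d : ℕ, ∃ δ : ℤ × ℤ, d ∈ DS →
      (nrm δ = d ∧ (d:ℤ) ∣ δ.1 + δ.2 * t ∧ (d:ℤ) ∣ t^2 - t + 1) := by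
    intro d
    by_cases hd : d ∈ DS
    · obtain ⟨δ, h⟩ := exists_delta S hSp t ht d (hDS d hd).2.1 (hmem d hd)
      exact ⟨δ, fun _ => h⟩
    · exact ⟨0, fun h => absurd h hd⟩
  choose δ hδ using hδ
  refine ⟨{ K := K, DS := DS, m3 := 3 * ∏ p ∈ S, p, tau := t, δ := δ, m3_pos := ?_,
            three := ?_, tau3 := ht3, dpos := fun d hd => (hDS d hd).1,
            dnrm := fun d hd => (hδ d hd).1, ddiv := fun d hd => (hδ d hd).2.1,
            dtau := fun d hd => (hδ d hd).2.2, dm3 := ?_, d3 := ?_, cert := ?_ }⟩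
  · exact Nat.mul_pos (by norm_num) (Finset.prod_pos fun p hp => (hSp p hp).1.pos)
  · exact Dvd.intro _ rfl
  · intro d hd
    refine Dvd.dvd.mul_left ?_ 3
    rw [← Nat.prod_primeFactors_of_squarefree (hDS d hd).2.1]
    exact Finset.prod_dvd_prod_of_subset _ _ _ (Finset.subset_biUnion_of_mem (fun d => d.primeFactors) hd)
  · intro d hd h3
    have := (hDS d hd).2.2 3 Nat.prime_three h3
    norm_num at this
  · exact hcert

end Pool.Agent.H55.Odd
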