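import Mathlib

/-!
Fourier analysis on `ZMod H`: Parseval, and the inequality over a short window.
-/

set_option autoImplicit false
set_option linter.unusedSectionVars false

namespace Pool.Agent.H55.Odd

open Finset

variable {H : ℕ} [NeZero H]

/-- The standard additive character. -/
noncomputable abbrev ψ (x : ZMod H) : ℂ := ZMod.stdAddChar x

lemma psi_add (x y : ZMod H) : ψ (x + y) = ψ x * ψ y := AddChar.map_add_eq_mul _ _ _

lemma psi_zero : ψ (0 : ZMod H) = 1 := AddChar.map_zero_eq_one _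

lemma norm_psi (x : ZMod H) : ‖ψ x‖ = 1 := AddChar.norm_apply _ _

lemma psi_neg (x : ZMod H) : ψ (-x) = (starRingEnd ℂ) (ψ x) := AddChar.map_neg_eq_conj _ _

lemma sum_psi (b : ZMod H) : ∑ x : ZMod H, ψ (x * b) = if b = 0 then (H : ℂ) else 0 := by
  have := AddChar.sum_mulShift (R' := ℂ) (ψ := (ZMod.stdAddChar : AddChar (ZMod H) ℂ)) b
    (ZMod.isPrimitive_stdAddChar H)
  simpa [ZMod.card] using this

lemma psi_natCast (n : ℕ) : ψ ((n : ℕ) : ZMod H) = Complex.exp (2 * Real.pi * Complex.I * n / H) := by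
  have := ZMod.stdAddChar_coe (N := H) (n : ℤ)
  simpa using this

lemma psi_intCast (n : ℤ) : ψ ((n : ℤ) : ZMod H) = Complex.exp (2 * Real.pi * Complex.I * n / H) :=
  ZMod.stdAddChar_coe (N := H) n

/-- Normalised Fourier transform. -/
noncomputable def hat (f : ZMod H → ℂ) (α : ZMod H) : ℂ := (1 / (H : ℂ)) * ∑ x, f x * ψ (-(x * α))

lemma H_ne : (H : ℂ) ≠ 0 := by exact_mod_cast NeZero.ne H

lemma hat_inv (f : ZMod H → ℂ) (x : ZMod H) : ∑ α, hat f α * ψ (α * x) = f x := by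
  have h1 : ∀ α, hat f α * ψ (α * x) = (1 / (H : ℂ)) * ∑ y, f y * ψ (α * (x - y)) := by
    intro α
    rw [hat, mul_assoc, Finset.sum_mul]
    congr 1
    refine Finset.sum_congr rfl fun y _ => ?_
    rw [mul_assoc, ← psi_add]
    congr 2; ring
  rw [Finset.sum_congr rfl fun α _ => h1 α, ← Finset.mul_sum, Finset.sum_comm]
  have h2 : ∀ y, ∑ α, f y * ψ (α * (x - y)) = if y = x then (H : ℂ) * f y else 0 := by
    intro y
    rw [← Finset.mul_sum, sum_psi]
    by_cases h : y = x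
    · simp [h, mul_comm]
    · rw [if_neg (sub_ne_zero.2 (Ne.symm h)), if_neg h, mul_zero]
  rw [Finset.sum_congr rfl fun y _ => h2 y, Finset.sum_ite_eq' Finset.univ x]
  simp only [Finset.mem_univ, if_true]
  rw [← mul_assoc, one_div, inv_mul_cancel₀ H_ne, one_mul]

/-- Parseval for trigonometric sums. -/
lemma gram (c : ZMod H → ℂ) :
    ∑ n : ZMod H, ‖∑ φ, c φ * ψ (φ * n)‖ ^ 2 = H * ∑ φ, ‖c φ‖ ^ 2 := by
  have h1 : ∀ n : ZMod H, ((‖∑ φ, c φ * ψ (φ * n)‖ ^ 2 : ℝ) : ℂ) =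
      ∑ φ, ∑ φ', c φ * (starRingEnd ℂ) (c φ') * ψ (n * (φ - φ')) := by
    intro n
    rw [← Complex.normSq_eq_norm_sq, ← Complex.mul_conj, map_sum, Finset.sum_mul_sum]
    refine Finset.sum_congr rfl fun φ _ => Finset.sum_congr rfl fun φ' _ => ?_
    rw [map_mul, ← psi_neg]
    rw [show c φ * ψ (φ * n) * ((starRingEnd ℂ) (c φ') * ψ (-(φ' * n))) =
      c φ * (starRingEnd ℂ) (c φ') * (ψ (φ * n) * ψ (-(φ' * n))) by ring, ← psi_add]
    congr 2; ring
  have h2 : ((∑ n : ZMod H, ‖∑ φ, c φ * ψ (φ * n)‖ ^ 2 : ℝ) : ℂ) = ((H * ∑ φ, ‖c φ‖ ^ 2 : ℝ) : ℂ) := by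
    rw [Complex.ofReal_sum, Finset.sum_congr rfl fun n _ => h1 n, Finset.sum_comm]
    push_cast
    rw [Finset.mul_sum]
    refine Finset.sum_congr rfl fun φ _ => ?_
    rw [Finset.sum_comm]
    have h3 : ∀ φ', ∑ n : ZMod H, c φ * (starRingEnd ℂ) (c φ') * ψ (n * (φ - φ')) =
        if φ' = φ then (H : ℂ) * (c φ * (starRingEnd ℂ) (c φ')) else 0 := by
      intro φ'
      rw [← Finset.mul_sum, sum_psi]
      by_cases h : φ' = φ
      · simp [h, mul_comm]
      · rw [if_neg (sub_ne_zero.2 (Ne.symm h)), if_neg h, mul_zero]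
    rw [Finset.sum_congr rfl fun φ' _ => h3 φ', Finset.sum_ite_eq' Finset.univ φ]
    simp only [Finset.mem_univ, if_true]
    rw [Complex.mul_conj, Complex.normSq_eq_norm_sq]
    push_cast; ring
  exact_mod_cast h2

/-- Parseval for `hat`. -/
lemma parseval (f : ZMod H → ℂ) : (H : ℝ) * ∑ α, ‖hat f α‖ ^ 2 = ∑ x, ‖f x‖ ^ 2 := by
  rw [← gram (hat f)]
  exact Finset.sum_congr rfl fun x _ => by rw [hat_inv]

/-- The kernel is bounded below on a short window. -/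
lemma kernel_lower (k n : ℕ) (hk : 1 ≤ k) (hn : 8 * k * n ≤ H) :
    (1/2 : ℝ) ≤ ‖(1 / (k:ℂ)) * ∑ j ∈ range k, ψ ((j : ZMod H) * (n : ZMod H))‖ ^ 2 := by
  have hH : (0:ℝ) < H := by exact_mod_cast Nat.pos_of_ne_zero (NeZero.ne H)
  have hk' : (0:ℝ) < k := by exact_mod_cast hk
  have h1 : ∀ j ∈ range k, (Real.sqrt 2 / 2 : ℝ) ≤ (ψ ((j : ZMod H) * (n : ZMod H))).re := by
    intro j hj
    have hj' := Finset.mem_range.1 hj
    have e1 : ψ ((j : ZMod H) * (n : ZMod H)) = Complex.exp ((2 * Real.pi * (j * n / H) : ℝ) * Complex.I) := by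
      have := psi_natCast (H := H) (j * n)
      push_cast at this
      rw [this]; congr 1; push_cast; ring
    rw [e1, Complex.exp_ofReal_mul_I_re]
    rw [← Real.cos_pi_div_four]
    apply Real.cos_le_cos_of_nonneg_of_le_pi
    · positivity
    · nlinarith [Real.pi_pos]
    · have h2 : ((j:ℝ) * n / H) ≤ 1/8 := by
        rw [div_le_iff₀ hH]
        have h3 : 8 * j * n ≤ H := le_trans (by gcongr) hn
        have h4 : (8:ℝ) * j * n ≤ H := by exact_mod_cast h3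
        linarith
      nlinarith [Real.pi_pos]
  have h2 : (Real.sqrt 2 / 2 : ℝ) ≤ ((1 / (k:ℂ)) * ∑ j ∈ range k, ψ ((j : ZMod H) * (n : ZMod H))).re := by
    have e2 : ((1 / (k:ℂ)) * ∑ j ∈ range k, ψ ((j : ZMod H) * (n : ZMod H))).re =
        (1/k) * ∑ j ∈ range k, (ψ ((j : ZMod H) * (n : ZMod H))).re := by
      rw [← Complex.re_sum, show (1 / (k:ℂ)) = ((1 / k : ℝ) : ℂ) by push_cast; ring, Complex.re_ofReal_mul]
    rw [e2]
    have h3 := Finset.sum_le_sum h1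
    rw [Finset.sum_const, Finset.card_range, nsmul_eq_mul] at h3
    rw [div_mul_eq_mul_div, one_mul, le_div_iff₀ hk']
    linarith
  have h3 := h2.trans (Complex.re_le_norm _)
  have h4 : (Real.sqrt 2 / 2)^2 = 1/2 := by
    rw [div_pow, Real.sq_sqrt (by norm_num)]; norm_num
  rw [← h4]
  exact pow_le_pow_left₀ (by positivity) h3 2

/-- The inequality over a short window. -/
lemma window (c : ZMod H → ℂ) (N k : ℕ) (hk : 1 ≤ k) (h16 : 16 * k * N ≤ H) :
    ∑ n ∈ Ioc N (2 * N), ‖∑ φ : ZMod H, c φ * ψ (φ * (n : ZMod H))‖ ^ 2 ≤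
      (2 * H / k ^ 2 : ℝ) * ∑ φ : ZMod H, (∑ j ∈ range k, ‖c (φ - (j : ZMod H))‖) ^ 2 := by
  have hH : (0:ℝ) < H := by exact_mod_cast Nat.pos_of_ne_zero (NeZero.ne H)
  have hk' : (0:ℝ) < k := by exact_mod_cast hk
  set F : ZMod H → ℂ := fun n => ∑ φ : ZMod H, c φ * ψ (φ * n) with hF
  set κ : ZMod H → ℂ := fun n => (1 / (k:ℂ)) * ∑ j ∈ range k, ψ ((j : ZMod H) * n) with hκ
  set d : ZMod H → ℂ := fun φ => (1 / (k:ℂ)) * ∑ j ∈ range k, c (φ - (j : ZMod H)) with hd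
  -- product formula
  have h1 : ∀ n, κ n * F n = ∑ φ : ZMod H, d φ * ψ (φ * n) := by
    intro n
    have e1 : ∀ j ∈ range k, ψ ((j : ZMod H) * n) * F n =
        ∑ φ : ZMod H, c (φ - (j : ZMod H)) * ψ (φ * n) := by
      intro j _
      rw [hF]
      simp only
      rw [Finset.mul_sum]
      refine (Fintype.sum_equiv (Equiv.addRight (j : ZMod H)) _ _ fun φ => ?_)
      simp only [Equiv.coe_addRight, add_sub_cancel_right]
      rw [add_mul, psi_add]; ring
    rw [hκ]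
    simp only
    rw [mul_assoc, Finset.sum_mul, Finset.sum_congr rfl e1, Finset.sum_comm, Finset.mul_sum]
    refine Finset.sum_congr rfl fun φ _ => ?_
    rw [hd]
    simp only
    rw [← Finset.sum_mul]; ring
  -- lower bound for the kernel
  have h2 : ∀ n ∈ Ioc N (2*N), ‖F (n : ZMod H)‖^2 ≤ 2 * ‖κ (n : ZMod H) * F (n : ZMod H)‖^2 := by
    intro n hn
    obtain ⟨_, hn2⟩ := Finset.mem_Ioc.1 hn
    have := kernel_lower (H := H) k n hk (by nlinarith)
    rw [norm_mul, mul_pow]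
    have h0 : 0 ≤ ‖F (n : ZMod H)‖^2 := by positivity
    nlinarith
  refine (Finset.sum_le_sum h2).trans ?_
  rw [← Finset.mul_sum]
  have h3 : ∑ n ∈ Ioc N (2*N), ‖κ (n : ZMod H) * F (n : ZMod H)‖^2 ≤
      ∑ n : ZMod H, ‖κ n * F n‖^2 := by
    have hinj : Set.InjOn (fun n : ℕ => (n : ZMod H)) (Ioc N (2*N) : Finset ℕ) := by
      intro x hx y hy hxy
      have hx' := Finset.mem_Ioc.1 (Finset.mem_coe.1 hx)
      have hy' := Finset.mem_Ioc.1 (Finset.mem_coe.1 hy)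
      simp only at hxy
      rw [ZMod.natCast_eq_natCast_iff] at hxy
      have : 16 * N ≤ H := le_trans (by nlinarith) h16
      exact Nat.ModEq.eq_of_lt_of_lt hxy (by omega) (by omega)
    rw [← Finset.sum_image (f := fun z : ZMod H => ‖κ z * F z‖^2) hinj]
    exact Finset.sum_le_sum_of_subset_of_nonneg (Finset.subset_univ _) (fun _ _ _ => by positivity)
  have h4 : ∑ n : ZMod H, ‖κ n * F n‖^2 = H * ∑ φ, ‖d φ‖^2 := by
    rw [← gram d]
    exact Finset.sum_congr rfl fun n _ => by rw [h1]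
  have h5 : ∀ φ, ‖d φ‖^2 ≤ (1/k^2 : ℝ) * (∑ j ∈ range k, ‖c (φ - (j : ZMod H))‖)^2 := by
    intro φ
    have : ‖d φ‖ ≤ (1/k : ℝ) * ∑ j ∈ range k, ‖c (φ - (j : ZMod H))‖ := by
      rw [hd]
      simp only
      rw [norm_mul]
      refine mul_le_mul (le_of_eq ?_) (norm_sum_le _ _) (norm_nonneg _) (by positivity)
      simp
    calc ‖d φ‖^2 ≤ ((1/k : ℝ) * ∑ j ∈ range k, ‖c (φ - (j : ZMod H))‖)^2 :=
          pow_le_pow_left₀ (norm_nonneg _) this 2
      _ = _ := by rw [mul_pow]; ring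
  calc 2 * ∑ n ∈ Ioc N (2*N), ‖κ (n : ZMod H) * F (n : ZMod H)‖^2
      ≤ 2 * (H * ∑ φ, (1/k^2 : ℝ) * (∑ j ∈ range k, ‖c (φ - (j : ZMod H))‖)^2) := by
        rw [h4] at h3
        have := Finset.sum_le_sum (fun φ (_ : φ ∈ (Finset.univ : Finset (ZMod H))) => h5 φ)
        have h6 := mul_le_mul_of_nonneg_left this hH.le
        linarith
    _ = _ := by rw [← Finset.mul_sum]; ring

end Pool.Agent.H55.Odd
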