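import Pool.Agent.H55.Odd.Ops
import Pool.Agent.H55.Odd.Fourier

/-!
Residue classes in `ZMod H` and their Fourier analysis.
-/

set_option autoImplicit false
set_option linter.unusedSectionVars false

namespace Pool.Agent.H55.Odd

open Finset

variable {H : ℕ} [NeZero H]

/-- Indicator of the class `e ∣ a + x`. -/
noncomputable def ind (a e : ℕ) (x : ZMod H) : ℝ := if e ∣ a + x.val then 1 else 0

lemma ind_nonneg (a e : ℕ) (x : ZMod H) : 0 ≤ ind a e x := by
  unfold ind; split_ifs <;> norm_num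

lemma ind_le_one (a e : ℕ) (x : ZMod H) : ind a e x ≤ 1 := by
  unfold ind; split_ifs <;> norm_num

lemma ind_sq (a e : ℕ) (x : ZMod H) : ind a e x ^ 2 = ind a e x := by
  unfold ind; split_ifs <;> norm_num

lemma dvd_iff {e : ℕ} (he : e ∣ H) (a : ℕ) (x : ZMod H) :
    e ∣ a + x.val ↔ (a : ZMod e) + ZMod.castHom he (ZMod e) x = 0 := by
  rw [ZMod.castHom_apply, ZMod.cast_eq_val]
  rw [← Nat.cast_add, ZMod.natCast_eq_zero_iff]

lemma dvd_add_iff {e : ℕ} (he : e ∣ H) (a t : ℕ) (x : ZMod H) :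
    e ∣ a + (x + (t : ZMod H)).val ↔ e ∣ a + x.val + t := by
  rw [dvd_iff he, map_add, map_natCast, ZMod.castHom_apply, ZMod.cast_eq_val,
    ← Nat.cast_add, ← Nat.cast_add, ZMod.natCast_eq_zero_iff, add_assoc]

lemma ind_add {e : ℕ} (he : e ∣ H) (a t : ℕ) (x : ZMod H) :
    ind a e (x + (t : ZMod H)) = if e ∣ a + x.val + t then 1 else 0 := by
  unfold ind
  simp only [dvd_add_iff he]

lemma ind_shift {e : ℕ} (he : e ∣ H) (a t : ℕ) (ht : e ∣ t) (x : ZMod H) :
    ind a e (x + (t : ZMod H)) = ind a e x := by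
  rw [ind_add he, ind]
  simp only [Nat.dvd_add_left ht]

lemma ind_shift_sub {e : ℕ} (he : e ∣ H) (a t : ℕ) (ht : e ∣ t) (x : ZMod H) :
    ind a e (x - (t : ZMod H)) = ind a e x := by
  rw [← ind_shift he a t ht (x - (t : ZMod H)), sub_add_cancel]

/-- The class indicator commutes with averages along multiples of its modulus. -/
lemma T_ind {e M : ℕ} (he : e ∣ H) (hM : e ∣ M) (a l : ℕ) (f : ZMod H → ℝ) (x : ZMod H) :
    T M l (fun y => ind a e y * f y) x = ind a e x * T M l f x := by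
  simp only [T]
  rw [mul_left_comm, Finset.mul_sum (a := ind a e x)]
  congr 1
  refine Finset.sum_congr rfl fun i _ => ?_
  rw [ind_shift he a _ (hM.mul_right i)]

lemma Ts_ind {e M : ℕ} (he : e ∣ H) (hM : e ∣ M) (a l : ℕ) (f : ZMod H → ℝ) (x : ZMod H) :
    Ts M l (fun y => ind a e y * f y) x = ind a e x * Ts M l f x := by
  simp only [Ts]
  rw [mul_left_comm, Finset.mul_sum (a := ind a e x)]
  congr 1
  refine Finset.sum_congr rfl fun i _ => ?_
  rw [ind_shift_sub he a _ (hM.mul_right i)]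

lemma P_ind {e M : ℕ} (he : e ∣ H) (hM : e ∣ M) (a l : ℕ) (f : ZMod H → ℝ) (x : ZMod H) :
    P M l (fun y => ind a e y * f y) x = ind a e x * P M l f x := by
  rw [P, P, ← Ts_ind he hM]
  congr 1
  funext y
  exact T_ind he hM a l f y

/-- Fourier expansion of the class indicator. -/
lemma ind_fourier {q : ℕ} (hq : q ∣ H) (a : ℕ) (x : ZMod H) :
    ((ind a q x : ℝ) : ℂ) = (1 / (q : ℂ)) * ∑ c ∈ range q,
      ψ (((c * (H / q) : ℕ) : ZMod H) * ((a : ZMod H) + x)) := by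
  have hH0 : H ≠ 0 := NeZero.ne H
  have hq0 : q ≠ 0 := by rintro rfl; exact hH0 (Nat.eq_zero_of_zero_dvd hq)
  set z : ZMod H := ((H / q : ℕ) : ZMod H) * ((a : ZMod H) + x) with hz
  have h1 : ∀ c ∈ range q, ψ (((c * (H / q) : ℕ) : ZMod H) * ((a : ZMod H) + x)) = (ψ z) ^ c := by
    intro c _
    rw [← AddChar.map_nsmul_eq_pow]
    congr 1
    rw [hz, nsmul_eq_mul]; push_cast; ring
  rw [Finset.sum_congr rfl h1]
  have hz0 : z = 0 ↔ q ∣ a + x.val := by
    have : z = (((H / q) * (a + x.val) : ℕ) : ZMod H) := by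
      rw [hz]; push_cast; rw [ZMod.natCast_zmod_val]
    rw [this, ZMod.natCast_eq_zero_iff]
    generalize a + x.val = y
    have hr0 : 0 < H / q := Nat.div_pos (Nat.le_of_dvd (Nat.pos_of_ne_zero hH0) hq)
      (Nat.pos_of_ne_zero hq0)
    have e1 : q * (H / q) = H := Nat.mul_div_cancel' hq
    generalize H / q = r at e1 hr0
    rw [← e1, mul_comm q r, Nat.mul_dvd_mul_iff_left hr0]
  have hpow : (ψ z) ^ q = 1 := by
    rw [← AddChar.map_nsmul_eq_pow]
    have : q • z = 0 := by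
      rw [hz, nsmul_eq_mul, ← mul_assoc, ← Nat.cast_mul, Nat.mul_div_cancel' hq, ZMod.natCast_self,
        zero_mul]
    rw [this, AddChar.map_zero_eq_one]
  have hqC : (q : ℂ) ≠ 0 := by exact_mod_cast hq0
  by_cases h : q ∣ a + x.val
  · rw [ind, if_pos h, hz0.2 h]
    simp [hqC]
  · rw [ind, if_neg h]
    have h1 : ψ z ≠ 1 := by
      intro h2
      have h3 : ψ z = ψ (0 : ZMod H) := by rw [h2, psi_zero]
      exact h (hz0.1 (ZMod.injective_stdAddChar h3))
    rw [geom_sum_eq h1, hpow]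
    simp

/-- Fourier transform of a real function. -/
noncomputable def hatR (f : ZMod H → ℝ) (α : ZMod H) : ℂ := hat (fun x => (f x : ℂ)) α

lemma hatR_neg (f : ZMod H → ℝ) (α : ZMod H) : hatR f (-α) = (starRingEnd ℂ) (hatR f α) := by
  simp only [hatR, hat, map_mul, map_sum, Complex.conj_ofReal, map_div₀, map_one, map_natCast]
  congr 1
  refine Finset.sum_congr rfl fun x _ => ?_
  rw [← psi_neg]
  congr 2; ring

lemma norm_hatR_neg (f : ZMod H → ℝ) (α : ZMod H) : ‖hatR f (-α)‖ = ‖hatR f α‖ := by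
  rw [hatR_neg, Complex.norm_conj]

lemma parsevalR (f : ZMod H → ℝ) : ∑ α, ‖hatR f α‖ ^ 2 = mean (fun x => f x ^ 2) := by
  have h := parseval (fun x => (f x : ℂ))
  have hH := HR_pos (H := H)
  rw [mean]
  have e : ∑ x, ‖((f x : ℝ) : ℂ)‖ ^ 2 = ∑ x, f x ^ 2 := by
    refine Finset.sum_congr rfl fun x _ => ?_
    rw [Complex.norm_real, Real.norm_eq_abs, sq_abs]
  rw [e] at h
  rw [← h]
  simp only [hatR]
  field_simp

/-- The transform of a class restriction, in terms of the transform on a larger class. -/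
lemma hat_class {s q : ℕ} (hq : q ∣ H) (hcop : ∀ x : ZMod H, ∀ a : ℕ, ind a (s * q) x = ind a s x * ind a q x)
    (a : ℕ) (f : ZMod H → ℝ) (α : ZMod H) :
    ‖hatR (fun x => ind a (s * q) x * f x) α‖ ^ 2 ≤
      (1 / (q : ℝ)) * ∑ c ∈ range q, ‖hatR (fun x => ind a s x * f x) (α - ((c * (H / q) : ℕ) : ZMod H))‖ ^ 2 := by
  have hH0 : H ≠ 0 := NeZero.ne H
  have hq0 : q ≠ 0 := by rintro rfl; exact hH0 (Nat.eq_zero_of_zero_dvd hq)
  have h1 : hatR (fun x => ind a (s * q) x * f x) α = (1 / (q : ℂ)) * ∑ c ∈ range q,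
      ψ (((c * (H / q) : ℕ) : ZMod H) * (a : ZMod H)) *
        hatR (fun x => ind a s x * f x) (α - ((c * (H / q) : ℕ) : ZMod H)) := by
    simp only [hatR, hat]
    have e1 : ∀ x : ZMod H, ((ind a (s * q) x * f x : ℝ) : ℂ) * ψ (-(x * α)) =
        (1 / (q:ℂ)) * ∑ c ∈ range q, ψ (((c * (H / q) : ℕ) : ZMod H) * (a : ZMod H)) *
          (((ind a s x * f x : ℝ) : ℂ) * ψ (-(x * (α - ((c * (H / q) : ℕ) : ZMod H))))) := by
      intro x
      rw [hcop]
      rw [show ((ind a s x * ind a q x * f x : ℝ) : ℂ) = ((ind a q x : ℝ) : ℂ) * ((ind a s x * f x : ℝ) : ℂ) by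
        push_cast; ring]
      rw [ind_fourier hq, mul_assoc, mul_assoc, Finset.sum_mul]
      congr 1
      refine Finset.sum_congr rfl fun c _ => ?_
      rw [show ψ (((c * (H / q) : ℕ) : ZMod H) * (a : ZMod H)) * (((ind a s x * f x : ℝ) : ℂ) *
        ψ (-(x * (α - ((c * (H / q) : ℕ) : ZMod H))))) = ((ind a s x * f x : ℝ) : ℂ) *
        (ψ (((c * (H / q) : ℕ) : ZMod H) * (a : ZMod H)) *
        ψ (-(x * (α - ((c * (H / q) : ℕ) : ZMod H))))) by ring]
      rw [← psi_add, mul_comm (ψ (((c * (H / q) : ℕ) : ZMod H) * ((a : ZMod H) + x))), mul_assoc, ← psi_add]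
      congr 2; ring
    rw [Finset.sum_congr rfl fun x _ => e1 x, ← Finset.mul_sum, Finset.sum_comm, mul_left_comm,
      Finset.mul_sum]
    congr 1
    refine Finset.sum_congr rfl fun c _ => ?_
    rw [← Finset.mul_sum, mul_left_comm]
  have h2 : ‖hatR (fun x => ind a (s * q) x * f x) α‖ ≤ (1 / (q:ℝ)) * ∑ c ∈ range q,
      ‖hatR (fun x => ind a s x * f x) (α - ((c * (H / q) : ℕ) : ZMod H))‖ := by
    rw [h1, norm_mul]
    refine mul_le_mul (le_of_eq (by simp)) ?_ (norm_nonneg _) (by positivity)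
    refine (norm_sum_le _ _).trans (Finset.sum_le_sum fun c _ => ?_)
    rw [norm_mul, norm_psi, one_mul]
  exact (pow_le_pow_left₀ (norm_nonneg _) h2 2).trans (avg_sq_le _)

lemma ind_mul {s q : ℕ} (hsq : Nat.Coprime s q) (a : ℕ) (x : ZMod H) :
    ind a (s * q) x = ind a s x * ind a q x := by
  unfold ind
  have : s * q ∣ a + x.val ↔ s ∣ a + x.val ∧ q ∣ a + x.val :=
    ⟨fun h => ⟨(Dvd.intro _ rfl).trans h, (Dvd.intro_left _ rfl).trans h⟩,
      fun h => hsq.mul_dvd_of_dvd_of_dvd h.1 h.2⟩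
  simp only [this]
  split_ifs <;> simp_all

lemma ind_mul_lcm (d e : ℕ) (a : ℕ) (x : ZMod H) :
    ind a d x * ind a e x = ind a (Nat.lcm d e) x := by
  unfold ind
  simp only [Nat.lcm_dvd_iff]
  split_ifs <;> simp_all

/-- Density of a class. -/
lemma mean_ind {q : ℕ} (hq : q ∣ H) (a : ℕ) : mean (fun x : ZMod H => ind a q x) = 1 / q := by
  have hH0 : H ≠ 0 := NeZero.ne H
  have hq0 : q ≠ 0 := by rintro rfl; exact hH0 (Nat.eq_zero_of_zero_dvd hq)
  have hH := HR_pos (H := H)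
  have hqH : 0 < H / q := Nat.div_pos (Nat.le_of_dvd (Nat.pos_of_ne_zero hH0) hq) (Nat.pos_of_ne_zero hq0)
  have h1 : ∑ x : ZMod H, ((ind a q x : ℝ) : ℂ) = (H : ℂ) / q := by
    rw [Finset.sum_congr rfl fun x _ => ind_fourier hq a x, ← Finset.mul_sum, Finset.sum_comm]
    rw [Finset.sum_eq_single 0]
    · simp [ZMod.card]
      ring
    · intro c hc hc0
      have hcq := Finset.mem_range.1 hc
      have e1 : ∀ x : ZMod H, ψ (((c * (H / q) : ℕ) : ZMod H) * ((a : ZMod H) + x)) =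
          ψ (((c * (H / q) : ℕ) : ZMod H) * (a : ZMod H)) * ψ (x * ((c * (H / q) : ℕ) : ZMod H)) := by
        intro x; rw [← psi_add]; congr 1; ring
      rw [Finset.sum_congr rfl fun x _ => e1 x, ← Finset.mul_sum, sum_psi, if_neg, mul_zero]
      rw [ZMod.natCast_eq_zero_iff]
      intro h
      have h2 := Nat.le_of_dvd (Nat.mul_pos (Nat.pos_of_ne_zero hc0) hqH) h
      have h3 : c * (H / q) < q * (H / q) := Nat.mul_lt_mul_of_pos_right hcq hqH
      rw [Nat.mul_div_cancel' hq] at h3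
      omega
    · intro h
      exact absurd (Finset.mem_range.2 (Nat.pos_of_ne_zero hq0)) h
  have h2 : ∑ x : ZMod H, ind a q x = (H : ℝ) / q := by
    have : ((∑ x : ZMod H, ind a q x : ℝ) : ℂ) = (((H : ℝ) / q : ℝ) : ℂ) := by
      rw [Complex.ofReal_sum, h1]; push_cast; ring
    exact_mod_cast this
  rw [mean, h2]
  field_simp

end Pool.Agent.H55.Odd
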