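import Pool.Agent.H55.Odd.Level

/-!
Colourings: the correlation sums as counts, and the main term.
-/

set_option autoImplicit false
set_option linter.unusedSectionVars false

namespace Pool.Agent.H55.Odd

open Finset

variable {H : ℕ} [NeZero H] {m : ℕ} [NeZero m]

noncomputable def fc (a : ℕ) (v : ℕ → ZMod m) (c : ZMod m) (x : ZMod H) : ℝ :=
  if v x.val = c ∧ 3 ∣ a + x.val then 1 else 0

noncomputable def gc (v : ℕ → ZMod m) (c : ZMod m) (x : ZMod H) : ℝ :=
  if v x.val = c then 1 else 0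

lemma fc_nonneg (a : ℕ) (v : ℕ → ZMod m) (c : ZMod m) (x : ZMod H) : 0 ≤ fc a v c x := by
  unfold fc; split_ifs <;> norm_num
lemma fc_le_one (a : ℕ) (v : ℕ → ZMod m) (c : ZMod m) (x : ZMod H) : fc a v c x ≤ 1 := by
  unfold fc; split_ifs <;> norm_num
lemma gc_nonneg (v : ℕ → ZMod m) (c : ZMod m) (x : ZMod H) : 0 ≤ gc v c x := by
  unfold gc; split_ifs <;> norm_num
lemma gc_le_one (v : ℕ → ZMod m) (c : ZMod m) (x : ZMod H) : gc v c x ≤ 1 := by
  unfold gc; split_ifs <;> norm_num

lemma sum_fc (a : ℕ) (v : ℕ → ZMod m) (x : ZMod H) : ∑ c, fc a v c x = ind a 3 x := by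
  unfold fc ind
  by_cases h : 3 ∣ a + x.val
  · simp [h]
  · simp [h]

lemma sum_gc (v : ℕ → ZMod m) (x : ZMod H) : ∑ c, gc v c x = 1 := by
  unfold gc; simp

lemma sum_tgt (hm : Odd m) (r c : ZMod m) (F : ZMod m → ℝ) :
    ∑ j ∈ Icc 1 m, F (tgt r j - c) = ∑ c', F c' := by
  classical
  have hcop : Nat.Coprime 2 m := (Nat.coprime_two_left).2 hm
  have h2 : IsUnit ((2:ℕ) : ZMod m) := (ZMod.isUnit_iff_coprime 2 m).2 hcop
  have hinj : Set.InjOn (fun j : ℕ => tgt r j - c) (Icc 1 m : Finset ℕ) := by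
    intro j hj j' hj' h
    simp only [tgt] at h
    have h3 : ((2:ℕ) : ZMod m) * (j : ZMod m) = ((2:ℕ) : ZMod m) * (j' : ZMod m) := by
      push_cast; linear_combination h
    have h4 := h2.mul_left_cancel h3
    rw [ZMod.natCast_eq_natCast_iff] at h4
    obtain ⟨a1, a2⟩ := Finset.mem_Icc.1 (Finset.mem_coe.1 hj)
    obtain ⟨b1, b2⟩ := Finset.mem_Icc.1 (Finset.mem_coe.1 hj')
    rcases Nat.lt_trichotomy j j' with hlt | heq | hlt
    · exfalso
      have := (Nat.modEq_iff_dvd' hlt.le).1 h4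
      have := Nat.le_of_dvd (by omega) this
      omega
    · exact heq
    · exfalso
      have := (Nat.modEq_iff_dvd' hlt.le).1 h4.symm
      have := Nat.le_of_dvd (by omega) this
      omega
  rw [← Finset.sum_image (f := F) hinj]
  congr 1
  apply Finset.eq_univ_of_card
  rw [Finset.card_image_of_injOn hinj, Nat.card_Icc, ZMod.card]
  omega

lemma T_sum {ι : Type*} (I : Finset ι) (M l : ℕ) (f : ι → ZMod H → ℝ) (x : ZMod H) :
    T M l (fun y => ∑ i ∈ I, f i y) x = ∑ i ∈ I, T M l (f i) x := by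
  simp only [T]
  rw [Finset.sum_comm, Finset.mul_sum]

lemma Ts_sum {ι : Type*} (I : Finset ι) (M l : ℕ) (f : ι → ZMod H → ℝ) (x : ZMod H) :
    Ts M l (fun y => ∑ i ∈ I, f i y) x = ∑ i ∈ I, Ts M l (f i) x := by
  simp only [Ts]
  rw [Finset.sum_comm, Finset.mul_sum]

lemma P_sum {ι : Type*} (I : Finset ι) (M l : ℕ) (f : ι → ZMod H → ℝ) (x : ZMod H) :
    P M l (fun y => ∑ i ∈ I, f i y) x = ∑ i ∈ I, P M l (f i) x := by
  simp only [P]
  rw [← Ts_sum]
  congr 1
  funext y
  exact T_sum I M l f y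

lemma P_one (M l : ℕ) (hl : 0 < l) (x : ZMod H) : P M l (fun _ => 1) x = 1 := by
  have hl' : (l:ℝ) ≠ 0 := by exact_mod_cast hl.ne'
  have h1 : T M l (fun _ : ZMod H => (1:ℝ)) = fun _ => 1 := by
    funext y
    simp only [T, Finset.sum_const, card_range, nsmul_eq_mul, mul_one]
    field_simp
  rw [P, h1]
  simp only [Ts, Finset.sum_const, card_range, nsmul_eq_mul, mul_one]
  field_simp

/-- The main term is `1/3`. -/
lemma main_term (hm : Odd m) (r : ZMod m) (M l : ℕ) (hl : 0 < l) (h3M : 3 ∣ M) (h3H : 3 ∣ H) (a : ℕ)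
    (v : ℕ → ZMod m) (n : ℕ) :
    ∑ j ∈ Icc 1 m, ∑ c, Phi a 1 (P M l (fc (H := H) a v c)) (P M l (gc v (tgt r j - c))) n = 1 / 3 := by
  rw [Finset.sum_comm]
  have h1 : ∀ c : ZMod m, ∑ j ∈ Icc 1 m, Phi a 1 (P M l (fc (H := H) a v c)) (P M l (gc v (tgt r j - c))) n =
      Phi a 1 (P M l (fc (H := H) a v c)) (fun _ => 1) n := by
    intro c
    rw [sum_tgt hm r c (fun c' => Phi a 1 (P M l (fc (H := H) a v c)) (P M l (gc v c')) n)]
    rw [← Phi_sum_right]
    congr 1
    funext x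
    rw [← P_sum]
    simp only [sum_gc]
    exact P_one M l hl x
  rw [Finset.sum_congr rfl fun c _ => h1 c, ← Phi_sum_left]
  have h2 : (fun x : ZMod H => ∑ c, P M l (fc (H := H) a v c) x) = fun x => ind a 3 x := by
    funext x
    rw [← P_sum]
    simp only [sum_fc]
    have h3 := P_ind (H := H) h3H h3M a l (fun _ => 1) x
    rw [P_one M l hl, mul_one] at h3
    rw [← h3]
    congr 1
    funext y
    rw [mul_one]
  rw [h2, Phi]
  have h4 : (fun x : ZMod H => ind a 1 x * ind a 3 x * 1) = fun x => ind a 3 x := by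
    funext x
    have : ind a 1 x = 1 := by unfold ind; simp
    rw [this, one_mul, mul_one]
  rw [h4, mean_ind h3H]
  simp

/-- The correlation sum as a count. -/
lemma Psi_count (e : ℕ) (a : ℕ) (v : ℕ → ZMod m) (t : ZMod m) (n : ℕ) :
    ∑ c, Phi a e (fc (H := H) a v c) (gc v (t - c)) n =
      (e / H : ℝ) * (((Finset.univ : Finset (ZMod H)).filter (fun x => e ∣ a + x.val ∧ 3 ∣ a + x.val ∧
        v x.val + v (x - ((e * n : ℕ) : ZMod H)).val = t)).card : ℝ) := by
  simp only [Phi, mean]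
  rw [← Finset.mul_sum, ← Finset.mul_sum, Finset.sum_comm, ← mul_assoc, mul_one_div]
  congr 1
  rw [Finset.card_filter, Nat.cast_sum]
  refine Finset.sum_congr rfl fun x _ => ?_
  rw [Nat.cast_ite, Nat.cast_one, Nat.cast_zero]
  unfold ind fc gc
  by_cases h1 : e ∣ a + x.val
  · by_cases h2 : 3 ∣ a + x.val
    · simp only [h1, h2, if_true, and_true, one_mul, true_and]
      have : ∀ c : ZMod m, ((if v x.val = c then (1:ℝ) else 0) *
          (if v (x - ((e * n : ℕ) : ZMod H)).val = t - c then (1:ℝ) else 0)) =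
          if c = v x.val then (if v x.val + v (x - ((e * n : ℕ) : ZMod H)).val = t then 1 else 0) else 0 := by
        intro c
        by_cases hc : v x.val = c
        · subst hc
          rw [if_pos rfl, if_pos rfl, one_mul]
          congr 1
          rw [eq_sub_iff_add_eq, add_comm]
        · rw [if_neg hc, if_neg (Ne.symm hc), zero_mul]
      rw [Finset.sum_congr rfl fun c _ => this c, Finset.sum_ite_eq', if_pos (Finset.mem_univ _)]
    · simp [h2]
  · simp [h1]

/-- The set of good positions. -/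
def posSet (a H : ℕ) (v : ℕ → ZMod m) (t : ZMod m) (e n : ℕ) : Finset ℕ :=
  (range H).filter (fun x => 3 ∣ a + x ∧ e ∣ a + x ∧ e * n ≤ x ∧ v x + v (x - e * n) = t)

lemma count_lower {e : ℕ} (he : 0 < e) (a : ℕ) (v : ℕ → ZMod m) (t : ZMod m) (n : ℕ) :
    ((Finset.univ : Finset (ZMod H)).filter (fun x => e ∣ a + x.val ∧ 3 ∣ a + x.val ∧
        v x.val + v (x - ((e * n : ℕ) : ZMod H)).val = t)).card ≤ (posSet a H v t e n).card + n := by
  classical
  set S := (Finset.univ : Finset (ZMod H)).filter (fun x => e ∣ a + x.val ∧ 3 ∣ a + x.val ∧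
        v x.val + v (x - ((e * n : ℕ) : ZMod H)).val = t) with hS
  rw [← Finset.card_filter_add_card_filter_not (s := S) (fun x => e * n ≤ x.val)]
  refine add_le_add ?_ ?_
  · refine Finset.card_le_card_of_injOn (fun x => x.val) ?_ ?_
    · intro x hx
      obtain ⟨h1, h2⟩ := Finset.mem_filter.1 (Finset.mem_coe.1 hx)
      obtain ⟨_, h3, h4, h5⟩ := Finset.mem_filter.1 h1
      refine Finset.mem_coe.2 (Finset.mem_filter.2 ⟨Finset.mem_range.2 (ZMod.val_lt x), h4, h3, h2, ?_⟩)
      have hlt : e * n < H := lt_of_le_of_lt h2 (ZMod.val_lt x)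
      have hv : ((e * n : ℕ) : ZMod H).val = e * n := ZMod.val_natCast_of_lt hlt
      have : (x - ((e * n : ℕ) : ZMod H)).val = x.val - e * n := by
        rw [ZMod.val_sub (by rw [hv]; exact h2), hv]
      rw [this] at h5
      exact h5
    · intro x _ y _ h
      exact ZMod.val_injective H h
  · refine le_trans ?_ (le_of_eq (Finset.card_range n))
    refine Finset.card_le_card_of_injOn (fun x => x.val / e) ?_ ?_
    · intro x hx
      obtain ⟨h1, h2⟩ := Finset.mem_filter.1 (Finset.mem_coe.1 hx)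
      simp only [Finset.coe_range, Set.mem_Iio]
      rw [Nat.div_lt_iff_lt_mul he, mul_comm]
      omega
    · intro x hx y hy h
      obtain ⟨h1, -⟩ := Finset.mem_filter.1 (Finset.mem_coe.1 hx)
      obtain ⟨h2, -⟩ := Finset.mem_filter.1 (Finset.mem_coe.1 hy)
      obtain ⟨_, h3, -⟩ := Finset.mem_filter.1 h1
      obtain ⟨_, h4, -⟩ := Finset.mem_filter.1 h2
      apply ZMod.val_injective H
      have hm : x.val % e = y.val % e := by
        have h5 : a + x.val ≡ a + y.val [MOD e] :=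
          ((Nat.modEq_zero_iff_dvd).2 h3).trans ((Nat.modEq_zero_iff_dvd).2 h4).symm
        exact Nat.ModEq.add_left_cancel' a h5
      simp only at h
      rw [← Nat.div_add_mod x.val e, ← Nat.div_add_mod y.val e, h, hm]

end Pool.Agent.H55.Odd
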