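import Pool.Agent.H55.Odd.Pairs

/-!
Counting the `k` with `Ω(3k²+3k+1)` in a given class modulo an odd number `m`.
-/

set_option autoImplicit false

namespace Pool.Agent.H55.Odd

open Pool.Agent.H41.Eis Finset
open ArithmeticFunction (cardFactors)

/-- The `k ≤ K` in the residue class `r`. -/
noncomputable def resSet {m : ℕ} (r : ZMod m) (K : ℕ) : Finset ℕ :=
  (Finset.range (K + 1)).filter (fun k => (cardFactors (3 * k^2 + 3 * k + 1) : ZMod m) = r)

/-- The modulus of the parametrisation. -/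
def Cfg.M {m : ℕ} {r : ZMod m} (c : Cfg r) : ℕ := 2 * c.m3

lemma Cfg.M_pos {m : ℕ} {r : ZMod m} (c : Cfg r) : 0 < c.M := by
  have := c.m3_pos; unfold Cfg.M; omega

lemma Cfg.six_dvd {m : ℕ} {r : ZMod m} (c : Cfg r) : 6 ∣ c.M := by
  have h := Nat.mul_dvd_mul_left 2 c.three
  exact h

/-- The size constant. -/
def Cfg.K0 {m : ℕ} {r : ZMod m} (c : Cfg r) : ℕ := (c.K + c.m3)^2 * (1 + c.M)^2

lemma Cfg.K0_pos {m : ℕ} {r : ZMod m} (c : Cfg r) : 0 < c.K0 := by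
  have := c.m3_pos
  unfold Cfg.K0
  positivity

/-- Data attached to a parameter. -/
def Data {m : ℕ} {r : ZMod m} (c : Cfg r) (p : ℕ × ℕ) (y d : ℕ) (b : Bool) (k : ℕ)
    (z : ℤ × ℤ) : Prop :=
  d ∈ c.DS ∧ d ≤ y ∧ ∃ (w : ℤ × ℤ) (A B : ℤ),
    emul (c.δ d) z = Vec (1 + c.M * p.1 : ℤ) (c.M * p.2 : ℤ) A B y ∧
    emul (c.δ d) w = Vec (1 + c.M * p.1 : ℤ) (c.M * p.2 : ℤ) A B (y - d) ∧
    emul z (econj w) = (xb b k, -1)

lemma exists_data {m : ℕ} {r : ZMod m} (c : Cfg r) (L : ℕ) (p : ℕ × ℕ) (hp : p ∈ good c.M L) :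
    ∃ t : (ℕ × ℕ × Bool × ℕ) × (ℤ × ℤ),
      Data c p t.1.1 t.1.2.1 t.1.2.2.1 t.1.2.2.2 t.2 ∧ t.1.1 < c.K ∧ t.1.2.1 ∈ c.DS ∧
        t.1.2.2.2 ∈ resSet r (c.K0 * L^2) := by
  obtain ⟨hp1, hcop⟩ := Finset.mem_filter.1 hp
  obtain ⟨hc, he⟩ := Finset.mem_product.1 hp1
  obtain ⟨hc1, hcL⟩ := Finset.mem_Icc.1 hc
  obtain ⟨he1, heL⟩ := Finset.mem_Icc.1 he
  have hMM : 0 < c.M := c.M_pos
  have hm3 : (0:ℤ) < c.m3 := by exact_mod_cast c.m3_pos
  have hc' : (1:ℤ) ≤ p.1 := by exact_mod_cast hc1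
  have he' : (1:ℤ) ≤ p.2 := by exact_mod_cast he1
  have hcL' : (p.1:ℤ) ≤ L := by exact_mod_cast hcL
  have heL' : (p.2:ℤ) ≤ L := by exact_mod_cast heL
  have hMM' : (0:ℤ) < c.M := by exact_mod_cast hMM
  have hL1 : (1:ℤ) ≤ L := hc'.trans hcL'
  have hcopZ : IsCoprime (1 + c.M * p.1 : ℤ) (c.M * p.2 : ℤ) := by
    have h1 : IsCoprime (1 + c.M * p.1 : ℤ) (p.2 : ℤ) := by
      have := Nat.isCoprime_iff_coprime.2 hcop
      push_cast at this
      exact this
    have h2 : IsCoprime (1 + c.M * p.1 : ℤ) (c.M : ℤ) := ⟨1, -p.1, by ring⟩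
    exact h2.mul_right h1
  have hMm : (c.M : ℤ) = 2 * c.m3 := by unfold Cfg.M; push_cast; ring
  have hCm : (c.m3 : ℤ) ∣ (1 + c.M * p.1 : ℤ) - 1 := by
    rw [hMm]; exact ⟨2 * p.1, by ring⟩
  have hEm : (c.m3 : ℤ) ∣ (c.M * p.2 : ℤ) := by
    rw [hMm]; exact ⟨2 * p.2, by ring⟩
  have hCpos : (0:ℤ) < 1 + c.M * p.1 := by positivity
  have hEpos : (0:ℤ) < c.M * p.2 := by positivity
  obtain ⟨A, B, hdet, hAB, hA0, hA, hB0, hB⟩ :=
    exists_AB c.m3 hm3 c.tau _ _ hCpos hEpos hcopZ hCm hEm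
  obtain ⟨y, d, b, k, z, w, hyK, hd, hle, h1, h2, h3, h4, h5⟩ := link c _ _ A B hdet hCm hEm hAB
  set H : ℤ := (1 + c.M) * L with hH
  have hCH : (1 + c.M * p.1 : ℤ) ≤ H := by
    have : (c.M:ℤ) * p.1 ≤ c.M * L := mul_le_mul_of_nonneg_left hcL' hMM'.le
    rw [hH]; linarith
  have hEH : (c.M * p.2 : ℤ) ≤ H := by
    have : (c.M:ℤ) * p.2 ≤ c.M * L := mul_le_mul_of_nonneg_left heL' hMM'.le
    rw [hH]; linarith
  have hkb := k_bound c y d hyK hd k z w _ _ A B H hCpos.le hCH hEpos.le hEH hA0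
    (hA.trans (mul_le_mul_of_nonneg_left hCH hm3.le)) hB0
    (hB.trans (mul_le_mul_of_nonneg_left hEH hm3.le)) h1 h2 h4
  have hk : k ≤ c.K0 * L^2 := by
    have : (k:ℤ) ≤ ((c.K0 * L^2 : ℕ) : ℤ) := by
      refine hkb.trans (le_of_eq ?_)
      rw [hH]; unfold Cfg.K0; push_cast; ring
    exact_mod_cast this
  refine ⟨((y, d, b, k), z), ⟨hd, hle, w, A, B, h1, h2, h3⟩, hyK, hd, ?_⟩
  exact Finset.mem_filter.2 ⟨Finset.mem_range.2 (by simp only; omega), h5⟩

/-- The counting inequality. -/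
lemma card_good_le {m : ℕ} {r : ZMod m} (c : Cfg r) (L Dn : ℕ)
    (hD : ∀ k ≤ c.K0 * L^2, (3 * (3 * k^2 + 3 * k + 1)).divisors.card ≤ Dn) :
    (good c.M L).card ≤ 6 * Dn * (2 * c.K * c.DS.card * (resSet r (c.K0 * L^2)).card) := by
  classical
  have hex : ∀ p : ℕ × ℕ, ∃ t : (ℕ × ℕ × Bool × ℕ) × (ℤ × ℤ), p ∈ good c.M L →
      (Data c p t.1.1 t.1.2.1 t.1.2.2.1 t.1.2.2.2 t.2 ∧ t.1.1 < c.K ∧ t.1.2.1 ∈ c.DS ∧
        t.1.2.2.2 ∈ resSet r (c.K0 * L^2)) := by
    intro p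
    by_cases hp : p ∈ good c.M L
    · obtain ⟨t, ht⟩ := exists_data c L p hp
      exact ⟨t, fun _ => ht⟩
    · exact ⟨((0, 0, true, 0), 0), fun h => absurd h hp⟩
  choose f hf using hex
  have hfib : ∀ a ∈ (good c.M L).image (fun p => (f p).1),
      ((good c.M L).filter (fun p => (f p).1 = a)).card ≤ 6 * Dn := by
    intro a ha
    obtain ⟨p0, hp0, hp0a⟩ := Finset.mem_image.1 ha
    obtain ⟨y, d, b, k⟩ := a
    have hk : k ≤ c.K0 * L^2 := by
      have := (hf p0 hp0).2.2.2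
      rw [hp0a] at this
      have := Finset.mem_range.1 (Finset.mem_filter.1 this).1
      simp only at this
      omega
    set S := (good c.M L).filter (fun p => (f p).1 = (y, d, b, k)) with hS
    have hSdata : ∀ p ∈ S, Data c p y d b k (f p).2 := by
      intro p hp
      obtain ⟨h1, h2⟩ := Finset.mem_filter.1 hp
      have := (hf p h1).1
      rw [h2] at this
      exact this
    have hinj : Set.InjOn (fun p => (f p).2) (S : Set (ℕ × ℕ)) := by
      intro p hp p' hp' he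
      simp only at he
      obtain ⟨hd, hle, w, A, B, h1, h2, h3⟩ := hSdata p (Finset.mem_coe.1 hp)
      obtain ⟨-, -, w', A', B', h1', h2', h3'⟩ := hSdata p' (Finset.mem_coe.1 hp')
      rw [← he] at h1' h3'
      obtain ⟨g1, g2⟩ := link_inj c y d hd hle _ _ w w' _ _ A B _ _ A' B' h1 h2 h3 h1' h2' h3'
      have hMM : (c.M:ℤ) ≠ 0 := by exact_mod_cast c.M_pos.ne'
      have e1 : (p.1:ℤ) = p'.1 := mul_left_cancel₀ hMM (by linarith)
      have e2 : (p.2:ℤ) = p'.2 := mul_left_cancel₀ hMM g2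
      exact Prod.ext (by exact_mod_cast e1) (by exact_mod_cast e2)
    have h1 : (S.image (fun p => (f p).2)).card ≤
        6 * ((xb b k)^2 - xb b k + 1).natAbs.divisors.card := by
      refine card_divisors_le _ _ ?_
      intro q hq
      obtain ⟨p, hp, rfl⟩ := Finset.mem_image.1 hq
      obtain ⟨-, -, w, A, B, -, -, h3⟩ := hSdata p hp
      exact ⟨econj w, h3⟩
    rw [Finset.card_image_of_injOn hinj] at h1
    have h2 : ((xb b k)^2 - xb b k + 1).natAbs = 3 * (3 * k^2 + 3 * k + 1) := by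
      rw [xb_norm]
      have : (3 * (3 * (k:ℤ)^2 + 3 * k + 1)) = ((3 * (3 * k^2 + 3 * k + 1) : ℕ) : ℤ) := by
        push_cast; ring
      rw [this, Int.natAbs_natCast]
    rw [h2] at h1
    exact h1.trans (Nat.mul_le_mul_left 6 (hD k hk))
  have h1 := Finset.card_le_mul_card_image (s := good c.M L) (f := fun p => (f p).1) (6 * Dn) hfib
  refine h1.trans (Nat.mul_le_mul_left _ ?_)
  have hsub : (good c.M L).image (fun p => (f p).1) ⊆
      (Finset.range c.K) ×ˢ (c.DS ×ˢ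
        ((Finset.univ : Finset Bool) ×ˢ resSet r (c.K0 * L^2))) := by
    intro a ha
    obtain ⟨p, hp, rfl⟩ := Finset.mem_image.1 ha
    simp only [Finset.mem_product, Finset.mem_univ, true_and, Finset.mem_range]
    exact (hf p hp).2
  refine (Finset.card_le_card hsub).trans (le_of_eq ?_)
  rw [Finset.card_product, Finset.card_product, Finset.card_product, Finset.card_range]
  simp only [Finset.card_univ, Fintype.card_bool]
  ring

/-- The counting theorem, from a configuration. -/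
theorem main_of_cfg {m : ℕ} {r : ZMod m} (c : Cfg r) (ε : ℝ) (hε : 0 < ε) :
    ∃ X0 : ℕ, ∀ X : ℕ, X0 ≤ X → (X:ℝ)^(1 - ε) ≤
      (((Finset.Icc 1 X).filter
        (fun k => (cardFactors (3 * k^2 + 3 * k + 1) : ZMod m) = r)).card : ℝ) := by
  set η : ℝ := min ε 1 / 4 with hη
  have hη0 : 0 < η := by rw [hη]; positivity
  have hη1 : 4 * η ≤ 1 := by rw [hη]; have := min_le_right ε 1; linarith
  have hηε : 4 * η ≤ ε := by rw [hη]; have := min_le_left ε 1; linarith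
  clear_value η
  obtain ⟨C, hC1, hC⟩ := divisor_bound (η / 2) (by positivity)
  have hK0 : (0:ℝ) < c.K0 := by exact_mod_cast c.K0_pos
  set W : ℝ := 2 * c.K * c.DS.card + 1 with hW
  have hW0 : 0 < W := by rw [hW]; positivity
  have hden : 0 < 12 * W * (C * 21) * c.K0 := by
    have hC0 : 0 < C := by linarith
    exact mul_pos (mul_pos (mul_pos (by norm_num) hW0) (mul_pos hC0 (by norm_num))) hK0
  -- lower bound for `K = K0 * L^2`
  set c1 : ℝ := 1 / (12 * W * (C * 21) * c.K0) with hc1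
  have hc10 : 0 < c1 := by rw [hc1]; exact div_pos one_pos hden
  have hlow : ∀ L : ℕ, 1 ≤ L → c1 * ((c.K0 * L^2 : ℕ) : ℝ)^(1 - η) ≤
      ((resSet r (c.K0 * L^2)).card : ℝ) := by
    intro L hL
    set K : ℕ := c.K0 * L^2 with hK
    have hK1 : 1 ≤ K := by
      rw [hK]; exact Nat.mul_pos c.K0_pos (by positivity)
    have hKR : (1:ℝ) ≤ K := by exact_mod_cast hK1
    have hKpos : (0:ℝ) < K := by linarith
    set D : ℝ := C * 21 * (K:ℝ)^η with hDdef
    have hD : ∀ k ≤ K, (3 * (3 * k^2 + 3 * k + 1)).divisors.card ≤ ⌊D⌋₊ := by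
      intro k hk
      refine Nat.le_floor ?_
      refine (hC _ (by omega)).trans ?_
      have hk' : (k:ℝ) ≤ K := by exact_mod_cast hk
      have hk0 : (0:ℝ) ≤ k := Nat.cast_nonneg k
      have h2 : ((3 * (3 * k^2 + 3 * k + 1) : ℕ) : ℝ) ≤ 21 * (K:ℝ)^2 := by
        push_cast
        have h3 : (k:ℝ)^2 ≤ (K:ℝ)^2 := pow_le_pow_left₀ hk0 hk' 2
        nlinarith
      have h5 : ((3 * (3 * k^2 + 3 * k + 1) : ℕ) : ℝ)^(η/2) ≤ 21 * (K:ℝ)^η := by
        calc ((3 * (3 * k^2 + 3 * k + 1) : ℕ) : ℝ)^(η/2) ≤ (21 * (K:ℝ)^2)^(η/2) :=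
              Real.rpow_le_rpow (by positivity) h2 (by positivity)
          _ = (21:ℝ)^(η/2) * ((K:ℝ)^2)^(η/2) := Real.mul_rpow (by norm_num) (by positivity)
          _ ≤ 21 * (K:ℝ)^η := by
              refine mul_le_mul ?_ ?_ (by positivity) (by norm_num)
              · calc (21:ℝ)^(η/2) ≤ (21:ℝ)^(1:ℝ) :=
                      Real.rpow_le_rpow_of_exponent_le (by norm_num) (by linarith)
                  _ = 21 := Real.rpow_one _
              · rw [← Real.rpow_natCast (K:ℝ) 2, ← Real.rpow_mul hKpos.le]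
                apply le_of_eq; congr 1; push_cast; ring
      rw [hDdef]
      calc C * ((3 * (3 * k^2 + 3 * k + 1) : ℕ) : ℝ)^(η/2) ≤ C * (21 * (K:ℝ)^η) :=
            mul_le_mul_of_nonneg_left h5 (by linarith)
        _ = _ := by ring
    have h1 := card_good_le c L ⌊D⌋₊ hD
    have h2 : ((good c.M L).card : ℝ) ≤ 6 * D * (W * ((resSet r K).card : ℝ)) := by
      have h3 : ((good c.M L).card : ℝ) ≤ 6 * (⌊D⌋₊ : ℝ) *
          (2 * c.K * c.DS.card * ((resSet r K).card : ℝ)) := by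
        exact_mod_cast h1
      have h4 : (⌊D⌋₊ : ℝ) ≤ D := Nat.floor_le (by positivity)
      refine h3.trans ?_
      refine mul_le_mul (by linarith) ?_ (by positivity) (by positivity)
      refine mul_le_mul_of_nonneg_right ?_ (by positivity)
      rw [hW]; linarith
    have h3 := (card_good c.M L c.six_dvd).trans h2
    have h4 : (L:ℝ)^2 = K / c.K0 := by
      rw [hK]; push_cast; field_simp
    rw [h4] at h3
    have hKη : 0 < (K:ℝ)^η := Real.rpow_pos_of_pos hKpos _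
    have h5 : (K:ℝ) = (K:ℝ)^(1-η) * (K:ℝ)^η := by
      rw [← Real.rpow_add hKpos]; simp
    have h6 : ((K:ℝ)^(1-η)) * (K:ℝ)^η ≤
        (12 * W * (C * 21) * c.K0 * ((resSet r K).card : ℝ)) * (K:ℝ)^η := by
      rw [← h5]
      rw [div_div, div_le_iff₀ (by positivity)] at h3
      refine h3.trans (le_of_eq ?_)
      rw [hDdef]; ring
    have h7 := le_of_mul_le_mul_right h6 hKη
    rw [hc1, one_div]
    exact (inv_mul_le_iff₀ hden).2 h7
  -- pass to `X`
  have htend : Filter.Tendsto (fun X : ℕ => (c1 / 4) * (X:ℝ)^(3 * η)) Filter.atTop Filter.atTop :=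
    Filter.Tendsto.const_mul_atTop (by positivity)
      ((tendsto_rpow_atTop (by positivity)).comp tendsto_natCast_atTop_atTop)
  obtain ⟨X1, hX1⟩ := Filter.eventually_atTop.1 (htend.eventually_ge_atTop 2)
  refine ⟨max X1 c.K0, fun X hX => ?_⟩
  have hXa := hX1 X ((le_max_left _ _).trans hX)
  have hXb : c.K0 ≤ X := (le_max_right _ _).trans hX
  have hK0p := c.K0_pos
  obtain ⟨L, hL1, hLX, hXL⟩ : ∃ L : ℕ, 1 ≤ L ∧ c.K0 * L^2 ≤ X ∧ X ≤ 4 * (c.K0 * L^2) := by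
    generalize c.K0 = K at hK0p hXb
    refine ⟨Nat.sqrt (X / K), ?_, ?_, ?_⟩
    · rw [Nat.le_sqrt]
      exact (Nat.one_le_div_iff hK0p).2 hXb
    · have h1 : Nat.sqrt (X / K) * Nat.sqrt (X / K) ≤ X / K := Nat.sqrt_le _
      calc K * Nat.sqrt (X / K)^2 ≤ K * (X / K) := Nat.mul_le_mul_left _ (by rw [sq]; exact h1)
        _ ≤ X := Nat.mul_div_le _ _
    · have h1 : X / K < (Nat.sqrt (X / K) + 1) * (Nat.sqrt (X / K) + 1) := Nat.lt_succ_sqrt _
      have h0 : 1 ≤ Nat.sqrt (X / K) := by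
        rw [Nat.le_sqrt]
        exact (Nat.one_le_div_iff hK0p).2 hXb
      generalize Nat.sqrt (X / K) = s at h1 h0
      have h2 : X < K * ((s+1)*(s+1)) := by
        have h3 := (Nat.div_lt_iff_lt_mul hK0p).1 h1
        rw [mul_comm]; exact h3
      have h4 : (s+1)*(s+1) ≤ 4 * s^2 := by nlinarith
      calc X ≤ K * ((s+1)*(s+1)) := h2.le
        _ ≤ K * (4 * s^2) := Nat.mul_le_mul_left _ h4
        _ = 4 * (K * s^2) := by ring
  have h1 := hlow L hL1
  set K : ℕ := c.K0 * L^2 with hK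
  have hX0 : (0:ℝ) < X := by exact_mod_cast (by omega : 0 < X)
  have hX1' : (1:ℝ) ≤ X := by exact_mod_cast (by omega : 1 ≤ X)
  have hKX : (X:ℝ) ≤ 4 * K := by exact_mod_cast hXL
  have hK0' : (0:ℝ) ≤ K := Nat.cast_nonneg K
  have h2 : (X:ℝ)^(1 - η) ≤ 4 * (K:ℝ)^(1 - η) := by
    calc (X:ℝ)^(1-η) ≤ (4 * (K:ℝ))^(1-η) := Real.rpow_le_rpow hX0.le hKX (by linarith)
      _ = (4:ℝ)^(1-η) * (K:ℝ)^(1-η) := Real.mul_rpow (by norm_num) (by positivity)
      _ ≤ 4 * (K:ℝ)^(1 - η) := by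
          refine mul_le_mul_of_nonneg_right ?_ (by positivity)
          calc (4:ℝ)^(1-η) ≤ (4:ℝ)^(1:ℝ) :=
                  Real.rpow_le_rpow_of_exponent_le (by norm_num) (by linarith)
              _ = 4 := Real.rpow_one _
  have h3 : (c1 / 4) * (X:ℝ)^(1-η) ≤ ((resSet r K).card : ℝ) := by
    refine le_trans ?_ h1
    calc (c1 / 4) * (X:ℝ)^(1-η) ≤ (c1/4) * (4 * (K:ℝ)^(1 - η)) :=
          mul_le_mul_of_nonneg_left h2 (by positivity)
      _ = _ := by ring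
  have h4 : (X:ℝ)^(1-η) = (X:ℝ)^(3*η) * (X:ℝ)^(1-4*η) := by
    rw [← Real.rpow_add hX0]; congr 1; ring
  have h5 : 1 ≤ (X:ℝ)^(1-4*η) := Real.one_le_rpow hX1' (by linarith)
  have h6 : 2 * (X:ℝ)^(1-4*η) ≤ ((resSet r K).card : ℝ) := by
    refine le_trans ?_ h3
    rw [h4, ← mul_assoc]
    exact mul_le_mul_of_nonneg_right hXa (by linarith)
  have h7 : (X:ℝ)^(1-ε) ≤ (X:ℝ)^(1-4*η) := Real.rpow_le_rpow_of_exponent_le hX1' (by linarith)
  have h8 : ((resSet r K).card : ℝ) ≤ (((Finset.Icc 1 X).filter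
      (fun k => (cardFactors (3 * k^2 + 3 * k + 1) : ZMod m) = r)).card : ℝ) + 1 := by
    have hsub : resSet r K ⊆ insert 0 ((Finset.Icc 1 X).filter
        (fun k => (cardFactors (3 * k^2 + 3 * k + 1) : ZMod m) = r)) := by
      intro k hk
      obtain ⟨a, b⟩ := Finset.mem_filter.1 hk
      have := Finset.mem_range.1 a
      rcases Nat.eq_zero_or_pos k with h | h
      · rw [h]; exact Finset.mem_insert_self _ _
      · refine Finset.mem_insert_of_mem (Finset.mem_filter.2 ⟨Finset.mem_Icc.2 ⟨h, by omega⟩, b⟩)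
    have := (Finset.card_le_card hsub).trans (Finset.card_insert_le _ _)
    exact_mod_cast this
  linarith

end Pool.Agent.H55.Odd
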