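import Pool.Agent.H55.Odd.Fourier

/-!
Cauchy-Schwarz over a short window for a weighted family of correlations.
-/

set_option autoImplicit false
set_option linter.unusedSectionVars false

namespace Pool.Agent.H55.Odd

open Finset

variable {H : ℕ} [NeZero H]

lemma cs_window {ι : Type*} (I : Finset ι) (w : ι → ℝ) (hw : ∀ i ∈ I, 0 ≤ w i) (E : ι → ℕ)
    (u v : ι → ZMod H → ℂ) (N k : ℕ) (hk : 1 ≤ k) (h16 : 16 * k * N ≤ H) (Su : ℝ)
    (hSu : ∀ φ : ZMod H, ∑ i ∈ I, w i * ∑ j ∈ range k, ∑ α : ZMod H,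
      (if (E i : ZMod H) * α = φ - (j : ZMod H) then ‖u i α‖ ^ 2 else 0) ≤ Su) :
    ∑ n ∈ Ioc N (2 * N), ‖∑ i ∈ I, (w i : ℂ) * ∑ α : ZMod H,
      u i α * v i α * ψ (α * ((E i : ZMod H) * (n : ZMod H)))‖ ^ 2 ≤
      (2 * H / k : ℝ) * Su * ∑ i ∈ I, w i * ∑ α : ZMod H, ‖v i α‖ ^ 2 := by
  classical
  have hH : (0:ℝ) < H := by exact_mod_cast Nat.pos_of_ne_zero (NeZero.ne H)
  have hk' : (0:ℝ) < k := by exact_mod_cast hk
  set c : ZMod H → ℂ := fun φ => ∑ i ∈ I, (w i : ℂ) * ∑ α : ZMod H,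
    if (E i : ZMod H) * α = φ then u i α * v i α else 0 with hc
  have h1 : ∀ n : ZMod H, ∑ i ∈ I, (w i : ℂ) * ∑ α : ZMod H,
      u i α * v i α * ψ (α * ((E i : ZMod H) * n)) = ∑ φ, c φ * ψ (φ * n) := by
    intro n
    rw [hc]
    simp only [Finset.sum_mul]
    rw [Finset.sum_comm]
    refine Finset.sum_congr rfl fun i _ => ?_
    simp only [mul_assoc]
    rw [← Finset.mul_sum]
    congr 1
    simp only [Finset.sum_mul]
    rw [Finset.sum_comm]
    refine Finset.sum_congr rfl fun α _ => ?_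
    rw [Finset.sum_eq_single ((E i : ZMod H) * α)]
    · rw [if_pos rfl]
      rw [show α * ((E i : ZMod H) * n) = (E i : ZMod H) * α * n by ring]
      ring
    · intro b _ hb
      rw [if_neg (Ne.symm hb), zero_mul]
    · intro h; exact absurd (Finset.mem_univ _) h
  have hw0 := window c N k hk h16
  have e1 : ∑ n ∈ Ioc N (2 * N), ‖∑ i ∈ I, (w i : ℂ) * ∑ α : ZMod H,
      u i α * v i α * ψ (α * ((E i : ZMod H) * (n : ZMod H)))‖ ^ 2 =
      ∑ n ∈ Ioc N (2 * N), ‖∑ φ : ZMod H, c φ * ψ (φ * (n : ZMod H))‖ ^ 2 :=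
    Finset.sum_congr rfl fun n _ => by rw [h1]
  rw [e1]
  refine hw0.trans ?_
  -- bound of the local sums
  have hcn : ∀ φ, ‖c φ‖ ≤ ∑ i ∈ I, w i * ∑ α : ZMod H,
      (if (E i : ZMod H) * α = φ then ‖u i α‖ * ‖v i α‖ else 0) := by
    intro φ
    rw [hc]
    refine (norm_sum_le _ _).trans (Finset.sum_le_sum fun i hi => ?_)
    rw [norm_mul, Complex.norm_real, Real.norm_of_nonneg (hw i hi)]
    refine mul_le_mul_of_nonneg_left ?_ (hw i hi)
    refine (norm_sum_le _ _).trans (Finset.sum_le_sum fun α _ => ?_)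
    split_ifs
    · rw [norm_mul]
    · simp
  have hloc : ∀ φ, (∑ j ∈ range k, ‖c (φ - (j : ZMod H))‖) ^ 2 ≤ Su *
      ∑ i ∈ I, w i * ∑ j ∈ range k, ∑ α : ZMod H,
        (if (E i : ZMod H) * α = φ - (j : ZMod H) then ‖v i α‖ ^ 2 else 0) := by
    intro φ
    -- index set
    set J : Finset (ℕ × ι × ZMod H) := (range k) ×ˢ (I ×ˢ (Finset.univ : Finset (ZMod H))) with hJ
    set P : ℕ × ι × ZMod H → Prop := fun t => (E t.2.1 : ZMod H) * t.2.2 = φ - (t.1 : ZMod H) with hP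
    set fu : ℕ × ι × ZMod H → ℝ := fun t => if P t then Real.sqrt (w t.2.1) * ‖u t.2.1 t.2.2‖ else 0 with hfu
    set fv : ℕ × ι × ZMod H → ℝ := fun t => if P t then Real.sqrt (w t.2.1) * ‖v t.2.1 t.2.2‖ else 0 with hfv
    have a1 : ∑ j ∈ range k, ‖c (φ - (j : ZMod H))‖ ≤ ∑ t ∈ J, fu t * fv t := by
      rw [hJ, Finset.sum_product]
      refine Finset.sum_le_sum fun j _ => ?_
      rw [Finset.sum_product]
      refine (hcn _).trans (Finset.sum_le_sum fun i hi => ?_)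
      rw [Finset.mul_sum]
      refine Finset.sum_le_sum fun α _ => ?_
      simp only [hfu, hfv, hP]
      split_ifs
      · rw [show Real.sqrt (w i) * ‖u i α‖ * (Real.sqrt (w i) * ‖v i α‖) =
          (Real.sqrt (w i) * Real.sqrt (w i)) * (‖u i α‖ * ‖v i α‖) by ring,
          Real.mul_self_sqrt (hw i hi)]
      · simp
    have a2 : (∑ t ∈ J, fu t * fv t)^2 ≤ (∑ t ∈ J, fu t ^ 2) * (∑ t ∈ J, fv t ^ 2) :=
      Finset.sum_mul_sq_le_sq_mul_sq J fu fv
    have a3 : ∀ (z : ι → ZMod H → ℂ), ∑ t ∈ J, (if P t then Real.sqrt (w t.2.1) * ‖z t.2.1 t.2.2‖ else 0)^2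
        = ∑ i ∈ I, w i * ∑ j ∈ range k, ∑ α : ZMod H,
        (if (E i : ZMod H) * α = φ - (j : ZMod H) then ‖z i α‖ ^ 2 else 0) := by
      intro z
      rw [hJ, Finset.sum_product]
      have : ∀ j ∈ range k, ∑ y ∈ I ×ˢ (Finset.univ : Finset (ZMod H)),
          (if P (j, y) then Real.sqrt (w (j, y).2.1) * ‖z (j, y).2.1 (j, y).2.2‖ else 0)^2 =
          ∑ i ∈ I, w i * ∑ α : ZMod H,
            (if (E i : ZMod H) * α = φ - (j : ZMod H) then ‖z i α‖ ^ 2 else 0) := by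
        intro j _
        rw [Finset.sum_product]
        refine Finset.sum_congr rfl fun i hi => ?_
        rw [Finset.mul_sum]
        refine Finset.sum_congr rfl fun α _ => ?_
        simp only [hP]
        split_ifs
        · rw [mul_pow, Real.sq_sqrt (hw i hi)]
        · simp
      rw [Finset.sum_congr rfl this, Finset.sum_comm]
      refine Finset.sum_congr rfl fun i _ => ?_
      rw [Finset.mul_sum]
    have a4 : ∑ t ∈ J, fu t ^ 2 ≤ Su := by
      have := a3 u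
      rw [hfu]
      simp only
      rw [this]
      exact hSu φ
    have a5 := a3 v
    calc (∑ j ∈ range k, ‖c (φ - (j : ZMod H))‖) ^ 2 ≤ (∑ t ∈ J, fu t * fv t)^2 :=
          pow_le_pow_left₀ (Finset.sum_nonneg fun _ _ => norm_nonneg _) a1 2
      _ ≤ _ := a2
      _ ≤ Su * (∑ t ∈ J, fv t ^ 2) := mul_le_mul_of_nonneg_right a4 (Finset.sum_nonneg fun _ _ => sq_nonneg _)
      _ = _ := by rw [hfv]; simp only; rw [a5]
  have hsum : ∑ φ : ZMod H, ∑ i ∈ I, w i * ∑ j ∈ range k, ∑ α : ZMod H,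
        (if (E i : ZMod H) * α = φ - (j : ZMod H) then ‖v i α‖ ^ 2 else 0) =
      k * ∑ i ∈ I, w i * ∑ α : ZMod H, ‖v i α‖ ^ 2 := by
    rw [Finset.sum_comm, Finset.mul_sum]
    refine Finset.sum_congr rfl fun i _ => ?_
    rw [← Finset.mul_sum]
    rw [show (k:ℝ) * (w i * ∑ α : ZMod H, ‖v i α‖ ^ 2) = w i * (k * ∑ α : ZMod H, ‖v i α‖ ^ 2) by ring]
    congr 1
    rw [Finset.sum_comm]
    rw [← nsmul_eq_mul, ← Finset.card_range k, ← Finset.sum_const]
    simp only [Finset.card_range]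
    refine Finset.sum_congr rfl fun j _ => ?_
    rw [Finset.sum_comm]
    refine Finset.sum_congr rfl fun α _ => ?_
    rw [Finset.sum_eq_single ((E i : ZMod H) * α + (j : ZMod H))]
    · rw [if_pos (by ring)]
    · intro b _ hb
      rw [if_neg]
      intro h
      exact hb (by rw [h]; ring)
    · intro h; exact absurd (Finset.mem_univ _) h
  calc (2 * H / k ^ 2 : ℝ) * ∑ φ : ZMod H, (∑ j ∈ range k, ‖c (φ - (j : ZMod H))‖) ^ 2
      ≤ (2 * H / k ^ 2 : ℝ) * ∑ φ : ZMod H, (Su * ∑ i ∈ I, w i * ∑ j ∈ range k, ∑ α : ZMod H,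
        (if (E i : ZMod H) * α = φ - (j : ZMod H) then ‖v i α‖ ^ 2 else 0)) := by
        refine mul_le_mul_of_nonneg_left (Finset.sum_le_sum fun φ _ => hloc φ) (by positivity)
    _ = (2 * H / k ^ 2 : ℝ) * (Su * (k * ∑ i ∈ I, w i * ∑ α : ZMod H, ‖v i α‖ ^ 2)) := by
        rw [← Finset.mul_sum, hsum]
    _ = _ := by field_simp

end Pool.Agent.H55.Odd
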