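import Pool.Agent.H55.Odd.Defs

/-!
The counting decrement: valid colourings of a window.
-/

set_option autoImplicit false
set_option linter.unusedSectionVars false

namespace Pool.Agent.H55.Odd

open Finset

variable {m : ℕ} [NeZero m]

/-- Extension of a colouring of `[0, H)`. -/
def extv {H : ℕ} (u : Fin H → ZMod m) (x : ℕ) : ZMod m := if h : x < H then u ⟨x, h⟩ else 0

/-- No violation on the window `[n, n + H)`. -/
def Valid (r : ZMod m) (E : Finset ℕ) (n H : ℕ) (PS : Finset ℕ) (v : ℕ → ZMod m) : Prop :=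
  ∀ x < H, ∀ p ∈ PS, ∀ e ∈ E, 3 ∣ n + x → e ∣ n + x → p ∣ n + x → e * p ≤ x →
    v x + v (x - e * p) ≠ tgt r (ArithmeticFunction.cardFactors e)

open Classical in
/-- The valid colourings. -/
noncomputable def VV (r : ZMod m) (E : Finset ℕ) (n H : ℕ) (PS : Finset ℕ) : Finset (Fin H → ZMod m) :=
  Finset.univ.filter (fun u => Valid r E n H PS (extv u))

lemma mem_VV {r : ZMod m} {E : Finset ℕ} {n H : ℕ} {PS : Finset ℕ} {u : Fin H → ZMod m} :
    u ∈ VV r E n H PS ↔ Valid r E n H PS (extv u) := by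
  simp [VV]

lemma VV_congr (r : ZMod m) (E : Finset ℕ) (n n' H R : ℕ) (PS : Finset ℕ) (h3 : 3 ∣ R)
    (hE : ∀ e ∈ E, e ∣ R) (hP : ∀ p ∈ PS, p ∣ R) (hn : n ≡ n' [MOD R]) :
    VV r E n H PS = VV r E n' H PS := by
  ext u
  rw [mem_VV, mem_VV]
  have key : ∀ d, d ∣ R → ∀ x, (d ∣ n + x ↔ d ∣ n' + x) := by
    intro d hd x
    have h1 : n + x ≡ n' + x [MOD d] := (hn.of_dvd hd).add_right x
    exact ⟨fun h => (Nat.modEq_zero_iff_dvd).1 (h1.symm.trans ((Nat.modEq_zero_iff_dvd).2 h)),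
      fun h => (Nat.modEq_zero_iff_dvd).1 (h1.trans ((Nat.modEq_zero_iff_dvd).2 h))⟩
  constructor
  · intro h x hx p hp e he a1 a2 a3 a4
    exact h x hx p hp e he ((key 3 h3 x).2 a1) ((key e (hE e he) x).2 a2) ((key p (hP p hp) x).2 a3) a4
  · intro h x hx p hp e he a1 a2 a3 a4
    exact h x hx p hp e he ((key 3 h3 x).1 a1) ((key e (hE e he) x).1 a2) ((key p (hP p hp) x).1 a3) a4

/-- The `k`-th block of a colouring. -/
def blk {B H : ℕ} (u : Fin (B * H) → ZMod m) (k : Fin B) (x : Fin H) : ZMod m :=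
  u ⟨k.val * H + x.val, by
    have h1 := k.isLt
    have h2 := x.isLt
    calc k.val * H + x.val < k.val * H + H := by omega
      _ = (k.val + 1) * H := by ring
      _ ≤ B * H := Nat.mul_le_mul_right H h1⟩

lemma blk_injective {B H : ℕ} : Function.Injective (blk (m := m) (B := B) (H := H)) := by
  intro u u' h
  funext ⟨x, hx⟩
  have hH : 0 < H := Nat.pos_of_ne_zero (by rintro rfl; simp at hx)
  have hk : x / H < B := (Nat.div_lt_iff_lt_mul hH).2 hx
  have h1 := congrFun (congrFun h ⟨x / H, hk⟩) ⟨x % H, Nat.mod_lt _ hH⟩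
  simp only [blk] at h1
  have e : x / H * H + x % H = x := Nat.div_add_mod' x H
  have e2 : (⟨x / H * H + x % H, by rw [e]; exact hx⟩ : Fin (B * H)) = ⟨x, hx⟩ := Fin.ext e
  rw [e2] at h1
  exact h1

lemma blk_valid (r : ZMod m) (E : Finset ℕ) (n B H : ℕ) (PS PS' : Finset ℕ) (hsub : PS ⊆ PS')
    (u : Fin (B * H) → ZMod m) (hu : Valid r E n (B * H) PS' (extv u)) (k : Fin B) :
    Valid r E (n + k.val * H) H PS (extv (blk u k)) := by
  have hext : ∀ x, x < H → extv (blk u k) x = extv u (k.val * H + x) := by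
    intro x hx
    have hlt : k.val * H + x < B * H := by
      calc k.val * H + x < k.val * H + H := by omega
        _ = (k.val + 1) * H := by ring
        _ ≤ B * H := Nat.mul_le_mul_right H k.isLt
    rw [extv, extv, dif_pos hx, dif_pos hlt]
    rfl
  intro x hx p hp e he a1 a2 a3 a4
  have hlt : k.val * H + x < B * H := by
    calc k.val * H + x < k.val * H + H := by omega
      _ = (k.val + 1) * H := by ring
      _ ≤ B * H := Nat.mul_le_mul_right H k.isLt
  have h1 := hu (k.val * H + x) hlt p (hsub hp) e he (by rw [← add_assoc]; exact a1)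
    (by rw [← add_assoc]; exact a2) (by rw [← add_assoc]; exact a3) (by omega)
  rw [hext x hx, hext (x - e * p) (by omega)]
  rw [show k.val * H + (x - e * p) = k.val * H + x - e * p by omega]
  exact h1

/-- Counting residues avoiding bad classes. -/
lemma avoid_count (R n0 : ℕ) (hR : 0 < R) (Bad : ℕ → Finset ℕ) :
    ∀ S : Finset ℕ, (∀ p ∈ S, p.Prime ∧ ¬ p ∣ R ∧ Bad p ⊆ range p) →
    ((range (R * ∏ p ∈ S, p)).filter (fun n => n % R = n0 % R ∧ ∀ p ∈ S, n % p ∉ Bad p)).card ≤
      ∏ p ∈ S, (p - (Bad p).card) := by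
  classical
  intro S
  induction S using Finset.induction_on with
  | empty =>
    intro _
    simp only [Finset.prod_empty, mul_one, Finset.notMem_empty, IsEmpty.forall_iff, implies_true,
      and_true]
    rw [Finset.card_le_one]
    intro x hx y hy
    obtain ⟨h1, h2⟩ := Finset.mem_filter.1 hx
    obtain ⟨h3, h4⟩ := Finset.mem_filter.1 hy
    rw [Nat.mod_eq_of_lt (Finset.mem_range.1 h1)] at h2
    rw [Nat.mod_eq_of_lt (Finset.mem_range.1 h3)] at h4
    rw [h2, h4]
  | insert p S hp ih =>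
    intro hS
    have hS' : ∀ q ∈ S, q.Prime ∧ ¬ q ∣ R ∧ Bad q ⊆ range q := fun q hq => hS q (Finset.mem_insert_of_mem hq)
    obtain ⟨hpp, hpR, hpB⟩ := hS p (Finset.mem_insert_self _ _)
    have ih' := ih hS'
    set K := R * ∏ q ∈ S, q with hK
    have hK0 : 0 < K := Nat.mul_pos hR (Finset.prod_pos fun q hq => (hS' q hq).1.pos)
    have hcop : Nat.Coprime K p := by
      rw [hK]
      refine Nat.Coprime.mul_left ((Nat.Prime.coprime_iff_not_dvd hpp).2 hpR).symm ?_
      refine Nat.Coprime.prod_left fun q hq => ?_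
      rw [Nat.coprime_primes (hS' q hq).1 hpp]
      rintro rfl
      exact hp hq
    rw [Finset.prod_insert hp, Finset.prod_insert hp]
    have hprod : R * (p * ∏ q ∈ S, q) = K * p := by rw [hK]; ring
    rw [hprod]
    have hcard : ((range p) \ Bad p).card = p - (Bad p).card := by
      rw [Finset.card_sdiff_of_subset hpB, Finset.card_range]
    rw [← hcard, mul_comm ((range p) \ Bad p).card]
    refine le_trans ?_ (Nat.mul_le_mul_right _ ih')
    rw [← Finset.card_product]
    refine Finset.card_le_card_of_injOn (fun n => (n % K, n % p)) ?_ ?_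
    · intro n hn
      obtain ⟨h1, h2, h3⟩ := Finset.mem_filter.1 (Finset.mem_coe.1 hn)
      refine Finset.mem_coe.2 (Finset.mem_product.2 ⟨?_, ?_⟩)
      · refine Finset.mem_filter.2 ⟨Finset.mem_range.2 (Nat.mod_lt _ hK0), ?_, ?_⟩
        · simp only
          rw [Nat.mod_mod_of_dvd _ (Dvd.intro _ rfl)]
          exact h2
        · intro q hq
          simp only
          rw [Nat.mod_mod_of_dvd]
          · exact h3 q (Finset.mem_insert_of_mem hq)
          · exact (Finset.dvd_prod_of_mem _ hq).mul_left R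
      · exact Finset.mem_sdiff.2 ⟨Finset.mem_range.2 (Nat.mod_lt _ hpp.pos), h3 p (Finset.mem_insert_self _ _)⟩
    · intro x hx y hy hxy
      obtain ⟨h1, -⟩ := Finset.mem_filter.1 (Finset.mem_coe.1 hx)
      obtain ⟨h3, -⟩ := Finset.mem_filter.1 (Finset.mem_coe.1 hy)
      simp only [Prod.mk.injEq] at hxy
      have h5 : x ≡ y [MOD K * p] := (Nat.modEq_and_modEq_iff_modEq_mul hcop).1 ⟨hxy.1, hxy.2⟩
      exact Nat.ModEq.eq_of_lt_of_lt h5 (Finset.mem_range.1 h1) (Finset.mem_range.1 h3)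

/-- The bad residues of a colouring at the prime `p`. -/
noncomputable def badRes (p : ℕ) (X : Finset ℕ) : Finset ℕ := X.image (fun x => (p - x % p) % p)

lemma badRes_card (p H : ℕ) (hp : 0 < p) (X : Finset ℕ) (hX : X ⊆ range H) :
    X.card ≤ (H / p + 1) * (badRes p X).card := by
  classical
  refine Finset.card_le_mul_card_image (s := X) (f := fun x => (p - x % p) % p) (H / p + 1) ?_
  intro s _
  rw [← Finset.card_range (H / p + 1)]
  refine Finset.card_le_card_of_injOn (fun x => x / p) ?_ ?_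
  · intro x hx
    obtain ⟨h1, _⟩ := Finset.mem_filter.1 (Finset.mem_coe.1 hx)
    have := Finset.mem_range.1 (hX h1)
    simp only [Finset.coe_range, Set.mem_Iio]
    exact Nat.lt_succ_of_le (Nat.div_le_div_right this.le)
  · intro x hx y hy hxy
    obtain ⟨_, h2⟩ := Finset.mem_filter.1 (Finset.mem_coe.1 hx)
    obtain ⟨_, h4⟩ := Finset.mem_filter.1 (Finset.mem_coe.1 hy)
    simp only at hxy
    have hm : x % p = y % p := by
      have h5 : p - x % p ≡ p - y % p [MOD p] := h2.trans h4.symm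
      have a1 := Nat.mod_lt x hp
      have a2 := Nat.mod_lt y hp
      have h6 := h5.add_right (x % p + y % p)
      rw [show p - x % p + (x % p + y % p) = p + y % p by omega,
        show p - y % p + (x % p + y % p) = p + x % p by omega] at h6
      have h7 := Nat.ModEq.add_left_cancel' p h6
      exact (Nat.ModEq.eq_of_lt_of_lt h7 a2 a1).symm
    rw [← Nat.div_add_mod x p, ← Nat.div_add_mod y p, hxy, hm]

lemma badRes_sub (p : ℕ) (hp : 0 < p) (X : Finset ℕ) : badRes p X ⊆ range p := by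
  intro s hs
  obtain ⟨x, _, rfl⟩ := Finset.mem_image.1 hs
  exact Finset.mem_range.2 (Nat.mod_lt _ hp)

lemma badRes_mem {p n : ℕ} (hp : 0 < p) (X : Finset ℕ) (h : n % p ∈ badRes p X) :
    ∃ x ∈ X, p ∣ n + x := by
  obtain ⟨x, hx, h2⟩ := Finset.mem_image.1 h
  refine ⟨x, hx, ?_⟩
  have a1 := Nat.mod_lt x hp
  have h3 : p - x % p ≡ n [MOD p] := h2
  have h4 : (p - x % p) + x % p ≡ n + x [MOD p] := h3.add (Nat.mod_modEq x p)
  rw [show (p - x % p) + x % p = p by omega] at h4
  exact (Nat.modEq_zero_iff_dvd).1 (h4.symm.trans ((Nat.modEq_zero_iff_dvd).2 (dvd_refl p)))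

/-- For a fixed colouring, few residues are valid. -/
lemma residue_count (r : ZMod m) (E : Finset ℕ) (R n0 : ℕ) (hR : 0 < R) (S : Finset ℕ) (H : ℕ) (hS : ∀ p ∈ S, p.Prime ∧ ¬ p ∣ R ∧ p ≤ H)
    (v : ℕ → ZMod m) (κ : ℝ) (hκ : κ ≤ ∑ p ∈ S, ((finSet r n0 H v E p).card : ℝ)) :
    ((((range (R * ∏ p ∈ S, p)).filter (fun n => n % R = n0 % R ∧
      ∀ p ∈ S, ∀ x ∈ finSet r n0 H v E p, ¬ p ∣ n + x))).card : ℝ) ≤
      ((∏ p ∈ S, p : ℕ) : ℝ) * Real.exp (-(κ / (2 * H))) := by
  classical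
  rcases Nat.eq_zero_or_pos H with hH0 | hH0
  · -- trivial: S is empty
    have hSe : S = ∅ := by
      rw [Finset.eq_empty_iff_forall_notMem]
      intro p hp
      have := (hS p hp).2.2
      have := (hS p hp).1.pos
      omega
    subst hSe
    rw [hH0]
    simp only [Finset.prod_empty, mul_one, Finset.notMem_empty, IsEmpty.forall_iff, implies_true,
      and_true, Nat.cast_zero, mul_zero, div_zero, neg_zero, Real.exp_zero, Nat.cast_one]
    have : ((range R).filter (fun n => n % R = n0 % R)).card ≤ 1 := by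
      rw [Finset.card_le_one]
      intro x hx y hy
      obtain ⟨h1, h2⟩ := Finset.mem_filter.1 hx
      obtain ⟨h3, h4⟩ := Finset.mem_filter.1 hy
      rw [Nat.mod_eq_of_lt (Finset.mem_range.1 h1)] at h2
      rw [Nat.mod_eq_of_lt (Finset.mem_range.1 h3)] at h4
      rw [h2, h4]
    exact_mod_cast this
  have hH : (0:ℝ) < H := by exact_mod_cast hH0
  set Bad : ℕ → Finset ℕ := fun p => badRes p (finSet r n0 H v E p) with hBad
  have h1 := avoid_count R n0 hR Bad S (fun p hp => ⟨(hS p hp).1, (hS p hp).2.1,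
    badRes_sub p (hS p hp).1.pos _⟩)
  have h2 : ((range (R * ∏ p ∈ S, p)).filter (fun n => n % R = n0 % R ∧
      ∀ p ∈ S, ∀ x ∈ finSet r n0 H v E p, ¬ p ∣ n + x)) ⊆
      ((range (R * ∏ p ∈ S, p)).filter (fun n => n % R = n0 % R ∧ ∀ p ∈ S, n % p ∉ Bad p)) := by
    intro n hn
    obtain ⟨a1, a2, a3⟩ := Finset.mem_filter.1 hn
    refine Finset.mem_filter.2 ⟨a1, a2, fun p hp hmem => ?_⟩
    obtain ⟨x, hx, hd⟩ := badRes_mem (hS p hp).1.pos _ hmem
    exact a3 p hp x hx hd
  have h3 := (Finset.card_le_card h2).trans h1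
  have h4 : ∀ p ∈ S, (((p - (Bad p).card : ℕ)) : ℝ) ≤
      p * Real.exp (-(((finSet r n0 H v E p).card : ℝ) / (2 * H))) := by
    intro p hp
    obtain ⟨hpp, hpR, hpH⟩ := hS p hp
    have hp0 : (0:ℝ) < p := by exact_mod_cast hpp.pos
    have hpH' : (p:ℝ) ≤ H := by exact_mod_cast hpH
    have hBp : (Bad p).card ≤ p := by
      have := Finset.card_le_card (badRes_sub p hpp.pos (finSet r n0 H v E p))
      simpa using this
    rw [Nat.cast_sub hBp]
    have h5 := badRes_card p H hpp.pos (finSet r n0 H v E p) (Finset.filter_subset _ _)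
    have h5' : ((finSet r n0 H v E p).card : ℝ) ≤ (((H / p : ℕ) : ℝ) + 1) * (Bad p).card := by
      exact_mod_cast h5
    have h6 : (((H / p : ℕ) : ℝ) + 1) ≤ 2 * H / p := by
      have a1 : ((H / p : ℕ) : ℝ) ≤ (H:ℝ) / p := Nat.cast_div_le
      have a2 : (1:ℝ) ≤ (H:ℝ) / p := by rw [le_div_iff₀ hp0]; linarith
      have a3 : 2 * (H:ℝ) / p = H / p + H / p := by ring
      linarith
    have h7 : ((finSet r n0 H v E p).card : ℝ) ≤ (2 * H / p) * (Bad p).card :=
      h5'.trans (mul_le_mul_of_nonneg_right h6 (Nat.cast_nonneg _))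
    have h8 : ((finSet r n0 H v E p).card : ℝ) / (2 * H) ≤ (Bad p).card / p := by
      rw [div_le_div_iff₀ (by positivity) hp0]
      have : (2 * (H:ℝ) / p) * (Bad p).card * p = (Bad p).card * (2 * H) := by field_simp
      nlinarith
    have h9 := Real.add_one_le_exp (-(((finSet r n0 H v E p).card : ℝ) / (2 * H)))
    have h10 : 1 - ((Bad p).card : ℝ) / p ≤ Real.exp (-(((finSet r n0 H v E p).card : ℝ) / (2 * H))) := by
      linarith
    calc (p:ℝ) - (Bad p).card = p * (1 - (Bad p).card / p) := by field_simp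
      _ ≤ _ := mul_le_mul_of_nonneg_left h10 hp0.le
  calc ((((range (R * ∏ p ∈ S, p)).filter (fun n => n % R = n0 % R ∧
      ∀ p ∈ S, ∀ x ∈ finSet r n0 H v E p, ¬ p ∣ n + x))).card : ℝ)
      ≤ ((∏ p ∈ S, (p - (Bad p).card) : ℕ) : ℝ) := by exact_mod_cast h3
    _ = ∏ p ∈ S, ((p - (Bad p).card : ℕ) : ℝ) := by rw [Nat.cast_prod]
    _ ≤ ∏ p ∈ S, ((p:ℝ) * Real.exp (-(((finSet r n0 H v E p).card : ℝ) / (2 * H)))) :=
        Finset.prod_le_prod (fun _ _ => Nat.cast_nonneg _) h4
    _ = ((∏ p ∈ S, p : ℕ) : ℝ) * Real.exp (-∑ p ∈ S, ((finSet r n0 H v E p).card : ℝ) / (2 * H)) := by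
        rw [Finset.prod_mul_distrib, ← Real.exp_sum, Nat.cast_prod, Finset.sum_neg_distrib]
    _ ≤ _ := by
        refine mul_le_mul_of_nonneg_left ?_ (Nat.cast_nonneg _)
        apply Real.exp_le_exp.2
        rw [← Finset.sum_div]
        have : κ / (2 * H) ≤ (∑ p ∈ S, ((finSet r n0 H v E p).card : ℝ)) / (2 * H) :=
          div_le_div_of_nonneg_right hκ (by positivity)
        linarith

end Pool.Agent.H55.Odd
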