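import Pool.Agent.H55.Odd.Class
import Pool.Agent.H55.Odd.Cs

/-!
The high frequency part: bound for the average over the last prime of `Phi`.
-/

set_option autoImplicit false
set_option linter.unusedSectionVars false

namespace Pool.Agent.H55.Odd

open Finset

variable {H : ℕ} [NeZero H]

/-- Correlation of `f` and `g` along the class `e ∣ a + x` with shift `e * n`. -/
noncomputable def Phi (a e : ℕ) (f g : ZMod H → ℝ) (n : ℕ) : ℝ :=
  e * mean (fun x => ind a e x * f x * g (x - ((e * n : ℕ) : ZMod H)))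

lemma corr (F G : ZMod H → ℝ) (t : ZMod H) :
    ((mean (fun x => F x * G (x - t)) : ℝ) : ℂ) = ∑ α, hatR F α * hatR G (-α) * ψ (α * t) := by
  have h1 : mean (fun x => F x * G (x - t)) = mean (fun y => F (y + t) * G y) := by
    rw [← mean_shift (fun x => F x * G (x - t)) t]
    simp only [add_sub_cancel_right]
  rw [h1, mean]
  push_cast
  have h2 : ∀ y : ZMod H, (F (y + t) : ℂ) * (G y : ℂ) =
      ∑ α, hatR F α * ψ (α * (y + t)) * (G y : ℂ) := by
    intro y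
    rw [← Finset.sum_mul]
    congr 1
    exact (hat_inv (fun x => (F x : ℂ)) (y + t)).symm
  rw [Finset.sum_congr rfl fun y _ => h2 y, Finset.sum_comm, Finset.mul_sum]
  refine Finset.sum_congr rfl fun α _ => ?_
  rw [show hatR G (-α) = (1 / (H:ℂ)) * ∑ y, (G y : ℂ) * ψ (y * α) by
    simp only [hatR, hat, mul_neg, neg_neg]]
  rw [show hatR F α * ((1 / (H:ℂ)) * ∑ y, (G y : ℂ) * ψ (y * α)) * ψ (α * t) =
    (1 / (H:ℂ)) * ((hatR F α * ψ (α * t)) * ∑ y, (G y : ℂ) * ψ (y * α)) by ring]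
  congr 1
  rw [Finset.mul_sum]
  refine Finset.sum_congr rfl fun y _ => ?_
  rw [mul_add, psi_add, mul_comm y α]
  ring

/-- Fourier formula for `Phi`. -/
lemma Phi_fourier {e : ℕ} (he : e ∣ H) (a : ℕ) (f g : ZMod H → ℝ) (n : ℕ) :
    ((Phi a e f g n : ℝ) : ℂ) = ∑ α : ZMod H, ((e : ℂ) * (hatR (fun x => ind a e x * f x) α *
      hatR (fun x => ind a e x * g x) (-α))) * ψ (α * ((e : ZMod H) * (n : ZMod H))) := by
  have h1 : mean (fun x => ind a e x * f x * g (x - ((e * n : ℕ) : ZMod H))) =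
      mean (fun x => (ind a e x * f x) * (ind a e (x - ((e * n : ℕ) : ZMod H)) *
        g (x - ((e * n : ℕ) : ZMod H)))) := by
    congr 1
    funext x
    rw [ind_shift_sub he a _ (Dvd.intro _ rfl)]
    have := ind_sq (H := H) a e x
    rw [show ind a e x * f x * (ind a e x * g (x - ((e * n : ℕ) : ZMod H))) =
      ind a e x ^ 2 * f x * g (x - ((e * n : ℕ) : ZMod H)) by ring, this]
  rw [Phi, h1]
  push_cast
  have h2 := corr (fun x => ind a e x * f x) (fun x => ind a e x * g x) ((e * n : ℕ) : ZMod H)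
  push_cast at h2
  rw [h2, Finset.mul_sum]
  refine Finset.sum_congr rfl fun α _ => ?_
  ring

/-! ### Multipliers -/

noncomputable def mult (M l : ℕ) (β : ZMod H) : ℂ :=
  (1 / (l : ℂ)) * ∑ i ∈ range l, ψ (((M * i : ℕ) : ZMod H) * β)

lemma hatR_T (M l : ℕ) (f : ZMod H → ℝ) (β : ZMod H) : hatR (T M l f) β = mult M l β * hatR f β := by
  simp only [hatR, hat, T, mult]
  have h1 : ∀ x : ZMod H, (((1 / (l : ℝ)) * ∑ i ∈ range l, f (x + ((M * i : ℕ) : ZMod H)) : ℝ) : ℂ) *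
      ψ (-(x * β)) = (1 / (l:ℂ)) * ∑ i ∈ range l, ((f (x + ((M * i : ℕ) : ZMod H)) : ℝ) : ℂ) *
        ψ (-((x + ((M * i : ℕ) : ZMod H)) * β)) * ψ (((M * i : ℕ) : ZMod H) * β) := by
    intro x
    push_cast
    rw [mul_assoc, Finset.sum_mul]
    congr 1
    refine Finset.sum_congr rfl fun i _ => ?_
    rw [mul_assoc, ← psi_add]
    congr 2; ring
  rw [Finset.sum_congr rfl fun x _ => h1 x, ← Finset.mul_sum, Finset.sum_comm]
  have h2 : ∀ i ∈ range l, ∑ x : ZMod H, ((f (x + ((M * i : ℕ) : ZMod H)) : ℝ) : ℂ) *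
        ψ (-((x + ((M * i : ℕ) : ZMod H)) * β)) * ψ (((M * i : ℕ) : ZMod H) * β) =
      ψ (((M * i : ℕ) : ZMod H) * β) * ∑ x : ZMod H, (f x : ℂ) * ψ (-(x * β)) := by
    intro i _
    rw [← Finset.sum_mul, mul_comm]
    congr 1
    exact Fintype.sum_equiv (Equiv.addRight ((M * i : ℕ) : ZMod H)) _ _ fun x => rfl
  rw [Finset.sum_congr rfl h2, ← Finset.sum_mul]
  ring

lemma hatR_Ts (M l : ℕ) (f : ZMod H → ℝ) (β : ZMod H) :
    hatR (Ts M l f) β = (starRingEnd ℂ) (mult M l β) * hatR f β := by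
  simp only [hatR, hat, Ts, mult, map_mul, map_sum, map_div₀, map_one, map_natCast, ← psi_neg]
  have h1 : ∀ x : ZMod H, (((1 / (l : ℝ)) * ∑ i ∈ range l, f (x - ((M * i : ℕ) : ZMod H)) : ℝ) : ℂ) *
      ψ (-(x * β)) = (1 / (l:ℂ)) * ∑ i ∈ range l, ((f (x + -((M * i : ℕ) : ZMod H)) : ℝ) : ℂ) *
        ψ (-((x + -((M * i : ℕ) : ZMod H)) * β)) * ψ (-(((M * i : ℕ) : ZMod H) * β)) := by
    intro x
    push_cast
    rw [mul_assoc, Finset.sum_mul]
    congr 1
    refine Finset.sum_congr rfl fun i _ => ?_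
    rw [mul_assoc, ← psi_add, sub_eq_add_neg]
    congr 2; ring
  rw [Finset.sum_congr rfl fun x _ => h1 x, ← Finset.mul_sum, Finset.sum_comm]
  have h2 : ∀ i ∈ range l, ∑ x : ZMod H, ((f (x + -((M * i : ℕ) : ZMod H)) : ℝ) : ℂ) *
        ψ (-((x + -((M * i : ℕ) : ZMod H)) * β)) * ψ (-(((M * i : ℕ) : ZMod H) * β)) =
      ψ (-(((M * i : ℕ) : ZMod H) * β)) * ∑ x : ZMod H, (f x : ℂ) * ψ (-(x * β)) := by
    intro i _
    rw [← Finset.sum_mul, mul_comm]
    congr 1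
    exact Fintype.sum_equiv (Equiv.addRight (-((M * i : ℕ) : ZMod H))) _ _ fun x => rfl
  rw [Finset.sum_congr rfl h2, ← Finset.sum_mul]
  ring

lemma hatR_sub (f g : ZMod H → ℝ) (β : ZMod H) :
    hatR (fun x => f x - g x) β = hatR f β - hatR g β := by
  simp only [hatR, hat]
  push_cast
  simp only [sub_mul, Finset.sum_sub_distrib]
  ring

/-- The complement of `P` is small where the multiplier is close to `1`. -/
lemma res_bound (M l : ℕ) (hl : 0 < l) (f : ZMod H → ℝ) (β : ZMod H) (κ : ℝ)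
    (hκ : ∀ i < l, ‖ψ (((M * i : ℕ) : ZMod H) * β) - 1‖ ≤ κ) :
    ‖hatR (fun x => f x - P M l f x) β‖ ≤ 2 * κ * ‖hatR f β‖ := by
  have hl' : (0:ℝ) < l := by exact_mod_cast hl
  have hlC : (l:ℂ) ≠ 0 := by exact_mod_cast hl.ne'
  set τ := mult M l β with hτ
  have h1 : hatR (fun x => f x - P M l f x) β = (1 - (‖τ‖^2 : ℝ)) * hatR f β := by
    rw [hatR_sub, P, hatR_Ts, hatR_T, ← hτ, ← mul_assoc, ← Complex.normSq_eq_conj_mul_self,
      Complex.normSq_eq_norm_sq]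
    ring
  have h2 : ‖τ - 1‖ ≤ κ := by
    have : τ - 1 = (1 / (l:ℂ)) * ∑ i ∈ range l, (ψ (((M * i : ℕ) : ZMod H) * β) - 1) := by
      rw [hτ, mult, Finset.sum_sub_distrib, Finset.sum_const, card_range, nsmul_eq_mul]
      field_simp
    rw [this, norm_mul]
    calc ‖1 / (l:ℂ)‖ * ‖∑ i ∈ range l, (ψ (((M * i : ℕ) : ZMod H) * β) - 1)‖
        ≤ (1 / (l:ℝ)) * ∑ i ∈ range l, κ := by
          refine mul_le_mul (le_of_eq (by simp)) ?_ (norm_nonneg _) (by positivity)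
          exact (norm_sum_le _ _).trans (Finset.sum_le_sum fun i hi => hκ i (Finset.mem_range.1 hi))
      _ = κ := by rw [Finset.sum_const, card_range, nsmul_eq_mul]; field_simp
  have h3 : ‖τ‖ ≤ 1 := by
    rw [hτ, mult, norm_mul]
    calc ‖1 / (l:ℂ)‖ * ‖∑ i ∈ range l, ψ (((M * i : ℕ) : ZMod H) * β)‖
        ≤ (1 / (l:ℝ)) * ∑ i ∈ range l, 1 := by
          refine mul_le_mul (le_of_eq (by simp)) ?_ (norm_nonneg _) (by positivity)
          exact (norm_sum_le _ _).trans (Finset.sum_le_sum fun i _ => (norm_psi _).le)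
      _ = 1 := by rw [Finset.sum_const, card_range, nsmul_eq_mul]; field_simp
  have h4 : 1 - κ ≤ ‖τ‖ := by
    have := norm_sub_norm_le (1:ℂ) τ
    rw [norm_one, norm_sub_rev] at this
    linarith
  have hκ0 : 0 ≤ κ := (norm_nonneg _).trans h2
  rw [h1, norm_mul]
  refine mul_le_mul_of_nonneg_right ?_ (norm_nonneg _)
  rw [← Complex.ofReal_one, ← Complex.ofReal_sub, Complex.norm_real, Real.norm_eq_abs, abs_le]
  constructor
  · nlinarith [norm_nonneg τ]
  · nlinarith [norm_nonneg τ]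

lemma psi_int_bound (t : ℤ) : ‖ψ ((t : ℤ) : ZMod H) - 1‖ ≤ 2 * Real.pi * |(t:ℝ)| / H := by
  rw [psi_intCast]
  have : (2 * (Real.pi : ℂ) * Complex.I * t / H) = Complex.I * ((2 * Real.pi * t / H : ℝ) : ℂ) := by
    push_cast; ring
  rw [this]
  refine (Real.norm_exp_I_mul_ofReal_sub_one_le).trans (le_of_eq ?_)
  rw [Real.norm_eq_abs, abs_div, abs_mul, abs_mul, abs_of_pos Real.pi_pos, abs_two, Nat.abs_cast]

/-- Descent: from the class `s q` to the class `s`. -/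
lemma descent {s q : ℕ} (hq : q ∣ H) (hsq : Nat.Coprime s q) (a : ℕ) (F : ZMod H → ℝ) (θ : ZMod H) :
    ∑ α : ZMod H, (if ((s * q : ℕ) : ZMod H) * α = θ then
      ‖hatR (fun x => ind a (s * q) x * F x) α‖ ^ 2 else 0) ≤
    ∑ α : ZMod H, (if ((s * q : ℕ) : ZMod H) * α = θ then
      ‖hatR (fun x => ind a s x * F x) α‖ ^ 2 else 0) := by
  have hH0 : H ≠ 0 := NeZero.ne H
  have hq0 : q ≠ 0 := by rintro rfl; exact hH0 (Nat.eq_zero_of_zero_dvd hq)
  have hq' : (0:ℝ) < q := by exact_mod_cast Nat.pos_of_ne_zero hq0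
  have h1 : ∀ α : ZMod H, (if ((s * q : ℕ) : ZMod H) * α = θ then
      ‖hatR (fun x => ind a (s * q) x * F x) α‖ ^ 2 else 0) ≤
      (1 / (q:ℝ)) * ∑ c ∈ range q, (if ((s * q : ℕ) : ZMod H) * (α - ((c * (H / q) : ℕ) : ZMod H)) = θ then
      ‖hatR (fun x => ind a s x * F x) (α - ((c * (H / q) : ℕ) : ZMod H))‖ ^ 2 else 0) := by
    intro α
    have e : ∀ c : ℕ, ((s * q : ℕ) : ZMod H) * (α - ((c * (H / q) : ℕ) : ZMod H)) =
        ((s * q : ℕ) : ZMod H) * α := by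
      intro c
      rw [mul_sub, ← Nat.cast_mul, show s * q * (c * (H / q)) = s * c * (q * (H / q)) by ring,
        Nat.mul_div_cancel' hq]
      simp
    simp only [e]
    split_ifs with h
    · exact hat_class hq (fun x a => ind_mul hsq a x) a F α
    · simp
  refine (Finset.sum_le_sum fun α _ => h1 α).trans (le_of_eq ?_)
  rw [← Finset.mul_sum, Finset.sum_comm]
  have h2 : ∀ c ∈ range q, ∑ α : ZMod H, (if ((s * q : ℕ) : ZMod H) * (α - ((c * (H / q) : ℕ) : ZMod H)) = θ then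
      ‖hatR (fun x => ind a s x * F x) (α - ((c * (H / q) : ℕ) : ZMod H))‖ ^ 2 else 0) =
      ∑ α : ZMod H, (if ((s * q : ℕ) : ZMod H) * α = θ then
      ‖hatR (fun x => ind a s x * F x) α‖ ^ 2 else 0) := by
    intro c _
    exact Fintype.sum_equiv (Equiv.subRight ((c * (H / q) : ℕ) : ZMod H)) _ _ fun x => rfl
  rw [Finset.sum_congr rfl h2, Finset.sum_const, card_range, nsmul_eq_mul]
  field_simp

/-- The local mass of the high frequency part. -/
lemma Su_bound (a s : ℕ) (hs : 0 < s) (Q : Finset ℕ) (hdiv : ∀ q ∈ Q, s * q ∣ H)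
    (hcop : ∀ q ∈ Q, Nat.Coprime s q) (M l : ℕ) (hl : 0 < l) (hsM : s ∣ M)
    (hM : ∀ q ∈ Q, ∀ q' ∈ Q, q' < q → s * (q - q') ∣ M)
    (f : ZMod H → ℝ) (hf : ∀ x, |f x| ≤ 1) (hF : ∀ x, |f x - P M l f x| ≤ 1)
    (k : ℕ) (hk : k ≤ H) (δ : ℝ) (hδ : 4 * Real.pi * M * l * k / H ≤ δ)
    (L : ℝ) (hL : 0 < L) (φ : ZMod H) :
    ∑ q ∈ Q, (1 / (L * q)) * ∑ j ∈ range k, ∑ α : ZMod H,
      (if ((s * q : ℕ) : ZMod H) * α = φ - (j : ZMod H) then
        (s * q : ℝ) * ‖hatR (fun x => ind a (s * q) x * (f x - P M l f x)) α‖ ^ 2 else 0) ≤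
      (1 / L) * (1 + Q.card * δ ^ 2) := by
  classical
  have hH := HR_pos (H := H)
  have hH0 : H ≠ 0 := NeZero.ne H
  have hs' : (0:ℝ) < s := by exact_mod_cast hs
  have hδ0 : 0 ≤ δ := le_trans (by positivity) hδ
  set F : ZMod H → ℝ := fun x => f x - P M l f x with hFdef
  set G : ZMod H → ℝ := fun x => ind a s x * F x with hG
  set hit : ℕ → ZMod H → Prop := fun q β => ∃ j < k, ((s * q : ℕ) : ZMod H) * β = φ - (j : ZMod H) with hhit
  have hsH : ∀ q ∈ Q, s ∣ H := fun q hq => (Dvd.intro _ rfl).trans (hdiv q hq)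
  -- step 1
  have h1 : ∀ q ∈ Q, (1 / (L * q)) * ∑ j ∈ range k, ∑ α : ZMod H,
      (if ((s * q : ℕ) : ZMod H) * α = φ - (j : ZMod H) then
        (s * q : ℝ) * ‖hatR (fun x => ind a (s * q) x * F x) α‖ ^ 2 else 0) ≤
      (s / L) * ∑ β : ZMod H, ‖hatR G β‖ ^ 2 * (if hit q β then 1 else 0) := by
    intro q hq
    have hqH : q ∣ H := (Dvd.intro_left _ rfl).trans (hdiv q hq)
    have hq0 : q ≠ 0 := by rintro rfl; exact hH0 (Nat.eq_zero_of_zero_dvd hqH)
    have hq' : (0:ℝ) < q := by exact_mod_cast Nat.pos_of_ne_zero hq0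
    have e1 : ∀ j ∈ range k, ∑ α : ZMod H,
        (if ((s * q : ℕ) : ZMod H) * α = φ - (j : ZMod H) then
        (s * q : ℝ) * ‖hatR (fun x => ind a (s * q) x * F x) α‖ ^ 2 else 0) ≤
        (s * q : ℝ) * ∑ β : ZMod H, (if ((s * q : ℕ) : ZMod H) * β = φ - (j : ZMod H) then
          ‖hatR G β‖ ^ 2 else 0) := by
      intro j _
      have := descent hqH (hcop q hq) a F (φ - (j : ZMod H))
      refine le_trans (le_of_eq ?_) (mul_le_mul_of_nonneg_left this (by positivity))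
      rw [Finset.mul_sum]
      refine Finset.sum_congr rfl fun α _ => ?_
      split_ifs <;> simp
    have e2 : ∀ β : ZMod H, ∑ j ∈ range k, (if ((s * q : ℕ) : ZMod H) * β = φ - (j : ZMod H) then
          ‖hatR G β‖ ^ 2 else 0) ≤ ‖hatR G β‖ ^ 2 * (if hit q β then 1 else 0) := by
      intro β
      by_cases hh : hit q β
      · rw [if_pos hh, mul_one]
        obtain ⟨j0, hj0, hj0'⟩ := hh
        rw [Finset.sum_eq_single_of_mem j0 (Finset.mem_range.2 hj0)]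
        · rw [if_pos hj0']
        · intro j hj hne
          rw [if_neg]
          intro h
          apply hne
          have h3 : (j : ZMod H) = (j0 : ZMod H) := by
            have := h.symm.trans hj0'
            exact sub_right_injective this
          rw [ZMod.natCast_eq_natCast_iff] at h3
          exact Nat.ModEq.eq_of_lt_of_lt h3 (by have := Finset.mem_range.1 hj; omega) (by omega)
      · rw [if_neg hh, mul_zero]
        refine le_of_eq (Finset.sum_eq_zero fun j hj => ?_)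
        rw [if_neg]
        intro h
        exact hh ⟨j, Finset.mem_range.1 hj, h⟩
    calc (1 / (L * q)) * ∑ j ∈ range k, ∑ α : ZMod H,
          (if ((s * q : ℕ) : ZMod H) * α = φ - (j : ZMod H) then
          (s * q : ℝ) * ‖hatR (fun x => ind a (s * q) x * F x) α‖ ^ 2 else 0)
        ≤ (1 / (L * q)) * ∑ j ∈ range k, (s * q : ℝ) * ∑ β : ZMod H,
          (if ((s * q : ℕ) : ZMod H) * β = φ - (j : ZMod H) then ‖hatR G β‖ ^ 2 else 0) :=
          mul_le_mul_of_nonneg_left (Finset.sum_le_sum e1) (by positivity)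
      _ = (s / L) * ∑ β : ZMod H, ∑ j ∈ range k,
          (if ((s * q : ℕ) : ZMod H) * β = φ - (j : ZMod H) then ‖hatR G β‖ ^ 2 else 0) := by
          rw [← Finset.mul_sum, Finset.sum_comm]
          field_simp
      _ ≤ _ := mul_le_mul_of_nonneg_left (Finset.sum_le_sum fun β _ => e2 β) (by positivity)
  -- step 2
  have h2 : ∀ β : ZMod H, ‖hatR G β‖ ^ 2 * ((Q.filter (fun q => hit q β)).card : ℝ) ≤
      ‖hatR G β‖ ^ 2 + Q.card * δ ^ 2 * ‖hatR (fun x => ind a s x * f x) β‖ ^ 2 := by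
    intro β
    rcases Nat.lt_or_ge 1 (Q.filter (fun q => hit q β)).card with hc | hc
    · obtain ⟨q, hq, q', hq', hne⟩ := Finset.one_lt_card.1 hc
      -- wlog q' < q
      have key : ∀ q ∈ Q, ∀ q' ∈ Q, q' < q → hit q β → hit q' β →
          ‖hatR G β‖ ≤ δ * ‖hatR (fun x => ind a s x * f x) β‖ := by
        intro q hq q' hq' hlt hhq hhq'
        obtain ⟨j, hj, hjq⟩ := hhq
        obtain ⟨j', hj', hjq'⟩ := hhq'
        have hPs : G = fun x => (ind a s x * f x) - P M l (fun y => ind a s y * f y) x := by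
          funext x
          rw [P_ind (hsH q hq) hsM, hG, hFdef]
          ring
        rw [hPs]
        obtain ⟨μ, hμ⟩ := hM q hq q' hq' hlt
        have hdiff : ((s * (q - q') : ℕ) : ZMod H) * β = (((j' : ℤ) - j : ℤ) : ZMod H) := by
          have : ((s * (q - q') : ℕ) : ZMod H) = ((s * q : ℕ) : ZMod H) - ((s * q' : ℕ) : ZMod H) := by
            rw [← Nat.cast_sub (Nat.mul_le_mul_left s hlt.le), Nat.mul_sub]
          rw [this, sub_mul, hjq, hjq']
          push_cast; ring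
        have hκ : ∀ i < l, ‖ψ (((M * i : ℕ) : ZMod H) * β) - 1‖ ≤ 2 * Real.pi * M * l * k / H := by
          intro i hi
          have e3 : ((M * i : ℕ) : ZMod H) * β = (((μ * i : ℕ) * ((j' : ℤ) - j) : ℤ) : ZMod H) := by
            rw [hμ]
            push_cast
            push_cast at hdiff
            rw [show (s:ZMod H) * ((q - q' : ℕ) : ZMod H) * (μ:ZMod H) * (i:ZMod H) * β =
              (μ:ZMod H) * (i:ZMod H) * ((s:ZMod H) * ((q - q' : ℕ) : ZMod H) * β) by ring, hdiff]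
          rw [e3]
          refine (psi_int_bound _).trans ?_
          rw [div_le_div_iff_of_pos_right hH]
          have hμM : μ ≤ M := by
            rcases Nat.eq_zero_or_pos M with h0 | h0
            · rw [h0] at hμ
              have : 0 < s * (q - q') := Nat.mul_pos hs (by omega)
              rcases Nat.mul_eq_zero.1 hμ.symm with h | h <;> omega
            · exact Nat.le_of_dvd h0 (hμ ▸ Dvd.intro_left _ rfl)
          have hμM' : (μ:ℝ) ≤ M := by exact_mod_cast hμM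
          have hil : (i:ℝ) ≤ l := by exact_mod_cast hi.le
          have hjk : |((j':ℝ) - j)| ≤ k := by
            have a1 : (j:ℝ) ≤ k := by exact_mod_cast hj.le
            have a2 : (j':ℝ) ≤ k := by exact_mod_cast hj'.le
            have a3 : (0:ℝ) ≤ j := Nat.cast_nonneg _
            have a4 : (0:ℝ) ≤ j' := Nat.cast_nonneg _
            rw [abs_le]; constructor <;> linarith
          push_cast
          rw [abs_mul, abs_mul, Nat.abs_cast, Nat.abs_cast]
          calc 2 * Real.pi * ((μ:ℝ) * i * |((j':ℝ) - j)|) ≤ 2 * Real.pi * ((M:ℝ) * l * k) := by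
                gcongr
            _ = _ := by ring
        have := res_bound M l hl (fun x => ind a s x * f x) β _ hκ
        refine this.trans (mul_le_mul_of_nonneg_right ?_ (norm_nonneg _))
        refine le_trans (le_of_eq ?_) hδ
        ring
      have hres : ‖hatR G β‖ ≤ δ * ‖hatR (fun x => ind a s x * f x) β‖ := by
        have m1 := Finset.mem_filter.1 hq
        have m2 := Finset.mem_filter.1 hq'
        rcases Nat.lt_or_ge q' q with h | h
        · exact key q m1.1 q' m2.1 h m1.2 m2.2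
        · exact key q' m2.1 q m1.1 (lt_of_le_of_ne h hne) m2.2 m1.2
      have hcard : ((Q.filter (fun q => hit q β)).card : ℝ) ≤ Q.card := by
        exact_mod_cast Finset.card_filter_le _ _
      have e4 : ‖hatR G β‖ ^ 2 ≤ δ^2 * ‖hatR (fun x => ind a s x * f x) β‖ ^ 2 := by
        rw [← mul_pow]; exact pow_le_pow_left₀ (norm_nonneg _) hres 2
      have e5 : ‖hatR G β‖ ^ 2 * ((Q.filter (fun q => hit q β)).card : ℝ) ≤
          (δ^2 * ‖hatR (fun x => ind a s x * f x) β‖ ^ 2) * Q.card :=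
        mul_le_mul e4 hcard (by positivity) (by positivity)
      have e6 : 0 ≤ ‖hatR G β‖ ^ 2 := by positivity
      linarith
    · have hc' : ((Q.filter (fun q => hit q β)).card : ℝ) ≤ 1 := by exact_mod_cast hc
      have e1 : ‖hatR G β‖ ^ 2 * ((Q.filter (fun q => hit q β)).card : ℝ) ≤ ‖hatR G β‖ ^ 2 * 1 :=
        mul_le_mul_of_nonneg_left hc' (by positivity)
      have e2 : 0 ≤ Q.card * δ ^ 2 * ‖hatR (fun x => ind a s x * f x) β‖ ^ 2 := by positivity
      linarith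
  -- Parseval
  rcases Q.eq_empty_or_nonempty with hQe | ⟨q0, hq0⟩
  · subst hQe
    simp
    positivity
  have hsH' : s ∣ H := hsH q0 hq0
  have h3 : ∑ β : ZMod H, ‖hatR G β‖ ^ 2 ≤ 1 / s := by
    rw [parsevalR, ← mean_ind hsH' a]
    refine mean_mono fun x => ?_
    rw [hG]
    simp only
    rw [mul_pow, ind_sq]
    have := hF x
    have h4 : F x ^ 2 ≤ 1 := by rw [← sq_abs]; nlinarith [abs_nonneg (F x)]
    have h5 := ind_nonneg (H := H) a s x
    nlinarith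
  have h4 : ∑ β : ZMod H, ‖hatR (fun x => ind a s x * f x) β‖ ^ 2 ≤ 1 / s := by
    rw [parsevalR, ← mean_ind hsH' a]
    refine mean_mono fun x => ?_
    rw [mul_pow, ind_sq]
    have := hf x
    have h4 : f x ^ 2 ≤ 1 := by rw [← sq_abs]; nlinarith [abs_nonneg (f x)]
    have h5 := ind_nonneg (H := H) a s x
    nlinarith
  calc ∑ q ∈ Q, (1 / (L * q)) * ∑ j ∈ range k, ∑ α : ZMod H,
      (if ((s * q : ℕ) : ZMod H) * α = φ - (j : ZMod H) then
        (s * q : ℝ) * ‖hatR (fun x => ind a (s * q) x * F x) α‖ ^ 2 else 0)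
      ≤ ∑ q ∈ Q, (s / L) * ∑ β : ZMod H, ‖hatR G β‖ ^ 2 * (if hit q β then 1 else 0) :=
        Finset.sum_le_sum h1
    _ = (s / L) * ∑ β : ZMod H, ‖hatR G β‖ ^ 2 * ((Q.filter (fun q => hit q β)).card : ℝ) := by
        rw [← Finset.mul_sum, Finset.sum_comm]
        congr 1
        refine Finset.sum_congr rfl fun β _ => ?_
        rw [← Finset.mul_sum, Finset.sum_boole]
    _ ≤ (s / L) * ∑ β : ZMod H, (‖hatR G β‖ ^ 2 + Q.card * δ ^ 2 *
          ‖hatR (fun x => ind a s x * f x) β‖ ^ 2) :=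
        mul_le_mul_of_nonneg_left (Finset.sum_le_sum fun β _ => h2 β) (by positivity)
    _ = (s / L) * (∑ β : ZMod H, ‖hatR G β‖ ^ 2 + Q.card * δ ^ 2 *
          ∑ β : ZMod H, ‖hatR (fun x => ind a s x * f x) β‖ ^ 2) := by
        rw [Finset.sum_add_distrib, ← Finset.mul_sum]
    _ ≤ (s / L) * (1 / s + Q.card * δ ^ 2 * (1 / s)) := by
        refine mul_le_mul_of_nonneg_left (add_le_add h3 (mul_le_mul_of_nonneg_left h4 ?_)) ?_ <;>
          positivity
    _ = (1 / L) * (1 + Q.card * δ ^ 2) := by field_simp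

lemma mass_le_one {e : ℕ} (he : e ∣ H) (a : ℕ) (h : ZMod H → ℝ) (hh : ∀ x, |h x| ≤ 1) :
    (e : ℝ) * ∑ α, ‖hatR (fun x => ind a e x * h x) α‖ ^ 2 ≤ 1 := by
  have hH0 : H ≠ 0 := NeZero.ne H
  have he0 : e ≠ 0 := by rintro rfl; exact hH0 (Nat.eq_zero_of_zero_dvd he)
  have he' : (0:ℝ) < e := by exact_mod_cast Nat.pos_of_ne_zero he0
  have h3 : ∑ β : ZMod H, ‖hatR (fun x => ind a e x * h x) β‖ ^ 2 ≤ 1 / e := by
    rw [parsevalR, ← mean_ind he a]
    refine mean_mono fun x => ?_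
    rw [mul_pow, ind_sq]
    have := hh x
    have h4 : h x ^ 2 ≤ 1 := by rw [← sq_abs]; nlinarith [abs_nonneg (h x)]
    have h5 := ind_nonneg (H := H) a e x
    nlinarith
  calc (e : ℝ) * ∑ α, ‖hatR (fun x => ind a e x * h x) α‖ ^ 2 ≤ e * (1 / e) :=
        mul_le_mul_of_nonneg_left h3 he'.le
    _ = 1 := by field_simp

/-- High frequency bound, general form. -/
lemma HL_gen (a s : ℕ) (hs : 0 < s) (Q : Finset ℕ) (hdiv : ∀ q ∈ Q, s * q ∣ H)
    (hcop : ∀ q ∈ Q, Nat.Coprime s q) (M l : ℕ) (hl : 0 < l) (hsM : s ∣ M)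
    (hM : ∀ q ∈ Q, ∀ q' ∈ Q, q' < q → s * (q - q') ∣ M)
    (f h : ZMod H → ℝ) (hf : ∀ x, |f x| ≤ 1) (hF : ∀ x, |f x - P M l f x| ≤ 1)
    (hh : ∀ x, |h x| ≤ 1)
    (N k : ℕ) (hk1 : 1 ≤ k) (h16 : 16 * k * N ≤ H) (hk : k ≤ H)
    (δ : ℝ) (hδ : 4 * Real.pi * M * l * k / H ≤ δ)
    (L : ℝ) (hL : 0 < L) (hLQ : L = ∑ q ∈ Q, (1:ℝ) / q)
    (Ph : ℕ → ℕ → ℝ) (u v : ℕ → ZMod H → ℂ)
    (hu : ∀ q α, ‖u q α‖ = ‖hatR (fun x => ind a (s * q) x * (f x - P M l f x)) α‖)
    (hv : ∀ q α, ‖v q α‖ = ‖hatR (fun x => ind a (s * q) x * h x) α‖)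
    (hPh : ∀ q ∈ Q, ∀ n, ((Ph q n : ℝ) : ℂ) = ∑ α : ZMod H, (((s * q : ℕ) : ℂ) * (u q α * v q α)) *
      ψ (α * (((s * q : ℕ) : ZMod H) * (n : ZMod H)))) :
    ∑ n ∈ Ioc N (2 * N), (∑ q ∈ Q, (1 / (L * q)) * Ph q n) ^ 2 ≤
      (2 * H / k) * ((1 / L) * (1 + Q.card * δ ^ 2)) := by
  have hH := HR_pos (H := H)
  have hk' : (0:ℝ) < k := by exact_mod_cast hk1
  have hsq : ∀ q : ℕ, (Real.sqrt ((s * q : ℕ) : ℝ)) * (Real.sqrt ((s * q : ℕ) : ℝ)) = (s * q : ℕ) :=
    fun q => Real.mul_self_sqrt (Nat.cast_nonneg _)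
  have hcs := cs_window Q (fun q => 1 / (L * q)) (fun q _ => by positivity) (fun q => s * q)
    (fun q α => (Real.sqrt ((s * q : ℕ) : ℝ) : ℂ) * u q α)
    (fun q α => (Real.sqrt ((s * q : ℕ) : ℝ) : ℂ) * v q α) N k hk1 h16
    ((1 / L) * (1 + Q.card * δ ^ 2)) ?_
  · have e1 : ∀ n : ℕ, (∑ q ∈ Q, (1 / (L * q)) * Ph q n) ^ 2 =
        ‖∑ q ∈ Q, (((1 / (L * q) : ℝ)) : ℂ) * ∑ α : ZMod H,
          ((Real.sqrt ((s * q : ℕ) : ℝ) : ℂ) * u q α) * ((Real.sqrt ((s * q : ℕ) : ℝ) : ℂ) * v q α) *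
          ψ (α * (((s * q : ℕ) : ZMod H) * (n : ZMod H)))‖ ^ 2 := by
      intro n
      have : ∑ q ∈ Q, (((1 / (L * q) : ℝ)) : ℂ) * ∑ α : ZMod H,
          ((Real.sqrt ((s * q : ℕ) : ℝ) : ℂ) * u q α) * ((Real.sqrt ((s * q : ℕ) : ℝ) : ℂ) * v q α) *
          ψ (α * (((s * q : ℕ) : ZMod H) * (n : ZMod H))) =
          ((∑ q ∈ Q, (1 / (L * q)) * Ph q n : ℝ) : ℂ) := by
        rw [Complex.ofReal_sum]
        refine Finset.sum_congr rfl fun q hq => ?_
        rw [Complex.ofReal_mul, hPh q hq n]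
        congr 1
        refine Finset.sum_congr rfl fun α _ => ?_
        have e2 : ((Real.sqrt ((s * q : ℕ) : ℝ) : ℂ)) * ((Real.sqrt ((s * q : ℕ) : ℝ) : ℂ)) = ((s * q : ℕ) : ℂ) := by
          rw [← Complex.ofReal_mul, hsq]
          simp
        rw [← e2]; ring
      rw [this, Complex.norm_real, Real.norm_eq_abs, sq_abs]
    rw [Finset.sum_congr rfl fun n _ => e1 n]
    refine hcs.trans ?_
    have e3 : ∑ q ∈ Q, (1 / (L * q)) * ∑ α : ZMod H, ‖(Real.sqrt ((s * q : ℕ) : ℝ) : ℂ) * v q α‖ ^ 2 ≤ 1 := by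
      have e4 : ∀ q ∈ Q, (1 / (L * q)) * ∑ α : ZMod H, ‖(Real.sqrt ((s * q : ℕ) : ℝ) : ℂ) * v q α‖ ^ 2 ≤
          1 / (L * q) := by
        intro q hq
        have e5 : ∑ α : ZMod H, ‖(Real.sqrt ((s * q : ℕ) : ℝ) : ℂ) * v q α‖ ^ 2 =
            ((s * q : ℕ) : ℝ) * ∑ α, ‖hatR (fun x => ind a (s * q) x * h x) α‖ ^ 2 := by
          rw [Finset.mul_sum]
          refine Finset.sum_congr rfl fun α _ => ?_
          rw [norm_mul, hv, mul_pow, Complex.norm_real, Real.norm_of_nonneg (Real.sqrt_nonneg _),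
            Real.sq_sqrt (Nat.cast_nonneg _)]
        rw [e5]
        have := mass_le_one (hdiv q hq) a h hh
        exact mul_le_of_le_one_right (by positivity) this
      refine (Finset.sum_le_sum e4).trans (le_of_eq ?_)
      have e6 : ∀ q ∈ Q, (1:ℝ) / (L * q) = (1/L) * (1/q) := fun q _ => by rw [one_div_mul_one_div]
      rw [Finset.sum_congr rfl e6, ← Finset.mul_sum, ← hLQ]
      field_simp
    calc (2 * H / k : ℝ) * ((1 / L) * (1 + Q.card * δ ^ 2)) *
          ∑ q ∈ Q, (1 / (L * q)) * ∑ α : ZMod H, ‖(Real.sqrt ((s * q : ℕ) : ℝ) : ℂ) * v q α‖ ^ 2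
        ≤ (2 * H / k : ℝ) * ((1 / L) * (1 + Q.card * δ ^ 2)) * 1 :=
          mul_le_mul_of_nonneg_left e3 (by positivity)
      _ = _ := mul_one _
  · intro φ
    refine le_trans (le_of_eq ?_) (Su_bound a s hs Q hdiv hcop M l hl hsM hM f hf hF k hk δ hδ L hL φ)
    refine Finset.sum_congr rfl fun q _ => ?_
    congr 1
    refine Finset.sum_congr rfl fun j _ => Finset.sum_congr rfl fun α _ => ?_
    by_cases hc : ((s * q : ℕ) : ZMod H) * α = φ - (j : ZMod H)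
    · rw [if_pos hc, if_pos hc, norm_mul, hu, mul_pow, Complex.norm_real,
        Real.norm_of_nonneg (Real.sqrt_nonneg _), Real.sq_sqrt (Nat.cast_nonneg _)]
      push_cast; ring
    · rw [if_neg hc, if_neg hc]

/-- High frequency bound, function on the left. -/
lemma HL_left (a s : ℕ) (hs : 0 < s) (Q : Finset ℕ) (hdiv : ∀ q ∈ Q, s * q ∣ H)
    (hcop : ∀ q ∈ Q, Nat.Coprime s q) (M l : ℕ) (hl : 0 < l) (hsM : s ∣ M)
    (hM : ∀ q ∈ Q, ∀ q' ∈ Q, q' < q → s * (q - q') ∣ M)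
    (f h : ZMod H → ℝ) (hf : ∀ x, |f x| ≤ 1) (hF : ∀ x, |f x - P M l f x| ≤ 1)
    (hh : ∀ x, |h x| ≤ 1)
    (N k : ℕ) (hk1 : 1 ≤ k) (h16 : 16 * k * N ≤ H) (hk : k ≤ H)
    (δ : ℝ) (hδ : 4 * Real.pi * M * l * k / H ≤ δ)
    (L : ℝ) (hL : 0 < L) (hLQ : L = ∑ q ∈ Q, (1:ℝ) / q) :
    ∑ n ∈ Ioc N (2 * N), (∑ q ∈ Q, (1 / (L * q)) * Phi a (s * q) (fun x => f x - P M l f x) h n) ^ 2 ≤
      (2 * H / k) * ((1 / L) * (1 + Q.card * δ ^ 2)) := by
  refine HL_gen a s hs Q hdiv hcop M l hl hsM hM f h hf hF hh N k hk1 h16 hk δ hδ L hL hLQ _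
    (fun q α => hatR (fun x => ind a (s * q) x * (f x - P M l f x)) α)
    (fun q α => hatR (fun x => ind a (s * q) x * h x) (-α)) (fun _ _ => rfl)
    (fun q α => norm_hatR_neg _ _) ?_
  intro q hq n
  exact Phi_fourier (hdiv q hq) a _ _ n

/-- High frequency bound, function on the right. -/
lemma HL_right (a s : ℕ) (hs : 0 < s) (Q : Finset ℕ) (hdiv : ∀ q ∈ Q, s * q ∣ H)
    (hcop : ∀ q ∈ Q, Nat.Coprime s q) (M l : ℕ) (hl : 0 < l) (hsM : s ∣ M)
    (hM : ∀ q ∈ Q, ∀ q' ∈ Q, q' < q → s * (q - q') ∣ M)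
    (f h : ZMod H → ℝ) (hf : ∀ x, |f x| ≤ 1) (hF : ∀ x, |f x - P M l f x| ≤ 1)
    (hh : ∀ x, |h x| ≤ 1)
    (N k : ℕ) (hk1 : 1 ≤ k) (h16 : 16 * k * N ≤ H) (hk : k ≤ H)
    (δ : ℝ) (hδ : 4 * Real.pi * M * l * k / H ≤ δ)
    (L : ℝ) (hL : 0 < L) (hLQ : L = ∑ q ∈ Q, (1:ℝ) / q) :
    ∑ n ∈ Ioc N (2 * N), (∑ q ∈ Q, (1 / (L * q)) * Phi a (s * q) h (fun x => f x - P M l f x) n) ^ 2 ≤
      (2 * H / k) * ((1 / L) * (1 + Q.card * δ ^ 2)) := by
  refine HL_gen a s hs Q hdiv hcop M l hl hsM hM f h hf hF hh N k hk1 h16 hk δ hδ L hL hLQ _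
    (fun q α => hatR (fun x => ind a (s * q) x * (f x - P M l f x)) (-α))
    (fun q α => hatR (fun x => ind a (s * q) x * h x) α) (fun _ _ => norm_hatR_neg _ _)
    (fun q α => rfl) ?_
  intro q hq n
  rw [Phi_fourier (hdiv q hq) a _ _ n]
  refine Finset.sum_congr rfl fun α _ => ?_
  ring

end Pool.Agent.H55.Odd
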