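import Pool.Agent.H55.Odd.Avg

/-!
The level estimate: if the energies of `f` and `g` hardly increase, then the average of `Phi` over
products of `j` primes is close to a quantity independent of `j`.
-/

set_option autoImplicit false
set_option linter.unusedSectionVars false

namespace Pool.Agent.H55.Odd

open Finset

variable {H : ℕ} [NeZero H]

lemma Phi_sub_left (a e : ℕ) (f f' g : ZMod H → ℝ) (n : ℕ) :
    Phi a e (fun x => f x - f' x) g n = Phi a e f g n - Phi a e f' g n := by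
  simp only [Phi]
  rw [← mul_sub, ← mean_sub]
  congr 2; funext x; ring

lemma Phi_sub_right (a e : ℕ) (f g g' : ZMod H → ℝ) (n : ℕ) :
    Phi a e f (fun x => g x - g' x) n = Phi a e f g n - Phi a e f g' n := by
  simp only [Phi]
  rw [← mul_sub, ← mean_sub]
  congr 2; funext x; ring

lemma Phi_sum_left {ι : Type*} (I : Finset ι) (a e : ℕ) (f : ι → ZMod H → ℝ) (g : ZMod H → ℝ) (n : ℕ) :
    Phi a e (fun x => ∑ i ∈ I, f i x) g n = ∑ i ∈ I, Phi a e (f i) g n := by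
  simp only [Phi]
  rw [← Finset.mul_sum, ← mean_sum]
  congr 2; funext x
  rw [Finset.mul_sum, Finset.sum_mul]

lemma Phi_sum_right {ι : Type*} (I : Finset ι) (a e : ℕ) (f : ZMod H → ℝ) (g : ι → ZMod H → ℝ) (n : ℕ) :
    Phi a e f (fun x => ∑ i ∈ I, g i x) n = ∑ i ∈ I, Phi a e f (g i) n := by
  simp only [Phi]
  rw [← Finset.mul_sum, ← mean_sum]
  congr 2; funext x
  rw [Finset.mul_sum]

/-- Exactly one shift by a multiple of `M` puts `x` in the class. -/
lemma sum_ind_shift {e M ν : ℕ} (he : e ∣ H) (hν : e = 1 + M * ν) (a : ℕ) (x : ZMod H) :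
    ∑ s ∈ range e, ind a e (x - ((M * s : ℕ) : ZMod H)) = 1 := by
  have he0 : 0 < e := by omega
  have : NeZero e := ⟨by omega⟩
  set c : ZMod e := (a : ZMod e) + ZMod.castHom he (ZMod e) x with hc
  have hM : (M : ZMod e) * (ν : ZMod e) = -1 := by
    have : ((1 + M * ν : ℕ) : ZMod e) = 0 := by rw [← hν]; exact ZMod.natCast_self e
    push_cast at this
    linear_combination this
  have h1 : ∀ s : ℕ, ind a e (x - ((M * s : ℕ) : ZMod H)) = if (s : ZMod e) = -(ν : ZMod e) * c then 1 else 0 := by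
    intro s
    unfold ind
    have : (e ∣ a + (x - ((M * s : ℕ) : ZMod H)).val) ↔ (s : ZMod e) = -(ν : ZMod e) * c := by
      rw [dvd_iff he, map_sub, map_natCast]
      push_cast
      constructor
      · intro h
        have : c = M * s := by rw [hc]; linear_combination h
        rw [this]
        linear_combination (s : ZMod e) * hM
      · intro h
        rw [h]
        have : (a : ZMod e) + (ZMod.castHom he (ZMod e) x - (M : ZMod e) * (-(ν : ZMod e) * c)) =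
          c + (M * ν) * c := by rw [hc]; ring
        rw [this, hM]; ring
    simp only [this]
  rw [Finset.sum_congr rfl fun s _ => h1 s]
  set t : ZMod e := -(ν : ZMod e) * c with ht
  rw [Finset.sum_eq_single t.val]
  · rw [if_pos (ZMod.natCast_zmod_val t)]
  · intro s hs hne
    rw [if_neg]
    intro h
    apply hne
    rw [← h, ZMod.val_natCast_of_lt (Finset.mem_range.1 hs)]
  · intro h
    exact absurd (Finset.mem_range.2 (ZMod.val_lt t)) h

/-- Low frequencies do not see the class. -/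
lemma low {e M ν : ℕ} (he : e ∣ H) (hν : e = 1 + M * ν) (a : ℕ) (F G : ZMod H → ℝ) (δ : ℝ)
    (hδ : 0 ≤ δ) (hF : ∀ x, |F x| ≤ 1) (hG : ∀ x, |G x| ≤ 1) (hFl : Lip M δ F) (hGl : Lip M δ G)
    (n : ℕ) : |Phi a e F G n - Phi a 1 F G n| ≤ (ν * n + 2 * e) * δ := by
  have he0 : 0 < e := by omega
  have he' : (0:ℝ) < e := by exact_mod_cast he0
  set K : ZMod H → ℝ := fun x => F x * G (x - (n : ZMod H)) with hK
  have hKl : Lip M (2 * δ) K := by
    intro x
    have e1 : K (x + (M : ZMod H)) - K x = (F (x + (M : ZMod H)) - F x) * G (x + (M:ZMod H) - (n : ZMod H)) +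
        F x * (G (x - (n : ZMod H) + (M : ZMod H)) - G (x - (n : ZMod H))) := by
      rw [hK]
      simp only
      rw [show x - (n : ZMod H) + (M : ZMod H) = x + (M:ZMod H) - (n : ZMod H) by ring]
      ring
    rw [e1]
    refine (abs_add_le _ _).trans ?_
    rw [abs_mul, abs_mul]
    have a1 := mul_le_mul (hFl x) (hG (x + (M:ZMod H) - (n : ZMod H))) (abs_nonneg _) hδ
    have a2 := mul_le_mul (hF x) (hGl (x - (n : ZMod H))) (abs_nonneg _) zero_le_one
    linarith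
  have hP1 : Phi a 1 F G n = mean K := by
    rw [Phi, Nat.cast_one, one_mul]
    congr 1; funext x
    have : ind a 1 x = 1 := by unfold ind; simp
    rw [this, one_mul, one_mul]
  -- step 1
  have h1 : |Phi a e F G n - e * mean (fun x => ind a e x * K x)| ≤ ν * n * δ := by
    rw [Phi, ← mul_sub, ← mean_sub, abs_mul, abs_of_pos he']
    have e1 : mean (fun x => |ind a e x * F x * G (x - ((e * n : ℕ) : ZMod H)) - ind a e x * K x|) ≤
        mean (fun x : ZMod H => (ν * n * δ) * ind a e x) := by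
      refine mean_mono fun x => ?_
      have e2 : ind a e x * F x * G (x - ((e * n : ℕ) : ZMod H)) - ind a e x * K x =
          ind a e x * (F x * (G (x - (n : ZMod H) - ((M * (ν * n) : ℕ) : ZMod H)) - G (x - (n : ZMod H)))) := by
        rw [hK]
        simp only
        rw [show x - (n : ZMod H) - ((M * (ν * n) : ℕ) : ZMod H) = x - ((e * n : ℕ) : ZMod H) by
          rw [hν]; push_cast; ring]
        ring
      rw [e2, abs_mul, abs_mul, abs_of_nonneg (ind_nonneg _ _ _)]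
      have e3 := hGl.iter_sub (ν * n) (x - (n : ZMod H))
      have e4 := mul_le_mul (hF x) e3 (abs_nonneg _) zero_le_one
      push_cast at e4
      rw [one_mul] at e4
      have e5 := mul_le_mul_of_nonneg_left e4 (ind_nonneg (H := H) a e x)
      push_cast
      linarith
    rw [mean_mul_left, mean_ind he] at e1
    calc (e:ℝ) * |mean (fun x => ind a e x * F x * G (x - ((e * n : ℕ) : ZMod H)) - ind a e x * K x)|
        ≤ e * ((ν * n * δ) * (1 / e)) :=
          mul_le_mul_of_nonneg_left ((mean_abs_le _).trans e1) he'.le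
      _ = _ := by field_simp
  -- step 2
  have h2 : |e * mean (fun x => ind a e x * K x) - mean K| ≤ 2 * e * δ := by
    have e1 : mean K = ∑ s ∈ range e, mean (fun x => ind a e x * K (x + ((M * s : ℕ) : ZMod H))) := by
      have e2 : mean K = mean (fun x => ∑ s ∈ range e, ind a e (x - ((M * s : ℕ) : ZMod H)) * K x) := by
        congr 1; funext x
        rw [← Finset.sum_mul, sum_ind_shift he hν, one_mul]
      rw [e2, mean_sum]
      refine Finset.sum_congr rfl fun s _ => ?_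
      rw [← mean_shift _ ((M * s : ℕ) : ZMod H)]
      simp only [add_sub_cancel_right]
    have e3 : (e:ℝ) * mean (fun x => ind a e x * K x) = ∑ s ∈ range e, mean (fun x => ind a e x * K x) := by
      rw [Finset.sum_const, card_range, nsmul_eq_mul]
    rw [e1, e3, ← Finset.sum_sub_distrib]
    have e4 : ∀ s ∈ range e, |mean (fun x => ind a e x * K x) -
        mean (fun x => ind a e x * K (x + ((M * s : ℕ) : ZMod H)))| ≤ 2 * δ := by
      intro s hs
      have hs' : (s:ℝ) ≤ e := by exact_mod_cast (Finset.mem_range.1 hs).le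
      rw [← mean_sub]
      refine (mean_abs_le _).trans ?_
      have e5 : mean (fun x => |ind a e x * K x - ind a e x * K (x + ((M * s : ℕ) : ZMod H))|) ≤
          mean (fun x : ZMod H => (e * (2 * δ)) * ind a e x) := by
        refine mean_mono fun x => ?_
        rw [← mul_sub, abs_mul, abs_of_nonneg (ind_nonneg _ _ _), abs_sub_comm, mul_comm]
        refine mul_le_mul_of_nonneg_right ((hKl.iter s x).trans ?_) (ind_nonneg _ _ _)
        exact mul_le_mul_of_nonneg_right hs' (by positivity)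
      refine e5.trans (le_of_eq ?_)
      rw [mean_mul_left, mean_ind he]; field_simp
    refine (Finset.abs_sum_le_sum_abs _ _).trans ((Finset.sum_le_sum e4).trans (le_of_eq ?_))
    rw [Finset.sum_const, card_range, nsmul_eq_mul]; ring
  rw [hP1]
  calc |Phi a e F G n - mean K| = |(Phi a e F G n - e * mean (fun x => ind a e x * K x)) +
        (e * mean (fun x => ind a e x * K x) - mean K)| := by ring_nf
    _ ≤ ν * n * δ + 2 * e * δ := (abs_add_le _ _).trans (add_le_add h1 h2)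
    _ = _ := by ring

lemma sq_sum5 (a b c d e : ℝ) : (a + b + c + d + e)^2 ≤ 5 * (a^2 + b^2 + c^2 + d^2 + e^2) := by
  nlinarith [sq_nonneg (a-b), sq_nonneg (a-c), sq_nonneg (a-d), sq_nonneg (a-e), sq_nonneg (b-c),
    sq_nonneg (b-d), sq_nonneg (b-e), sq_nonneg (c-d), sq_nonneg (c-e), sq_nonneg (d-e)]

/-- Every element of `Sp` is `1` modulo `M`. -/
lemma Sp_mod (Q : ℕ → Finset ℕ) (M : ℕ) (hQ : ∀ i, ∀ q ∈ Q i, ∃ ν, q = 1 + M * ν) :
    ∀ j, ∀ e ∈ Sp Q j, ∃ ν, e = 1 + M * ν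
  | 0, e, he => ⟨0, by rw [show e = 1 from he]; simp⟩
  | j+1, e, he => by
    obtain ⟨s, hs, q, hq, rfl⟩ := he
    obtain ⟨ν, rfl⟩ := Sp_mod Q M hQ j s hs
    obtain ⟨ν', rfl⟩ := hQ j q hq
    exact ⟨ν + ν' + M * ν * ν', by ring⟩

/-- **The level estimate.** -/
lemma level_core (Q : ℕ → Finset ℕ) (M μ l l' m a : ℕ) (hl' : 0 < l') (hM0 : 0 < M)
    (hprime : ∀ i, ∀ q ∈ Q i, q.Prime) (hdisj : ∀ i i', i ≠ i' → Disjoint (Q i) (Q i'))
    (hQ1 : ∀ i, ∀ q ∈ Q i, ∃ ν, q = 1 + M * ν)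
    (L : ℝ) (hL : 0 < L) (hLQ : ∀ i < m, L ≤ Lq (Q i))
    (hdivH : ∀ j ≤ m, ∀ e ∈ Sp Q j, ∀ e' ∈ Sp Q j, Nat.lcm e e' ∣ H)
    (hdivM : ∀ j < m, ∀ s ∈ Sp Q j, s ∣ M * μ)
    (hdivM' : ∀ j < m, ∀ s ∈ Sp Q j, ∀ q ∈ Q j, ∀ q' ∈ Q j, q' < q → s * (q - q') ∣ M * μ)
    (B : ℝ) (hB : ∀ j ≤ m, ∀ e ∈ Sp Q j, (e:ℝ) ≤ B)
    (f g : ZMod H → ℝ) (hf0 : ∀ x, 0 ≤ f x) (hf1 : ∀ x, f x ≤ 1) (hg0 : ∀ x, 0 ≤ g x)
    (hg1 : ∀ x, g x ≤ 1) (τ : ℝ) (hτf : En (M * μ) l' f - En M l f ≤ τ)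
    (hτg : En (M * μ) l' g - En M l g ≤ τ) (hτ : 8 * ((μ:ℝ) * l' / l) ≤ τ)
    (N k : ℕ) (hk1 : 1 ≤ k) (h16 : 16 * k * N ≤ H) (hk : k ≤ H)
    (δ : ℝ) (hδ : 4 * Real.pi * (M * μ : ℕ) * l' * k / H ≤ δ) (hδQ : ∀ j < m, (Q j).card * δ ^ 2 ≤ 1)
    (j : ℕ) (hj1 : 1 ≤ j) (hjm : j ≤ m) :
    ∑ n ∈ Ioc N (2 * N), (Av Q j (fun e => Phi a e f g n) - Phi a 1 (P M l f) (P M l g) n) ^ 2 ≤
      5 * (2 * ((2 * H / k) * (2 / L)) + N * (2 * (2 * τ + Real.sqrt ((1 + 1 / L) ^ m - 1)) +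
        ((2 * B * N + 2 * B) * (2 / l)) ^ 2)) := by
  have hH := HR_pos (H := H)
  have hH0 : H ≠ 0 := NeZero.ne H
  have hk' : (0:ℝ) < k := by exact_mod_cast hk1
  obtain ⟨i, rfl⟩ : ∃ i, j = i + 1 := ⟨j - 1, by omega⟩
  have him : i < m := by omega
  have hpos : ∀ i' < i + 1, 0 < Lq (Q i') := fun i' hi' => hL.trans_le (hLQ i' (by omega))
  have hposi : ∀ i' < i, 0 < Lq (Q i') := fun i' hi' => hL.trans_le (hLQ i' (by omega))
  have hfa : ∀ x, |f x| ≤ 1 := fun x => abs_le.2 ⟨by linarith [hf0 x], hf1 x⟩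
  have hga : ∀ x, |g x| ≤ 1 := fun x => abs_le.2 ⟨by linarith [hg0 x], hg1 x⟩
  set P' : (ZMod H → ℝ) → ZMod H → ℝ := P (M * μ) l' with hP'
  have hPab : ∀ (h : ZMod H → ℝ), (∀ x, |h x| ≤ 1) → ∀ M₁ l₁ x, |P M₁ l₁ h x| ≤ 1 :=
    fun h hh M₁ l₁ x => P_abs M₁ l₁ h 1 zero_le_one hh x
  have hPup : ∀ (h : ZMod H → ℝ), (∀ x, 0 ≤ h x) → (∀ x, h x ≤ 1) → ∀ M₁ l₁ x, P M₁ l₁ h x ≤ 1 :=
    fun h h0 h1 M₁ l₁ x => (abs_le.1 (hPab h (fun y => abs_le.2 ⟨by linarith [h0 y], h1 y⟩) M₁ l₁ x)).2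
  have hcompl : ∀ (h : ZMod H → ℝ), (∀ x, 0 ≤ h x) → (∀ x, h x ≤ 1) → ∀ M₁ l₁ M₂ l₂ x,
      |P M₁ l₁ h x - P M₂ l₂ h x| ≤ 1 := by
    intro h h0 h1 M₁ l₁ M₂ l₂ x
    rw [abs_le]
    have a1 := P_nonneg M₁ l₁ h h0 x
    have a2 := P_nonneg M₂ l₂ h h0 x
    have a3 := hPup h h0 h1 M₁ l₁ x
    have a4 := hPup h h0 h1 M₂ l₂ x
    constructor <;> linarith
  have hcompl' : ∀ (h : ZMod H → ℝ), (∀ x, 0 ≤ h x) → (∀ x, h x ≤ 1) → ∀ M₂ l₂ x,
      |h x - P M₂ l₂ h x| ≤ 1 := by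
    intro h h0 h1 M₂ l₂ x
    rw [abs_le]
    have a2 := P_nonneg M₂ l₂ h h0 x
    have a4 := hPup h h0 h1 M₂ l₂ x
    constructor <;> linarith [h0 x, h1 x]
  -- the five error terms
  set f3 : ZMod H → ℝ := fun x => f x - P' f x with hf3
  set g3 : ZMod H → ℝ := fun x => g x - P' g x with hg3
  set f2 : ZMod H → ℝ := fun x => P' f x - P M l f x with hf2
  set g2 : ZMod H → ℝ := fun x => P' g x - P M l g x with hg2
  set E1 : ℕ → ℝ := fun n => Av Q (i+1) (fun e => Phi a e f3 g n) with hE1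
  set E2 : ℕ → ℝ := fun n => Av Q (i+1) (fun e => Phi a e (P' f) g3 n) with hE2
  set E3 : ℕ → ℝ := fun n => Av Q (i+1) (fun e => Phi a e f2 (P' g) n) with hE3
  set E4 : ℕ → ℝ := fun n => Av Q (i+1) (fun e => Phi a e (P M l f) g2 n) with hE4
  set E5 : ℕ → ℝ := fun n => Av Q (i+1) (fun e => Phi a e (P M l f) (P M l g) n -
    Phi a 1 (P M l f) (P M l g) n) with hE5
  have hdec : ∀ n, Av Q (i+1) (fun e => Phi a e f g n) - Phi a 1 (P M l f) (P M l g) n =
      E1 n + E2 n + E3 n + E4 n + E5 n := by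
    intro n
    have e1 : ∀ e, Phi a e f g n = (((Phi a e f3 g n + Phi a e (P' f) g3 n) + Phi a e f2 (P' g) n) +
        Phi a e (P M l f) g2 n) + Phi a e (P M l f) (P M l g) n := by
      intro e
      rw [hf3, hg3, hf2, hg2, Phi_sub_left, Phi_sub_left, Phi_sub_right, Phi_sub_right]
      ring
    have e2 : Av Q (i+1) (fun e => Phi a e f g n) = E1 n + E2 n + E3 n + E4 n +
        Av Q (i+1) (fun e => Phi a e (P M l f) (P M l g) n) := by
      rw [show (fun e => Phi a e f g n) = fun e => (((Phi a e f3 g n + Phi a e (P' f) g3 n) +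
        Phi a e f2 (P' g) n) + Phi a e (P M l f) g2 n) + Phi a e (P M l f) (P M l g) n from funext e1]
      rw [Av_add, Av_add, Av_add, Av_add]
    have e3 : E5 n = Av Q (i+1) (fun e => Phi a e (P M l f) (P M l g) n) -
        Phi a 1 (P M l f) (P M l g) n := by
      rw [hE5]
      simp only
      rw [Av_sub, Av_const Q (i+1) hpos]
    rw [e2, e3]; ring
  -- bounds for the HL terms
  have hHLgen : ∀ (Ph : ℕ → ℕ → ℝ) (C : ℝ),
      (∀ s ∈ Sp Q i, ∑ n ∈ Ioc N (2*N), (∑ q ∈ Q i, (1 / (Lq (Q i) * q)) * Ph (s * q) n)^2 ≤ C) →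
      ∑ n ∈ Ioc N (2*N), (Av Q (i+1) (fun e => Ph e n))^2 ≤ C := by
    intro Ph C hC
    have e1 : ∀ n, (Av Q (i+1) (fun e => Ph e n))^2 ≤
        Av Q i (fun s => (∑ q ∈ Q i, (1 / (Lq (Q i) * q)) * Ph (s * q) n)^2) := by
      intro n
      rw [Av_last]
      exact Av_sq Q i hposi _
    refine (Finset.sum_le_sum fun n _ => e1 n).trans ?_
    rw [← Av_sum, ← Av_const Q i hposi C]
    exact Av_mono Q i _ _ hC
  have hcardδ : 1 + (Q i).card * δ^2 ≤ 2 := by have := hδQ i him; linarith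
  have hdsq : ∀ s ∈ Sp Q i, ∀ q ∈ Q i, s * q ∣ H := by
    intro s hs q hq
    have hmem : s * q ∈ Sp Q (i+1) := ⟨s, hs, q, hq, rfl⟩
    exact (Nat.dvd_lcm_left _ _).trans (hdivH (i+1) hjm _ hmem _ hmem)
  have hspos : ∀ s ∈ Sp Q i, 0 < s := by
    intro s hs
    have := hdivH i (by omega) s hs s hs
    rw [Nat.lcm_self] at this
    exact Nat.pos_of_ne_zero (by rintro rfl; exact hH0 (Nat.eq_zero_of_zero_dvd this))
  have hfinal : (2 * H / k : ℝ) * ((1 / Lq (Q i)) * (1 + (Q i).card * δ ^ 2)) ≤ (2 * H / k) * (2 / L) := by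
    refine mul_le_mul_of_nonneg_left ?_ (by positivity)
    have h1 : 1 / Lq (Q i) ≤ 1 / L := one_div_le_one_div_of_le hL (hLQ i him)
    calc (1 / Lq (Q i)) * (1 + (Q i).card * δ ^ 2) ≤ (1 / L) * 2 :=
          mul_le_mul h1 hcardδ (by positivity) (by positivity)
      _ = 2 / L := by ring
  have hlM : 0 < l' := hl'
  have b1 : ∑ n ∈ Ioc N (2*N), (E1 n)^2 ≤ (2 * H / k) * (2 / L) := by
    refine hHLgen (fun e n => Phi a e f3 g n) _ fun s hs => ?_
    refine (HL_left a s (hspos s hs) (Q i) (hdsq s hs)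
      (fun q hq => Sp_coprime Q hprime hdisj i q hq i le_rfl s hs) (M * μ) l' hlM (hdivM i him s hs)
      (fun q hq q' hq' hlt => hdivM' i him s hs q hq q' hq' hlt) f g hfa
      (hcompl' f hf0 hf1 _ _) hga N k hk1 h16 hk δ (by push_cast; push_cast at hδ; exact hδ) (Lq (Q i))
      (hpos i (by omega)) rfl).trans hfinal
  have b2 : ∑ n ∈ Ioc N (2*N), (E2 n)^2 ≤ (2 * H / k) * (2 / L) := by
    refine hHLgen (fun e n => Phi a e (P' f) g3 n) _ fun s hs => ?_
    refine (HL_right a s (hspos s hs) (Q i) (hdsq s hs)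
      (fun q hq => Sp_coprime Q hprime hdisj i q hq i le_rfl s hs) (M * μ) l' hlM (hdivM i him s hs)
      (fun q hq q' hq' hlt => hdivM' i him s hs q hq q' hq' hlt) g (P' f) hga
      (hcompl' g hg0 hg1 _ _) (hPab f hfa _ _) N k hk1 h16 hk δ
      (by push_cast; push_cast at hδ; exact hδ) (Lq (Q i)) (hpos i (by omega)) rfl).trans hfinal
  -- intermediate terms
  have hef : mean (fun x => f2 x ^ 2) ≤ 2 * τ := by
    have := energy M l μ l' hl' f hfa
    linarith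
  have heg : mean (fun x => g2 x ^ 2) ≤ 2 * τ := by
    have := energy M l μ l' hl' g hga
    linarith
  have hsqrt : Real.sqrt ((1 + 1 / L) ^ (i+1) - 1) ≤ Real.sqrt ((1 + 1 / L) ^ m - 1) := by
    apply Real.sqrt_le_sqrt
    have : (1 + 1 / L) ^ (i+1) ≤ (1 + 1 / L) ^ m :=
      pow_le_pow_right₀ (by have : 0 < 1 / L := by positivity
                            linarith) hjm
    linarith
  have hcardI : ((Ioc N (2*N)).card : ℝ) = N := by
    rw [Nat.card_Ioc]; congr 1; omega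
  have hmidgen : ∀ (Ph : ℕ → ℕ → ℝ) (F : ZMod H → ℝ), (∀ x, |F x| ≤ 1) → mean (fun x => F x ^ 2) ≤ 2 * τ →
      (∀ e ∈ Sp Q (i+1), ∀ n, (Ph e n)^2 ≤ e * mean (fun x => ind a e x * F x ^ 2)) →
      ∑ n ∈ Ioc N (2*N), (Av Q (i+1) (fun e => Ph e n))^2 ≤
        N * (2 * τ + Real.sqrt ((1 + 1 / L) ^ m - 1)) := by
    intro Ph F hF hFτ hPh
    have e1 : ∀ n ∈ Ioc N (2*N), (Av Q (i+1) (fun e => Ph e n))^2 ≤
        2 * τ + Real.sqrt ((1 + 1 / L) ^ m - 1) := by
      intro n _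
      refine (Av_sq Q (i+1) hpos _).trans ?_
      refine (Av_mono Q (i+1) _ _ fun e he => hPh e he n).trans ?_
      refine (mid_mass Q hprime hdisj L hL a (i+1) (fun i' hi' => hLQ i' (by omega))
        (hdivH (i+1) hjm) F hF).trans ?_
      linarith
    refine (Finset.sum_le_sum e1).trans (le_of_eq ?_)
    rw [Finset.sum_const, nsmul_eq_mul, hcardI]
  have hdvd1 : ∀ e ∈ Sp Q (i+1), e ∣ H := fun e he =>
    (Nat.dvd_lcm_left e e).trans (hdivH (i+1) hjm e he e he)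
  have b3 : ∑ n ∈ Ioc N (2*N), (E3 n)^2 ≤ N * (2 * τ + Real.sqrt ((1 + 1 / L) ^ m - 1)) :=
    hmidgen (fun e n => Phi a e f2 (P' g) n) f2 (hcompl f hf0 hf1 _ _ _ _) hef
      fun e he n => Phi_sq_left (hdvd1 e he) a f2 (P' g) (hPab g hga _ _) n
  have b4 : ∑ n ∈ Ioc N (2*N), (E4 n)^2 ≤ N * (2 * τ + Real.sqrt ((1 + 1 / L) ^ m - 1)) :=
    hmidgen (fun e n => Phi a e (P M l f) g2 n) g2 (hcompl g hg0 hg1 _ _ _ _) heg
      fun e he n => Phi_sq_right (hdvd1 e he) a g2 (P M l f) (hPab f hfa _ _) n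
  -- low terms
  have b5 : ∑ n ∈ Ioc N (2*N), (E5 n)^2 ≤ N * ((2 * B * N + 2 * B) * (2 / l)) ^ 2 := by
    have e1 : ∀ n ∈ Ioc N (2*N), (E5 n)^2 ≤ ((2 * B * N + 2 * B) * (2 / l)) ^ 2 := by
      intro n hn
      have hn2 : (n:ℝ) ≤ 2 * N := by exact_mod_cast (Finset.mem_Ioc.1 hn).2
      have e2 : |E5 n| ≤ (2 * B * N + 2 * B) * (2 / l) := by
        refine Av_abs_le Q (i+1) hpos _ _ fun e he => ?_
        obtain ⟨ν, hν⟩ := Sp_mod Q M hQ1 (i+1) e he
        have hlow := low (hdvd1 e he) hν a (P M l f) (P M l g) (2 / l) (by positivity)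
          (hPab f hfa _ _) (hPab g hga _ _) (P_lip M l f hfa) (P_lip M l g hga) n
        refine hlow.trans (mul_le_mul_of_nonneg_right ?_ (by positivity))
        have heB := hB (i+1) hjm e he
        have hνe : (ν:ℝ) ≤ e := by
          have : ν ≤ e := by rw [hν]; nlinarith
          exact_mod_cast this
        have h3 : (ν:ℝ) * n ≤ B * (2 * N) :=
          mul_le_mul (hνe.trans heB) hn2 (Nat.cast_nonneg _) ((Nat.cast_nonneg _).trans heB)
        linarith
      rw [← sq_abs]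
      exact pow_le_pow_left₀ (abs_nonneg _) e2 2
    refine (Finset.sum_le_sum e1).trans (le_of_eq ?_)
    rw [Finset.sum_const, nsmul_eq_mul, hcardI]
  calc ∑ n ∈ Ioc N (2 * N), (Av Q (i+1) (fun e => Phi a e f g n) - Phi a 1 (P M l f) (P M l g) n) ^ 2
      ≤ ∑ n ∈ Ioc N (2 * N), 5 * ((E1 n)^2 + (E2 n)^2 + (E3 n)^2 + (E4 n)^2 + (E5 n)^2) := by
        refine Finset.sum_le_sum fun n _ => ?_
        rw [hdec]
        exact sq_sum5 _ _ _ _ _
    _ = 5 * (∑ n ∈ Ioc N (2*N), (E1 n)^2 + ∑ n ∈ Ioc N (2*N), (E2 n)^2 + ∑ n ∈ Ioc N (2*N), (E3 n)^2 +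
        ∑ n ∈ Ioc N (2*N), (E4 n)^2 + ∑ n ∈ Ioc N (2*N), (E5 n)^2) := by
        rw [← Finset.mul_sum]
        simp only [Finset.sum_add_distrib]
    _ ≤ _ := by linarith

end Pool.Agent.H55.Odd
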