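import Pool.Agent.H41.SF.Mertens
import Pool.Agent.H55.Odd.Defs

/-!
Windows with many primes `≡ 1 (mod W)`, and blocks of such primes with large reciprocal sum.
-/

set_option autoImplicit false
set_option linter.unusedSectionVars false

namespace Pool.Agent.H55.Odd

open Finset

lemma mertens1 (W : ℕ) (hW : 0 < W) : ∃ C : ℝ, 0 ≤ C ∧ ∀ N : ℕ, 1 ≤ N →
    |∑ p ∈ PB W 0 N, Real.log p / p - Real.log N / Nat.totient W| ≤ C := by
  have : NeZero W := ⟨hW.ne'⟩
  obtain ⟨C, hC0, hC⟩ := Pool.Agent.H41.SF.mertens_AP (q := W) (a := 1) isUnit_one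
  refine ⟨C, hC0, fun N hN => ?_⟩
  have h := hC N hN
  have : (Ioc 0 N).filter (fun p : ℕ => p.Prime ∧ (p : ZMod W) = 1) = PB W 0 N := by
    rw [PB]
    refine Finset.filter_congr fun p _ => ?_
    have : (p : ZMod W) = 1 ↔ p % W = 1 % W := by
      rw [show (1 : ZMod W) = ((1 : ℕ) : ZMod W) by simp]
      exact ZMod.natCast_eq_natCast_iff' p 1 W
    rw [this]
  rwa [this] at h

lemma PB_split (W : ℕ) {a b c : ℕ} (h1 : a ≤ b) (h2 : b ≤ c) (f : ℕ → ℝ) :
    ∑ p ∈ PB W a c, f p = ∑ p ∈ PB W a b, f p + ∑ p ∈ PB W b c, f p := by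
  rw [PB, PB, PB, ← Finset.sum_union]
  · congr 1
    rw [← Finset.filter_union, Finset.Ioc_union_Ioc_eq_Ioc h1 h2]
  · rw [Finset.disjoint_left]
    intro n h1 h2
    have a := (Finset.mem_Ioc.1 (Finset.mem_filter.1 h1).1).2
    have b := (Finset.mem_Ioc.1 (Finset.mem_filter.1 h2).1).1
    omega

lemma mertens2 (W : ℕ) (hW : 0 < W) : ∃ C : ℝ, 0 ≤ C ∧ ∀ Y Z : ℕ, 1 ≤ Y → Y ≤ Z →
    (Real.log Z - Real.log Y) / Nat.totient W - 2 * C ≤ ∑ p ∈ PB W Y Z, Real.log p / p := by
  obtain ⟨C, hC0, hC⟩ := mertens1 W hW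
  refine ⟨C, hC0, fun Y Z hY hYZ => ?_⟩
  have h1 := (abs_le.1 (hC Z (hY.trans hYZ))).1
  have h2 := (abs_le.1 (hC Y hY)).2
  have h3 := PB_split W (Nat.zero_le Y) hYZ (fun p => Real.log p / p)
  rw [h3] at h1
  rw [sub_div]
  linarith

/-- In every long enough dyadic range there is a scale with many primes. -/
lemma window_primes (W : ℕ) (hW : 0 < W) : ∃ b : ℕ, ∀ Y : ℕ, 1 ≤ Y → ∃ k < b,
    ((2^k * Y : ℕ) : ℝ) * Real.log 2 / (2 * Nat.totient W * Real.log (2 * ((2^k * Y : ℕ) : ℝ))) ≤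
      ((PP W (2^k * Y)).card : ℝ) := by
  obtain ⟨C, hC0, hC⟩ := mertens2 W hW
  have hφ : (0:ℝ) < Nat.totient W := by exact_mod_cast Nat.totient_pos.2 hW
  have hlog2 : 0 < Real.log 2 := Real.log_pos (by norm_num)
  obtain ⟨b, hb⟩ := exists_nat_gt (4 * C * Nat.totient W / Real.log 2)
  refine ⟨b, fun Y hY => ?_⟩
  by_contra hcon
  push Not at hcon
  have hY' : (1:ℝ) ≤ Y := by exact_mod_cast hY
  -- upper bound by windows
  have hwin : ∀ n ≤ b, ∑ p ∈ PB W Y (2^n * Y), Real.log p / p ≤ n * (Real.log 2 / (2 * Nat.totient W)) := by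
    intro n
    induction n with
    | zero => intro _; simp [PB]
    | succ n ih =>
      intro hn
      have h1 : Y ≤ 2^n * Y := Nat.le_mul_of_pos_left _ (by positivity)
      have h2 : 2^n * Y ≤ 2^(n+1) * Y := Nat.mul_le_mul_right _ (Nat.pow_le_pow_right (by norm_num) (by omega))
      rw [PB_split W h1 h2]
      have h3 := ih (by omega)
      have h4 := hcon n (by omega)
      set N := 2^n * Y with hN
      have hN1 : (1:ℝ) ≤ N := by exact_mod_cast hY.trans h1
      have hPP : PB W N (2^(n+1) * Y) = PP W N := by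
        rw [PB, PP, hN]; congr 2; ring
      rw [hPP]
      have hlog : 0 < Real.log (2 * (N:ℝ)) := Real.log_pos (by linarith)
      have h5 : ∀ p ∈ PP W N, Real.log p / p ≤ Real.log (2 * (N:ℝ)) / N := by
        intro p hp
        obtain ⟨a1, a2⟩ := Finset.mem_Ioc.1 (Finset.mem_filter.1 hp).1
        have a1' : (N:ℝ) < p := by exact_mod_cast a1
        have a2' : (p:ℝ) ≤ 2 * N := by exact_mod_cast a2
        have hp0 : (0:ℝ) < p := by linarith
        exact div_le_div₀ hlog.le (Real.log_le_log hp0 a2') (by linarith) a1'.le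
      have h6 : ∑ p ∈ PP W N, Real.log p / p ≤ Real.log 2 / (2 * Nat.totient W) := by
        refine (Finset.sum_le_sum h5).trans ?_
        rw [Finset.sum_const, nsmul_eq_mul]
        have h7 : ((PP W N).card : ℝ) * (Real.log (2 * (N:ℝ)) / N) ≤
            ((N:ℝ) * Real.log 2 / (2 * Nat.totient W * Real.log (2 * (N:ℝ)))) * (Real.log (2 * (N:ℝ)) / N) :=
          mul_le_mul_of_nonneg_right h4.le (by positivity)
        refine h7.trans (le_of_eq ?_)
        have hN0 : (N:ℝ) ≠ 0 := by linarith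
        generalize Real.log (2 * (N:ℝ)) = ll at hlog
        field_simp
      push_cast
      linarith
  have h1 := hwin b le_rfl
  have h2 := hC Y (2^b * Y) hY (Nat.le_mul_of_pos_left _ (by positivity))
  have h3 : Real.log ((2^b * Y : ℕ) : ℝ) = b * Real.log 2 + Real.log Y := by
    push_cast
    rw [Real.log_mul (by positivity) (by positivity), Real.log_pow]
  rw [h3] at h2
  have h4 : ((b:ℝ) * Real.log 2 + Real.log Y - Real.log Y) / Nat.totient W - 2 * C ≤
      b * (Real.log 2 / (2 * Nat.totient W)) := h2.trans h1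
  rw [div_lt_iff₀ hlog2] at hb
  have h5 : ((b:ℝ) * Real.log 2 + Real.log Y - Real.log Y) / Nat.totient W =
      2 * (b * (Real.log 2 / (2 * Nat.totient W))) := by field_simp; ring
  rw [h5] at h4
  have h6 : (b:ℝ) * (Real.log 2 / (2 * Nat.totient W)) ≤ 2 * C := by linarith
  have h7 : (b:ℝ) * Real.log 2 ≤ 2 * C * (2 * Nat.totient W) := by
    have : (b:ℝ) * Real.log 2 = (b * (Real.log 2 / (2 * Nat.totient W))) * (2 * Nat.totient W) := by
      field_simp
    rw [this]
    exact mul_le_mul_of_nonneg_right h6 (by positivity)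
  linarith

/-- Blocks of primes with large reciprocal sum. -/
lemma prime_block (W : ℕ) (hW : 0 < W) (L : ℝ) (Y : ℕ) :
    ∃ Q : Finset ℕ, (∀ q ∈ Q, q.Prime ∧ q % W = 1 % W ∧ Y < q) ∧ L ≤ Lq Q := by
  obtain ⟨C, hC0, hC⟩ := mertens2 W hW
  have hφ : (0:ℝ) < Nat.totient W := by exact_mod_cast Nat.totient_pos.2 hW
  have step : ∀ n : ℕ, ∃ Q : Finset ℕ, (∀ q ∈ Q, q.Prime ∧ q % W = 1 % W ∧ Y < q) ∧
      (n:ℝ) * (1 / (2 * Nat.totient W)) ≤ Lq Q := by
    intro n
    induction n with
    | zero => exact ⟨∅, by simp, by simp [Lq]⟩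
    | succ n ih =>
      obtain ⟨Q, hQ1, hQ2⟩ := ih
      set Y' : ℕ := max (max 1 Y) (Q.sup id) with hY'
      have hY1 : 1 ≤ Y' := (le_max_left _ _).trans (le_max_left _ _)
      have hYY : Y ≤ Y' := (le_max_right _ _).trans (le_max_left _ _)
      have hQY : ∀ q ∈ Q, q ≤ Y' := fun q hq => (Finset.le_sup (f := id) hq).trans (le_max_right _ _)
      obtain ⟨Z0, hZ0⟩ := exists_nat_gt (Real.exp (2 * (Real.log Y' + 2 * C * Nat.totient W) + 1))
      set Z := max Z0 Y' with hZ
      have hYZ : Y' ≤ Z := le_max_right _ _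
      have hlogZ : 2 * (Real.log Y' + 2 * C * Nat.totient W) + 1 ≤ Real.log Z := by
        have h1 : Real.exp (2 * (Real.log Y' + 2 * C * Nat.totient W) + 1) ≤ Z := by
          refine hZ0.le.trans ?_
          exact_mod_cast le_max_left Z0 Y'
        rw [← Real.log_exp (2 * (Real.log Y' + 2 * C * Nat.totient W) + 1)]
        exact Real.log_le_log (Real.exp_pos _) h1
      have hlogY : 0 ≤ Real.log Y' := Real.log_nonneg (by exact_mod_cast hY1)
      have hlogZ0 : 0 < Real.log Z := by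
        have : 0 ≤ 2 * (Real.log Y' + 2 * C * Nat.totient W) := by positivity
        linarith
      have hdisj : Disjoint Q (PB W Y' Z) := by
        rw [Finset.disjoint_left]
        intro q h1 h2
        have a := hQY q h1
        have b := (Finset.mem_Ioc.1 (Finset.mem_filter.1 h2).1).1
        omega
      refine ⟨Q ∪ PB W Y' Z, ?_, ?_⟩
      · intro q hq
        rcases Finset.mem_union.1 hq with h | h
        · exact hQ1 q h
        · obtain ⟨h1, h2, h3⟩ := Finset.mem_filter.1 h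
          exact ⟨h2, h3, by have := (Finset.mem_Ioc.1 h1).1; omega⟩
      · rw [Lq, Finset.sum_union hdisj]
        change _ ≤ Lq Q + _
        have h1 := hC Y' Z hY1 hYZ
        have h2 : ∑ p ∈ PB W Y' Z, Real.log p / p ≤ Real.log Z * ∑ p ∈ PB W Y' Z, (1:ℝ) / p := by
          rw [Finset.mul_sum]
          refine Finset.sum_le_sum fun p hp => ?_
          obtain ⟨a1, a2⟩ := Finset.mem_Ioc.1 (Finset.mem_filter.1 hp).1
          have hp0 : (0:ℝ) < p := by exact_mod_cast (by omega : 0 < p)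
          have a2' : (p:ℝ) ≤ Z := by exact_mod_cast a2
          rw [mul_one_div]
          gcongr
        have h3 : (1:ℝ) / (2 * Nat.totient W) ≤ ∑ p ∈ PB W Y' Z, (1:ℝ) / p := by
          have h4 : Real.log Z * (1 / (2 * Nat.totient W)) ≤ Real.log Z * ∑ p ∈ PB W Y' Z, (1:ℝ) / p := by
            refine le_trans ?_ (h1.trans h2)
            have e1 : (Real.log Z - Real.log Y') / Nat.totient W - 2 * C =
                (Real.log Z - (Real.log Y' + 2 * C * Nat.totient W)) / Nat.totient W := by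
              field_simp; ring
            rw [e1, mul_one_div, div_le_div_iff₀ (by positivity) hφ]
            nlinarith
          exact le_of_mul_le_mul_left h4 hlogZ0
        push_cast
        rw [add_mul, one_mul]
        linarith
  obtain ⟨n, hn⟩ := exists_nat_ge (L * (2 * Nat.totient W))
  obtain ⟨Q, hQ1, hQ2⟩ := step n
  refine ⟨Q, hQ1, le_trans ?_ hQ2⟩
  rw [mul_one_div, le_div_iff₀ (by positivity)]
  exact hn

/-- A sequence of disjoint blocks. -/
lemma prime_blocks (W : ℕ) (hW : 0 < W) (L : ℝ) :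
    ∃ Q : ℕ → Finset ℕ, (∀ i, ∀ q ∈ Q i, q.Prime ∧ q % W = 1 % W) ∧
      (∀ i i', i ≠ i' → Disjoint (Q i) (Q i')) ∧ (∀ i, L ≤ Lq (Q i)) := by
  choose blk hblk1 hblk2 using fun Y => prime_block W hW L Y
  set Yseq : ℕ → ℕ := fun n => Nat.rec 0 (fun _ Y => max Y ((blk Y).sup id)) n with hYseq
  have hsucc : ∀ n, Yseq (n+1) = max (Yseq n) ((blk (Yseq n)).sup id) := fun n => rfl
  have hmono : Monotone Yseq := monotone_nat_of_le_succ fun n => by rw [hsucc]; exact le_max_left _ _
  have hup : ∀ n, ∀ q ∈ blk (Yseq n), q ≤ Yseq (n+1) := fun n q hq => by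
    rw [hsucc]
    exact (Finset.le_sup (f := id) hq).trans (le_max_right _ _)
  refine ⟨fun i => blk (Yseq i), fun i q hq => ⟨(hblk1 _ q hq).1, (hblk1 _ q hq).2.1⟩, ?_,
    fun i => hblk2 _⟩
  have key : ∀ i i', i < i' → Disjoint (blk (Yseq i)) (blk (Yseq i')) := by
    intro i i' h
    rw [Finset.disjoint_left]
    intro q h1 h2
    have a := hup i q h1
    have b := (hblk1 _ q h2).2.2
    have c := hmono (show i + 1 ≤ i' from h)
    omega
  intro i i' h
  rcases Nat.lt_or_gt_of_ne h with h | h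
  · exact key i i' h
  · exact (key i' i h).symm

end Pool.Agent.H55.Odd
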