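import Pool.Agent.H55.Odd.Level
import Pool.Agent.H55.Odd.Windows

/-!
Existence of the data of one level.
-/

set_option autoImplicit false
set_option linter.unusedSectionVars false

namespace Pool.Agent.H55.Odd

open Finset

lemma Sp_bound (Q : ℕ → Finset ℕ) (m Y : ℕ) (hpos : ∀ i < m, ∀ q ∈ Q i, 0 < q)
    (hY : ∀ i < m, ∀ q ∈ Q i, q ≤ Y) : ∀ j ≤ m, ∀ e ∈ Sp Q j, 0 < e ∧ e ≤ Y ^ j
  | 0, _, e, he => by rw [show e = 1 from he]; simp
  | j+1, hj, e, he => by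
    obtain ⟨s, hs, q, hq, rfl⟩ := he
    obtain ⟨h1, h2⟩ := Sp_bound Q m Y hpos hY j (by omega) s hs
    refine ⟨Nat.mul_pos h1 (hpos j (by omega) q hq), ?_⟩
    rw [pow_succ]
    exact Nat.mul_le_mul h2 (hY j (by omega) q hq)

/-- The data of one level. -/
structure Lev (m : ℕ) (ε τ σ : ℝ) (b M C : ℕ) where
  Q : ℕ → Finset ℕ
  μ : ℕ
  C' : ℕ
  Klo : ℕ
  B : ℕ
  hprime : ∀ i, ∀ q ∈ Q i, q.Prime ∧ q % M = 1 % M
  hdisj : ∀ i i', i ≠ i' → Disjoint (Q i) (Q i')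
  hL : ∀ i, 0 < Lq (Q i)
  hB : ∀ j ≤ m, ∀ e ∈ Sp Q j, 0 < e ∧ e ≤ B ∧ e ∣ μ
  hμ : 0 < μ
  hC' : 0 < C'
  hB0 : 0 < B
  hKlo : 40 * m * B ≤ Klo
  hKlo1 : 16 ≤ Klo
  main : ∀ (H : ℕ) [NeZero H], C * C' * (M * μ) ∣ H →
    (0 < H / (C' * (M * μ)) ∧ 0 < H / (C * M) ∧
      8 * ((μ:ℝ) * ((H / (C' * (M * μ)) : ℕ) : ℝ) / ((H / (C * M) : ℕ) : ℝ)) ≤ σ) ∧
    ∀ (a : ℕ) (f g : ZMod H → ℝ), (∀ x, 0 ≤ f x) → (∀ x, f x ≤ 1) → (∀ x, 0 ≤ g x) → (∀ x, g x ≤ 1) →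
      En (M * μ) (H / (C' * (M * μ))) f - En M (H / (C * M)) f ≤ τ →
      En (M * μ) (H / (C' * (M * μ))) g - En M (H / (C * M)) g ≤ τ →
      ∀ N, H ≤ N * (2^b * Klo) → N * Klo ≤ H → ∀ j, 1 ≤ j → j ≤ m →
        ∑ n ∈ Ioc N (2 * N), (Av Q j (fun e => Phi a e f g n) -
          Phi a 1 (P M (H / (C * M)) f) (P M (H / (C * M)) g) n) ^ 2 ≤ ε * N

lemma pow_small (m : ℕ) (ε L : ℝ) (hε0 : 0 < ε) (hε1 : ε ≤ 1) (hL : L = 5120 * m / ε^2)
    (hm : 1 ≤ m) : Real.sqrt ((1 + 1 / L) ^ m - 1) ≤ ε / 40 := by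
  have hm' : (1:ℝ) ≤ m := by exact_mod_cast hm
  have hL0 : 0 < L := by rw [hL]; positivity
  set x : ℝ := ε^2 / 5120 with hx
  have hx0 : 0 < x := by rw [hx]; positivity
  have hx1 : x ≤ 1/2 := by rw [hx]; nlinarith
  have h1 : (m:ℝ) * (1 / L) = x := by rw [hL, hx]; field_simp
  have h2 : (1 + 1 / L) ^ m ≤ Real.exp x := by
    have : 1 + 1 / L ≤ Real.exp (1 / L) := by
      have := Real.add_one_le_exp (1 / L); linarith
    calc (1 + 1 / L) ^ m ≤ (Real.exp (1 / L))^m := pow_le_pow_left₀ (by positivity) this m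
      _ = Real.exp x := by rw [← Real.exp_nat_mul, h1]
  have h3 : Real.exp x ≤ 1 + 2 * x := by
    have h4 : Real.exp x * (1 - x) ≤ 1 := by
      have h5 : 1 - x ≤ Real.exp (-x) := by
        have := Real.add_one_le_exp (-x); linarith
      calc Real.exp x * (1 - x) ≤ Real.exp x * Real.exp (-x) :=
            mul_le_mul_of_nonneg_left h5 (Real.exp_pos _).le
        _ = 1 := by rw [← Real.exp_add]; simp
    have h6 : 0 < 1 - x := by linarith
    have h7 : Real.exp x ≤ 1 / (1 - x) := by rw [le_div_iff₀ h6]; exact h4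
    refine h7.trans ?_
    rw [div_le_iff₀ h6]
    nlinarith
  rw [Real.sqrt_le_left (by positivity)]
  have : 2 * x ≤ (ε/40)^2 := by
    rw [hx]; nlinarith
  linarith

lemma num1 (H k N L ε m : ℝ) (hm : 1 ≤ m) (hε0 : 0 < ε) (hε1 : ε ≤ 1) (hLdef : L = 5120 * m / ε^2)
    (hN : 0 < N) (hk : 0 < k) (h : H ≤ 32 * N * k) : (2 * H / k) * (2 / L) ≤ N * (ε / 40) := by
  have h1 : H / k ≤ 32 * N := by rw [div_le_iff₀ hk]; exact h
  have hL0 : 0 < L := by rw [hLdef]; positivity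
  have h2 : 2 / L ≤ ε / 2560 := by
    rw [hLdef, div_le_div_iff₀ (by positivity) (by norm_num)]
    have e : 5120 * m / ε^2 * ε = 5120 * m / ε := by field_simp
    rw [mul_comm ε, e, le_div_iff₀ hε0]
    nlinarith
  calc (2 * H / k) * (2 / L) = 2 * (H / k) * (2 / L) := by ring
    _ ≤ 2 * (32 * N) * (ε / 2560) := by gcongr
    _ = N * (ε / 40) := by ring

lemma num3 (B C M N H l Klo ε : ℝ) (hB : 1 ≤ B) (hC : 0 < C) (hM : 0 < M) (hN : 1 ≤ N) (hH : 0 < H)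
    (hl : 0 < l) (hε0 : 0 < ε) (e1 : l * (C * M) = H) (h2 : 160 * B * C * M / ε ≤ Klo)
    (hKlo : N * Klo ≤ H) : (2 * B * N + 2 * B) * (2 / l) ≤ ε / 20 := by
  have h1 : 2 / l = 2 * (C * M) / H := by
    rw [div_eq_div_iff hl.ne' hH.ne', ← e1]; ring
  rw [h1, mul_div_assoc', div_le_iff₀ hH]
  rw [div_le_iff₀ hε0] at h2
  have h3 : (160 * B * C * M) * N ≤ ε * H := by
    calc (160 * B * C * M) * N ≤ (Klo * ε) * N := mul_le_mul_of_nonneg_right h2 (by linarith)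
      _ = ε * (N * Klo) := by ring
      _ ≤ ε * H := mul_le_mul_of_nonneg_left hKlo hε0.le
  have h4 : (2 * B * N + 2 * B) * (2 * (C * M)) ≤ 8 * (B * C * M * N) := by
    have h5 : B * C * M ≤ B * C * M * N := le_mul_of_one_le_right (by positivity) hN
    nlinarith
  linarith

lemma num_final (m : ℝ) (hm : 1 ≤ m) (ε : ℝ) (hε0 : 0 < ε) (hε1 : ε ≤ 1) (L : ℝ)
    (hLdef : L = 5120 * m / ε^2) (B C M N H l k Klo : ℝ) (hB : 1 ≤ B) (hC : 0 < C) (hM : 0 < M)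
    (hN : 1 ≤ N) (hH : 0 < H) (hl : 0 < l) (hk : 0 < k) (e1 : l * (C * M) = H) (h32 : H ≤ 32 * N * k)
    (h2 : 160 * B * C * M / ε ≤ Klo) (hKlo : N * Klo ≤ H) (S : ℝ) (hS : S ≤ ε / 40) :
    5 * (2 * ((2 * H / k) * (2 / L)) + N * (2 * (2 * (ε / 80) + S) +
        ((2 * B * N + 2 * B) * (2 / l)) ^ 2)) ≤ ε * N := by
  have n1 := num1 H k N L ε m hm hε0 hε1 hLdef (by linarith) hk h32
  have n3 := num3 B C M N H l Klo ε hB hC hM hN hH hl hε0 e1 h2 hKlo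
  have n4 : 0 ≤ (2 * B * N + 2 * B) * (2 / l) := by positivity
  generalize (2 * B * N + 2 * B) * (2 / l) = X at n3 n4
  generalize (2 * H / k) * (2 / L) = Y at n1
  have n5 : X^2 ≤ ε / 400 := by
    calc X^2 ≤ (ε/20)^2 := pow_le_pow_left₀ n4 n3 2
      _ = ε * ε / 400 := by ring
      _ ≤ ε / 400 := by nlinarith
  have n6 : N * (2 * (2 * (ε / 80) + S) + X ^ 2) ≤ N * (2 * (2 * (ε/80) + ε / 40) + ε / 400) := by
    refine mul_le_mul_of_nonneg_left ?_ (by linarith)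
    linarith
  nlinarith

/-- Existence of level data. -/
theorem lev_exists (m : ℕ) (hm : 1 ≤ m) (ε : ℝ) (hε0 : 0 < ε) (hε1 : ε ≤ 1) (σ : ℝ) (hσ : 0 < σ)
    (b M C : ℕ) (hM : 0 < M) (hC : 0 < C) : Nonempty (Lev m ε (ε / 80) σ b M C) := by
  classical
  have hm' : (1:ℝ) ≤ m := by exact_mod_cast hm
  set L : ℝ := 5120 * m / ε^2 with hLdef
  have hL0 : 0 < L := by rw [hLdef]; positivity
  obtain ⟨Q, hQ1, hQ2, hQ3⟩ := prime_blocks M hM L
  set Y : ℕ := (range m).sup (fun i => (Q i).sup id) + 1 with hY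
  have hYq : ∀ i < m, ∀ q ∈ Q i, q ≤ Y := by
    intro i hi q hq
    have h1 : q ≤ (Q i).sup id := Finset.le_sup (f := id) hq
    have h2 : (Q i).sup id ≤ (range m).sup (fun i => (Q i).sup id) :=
      Finset.le_sup (f := fun i => (Q i).sup id) (Finset.mem_range.2 hi)
    omega
  have hY1 : 1 ≤ Y := by omega
  set B : ℕ := Y ^ m with hB
  have hB1 : 1 ≤ B := Nat.one_le_pow _ _ hY1
  set μ : ℕ := B.factorial with hμ
  set Klo : ℕ := ⌈160 * (B:ℝ) * C * M / ε⌉₊ + 16 + 40 * m * B with hKlo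
  set Khi : ℕ := 2^b * Klo with hKhi
  set τ : ℝ := ε / 80 with hτ
  have hτ0 : 0 < τ := by rw [hτ]; positivity
  set C' : ℕ := ⌈8 * (C:ℝ) / min σ τ⌉₊ + B * Khi + 1 with hC'
  have hC'0 : 0 < C' := by omega
  have hμ0 : 0 < μ := Nat.factorial_pos _
  have hSp := Sp_bound Q m Y (fun i _ q hq => (hQ1 i q hq).1.pos) hYq
  have hSpB : ∀ j ≤ m, ∀ e ∈ Sp Q j, 0 < e ∧ e ≤ B ∧ e ∣ μ := by
    intro j hj e he
    obtain ⟨h1, h2⟩ := hSp j hj e he
    have h3 : e ≤ B := h2.trans (Nat.pow_le_pow_right hY1 hj)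
    exact ⟨h1, h3, Nat.dvd_factorial h1 h3⟩
  refine ⟨⟨Q, μ, C', Klo, B, hQ1, hQ2, fun i => hL0.trans_le (hQ3 i), hSpB, hμ0, hC'0, hB1,
    by omega, by omega, ?_⟩⟩
  intro H _ hdiv
  have hH := HR_pos (H := H)
  have hH0 : H ≠ 0 := NeZero.ne H
  have hCM : C * M ∣ H := (Dvd.intro (C' * μ) (by ring)).trans hdiv
  have hCM' : C' * (M * μ) ∣ H := (Dvd.intro C (by ring)).trans hdiv
  set l : ℕ := H / (C * M) with hl
  set l' : ℕ := H / (C' * (M * μ)) with hl'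
  have hl1 : l * (C * M) = H := Nat.div_mul_cancel hCM
  have hl1' : l' * (C' * (M * μ)) = H := Nat.div_mul_cancel hCM'
  have hlpos : 0 < l := Nat.pos_of_ne_zero (by intro h; rw [h, zero_mul] at hl1; exact hH0 hl1.symm)
  have hlpos' : 0 < l' := Nat.pos_of_ne_zero (by intro h; rw [h, zero_mul] at hl1'; exact hH0 hl1'.symm)
  have hlR : (0:ℝ) < l := by exact_mod_cast hlpos
  have hlR' : (0:ℝ) < l' := by exact_mod_cast hlpos'
  have hCR : (0:ℝ) < C := by exact_mod_cast hC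
  have hMR : (0:ℝ) < M := by exact_mod_cast hM
  have hCR' : (0:ℝ) < C' := by exact_mod_cast hC'0
  have hμR : (0:ℝ) < μ := by exact_mod_cast hμ0
  have e1 : (l:ℝ) * (C * M) = H := by exact_mod_cast hl1
  have e2 : (l':ℝ) * (C' * (M * μ)) = H := by exact_mod_cast hl1'
  have hratio : (μ:ℝ) * l' / l = C / C' := by
    rw [div_eq_div_iff hlR.ne' hCR'.ne']
    have : (μ:ℝ) * l' * C' * M = C * l * M := by
      calc (μ:ℝ) * l' * C' * M = l' * (C' * (M * μ)) := by ring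
        _ = l * (C * M) := by rw [e1, e2]
        _ = C * l * M := by ring
    exact mul_right_cancel₀ hMR.ne' this
  have hmin : 0 < min σ τ := lt_min hσ hτ0
  have h8 : 8 * ((μ:ℝ) * l' / l) ≤ min σ τ := by
    rw [hratio]
    have h1 : 8 * (C:ℝ) / min σ τ ≤ C' := by
      refine (Nat.le_ceil _).trans ?_
      rw [hC']; push_cast
      have : (0:ℝ) ≤ B * Khi := by positivity
      linarith
    rw [div_le_iff₀ hmin] at h1
    rw [← mul_div_assoc, div_le_iff₀ hCR']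
    linarith
  refine ⟨⟨hlpos', hlpos, h8.trans (min_le_left _ _)⟩, ?_⟩
  intro a f g hf0 hf1 hg0 hg1 hEf hEg N hN1 hN2 j hj1 hjm
  have hNpos : 0 < N := Nat.pos_of_ne_zero (by rintro rfl; rw [zero_mul] at hN1; omega)
  have hNR : (0:ℝ) < N := by exact_mod_cast hNpos
  have hNR1 : (1:ℝ) ≤ N := by exact_mod_cast hNpos
  set k : ℕ := H / (16 * N) with hk
  have h16 : 16 * N ≤ H := by
    have : N * 16 ≤ N * Klo := Nat.mul_le_mul_left N (by omega)
    omega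
  have hk1 : 1 ≤ k := Nat.div_pos h16 (by omega)
  have hkR : (1:ℝ) ≤ k := by exact_mod_cast hk1
  have h16k : 16 * k * N ≤ H := by
    have := Nat.div_mul_le_self H (16 * N)
    calc 16 * k * N = k * (16 * N) := by ring
      _ ≤ H := this
  have hkH : k ≤ H := Nat.div_le_self _ _
  have hKhiR : (H:ℝ) ≤ N * Khi := by exact_mod_cast hN1
  have hKloR : (N:ℝ) * Klo ≤ H := by exact_mod_cast hN2
  have hkKhi : (k:ℝ) ≤ Khi / 16 := by
    have h1 : (16:ℝ) * k * N ≤ H := by exact_mod_cast h16k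
    have h2 : (16:ℝ) * k * N ≤ N * Khi := h1.trans hKhiR
    have h3 : (16:ℝ) * k ≤ Khi := by
      have : (16:ℝ) * k * N ≤ Khi * N := by linarith
      exact le_of_mul_le_mul_right this hNR
    linarith
  set δ : ℝ := Khi / C' with hδ
  have hKhi0 : (0:ℝ) < Khi := by
    have : 0 < Khi := Nat.mul_pos (by positivity) (by omega)
    exact_mod_cast this
  have hδ1 : 4 * Real.pi * (M * μ : ℕ) * l' * k / H ≤ δ := by
    have h1 : 4 * Real.pi * ((M * μ : ℕ) : ℝ) * l' * k / H = 4 * Real.pi * k / C' := by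
      rw [div_eq_div_iff hH.ne' hCR'.ne', ← e2]; push_cast; ring
    rw [h1, hδ]
    have hpi := Real.pi_lt_d2
    have : 4 * Real.pi * k ≤ Khi := by nlinarith [Real.pi_pos]
    gcongr
  have hBKhi : (B:ℝ) * Khi ≤ C' := by
    rw [hC']; push_cast
    have : (0:ℝ) ≤ (⌈8 * (C:ℝ) / min σ τ⌉₊ : ℝ) := by positivity
    linarith
  have hBR : (1:ℝ) ≤ B := by exact_mod_cast hB1
  have hδB : δ ≤ 1 / B := by
    rw [hδ, div_le_div_iff₀ hCR' (by linarith)]
    linarith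
  have hδ0 : 0 ≤ δ := by rw [hδ]; positivity
  have hcard : ∀ i < m, ((Q i).card : ℝ) ≤ B := by
    intro i hi
    have h1 : Q i ⊆ Icc 1 Y := fun q hq => Finset.mem_Icc.2 ⟨(hQ1 i q hq).1.one_lt.le, hYq i hi q hq⟩
    have h2 : (Q i).card ≤ Y := by simpa using Finset.card_le_card h1
    have h3 : Y ≤ B := by
      calc Y = Y^1 := (pow_one Y).symm
        _ ≤ Y^m := Nat.pow_le_pow_right hY1 hm
    exact_mod_cast h2.trans h3
  have hδQ : ∀ i < m, ((Q i).card : ℝ) * δ ^ 2 ≤ 1 := by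
    intro i hi
    calc ((Q i).card : ℝ) * δ ^ 2 ≤ (B:ℝ) * (1 / (B:ℝ))^2 := by
          gcongr
          exact_mod_cast hcard i hi
      _ = 1 / (B:ℝ) := by field_simp
      _ ≤ 1 := by rw [div_le_one (by linarith)]; exact hBR
  have hμdvd : μ ∣ H := (Dvd.intro (C * C' * M) (by ring)).trans hdiv
  have hcore := level_core Q M μ l l' m a hlpos' hM (fun i q hq => (hQ1 i q hq).1) hQ2
    (fun i q hq => by
      have h1 := (hQ1 i q hq).2
      have h2 : M ∣ q - 1 := (Nat.modEq_iff_dvd' (hQ1 i q hq).1.one_lt.le).1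
        (show 1 ≡ q [MOD M] from h1.symm)
      obtain ⟨ν, hν⟩ := h2
      exact ⟨ν, by have := (hQ1 i q hq).1.one_lt; omega⟩) L hL0 (fun i _ => hQ3 i)
    (fun i hi e he e' he' => (Nat.lcm_dvd (hSpB i hi e he).2.2 (hSpB i hi e' he').2.2).trans hμdvd)
    (fun i hi s hs => ((hSpB i hi.le s hs).2.2).mul_left M)
    (fun i hi s hs q hq q' hq' hlt => by
      refine Dvd.dvd.mul_left ?_ M
      refine Nat.dvd_factorial (Nat.mul_pos (hSp i hi.le s hs).1 (by omega)) ?_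
      calc s * (q - q') ≤ Y^i * Y := Nat.mul_le_mul (hSp i hi.le s hs).2
            ((Nat.sub_le _ _).trans (hYq i hi q hq))
        _ = Y^(i+1) := (pow_succ Y i).symm
        _ ≤ Y^m := Nat.pow_le_pow_right hY1 hi)
    (B:ℝ) (fun i hi e he => by exact_mod_cast (hSpB i hi e he).2.1)
    f g hf0 hf1 hg0 hg1 τ hEf hEg (h8.trans (min_le_right _ _)) N k hk1 h16k hkH δ hδ1 hδQ j hj1 hjm
  refine hcore.trans ?_
  -- numeric estimate
  have h32 : (H:ℝ) ≤ 32 * N * k := by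
    have h2 : H < 16 * N * (k + 1) := Nat.lt_mul_div_succ H (by omega)
    have h3 : (H:ℝ) < 16 * N * (k + 1) := by exact_mod_cast h2
    have h4 : (N:ℝ) * 1 ≤ N * k := mul_le_mul_of_nonneg_left hkR hNR.le
    linarith
  have hKlo160 : 160 * (B:ℝ) * C * M / ε ≤ Klo := by
    refine (Nat.le_ceil _).trans ?_
    rw [hKlo]; push_cast
    have : (0:ℝ) ≤ 40 * m * B := by positivity
    linarith
  exact num_final m hm' ε hε0 hε1 L hLdef B C M N H l k Klo hBR hCR hMR hNR1 hH hlR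
    (by linarith) e1 h32 hKlo160 hKloR _ (pow_small m ε L hε0 hε1 hLdef hm)

end Pool.Agent.H55.Odd
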