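import Pool.Agent.H55.Odd.CfgBase

/-!
Every unimodular base pair of a configuration for `r` produces an integer `k` with
`Ω(3k²+3k+1) ≡ r (mod m)`.
-/

set_option autoImplicit false

namespace Pool.Agent.H55.Odd

open Pool.Agent.H41.Eis Finset
open ArithmeticFunction (cardFactors cardFactors_mul cardFactors_apply_prime cardFactors_one)

lemma div_lemma (δ : ℤ × ℤ) (D τ u v : ℤ) (hD : nrm δ = D) (hD0 : D ≠ 0)
    (h1 : D ∣ δ.1 + δ.2 * τ) (h2 : D ∣ τ^2 - τ + 1) (h3 : D ∣ u + v * τ) :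
    ∃ z, emul δ z = (u, v) := by
  obtain ⟨t, ht⟩ := h1
  obtain ⟨q, hq⟩ := h2
  obtain ⟨s, hs⟩ := h3
  have hz1 : D * (D*s*t - s*δ.2*τ - v*τ*t + s*δ.2 + v*δ.2*q) = u*(δ.1+δ.2) + v*δ.2 := by
    have e1 : δ.1 = D*t - δ.2*τ := by linarith
    have e2 : u = D*s - v*τ := by linarith
    rw [e1, e2]
    linear_combination (-(v*δ.2)) * hq
  have hz2 : D * (-(s*δ.2) + v*t) = -(u*δ.2) + v*δ.1 := by
    have e1 : δ.1 = D*t - δ.2*τ := by linarith
    have e2 : u = D*s - v*τ := by linarith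
    rw [e1, e2]; ring
  refine ⟨(D*s*t - s*δ.2*τ - v*τ*t + s*δ.2 + v*δ.2*q, -(s*δ.2) + v*t), ?_⟩
  generalize D*s*t - s*δ.2*τ - v*τ*t + s*δ.2 + v*δ.2*q = z1 at hz1
  generalize -(s*δ.2) + v*t = z2 at hz2
  simp only [nrm] at hD
  simp only [emul, Prod.mk.injEq]
  constructor
  · apply mul_left_cancel₀ hD0
    linear_combination δ.1 * hz1 - δ.2 * hz2 + u * hD
  · apply mul_left_cancel₀ hD0
    linear_combination δ.1 * hz2 + δ.2 * hz1 + δ.2 * hz2 + v * hD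

lemma edet_emul (δ z w : ℤ × ℤ) : edet (emul δ z) (emul δ w) = nrm δ * edet z w := by
  simp only [edet, emul, nrm]; ring

/-- The vector of the configuration with index `y`. -/
def Vec (C E A B : ℤ) (y : ℕ) : ℤ × ℤ := ((y:ℤ) * C + A, (y:ℤ) * E + B)

lemma typeB_iff_emul (δ z : ℤ × ℤ) (h3 : ¬ (3:ℤ) ∣ nrm δ) :
    TypeB z ↔ (3:ℤ) ∣ (emul δ z).1 - (emul δ z).2 := by
  have e : (emul δ z).1 - (emul δ z).2 = (δ.1 - δ.2) * (z.1 - z.2) - 3 * (δ.2 * z.2) := by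
    simp only [emul]; ring
  constructor
  · rintro ⟨b, hb⟩
    rw [e, hb]
    exact ⟨(δ.1 - δ.2) * b - δ.2 * z.2, by ring⟩
  · intro h
    have h6 : (3:ℤ) ∣ (δ.1 - δ.2) * (z.1 - z.2) := by
      have e2 : (δ.1 - δ.2) * (z.1 - z.2) = ((emul δ z).1 - (emul δ z).2) + 3 * (δ.2 * z.2) := by
        rw [e]; ring
      rw [e2]
      exact dvd_add h (Dvd.intro _ rfl)
    rcases Int.Prime.dvd_mul' (p := 3) Nat.prime_three (by exact_mod_cast h6) with h | h
    · exfalso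
      apply h3
      obtain ⟨q, hq⟩ := h
      refine ⟨3*q^2 + 3*q*δ.2 + δ.2^2, ?_⟩
      have : δ.1 = δ.2 + 3 * q := by push_cast at hq; linarith
      simp only [nrm]; rw [this]; ring
    · exact_mod_cast h

/-- The unimodular pairs of the configuration. -/
lemma base {m : ℕ} {r : ZMod m} (c : Cfg r) (C E A B : ℤ) (hdet : C * B - E * A = 1)
    (hC : (c.m3:ℤ) ∣ C - 1) (hE : (c.m3:ℤ) ∣ E) (hAB : (c.m3:ℤ) ∣ A + B * c.tau)
    (y d : ℕ) (hd : d ∈ c.DS) (h3y : 3 ∣ y) (hdy : d ∣ y) (hle : d ≤ y) :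
    ∃ z w : ℤ × ℤ, emul (c.δ d) z = Vec C E A B y ∧
      emul (c.δ d) w = Vec C E A B (y - d) ∧ edet z w = 1 ∧ TypeB z ∧ ¬ TypeB w := by
  have f1 := c.dnrm d hd
  have f2 := c.dpos d hd
  have f2' : (0:ℤ) < d := by exact_mod_cast f2
  have f3 := c.ddiv d hd
  have f4 := c.dtau d hd
  have f7 : (d:ℤ) ∣ (c.m3:ℤ) := by exact_mod_cast c.dm3 d hd
  have k1 : (3:ℤ) ∣ (c.m3:ℤ) := by exact_mod_cast c.three
  have f8 : ¬ (3:ℤ) ∣ (d:ℤ) := by
    intro h; exact c.d3 d hd (by exact_mod_cast h)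
  have hC' : (d:ℤ) ∣ C - 1 := f7.trans hC
  have hE' : (d:ℤ) ∣ E := f7.trans hE
  have hAB' : (d:ℤ) ∣ A + B * c.tau := f7.trans hAB
  have hdyZ : (d:ℤ) ∣ (y:ℤ) := by exact_mod_cast hdy
  have h3yZ : (3:ℤ) ∣ (y:ℤ) := by exact_mod_cast h3y
  have hsub : ((y - d : ℕ) : ℤ) = (y:ℤ) - d := by push_cast [Nat.cast_sub hle]; ring
  have hgen : ∀ y' : ℕ, (d:ℤ) ∣ (y':ℤ) →
      (d:ℤ) ∣ ((y':ℤ) * C + A) + ((y':ℤ) * E + B) * c.tau := by
    intro y' hy'
    have : ((y':ℤ) * C + A) + ((y':ℤ) * E + B) * c.tau =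
        (y':ℤ) * (C + E * c.tau) + (A + B * c.tau) := by ring
    rw [this]
    exact dvd_add (hy'.mul_right _) hAB'
  have hdy' : (d:ℤ) ∣ ((y - d : ℕ) : ℤ) := by rw [hsub]; exact dvd_sub hdyZ dvd_rfl
  obtain ⟨z, hz'⟩ := div_lemma (c.δ d) d c.tau _ _ f1 f2'.ne' f3 f4 (hgen y hdyZ)
  obtain ⟨w, hw'⟩ := div_lemma (c.δ d) d c.tau _ _ f1 f2'.ne' f3 f4 (hgen (y-d) hdy')
  have hn3 : ¬ (3:ℤ) ∣ nrm (c.δ d) := by rw [f1]; exact f8
  have hC3 : (3:ℤ) ∣ C - 1 := k1.trans hC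
  have hE3 : (3:ℤ) ∣ E := k1.trans hE
  have hAB3 : (3:ℤ) ∣ A - B := by
    have e : A - B = (A + B * c.tau) - B * (c.tau + 1) := by ring
    rw [e]
    exact dvd_sub (k1.trans hAB) (c.tau3.mul_left _)
  refine ⟨z, w, hz', hw', ?_, ?_, ?_⟩
  · have h := edet_emul (c.δ d) z w
    rw [hz', hw', f1] at h
    simp only [edet] at h ⊢
    rw [hsub] at h
    have h2 : ((y:ℤ) * C + A) * (((y:ℤ) - d) * E + B) - ((y:ℤ) * E + B) * (((y:ℤ) - d) * C + A) =
        d * (C * B - E * A) := by ring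
    rw [h2, hdet] at h
    exact (mul_left_cancel₀ f2'.ne' h).symm
  · rw [typeB_iff_emul _ _ hn3, hz']
    have e : ((y:ℤ) * C + A) - ((y:ℤ) * E + B) = y * (C - E) + (A - B) := by ring
    rw [e]
    exact dvd_add (h3yZ.mul_right _) hAB3
  · rw [typeB_iff_emul _ _ hn3, hw']
    simp only
    rw [hsub]
    intro h
    apply f8
    have e : (d:ℤ) = y * (C - E) + (A - B) - d * (C - 1) + d * E -
        ((((y:ℤ) - d) * C + A) - (((y:ℤ) - d) * E + B)) := by ring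
    rw [e]
    exact dvd_sub (dvd_add (dvd_sub (dvd_add (h3yZ.mul_right _) hAB3) (hC3.mul_left _))
      (hE3.mul_left _)) h

/-- The first coordinate of `z * conj w`. -/
def xb (b : Bool) (k : ℕ) : ℤ := if b then -(3 * (k:ℤ) + 1) else 3 * (k:ℤ) + 2

lemma xb_norm (b : Bool) (k : ℕ) : (xb b k)^2 - xb b k + 1 = 3 * (3 * (k:ℤ)^2 + 3 * k + 1) := by
  cases b <;> simp [xb] <;> ring

/-- The link between base pairs and values of `k`. -/
lemma link {m : ℕ} {r : ZMod m} (c : Cfg r) (C E A B : ℤ) (hdet : C * B - E * A = 1)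
    (hC : (c.m3:ℤ) ∣ C - 1) (hE : (c.m3:ℤ) ∣ E) (hAB : (c.m3:ℤ) ∣ A + B * c.tau) :
    ∃ (y d : ℕ) (b : Bool) (k : ℕ) (z w : ℤ × ℤ), y < c.K ∧ d ∈ c.DS ∧ d ≤ y ∧
      emul (c.δ d) z = Vec C E A B y ∧
      emul (c.δ d) w = Vec C E A B (y - d) ∧ emul z (econj w) = (xb b k, -1) ∧
      nrm z * nrm w = 3 * (3 * (k:ℤ)^2 + 3 * k + 1) ∧
      (cardFactors (3 * k^2 + 3 * k + 1) : ZMod m) = r := by
  obtain ⟨y, hyK, d, hd, h3y, hdy, hle, hcert⟩ :=
    c.cert (fun y => (cardFactors (nrm (Vec C E A B y)).natAbs : ZMod m))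
  obtain ⟨z, w, hz, hw, hzw, hzB, hwB⟩ := base c C E A B hdet hC hE hAB y d hd h3y hdy hle
  obtain ⟨k, hk, hk2⟩ := mixed_value z w hzw (Or.inl ⟨hzB, hwB⟩)
  have hzw0 : 0 < nrm z * nrm w := by rw [hk]; positivity
  have hz0 : 0 < nrm z := by
    rcases (nrm_nonneg z).lt_or_eq with h | h
    · exact h
    · rw [← h] at hzw0; simp at hzw0
  have hw0 : 0 < nrm w := by
    rcases (nrm_nonneg w).lt_or_eq with h | h
    · exact h
    · rw [← h] at hzw0; simp at hzw0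
  have f1 := c.dnrm d hd
  have f2 := c.dpos d hd
  have hval : ∀ (y' : ℕ) (v : ℤ × ℤ), emul (c.δ d) v = Vec C E A B y' → 0 < nrm v →
      (cardFactors (nrm (Vec C E A B y')).natAbs : ZMod m) =
        (cardFactors d : ZMod m) + (cardFactors (nrm v).natAbs : ZMod m) := by
    intro y' v hv hv0
    have h1 : nrm (Vec C E A B y') = d * nrm v := by rw [← hv, nrm_emul, f1]
    rw [h1, Int.natAbs_mul, Int.natAbs_natCast, cardFactors_mul (by omega) (by omega)]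
    push_cast; ring
  rw [hval y z hz hz0, hval (y - d) w hw hw0] at hcert
  have h3 : (nrm z).natAbs * (nrm w).natAbs = 3 * (3 * k^2 + 3 * k + 1) := by
    rw [← Int.natAbs_mul, hk]
    have : (3 * (3 * (k:ℤ)^2 + 3 * k + 1)) = ((3 * (3 * k^2 + 3 * k + 1) : ℕ) : ℤ) := by push_cast; ring
    rw [this, Int.natAbs_natCast]
  have h4 : cardFactors (nrm z).natAbs + cardFactors (nrm w).natAbs =
      1 + cardFactors (3 * k^2 + 3 * k + 1) := by
    rw [← cardFactors_mul (by omega) (by omega), h3, cardFactors_mul (by norm_num) (by omega),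
      cardFactors_apply_prime Nat.prime_three]
  have h5 : (cardFactors (nrm z).natAbs : ZMod m) + (cardFactors (nrm w).natAbs : ZMod m) =
      1 + (cardFactors (3 * k^2 + 3 * k + 1) : ZMod m) := by
    exact_mod_cast congrArg (Nat.cast : ℕ → ZMod m) h4
  have h6 : (cardFactors (3 * k^2 + 3 * k + 1) : ZMod m) = r := by
    linear_combination hcert - h5
  rcases hk2 with h | h
  · exact ⟨y, d, true, k, z, w, hyK, hd, hle, hz, hw, by simpa [xb] using h, hk, h6⟩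
  · exact ⟨y, d, false, k, z, w, hyK, hd, hle, hz, hw, by simpa [xb] using h, hk, h6⟩

/-- The vector `z` determines `(C, E)`. -/
lemma link_inj {m : ℕ} {r : ZMod m} (c : Cfg r) (y d : ℕ) (hd : d ∈ c.DS) (hle : d ≤ y) (x : ℤ)
    (z w w' : ℤ × ℤ) (C E A B C' E' A' B' : ℤ)
    (h1 : emul (c.δ d) z = Vec C E A B y)
    (h2 : emul (c.δ d) w = Vec C E A B (y - d)) (h3 : emul z (econj w) = (x, -1))
    (h1' : emul (c.δ d) z = Vec C' E' A' B' y)
    (h2' : emul (c.δ d) w' = Vec C' E' A' B' (y - d))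
    (h3' : emul z (econj w') = (x, -1)) : C = C' ∧ E = E' := by
  have hz0 : z ≠ 0 := by
    rintro rfl
    have := congrArg Prod.snd h3
    simp [emul] at this
  have hz : 0 < nrm z := nrm_pos hz0
  -- `w = w'`
  have hww : w = w' := by
    have e : emul z (econj w) = emul z (econj w') := h3.trans h3'.symm
    have e1 := congrArg Prod.fst e
    have e2 := congrArg Prod.snd e
    simp only [emul, econj] at e1 e2
    simp only [nrm] at hz
    have g2 : (z.1^2 + z.1*z.2 + z.2^2) * (w.2 - w'.2) = 0 := by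
      linear_combination z.2 * e1 - z.1 * e2
    have g1 : (z.1^2 + z.1*z.2 + z.2^2) * (w.1 - w'.1) = 0 := by
      linear_combination z.1 * e1 + (z.1 + z.2) * e2
    refine Prod.ext ?_ ?_
    · rcases mul_eq_zero.1 g1 with h | h
      · omega
      · omega
    · rcases mul_eq_zero.1 g2 with h | h
      · omega
      · omega
  subst hww
  have hd0 : (d:ℤ) ≠ 0 := by exact_mod_cast (c.dpos d hd).ne'
  have hsub : ((y - d : ℕ) : ℤ) = (y:ℤ) - d := by push_cast [Nat.cast_sub hle]; ring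
  have a1 := h1.symm.trans h1'
  have a2 := h2.symm.trans h2'
  simp only [Vec, Prod.mk.injEq] at a1 a2
  rw [hsub] at a2
  obtain ⟨b1, b2⟩ := a1
  obtain ⟨c1, c2⟩ := a2
  constructor
  · apply mul_left_cancel₀ hd0
    linear_combination b1 - c1
  · apply mul_left_cancel₀ hd0
    linear_combination b2 - c2

end Pool.Agent.H55.Odd
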