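import Pool.Agent.H55.Odd.Counting
import Pool.Agent.H55.Odd.Cfg

/-!
The main theorem.
-/

set_option autoImplicit false

namespace Pool.Agent.H55.Odd

open ArithmeticFunction (cardFactors)

/-- **Main theorem.** -/
theorem main {m : ℕ} (hm : Odd m) (r : ZMod m) (ε : ℝ) (hε : 0 < ε) :
    ∃ X0 : ℕ, ∀ X : ℕ, X0 ≤ X → (X:ℝ)^(1 - ε) ≤
      (((Finset.Icc 1 X).filter
        (fun k => (cardFactors (3 * k^2 + 3 * k + 1) : ZMod m) = r)).card : ℝ) := by
  have : NeZero m := ⟨by rintro rfl; exact absurd hm (by decide)⟩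
  obtain ⟨c⟩ := exists_cfg hm r
  exact main_of_cfg c ε hε

end Pool.Agent.H55.Odd
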