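import Pool.Agent.H55.Odd.Sieve5
import Pool.Agent.H55.Odd.Fourier
import Pool.Agent.H55.Odd.Defs

/-!
Transfer of mean square bounds for trigonometric polynomials from integers to primes.
-/

set_option autoImplicit false
set_option linter.unusedSectionVars false

namespace Pool.Agent.H55.Odd

open Finset

variable {W R : ℕ}

lemma nu_prime (hR : 1 ≤ R) {p : ℕ} (hp : p.Prime) (hpR : R < p) : nu W R p = 1 := by
  have h1 : (1:ℕ) ∈ DD W R := mem_DD.2 ⟨⟨le_rfl, hR⟩, squarefree_one, Nat.coprime_one_left _⟩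
  rw [nu, Finset.sum_eq_single_of_mem 1 h1]
  · rw [if_pos (one_dvd p), lam_one hR, one_pow]
  · intro d hd hd1
    rw [if_neg]
    intro h
    rcases (Nat.dvd_prime hp).1 h with h2 | h2
    · exact hd1 h2
    · have := (mem_DD.1 hd).1.2
      omega

variable {H : ℕ} [NeZero H]

/-- A trigonometric polynomial with frequencies in `ZMod H` and coefficient sum at most `K`. -/
def Trig (H : ℕ) [NeZero H] (K : ℝ) (A : ℕ → ℝ) : Prop :=
  ∃ c : ZMod H → ℂ, (∀ n : ℕ, ((A n : ℝ) : ℂ) = ∑ φ, c φ * ψ (φ * (n : ZMod H))) ∧ ∑ φ, ‖c φ‖ ≤ K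

lemma psi_val (φ : ZMod H) (n : ℕ) : ψ (φ * (n : ZMod H)) = ex (((φ.val : ℝ) / H) * n) := by
  have h1 : φ * (n : ZMod H) = ((φ.val * n : ℕ) : ZMod H) := by
    push_cast; rw [ZMod.natCast_zmod_val]
  rw [h1, psi_natCast, ex]
  congr 1
  push_cast; ring

lemma trig_majorant (hR : 1 ≤ R) (hW : 0 < W) (w : ℝ) (hw0 : 0 < w)
    (hw : ∀ p : ℕ, p.Prime → (p:ℝ) ≤ w → p ∣ W) (N : ℕ) (hN : W * R^2 ≤ N) (K : ℝ) (A : ℕ → ℝ)
    (hA : Trig H K A) :
    ∑ n ∈ II W N, nu W R n * (A n) ^ 2 ≤ (1 / GG W R) * ∑ n ∈ II W N, (A n) ^ 2 +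
      K ^ 2 * (5 * N / (W * w * GG W R) + 10 * (R:ℝ)^6 + 30 * (R:ℝ)^4 * Real.sqrt N) := by
  obtain ⟨c, hc, hK⟩ := hA
  set Er : ℝ := 5 * N / (W * w * GG W R) + 10 * (R:ℝ)^6 + 30 * (R:ℝ)^4 * Real.sqrt N with hEr
  have hK0 : 0 ≤ K := (Finset.sum_nonneg fun _ _ => norm_nonneg _).trans hK
  -- expansion of the square
  have hsq : ∀ n : ℕ, (((A n) ^ 2 : ℝ) : ℂ) =
      ∑ φ, ∑ φ', c φ * (starRingEnd ℂ) (c φ') * ex ((((φ - φ').val : ℝ) / H) * n) := by
    intro n
    have h1 : (((A n) ^ 2 : ℝ) : ℂ) = ((A n : ℝ) : ℂ) * (starRingEnd ℂ) ((A n : ℝ) : ℂ) := by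
      rw [Complex.conj_ofReal]; push_cast; ring
    rw [h1, hc n, map_sum, Finset.sum_mul_sum]
    refine Finset.sum_congr rfl fun φ _ => Finset.sum_congr rfl fun φ' _ => ?_
    rw [map_mul, ← psi_neg, ← psi_val]
    rw [show c φ * ψ (φ * (n:ZMod H)) * ((starRingEnd ℂ) (c φ') * ψ (-(φ' * (n:ZMod H)))) =
      c φ * (starRingEnd ℂ) (c φ') * (ψ (φ * (n:ZMod H)) * ψ (-(φ' * (n:ZMod H)))) by ring, ← psi_add]
    congr 2; ring
  have hmain : ∀ x : ℕ → ℝ, ((∑ n ∈ II W N, x n * (A n) ^ 2 : ℝ) : ℂ) =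
      ∑ φ, ∑ φ', c φ * (starRingEnd ℂ) (c φ') * ∑ n ∈ II W N, (x n : ℂ) * ex ((((φ - φ').val : ℝ) / H) * n) := by
    intro x
    push_cast
    have h1 : ∀ n ∈ II W N, (x n : ℂ) * ((A n : ℝ) : ℂ) ^ 2 = ∑ φ, ∑ φ', c φ * (starRingEnd ℂ) (c φ') *
        ((x n : ℂ) * ex ((((φ - φ').val : ℝ) / H) * n)) := by
      intro n _
      have h2 := hsq n
      rw [Complex.ofReal_pow] at h2
      rw [h2, Finset.mul_sum]
      refine Finset.sum_congr rfl fun φ _ => ?_
      rw [Finset.mul_sum]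
      refine Finset.sum_congr rfl fun φ' _ => ?_
      ring
    rw [Finset.sum_congr rfl h1, Finset.sum_comm]
    refine Finset.sum_congr rfl fun φ _ => ?_
    rw [Finset.sum_comm]
    refine Finset.sum_congr rfl fun φ' _ => ?_
    rw [Finset.mul_sum]
  have hdiff : ((∑ n ∈ II W N, nu W R n * (A n) ^ 2 - (1 / GG W R) * ∑ n ∈ II W N, (A n) ^ 2 : ℝ) : ℂ) =
      ∑ φ, ∑ φ', c φ * (starRingEnd ℂ) (c φ') *
        (∑ n ∈ II W N, (nu W R n) • ex ((((φ - φ').val : ℝ) / H) * n) -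
          (1 / GG W R) • ∑ n ∈ II W N, ex ((((φ - φ').val : ℝ) / H) * n)) := by
    have e1 : (∑ n ∈ II W N, nu W R n * (A n) ^ 2 - (1 / GG W R) * ∑ n ∈ II W N, (A n) ^ 2 : ℝ) =
        ∑ n ∈ II W N, nu W R n * (A n) ^ 2 - ∑ n ∈ II W N, (1 / GG W R) * (A n) ^ 2 := by
      rw [Finset.mul_sum]
    rw [e1, Complex.ofReal_sub, hmain (fun n => nu W R n), hmain (fun _ => 1 / GG W R),
      ← Finset.sum_sub_distrib]
    refine Finset.sum_congr rfl fun φ _ => ?_
    rw [← Finset.sum_sub_distrib]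
    refine Finset.sum_congr rfl fun φ' _ => ?_
    rw [← mul_sub]
    congr 2
    rw [Complex.real_smul, Finset.mul_sum]
  have hbound : |∑ n ∈ II W N, nu W R n * (A n) ^ 2 - (1 / GG W R) * ∑ n ∈ II W N, (A n) ^ 2| ≤ K^2 * Er := by
    rw [← Real.norm_eq_abs, ← Complex.norm_real, hdiff]
    have hEr0 : 0 ≤ Er := (norm_nonneg _).trans (expo hR hW w hw0 hw N hN 0)
    calc _ ≤ ∑ φ : ZMod H, ∑ φ' : ZMod H, ‖c φ‖ * (‖c φ'‖ * Er) := by
          refine (norm_sum_le _ _).trans (Finset.sum_le_sum fun φ _ => ?_)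
          refine (norm_sum_le _ _).trans (Finset.sum_le_sum fun φ' _ => ?_)
          rw [norm_mul, norm_mul, RCLike.norm_conj, mul_assoc]
          gcongr
          exact expo hR hW w hw0 hw N hN _
      _ = (∑ φ, ‖c φ‖) * ((∑ φ', ‖c φ'‖) * Er) := by
          rw [Finset.sum_mul]
          refine Finset.sum_congr rfl fun φ _ => ?_
          rw [← Finset.mul_sum, ← Finset.sum_mul]
      _ ≤ K * (K * Er) := by gcongr
      _ = K^2 * Er := by ring
  have := (abs_le.1 hbound).2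
  linarith

lemma GG_le (W R : ℕ) : GG W R ≤ R := by
  have h1 : ∀ k ∈ DD W R, (1:ℝ) / Nat.totient k ≤ 1 := by
    intro k hk
    have h2 : 1 ≤ Nat.totient k := Nat.totient_pos.2 (mem_DD.1 hk).1.1
    have h3 : (1:ℝ) ≤ Nat.totient k := by exact_mod_cast h2
    rw [div_le_one (by linarith)]; exact h3
  refine (Finset.sum_le_sum h1).trans ?_
  rw [Finset.sum_const, nsmul_eq_mul, mul_one]
  have : (DD W R).card ≤ R := (Finset.card_filter_le _ _).trans (by simp)
  exact_mod_cast this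

/-- **Mean square over primes.** -/
theorem prime_mean (W : ℕ) (hW : 0 < W) (w : ℝ) (hw0 : 0 < w)
    (hw : ∀ p : ℕ, p.Prime → (p:ℝ) ≤ w → p ∣ W) :
    ∃ N0 : ℕ, ∀ N : ℕ, N0 ≤ N → ∀ (H : ℕ) [NeZero H] (K : ℝ) (A : ℕ → ℝ), Trig H K A →
      ∑ p ∈ PP W N, (A p) ^ 2 ≤ (25 * W / (Nat.totient W * Real.log N)) *
        (∑ n ∈ II W N, (A n) ^ 2 + K ^ 2 * (6 * N / (W * w))) := by
  have hW' : (0:ℝ) < W := by exact_mod_cast hW
  have hW1 : (1:ℝ) ≤ W := by exact_mod_cast hW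
  -- asymptotic conditions on y = N^(1/20)
  have htend : Filter.Tendsto (fun N : ℕ => (N:ℝ)^((1:ℝ)/20)) Filter.atTop Filter.atTop :=
    (tendsto_rpow_atTop (by norm_num)).comp tendsto_natCast_atTop_atTop
  have hev := htend.eventually_ge_atTop (max 2 (max ((2 * W)^5) (40 * W * w)))
  obtain ⟨N0, hN0⟩ := Filter.eventually_atTop.1 hev
  refine ⟨max N0 2, fun N hN H _ K A hA => ?_⟩
  have hN2 : 2 ≤ N := (le_max_right _ _).trans hN
  have hNR : (2:ℝ) ≤ N := by exact_mod_cast hN2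
  have hy := hN0 N ((le_max_left _ _).trans hN)
  set y : ℝ := (N:ℝ)^((1:ℝ)/20) with hydef
  have hy2 : 2 ≤ y := (le_max_left _ _).trans hy
  have hyW : (2 * (W:ℝ))^5 ≤ y := (le_max_left _ _).trans ((le_max_right _ _).trans hy)
  have hyw : 40 * W * w ≤ y := (le_max_right _ _).trans ((le_max_right _ _).trans hy)
  have hyN : y^20 = N := by
    rw [hydef, ← Real.rpow_natCast, ← Real.rpow_mul (by positivity)]
    norm_num
  have hsqrt : Real.sqrt N = y^10 := by
    rw [← hyN, show y^20 = (y^10)^2 by ring, Real.sqrt_sq (by positivity)]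
  set R : ℕ := ⌊y⌋₊ with hRdef
  have hRy : (R:ℝ) ≤ y := Nat.floor_le (by positivity)
  have hyR : y < R + 1 := Nat.lt_floor_add_one y
  have hR2 : 2 ≤ R := Nat.le_floor (by exact_mod_cast hy2)
  have hR1 : 1 ≤ R := by omega
  have hRR : (1:ℝ) ≤ R := by exact_mod_cast hR1
  have hRhalf : y / 2 ≤ R := by linarith
  have hy0 : 0 < y := by linarith
  have hWy : (W:ℝ) ≤ y := by
    have h1 : (W:ℝ) ≤ (2 * W)^5 := by
      have : (2 * (W:ℝ))^1 ≤ (2 * W)^5 := pow_le_pow_right₀ (by linarith) (by norm_num)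
      linarith
    linarith
  have hWR : W * R^2 ≤ N := by
    have : (W:ℝ) * R^2 ≤ N := by
      rw [← hyN]
      calc (W:ℝ) * R^2 ≤ y * y^2 := by gcongr
        _ = y^3 := by ring
        _ ≤ y^20 := pow_le_pow_right₀ (by linarith) (by norm_num)
    exact_mod_cast this
  have hG1 : 1 ≤ GG W R := GG_ge_one hR1
  have hG0 : 0 < GG W R := by linarith
  have hφ : (0:ℝ) < Nat.totient W := by exact_mod_cast Nat.totient_pos.2 hW
  have hlogN : 0 < Real.log N := Real.log_pos (by linarith)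
  -- lower bound for G
  have hGlow : 1 / GG W R ≤ 25 * W / (Nat.totient W * Real.log N) := by
    have h1 := GG_lower W R hW
    have h2 : Real.log N / 25 ≤ Real.log ((R:ℝ) / W) := by
      have h3 : Real.log N = 20 * Real.log y := by
        rw [← hyN, Real.log_pow]; norm_num
      rw [h3]
      have h4 : 20 * Real.log y / 25 = Real.log (y^((4:ℝ)/5)) := by
        rw [Real.log_rpow hy0]; ring
      rw [h4]
      refine Real.log_le_log (by positivity) ?_
      rw [le_div_iff₀ hW']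
      have h5 : y = y^((4:ℝ)/5) * y^((1:ℝ)/5) := by
        rw [← Real.rpow_add hy0]; norm_num
      have h6 : 2 * (W:ℝ) ≤ y^((1:ℝ)/5) := by
        have : ((2 * (W:ℝ))^5)^((1:ℝ)/5) ≤ y^((1:ℝ)/5) := Real.rpow_le_rpow (by positivity) hyW (by norm_num)
        refine le_trans (le_of_eq ?_) this
        rw [← Real.rpow_natCast, ← Real.rpow_mul (by positivity)]
        norm_num
      have h7 : 0 < y^((4:ℝ)/5) := by positivity
      have h8 : y^((4:ℝ)/5) * (2 * W) ≤ y := by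
        conv_rhs => rw [h5]
        exact mul_le_mul_of_nonneg_left h6 h7.le
      linarith
    have h3 : (Nat.totient W / W : ℝ) * (Real.log N / 25) ≤ GG W R :=
      (mul_le_mul_of_nonneg_left h2 (by positivity)).trans h1
    have h4 : 0 < (Nat.totient W / W : ℝ) * (Real.log N / 25) := by positivity
    refine (one_div_le_one_div_of_le h4 h3).trans (le_of_eq ?_)
    field_simp
  -- the error
  have herr : 10 * (R:ℝ)^6 + 30 * (R:ℝ)^4 * Real.sqrt N ≤ (1 / GG W R) * (N / (W * w)) := by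
    rw [one_div_mul_eq_div, le_div_iff₀ hG0, hsqrt]
    have hGR := GG_le W R
    have h1 : 10 * (R:ℝ)^6 + 30 * (R:ℝ)^4 * y^10 ≤ 10 * y^6 + 30 * y^4 * y^10 := by gcongr
    have h2 : (10 * (R:ℝ)^6 + 30 * (R:ℝ)^4 * y^10) * GG W R ≤ (10 * y^6 + 30 * y^4 * y^10) * y :=
      mul_le_mul h1 (hGR.trans hRy) hG0.le (by positivity)
    refine h2.trans ?_
    have h3 : (10 * y^6 + 30 * y^4 * y^10) * y ≤ 40 * y^15 := by
      have h4 : y^7 ≤ y^15 := pow_le_pow_right₀ (by linarith) (by norm_num)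
      have : (10 * y^6 + 30 * y^4 * y^10) * y = 10 * y^7 + 30 * y^15 := by ring
      rw [this]; linarith
    refine h3.trans ?_
    rw [le_div_iff₀ (by positivity), ← hyN]
    have h5 : y ≤ y^5 := by
      calc y = y^1 := (pow_one y).symm
        _ ≤ y^5 := pow_le_pow_right₀ (by linarith) (by norm_num)
    calc 40 * y^15 * (W * w) = y^15 * (40 * W * w) := by ring
      _ ≤ y^15 * y^5 := by gcongr; linarith
      _ = y^20 := by ring
  have hmaj := trig_majorant hR1 hW w hw0 hw N hWR K A hA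
  -- primes
  have hprimes : ∑ p ∈ PP W N, (A p) ^ 2 ≤ ∑ n ∈ II W N, nu W R n * (A n) ^ 2 := by
    have hsub : PP W N ⊆ II W N := by
      intro p hp
      obtain ⟨h1, h2⟩ := Finset.mem_filter.1 hp
      exact Finset.mem_filter.2 ⟨h1, h2.2⟩
    have h1 : ∑ p ∈ PP W N, (A p) ^ 2 = ∑ p ∈ PP W N, nu W R p * (A p) ^ 2 := by
      refine Finset.sum_congr rfl fun p hp => ?_
      obtain ⟨h1, h2⟩ := Finset.mem_filter.1 hp
      have hpN := (Finset.mem_Ioc.1 h1).1
      have hRN : R ≤ N := by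
        have : (R:ℝ) ≤ N := by
          rw [← hyN]
          calc (R:ℝ) ≤ y := hRy
            _ = y^1 := (pow_one y).symm
            _ ≤ y^20 := pow_le_pow_right₀ (by linarith) (by norm_num)
        exact_mod_cast this
      rw [nu_prime hR1 h2.1 (by omega), one_mul]
    rw [h1]
    exact Finset.sum_le_sum_of_subset_of_nonneg hsub
      (fun n _ _ => mul_nonneg (nu_nonneg n) (sq_nonneg _))
  refine hprimes.trans (hmaj.trans ?_)
  have hpos : 0 ≤ ∑ n ∈ II W N, (A n) ^ 2 + K ^ 2 * (6 * N / (W * w)) := by positivity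
  refine le_trans ?_ (mul_le_mul_of_nonneg_right hGlow hpos)
  have h6 : K ^ 2 * (5 * N / (W * w * GG W R) + 10 * (R:ℝ)^6 + 30 * (R:ℝ)^4 * Real.sqrt N) ≤
      K ^ 2 * (5 * N / (W * w * GG W R) + (1 / GG W R) * (N / (W * w))) := by
    refine mul_le_mul_of_nonneg_left ?_ (sq_nonneg K)
    linarith
  have h7 : K ^ 2 * (5 * N / (W * w * GG W R) + (1 / GG W R) * (N / (W * w))) =
      (1 / GG W R) * (K ^ 2 * (6 * N / (W * w))) := by
    field_simp; ring
  rw [mul_add]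
  linarith

end Pool.Agent.H55.Odd
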