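import Pool.Agent.H55.Odd.Level
import Pool.Agent.H55.Odd.Sieve6

/-!
`Phi` and its averages are trigonometric polynomials with bounded coefficient sum.
-/

set_option autoImplicit false
set_option linter.unusedSectionVars false

namespace Pool.Agent.H55.Odd

open Finset

variable {H : ℕ} [NeZero H]

lemma Trig.add {K K' : ℝ} {A B : ℕ → ℝ} (hA : Trig H K A) (hB : Trig H K' B) :
    Trig H (K + K') (fun n => A n + B n) := by
  obtain ⟨c, hc1, hc2⟩ := hA
  obtain ⟨d, hd1, hd2⟩ := hB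
  refine ⟨fun φ => c φ + d φ, fun n => ?_, ?_⟩
  · push_cast
    rw [hc1, hd1, ← Finset.sum_add_distrib]
    refine Finset.sum_congr rfl fun φ _ => ?_
    ring
  · refine (Finset.sum_le_sum fun φ _ => norm_add_le _ _).trans ?_
    rw [Finset.sum_add_distrib]
    exact add_le_add hc2 hd2

lemma Trig.smul {K : ℝ} {A : ℕ → ℝ} (hA : Trig H K A) (t : ℝ) :
    Trig H (|t| * K) (fun n => t * A n) := by
  obtain ⟨c, hc1, hc2⟩ := hA
  refine ⟨fun φ => (t:ℂ) * c φ, fun n => ?_, ?_⟩
  · push_cast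
    rw [hc1, Finset.mul_sum]
    refine Finset.sum_congr rfl fun φ _ => ?_
    ring
  · simp only [norm_mul, Complex.norm_real, Real.norm_eq_abs]
    rw [← Finset.mul_sum]
    exact mul_le_mul_of_nonneg_left hc2 (abs_nonneg _)

lemma Trig.sub {K K' : ℝ} {A B : ℕ → ℝ} (hA : Trig H K A) (hB : Trig H K' B) :
    Trig H (K + K') (fun n => A n - B n) := by
  have h := hA.add (hB.smul (-1))
  rw [abs_neg, abs_one, one_mul] at h
  have e : (fun n => A n + -1 * B n) = fun n => A n - B n := by funext n; ring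
  rwa [e] at h

lemma Trig.zero : Trig H 0 (fun _ => 0) := ⟨fun _ => 0, fun n => by simp, by simp⟩

lemma Trig.sum {ι : Type*} (I : Finset ι) (w : ι → ℝ) (hw : ∀ i ∈ I, 0 ≤ w i) (K : ℝ) (A : ι → ℕ → ℝ)
    (hA : ∀ i ∈ I, Trig H K (A i)) : Trig H ((∑ i ∈ I, w i) * K) (fun n => ∑ i ∈ I, w i * A i n) := by
  classical
  induction I using Finset.induction_on with
  | empty => simpa using Trig.zero
  | insert i I hi ih =>
    have h1 := (hA i (Finset.mem_insert_self _ _)).smul (w i)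
    rw [abs_of_nonneg (hw i (Finset.mem_insert_self _ _))] at h1
    have h2 := h1.add (ih (fun j hj => hw j (Finset.mem_insert_of_mem hj))
      (fun j hj => hA j (Finset.mem_insert_of_mem hj)))
    simp only [Finset.sum_insert hi, add_mul]
    exact h2

lemma Trig_Phi {e : ℕ} (he : e ∣ H) (a : ℕ) (f g : ZMod H → ℝ) (hf : ∀ x, |f x| ≤ 1)
    (hg : ∀ x, |g x| ≤ 1) : Trig H 1 (fun n => Phi a e f g n) := by
  classical
  set u : ZMod H → ℂ := fun α => (e : ℂ) * (hatR (fun x => ind a e x * f x) α *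
      hatR (fun x => ind a e x * g x) (-α)) with hu
  refine ⟨fun φ => ∑ α, if (e : ZMod H) * α = φ then u α else 0, fun n => ?_, ?_⟩
  · rw [Phi_fourier he a f g n]
    simp only [Finset.sum_mul]
    rw [Finset.sum_comm]
    refine Finset.sum_congr rfl fun α _ => ?_
    rw [Finset.sum_eq_single ((e : ZMod H) * α)]
    · rw [if_pos rfl, hu]
      congr 2; ring
    · intro b _ hb
      rw [if_neg (Ne.symm hb), zero_mul]
    · intro h; exact absurd (Finset.mem_univ _) h
  · have h1 : ∑ φ : ZMod H, ‖∑ α, if (e : ZMod H) * α = φ then u α else 0‖ ≤ ∑ α, ‖u α‖ := by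
      refine (Finset.sum_le_sum fun φ _ => norm_sum_le _ _).trans ?_
      rw [Finset.sum_comm]
      refine Finset.sum_le_sum fun α _ => ?_
      rw [Finset.sum_eq_single ((e : ZMod H) * α)]
      · rw [if_pos rfl]
      · intro b _ hb
        rw [if_neg (Ne.symm hb), norm_zero]
      · intro h; exact absurd (Finset.mem_univ _) h
    refine h1.trans ?_
    have h2 : ∀ α, ‖u α‖ ≤ (1/2) * (e * ‖hatR (fun x => ind a e x * f x) α‖^2) +
        (1/2) * (e * ‖hatR (fun x => ind a e x * g x) α‖^2) := by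
      intro α
      rw [hu]
      simp only [norm_mul, Complex.norm_natCast, norm_hatR_neg]
      generalize ‖hatR (fun x => ind a e x * f x) α‖ = X
      generalize ‖hatR (fun x => ind a e x * g x) α‖ = Y
      have he0 : (0:ℝ) ≤ e := Nat.cast_nonneg e
      nlinarith [mul_nonneg he0 (sq_nonneg (X - Y))]
    refine (Finset.sum_le_sum fun α _ => h2 α).trans ?_
    rw [Finset.sum_add_distrib, ← Finset.mul_sum, ← Finset.mul_sum, ← Finset.mul_sum, ← Finset.mul_sum]
    have h3 := mass_le_one he a f hf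
    have h4 := mass_le_one he a g hg
    linarith

lemma Trig_Av (Q : ℕ → Finset ℕ) : ∀ (j : ℕ) (_ : ∀ i < j, 0 < Lq (Q i)) (F : ℕ → ℕ → ℝ)
    (_ : ∀ e ∈ Sp Q j, Trig H 1 (F e)), Trig H 1 (fun n => Av Q j (fun e => F e n))
  | 0, _, F, hF => hF 1 rfl
  | j+1, hL, F, hF => by
    have h1 : ∀ q ∈ Q j, Trig H 1 (fun n => Av Q j (fun s => F (s * q) n)) := fun q hq =>
      Trig_Av Q j (fun i hi => hL i (by omega)) (fun s => F (s * q)) (fun s hs => hF _ ⟨s, hs, q, hq, rfl⟩)
    have hLj := hL j (Nat.lt_succ_self j)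
    have h2 := Trig.sum (Q j) (fun q => 1 / (Lq (Q j) * q)) (fun q _ => by positivity) 1
      (fun q n => Av Q j (fun s => F (s * q) n)) h1
    have h3 : ∑ q ∈ Q j, (1:ℝ) / (Lq (Q j) * q) = 1 := by
      have e0 : ∀ q ∈ Q j, (1:ℝ) / (Lq (Q j) * q) = 1 / Lq (Q j) * (1 / q) :=
        fun q _ => (one_div_mul_one_div (Lq (Q j)) (q:ℝ)).symm
      rw [Finset.sum_congr rfl e0, ← Finset.mul_sum]
      change 1 / Lq (Q j) * Lq (Q j) = 1
      field_simp
    rw [h3, one_mul] at h2
    exact h2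

/-! ### Properties of the products -/

lemma Sp_props (Q : ℕ → Finset ℕ) (M : ℕ) (h3M : 3 ∣ M) (hprime : ∀ i, ∀ q ∈ Q i, q.Prime ∧ q % M = 1 % M)
    (hdisj : ∀ i i', i ≠ i' → Disjoint (Q i) (Q i')) :
    ∀ j, ∀ e ∈ Sp Q j, Squarefree e ∧ (∀ p : ℕ, p.Prime → p ∣ e → p % 3 = 1) ∧
      ArithmeticFunction.cardFactors e = j
  | 0, e, he => by
    rw [show e = 1 from he]
    refine ⟨squarefree_one, fun p hp h => ?_, by simp⟩
    exact absurd (Nat.dvd_one.1 h) hp.one_lt.ne'
  | j+1, e, he => by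
    obtain ⟨s, hs, q, hq, rfl⟩ := he
    obtain ⟨h1, h2, h3⟩ := Sp_props Q M h3M hprime hdisj j s hs
    have hcop := Sp_coprime Q (fun i q hq => (hprime i q hq).1) hdisj j q hq j le_rfl s hs
    have hqp := (hprime j q hq).1
    refine ⟨?_, ?_, ?_⟩
    · exact (Nat.squarefree_mul hcop).2 ⟨h1, hqp.squarefree⟩
    · intro p hp hpd
      rcases (Nat.Prime.dvd_mul hp).1 hpd with h | h
      · exact h2 p hp h
      · rw [(Nat.prime_dvd_prime_iff_eq hp hqp).1 h]
        have h4 : q ≡ 1 [MOD 3] := Nat.ModEq.of_dvd h3M (hprime j q hq).2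
        exact h4
    · rw [ArithmeticFunction.cardFactors_mul h1.ne_zero hqp.ne_zero, h3,
        ArithmeticFunction.cardFactors_apply_prime hqp]

end Pool.Agent.H55.Odd
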