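import Pool.Agent.H55.Odd.Colour
import Pool.Agent.H55.Odd.TrigPhi
import Pool.Agent.H55.Odd.LevelData

/-!
One level of the energy increment argument.
-/

set_option autoImplicit false
set_option linter.unusedSectionVars false

namespace Pool.Agent.H55.Odd

open Finset

lemma num_PP (N φ : ℝ) (hN : 8 ≤ N) (hφ : 0 < φ) :
    (1/4) * (N / (φ * Real.log N)) ≤ N * Real.log 2 / (2 * φ * Real.log (2 * N)) := by
  have hlog2 : 0 < Real.log 2 := Real.log_pos (by norm_num)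
  have hlog2' := Real.log_two_gt_d9
  have hlogN : 3 * Real.log 2 ≤ Real.log N := by
    have h1 : Real.log 8 = 3 * Real.log 2 := by
      rw [show (8:ℝ) = 2^3 by norm_num, Real.log_pow]; norm_num
    rw [← h1]
    exact Real.log_le_log (by norm_num) hN
  have hlogN0 : 0 < Real.log N := by linarith
  have h2N : Real.log (2 * N) = Real.log 2 + Real.log N := Real.log_mul (by norm_num) (by linarith)
  rw [h2N, ← mul_div_assoc, div_le_div_iff₀ (by positivity) (by positivity)]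
  have h3 : Real.log 2 + Real.log N ≤ 2 * Real.log 2 * Real.log N := by
    nlinarith
  have h4 : 0 < N * φ := by nlinarith
  nlinarith

lemma good_primes {ι : Type*} (W : ℕ) (hW : 0 < W) (w ε : ℝ) (k : ℕ)
    (hk : 28800 * (k:ℝ)^2 * (W * ε + 24 / w) ≤ 1) (hw0 : 0 < w) (N : ℕ) (hN8 : 8 ≤ N)
    (hcard : (N:ℝ) * Real.log 2 / (2 * Nat.totient W * Real.log (2 * (N:ℝ))) ≤ ((PP W N).card : ℝ))
    (I : Finset ι) (hI : I.card = k) (A : ι → ℕ → ℝ)
    (hPM : ∀ i ∈ I, ∑ p ∈ PP W N, (A i p) ^ 2 ≤ (25 * W / (Nat.totient W * Real.log N)) *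
        (∑ n ∈ II W N, (A i n) ^ 2 + 2 ^ 2 * (6 * N / (W * w))))
    (hA : ∀ i ∈ I, ∑ n ∈ Ioc N (2 * N), (A i n) ^ 2 ≤ ε * N) :
    (1/8) * ((N:ℝ) / (Nat.totient W * Real.log N)) ≤
      (((PP W N).filter (fun p => |∑ i ∈ I, A i p| ≤ 1/12)).card : ℝ) := by
  have hφ : (0:ℝ) < Nat.totient W := by exact_mod_cast Nat.totient_pos.2 hW
  have hW' : (0:ℝ) < W := by exact_mod_cast hW
  have hN8' : (8:ℝ) ≤ N := by exact_mod_cast hN8
  have hlogN0 : 0 < Real.log N := Real.log_pos (by linarith)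
  set X : ℝ := (N:ℝ) / (Nat.totient W * Real.log N) with hX
  have hX0 : 0 < X := by rw [hX]; positivity
  have hPP : (1/4) * X ≤ ((PP W N).card : ℝ) := (num_PP N _ hN8' hφ).trans hcard
  -- total over primes
  have h1 : ∀ i ∈ I, ∑ p ∈ PP W N, (A i p)^2 ≤ 25 * (W * ε + 24 / w) * X := by
    intro i hi
    refine (hPM i hi).trans ?_
    have h2 : ∑ n ∈ II W N, (A i n)^2 ≤ ε * N :=
      (Finset.sum_le_sum_of_subset_of_nonneg (Finset.filter_subset _ _) (fun _ _ _ => sq_nonneg _)).trans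
        (hA i hi)
    calc (25 * W / (Nat.totient W * Real.log N)) * (∑ n ∈ II W N, (A i n) ^ 2 + 2 ^ 2 * (6 * N / (W * w)))
        ≤ (25 * W / (Nat.totient W * Real.log N)) * (ε * N + 2 ^ 2 * (6 * N / (W * w))) := by
          gcongr
      _ = 25 * (W * ε + 24 / w) * X := by rw [hX]; field_simp; ring
  have h2 : ∑ p ∈ PP W N, (∑ i ∈ I, A i p)^2 ≤ (k:ℝ) * (k * (25 * (W * ε + 24 / w) * X)) := by
    have e1 : ∀ p ∈ PP W N, (∑ i ∈ I, A i p)^2 ≤ (k:ℝ) * ∑ i ∈ I, (A i p)^2 := by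
      intro p _
      have := sq_sum_le_card_mul_sum_sq (s := I) (f := fun i => A i p)
      rw [hI] at this
      exact this
    refine (Finset.sum_le_sum e1).trans ?_
    rw [← Finset.mul_sum, Finset.sum_comm]
    refine mul_le_mul_of_nonneg_left ?_ (Nat.cast_nonneg k)
    refine (Finset.sum_le_sum h1).trans ?_
    rw [Finset.sum_const, hI, nsmul_eq_mul]
  -- bad primes
  set Bad := (PP W N).filter (fun p => ¬ |∑ i ∈ I, A i p| ≤ 1/12) with hBad
  have h3 : (Bad.card : ℝ) * (1/144) ≤ ∑ p ∈ PP W N, (∑ i ∈ I, A i p)^2 := by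
    have e1 : ∑ p ∈ Bad, (1/144 : ℝ) ≤ ∑ p ∈ Bad, (∑ i ∈ I, A i p)^2 := by
      refine Finset.sum_le_sum fun p hp => ?_
      have := (Finset.mem_filter.1 hp).2
      push Not at this
      rw [← sq_abs]
      nlinarith [abs_nonneg (∑ i ∈ I, A i p)]
    rw [Finset.sum_const, nsmul_eq_mul] at e1
    exact e1.trans (Finset.sum_le_sum_of_subset_of_nonneg (Finset.filter_subset _ _)
      (fun _ _ _ => sq_nonneg _))
  have h4 : (Bad.card : ℝ) ≤ (1/8) * X := by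
    have e1 : (Bad.card : ℝ) * (1/144) ≤ (k:ℝ) * (k * (25 * (W * ε + 24 / w) * X)) := h3.trans h2
    have e2 : (28800 * (k:ℝ)^2 * (W * ε + 24 / w)) * X ≤ 1 * X := mul_le_mul_of_nonneg_right hk hX0.le
    nlinarith
  have h5 : (PP W N).card = ((PP W N).filter (fun p => |∑ i ∈ I, A i p| ≤ 1/12)).card + Bad.card :=
    (Finset.card_filter_add_card_filter_not (s := PP W N) (fun p => |∑ i ∈ I, A i p| ≤ 1/12)).symm
  have h6 : ((PP W N).card : ℝ) = (((PP W N).filter (fun p => |∑ i ∈ I, A i p| ≤ 1/12)).card : ℝ) + Bad.card := by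
    exact_mod_cast h5
  linarith

variable {m : ℕ} [NeZero m]

/-- Total energy. -/
noncomputable def TotEn (H : ℕ) [NeZero H] (M C a : ℕ) (v : ℕ → ZMod m) : ℝ :=
  ∑ c : ZMod m, (En M (H / (C * M)) (fc (H := H) a v c) + En M (H / (C * M)) (gc (H := H) v c))

lemma TotEn_nonneg (H : ℕ) [NeZero H] (M C a : ℕ) (v : ℕ → ZMod m) : 0 ≤ TotEn H M C a v :=
  Finset.sum_nonneg fun _ _ => add_nonneg (En_nonneg _ _ _) (En_nonneg _ _ _)

lemma TotEn_le (H : ℕ) [NeZero H] (M C a : ℕ) (v : ℕ → ZMod m) : TotEn H M C a v ≤ 2 * m := by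
  have h1 : ∀ c ∈ (Finset.univ : Finset (ZMod m)),
      (En M (H / (C * M)) (fc (H := H) a v c) + En M (H / (C * M)) (gc (H := H) v c)) ≤ 2 := by
    intro c _
    have e1 := En_le_one M (H / (C * M)) (fc (H := H) a v c)
      (fun x => abs_le.2 ⟨by linarith [fc_nonneg a v c x], fc_le_one a v c x⟩)
    have e2 := En_le_one M (H / (C * M)) (gc (H := H) v c)
      (fun x => abs_le.2 ⟨by linarith [gc_nonneg v c x], gc_le_one v c x⟩)
    linarith
  refine (Finset.sum_le_sum h1).trans ?_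
  rw [Finset.sum_const, Finset.card_univ, ZMod.card, nsmul_eq_mul]
  linarith

/-- A prime with a large total correlation has many violated positions. -/
lemma prime_count (r : ZMod m) {ε τ σ : ℝ} {b M C : ℕ} (Lv : Lev m ε τ σ b M C)
    (h3M : 3 ∣ M) (H : ℕ) [NeZero H] (a : ℕ) (v : ℕ → ZMod m)
    (E : Finset ℕ) (hE : ∀ j, 1 ≤ j → j ≤ m → ∀ e ∈ Sp Lv.Q j, e ∈ E) (p : ℕ)
    (hp : (p:ℝ) * Lv.Klo ≤ 2 * H)
    (hTot : 1/4 ≤ ∑ j ∈ Icc 1 m, ∑ c, Av Lv.Q j (fun e => Phi a e (fc (H := H) a v c) (gc v (tgt r j - c)) p)) :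
    (H:ℝ) / (10 * m * Lv.B) ≤ ((finSet r a H v E p).card : ℝ) := by
  have hH := HR_pos (H := H)
  have hm0 : 0 < m := Nat.pos_of_ne_zero (NeZero.ne m)
  have hm' : (1:ℝ) ≤ m := by exact_mod_cast hm0
  have hB' : (1:ℝ) ≤ Lv.B := by exact_mod_cast Lv.hB0
  obtain ⟨j, hj, hjT⟩ : ∃ j ∈ Icc 1 m, 1 / (4 * (m:ℝ)) ≤
      ∑ c, Av Lv.Q j (fun e => Phi a e (fc (H := H) a v c) (gc v (tgt r j - c)) p) := by
    by_contra hcon
    push Not at hcon
    have h1 : ∑ j ∈ Icc 1 m, ∑ c, Av Lv.Q j (fun e => Phi a e (fc (H := H) a v c) (gc v (tgt r j - c)) p) <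
        ∑ j ∈ Icc 1 m, 1 / (4 * (m:ℝ)) :=
      Finset.sum_lt_sum_of_nonempty ⟨1, Finset.mem_Icc.2 ⟨le_rfl, hm0⟩⟩ hcon
    rw [Finset.sum_const, Nat.card_Icc, nsmul_eq_mul] at h1
    have h2 : ((m + 1 - 1 : ℕ) : ℝ) * (1 / (4 * (m:ℝ))) = 1/4 := by
      rw [show m + 1 - 1 = m by omega]; field_simp
    linarith
  obtain ⟨hj1, hjm⟩ := Finset.mem_Icc.1 hj
  rw [← Av_sum] at hjT
  have hlt : 1 / (5 * (m:ℝ)) < Av Lv.Q j (fun e => ∑ c, Phi a e (fc (H := H) a v c) (gc v (tgt r j - c)) p) := by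
    refine lt_of_lt_of_le ?_ hjT
    refine one_div_lt_one_div_of_lt (by positivity) (by linarith)
  obtain ⟨e, he, heT⟩ := Av_exists Lv.Q j (fun i _ => Lv.hL i) _ _ hlt
  obtain ⟨he0, heB, heμ⟩ := Lv.hB j hjm e he
  rw [Psi_count] at heT
  have he0' : (0:ℝ) < e := by exact_mod_cast he0
  have heB' : (e:ℝ) ≤ Lv.B := by exact_mod_cast heB
  set S := (Finset.univ : Finset (ZMod H)).filter (fun x => e ∣ a + x.val ∧ 3 ∣ a + x.val ∧
        v x.val + v (x - ((e * p : ℕ) : ZMod H)).val = tgt r j) with hS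
  have h1 : (H:ℝ) / (5 * m * Lv.B) ≤ S.card := by
    have h2 : (H:ℝ) / (5 * m) ≤ e * S.card := by
      have h3 : (e / H : ℝ) * S.card * H = e * S.card := by field_simp
      have h4 : 1 / (5 * (m:ℝ)) * H ≤ (e / H : ℝ) * S.card * H := mul_le_mul_of_nonneg_right heT.le hH.le
      rw [h3] at h4
      refine le_trans (le_of_eq ?_) h4
      ring
    have h3 : (e:ℝ) * S.card ≤ Lv.B * S.card := mul_le_mul_of_nonneg_right heB' (Nat.cast_nonneg _)
    rw [div_le_iff₀ (by positivity)]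
    rw [div_le_iff₀ (by positivity)] at h2
    nlinarith
  have h2 := count_lower (H := H) he0 a v (tgt r j) p
  have h2' : (S.card : ℝ) ≤ ((posSet a H v (tgt r j) e p).card : ℝ) + p := by exact_mod_cast h2
  have h3 : posSet a H v (tgt r j) e p ⊆ finSet r a H v E p := by
    intro x hx
    obtain ⟨x1, x2, x3, x4, x5⟩ := Finset.mem_filter.1 hx
    refine Finset.mem_filter.2 ⟨x1, x2, e, hE j hj1 hjm e he, x3, x4, ?_⟩
    rw [(Sp_props Lv.Q M h3M Lv.hprime Lv.hdisj j e he).2.2]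
    exact x5
  have h3' : ((posSet a H v (tgt r j) e p).card : ℝ) ≤ ((finSet r a H v E p).card : ℝ) := by
    exact_mod_cast Finset.card_le_card h3
  have h4 : (p:ℝ) ≤ H / (20 * m * Lv.B) := by
    rw [le_div_iff₀ (by positivity)]
    have h5 : (40:ℝ) * m * Lv.B ≤ Lv.Klo := by exact_mod_cast Lv.hKlo
    have h6 : (p:ℝ) * (40 * m * Lv.B) ≤ p * Lv.Klo := mul_le_mul_of_nonneg_left h5 (Nat.cast_nonneg _)
    linarith
  have h5 : (H:ℝ) / (5 * m * Lv.B) - H / (20 * m * Lv.B) = (3/2) * (H / (10 * m * Lv.B)) := by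
    field_simp; ring
  have h6 : 0 < (H:ℝ) / (10 * m * Lv.B) := by positivity
  linarith

end Pool.Agent.H55.Odd
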