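import Pool.Agent.H55.Odd.OneLevel

/-!
One level of the energy increment argument: conclusion.
-/

set_option autoImplicit false
set_option linter.unusedSectionVars false

namespace Pool.Agent.H55.Odd

open Finset

/-- The mean square estimate over primes. -/
def PM (W : ℕ) (w : ℝ) (N0 : ℕ) : Prop :=
  ∀ N : ℕ, N0 ≤ N → ∀ (H : ℕ) [NeZero H] (K : ℝ) (A : ℕ → ℝ), Trig H K A →
    ∑ p ∈ PP W N, (A p) ^ 2 ≤ (25 * W / (Nat.totient W * Real.log N)) *
      (∑ n ∈ II W N, (A n) ^ 2 + K ^ 2 * (6 * N / (W * w)))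

/-- Windows with many primes. -/
def WP (W b : ℕ) : Prop :=
  ∀ Y : ℕ, 1 ≤ Y → ∃ k < b,
    ((2^k * Y : ℕ) : ℝ) * Real.log 2 / (2 * Nat.totient W * Real.log (2 * ((2^k * Y : ℕ) : ℝ))) ≤
      ((PP W (2^k * Y)).card : ℝ)

variable {m : ℕ} [NeZero m]

/-- The conclusion of the key inequality. -/
def Concl (W : ℕ) (r : ZMod m) (E : Finset ℕ) (Klo Khi : ℕ) (c : ℝ) (H a : ℕ) (v : ℕ → ZMod m) : Prop :=
  c * (H:ℝ)^2 / Real.log H ≤ ∑ p ∈ PB W (H / Khi) (H / Klo), ((finSet r a H v E p).card : ℝ)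

lemma small_inc (hm : Odd m) (r : ZMod m) (W : ℕ) (hW : 0 < W) (w ε : ℝ)
    (hk : 28800 * ((m * m : ℕ):ℝ)^2 * (W * ε + 24 / w) ≤ 1) (hw0 : 0 < w)
    (N0 b : ℕ) (hPM : PM W w N0) (hWP : WP W b) (σ : ℝ) (M C : ℕ)
    (h3M : 3 ∣ M) (Lv : Lev m ε (ε / 80) σ b M C) (E : Finset ℕ)
    (hE : ∀ j, 1 ≤ j → j ≤ m → ∀ e ∈ Sp Lv.Q j, e ∈ E)
    (H : ℕ) [NeZero H] (hH0 : (N0 + 8) * (2^b * Lv.Klo) ≤ H) (hdiv1 : C * Lv.C' * (M * Lv.μ) ∣ H)
    (hdiv2 : 2^b * Lv.Klo ∣ H) (a : ℕ) (v : ℕ → ZMod m)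
    (hf : ∀ c, En (M * Lv.μ) (H / (Lv.C' * (M * Lv.μ))) (fc (H := H) a v c) -
      En M (H / (C * M)) (fc (H := H) a v c) ≤ ε / 80)
    (hg : ∀ c, En (M * Lv.μ) (H / (Lv.C' * (M * Lv.μ))) (gc (H := H) v c) -
      En M (H / (C * M)) (gc (H := H) v c) ≤ ε / 80) :
    Concl W r E Lv.Klo (2^b * Lv.Klo)
      (1 / (80 * Nat.totient W * m * Lv.B * (2^b * Lv.Klo : ℕ))) H a v := by
  classical
  have hH := HR_pos (H := H)
  have hm0 : 0 < m := Nat.pos_of_ne_zero (NeZero.ne m)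
  have hm' : (1:ℝ) ≤ m := by exact_mod_cast hm0
  have hφ : (0:ℝ) < Nat.totient W := by exact_mod_cast Nat.totient_pos.2 hW
  have hB' : (1:ℝ) ≤ Lv.B := by exact_mod_cast Lv.hB0
  obtain ⟨⟨hl', hl, hσ⟩, hmain⟩ := Lv.main H hdiv1
  set Klo := Lv.Klo with hKlo
  set Khi := 2^b * Klo with hKhi
  have hKlo16 : 16 ≤ Klo := Lv.hKlo1
  have hKlo0 : 0 < Klo := by omega
  have hKhi0 : 0 < Khi := Nat.mul_pos (by positivity) hKlo0
  set Y := H / Khi with hY
  have hYK : Y * Khi = H := Nat.div_mul_cancel hdiv2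
  have hYN : N0 + 8 ≤ Y := (Nat.le_div_iff_mul_le hKhi0).2 hH0
  obtain ⟨k, hkb, hkcard⟩ := hWP Y (by omega)
  set N := 2^k * Y with hN
  have h2k : 1 ≤ 2^k := Nat.one_le_two_pow
  have hYleN : Y ≤ N := Nat.le_mul_of_pos_left _ h2k
  have hN8 : 8 ≤ N := by omega
  have hNN0 : N0 ≤ N := by omega
  have h2kb : 2^(k+1) ≤ 2^b := Nat.pow_le_pow_right (by norm_num) (by omega)
  have hN1 : H ≤ N * Khi := by rw [← hYK]; exact Nat.mul_le_mul_right _ hYleN
  have h2N : 2 * N * Klo ≤ H := by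
    calc 2 * N * Klo = 2^(k+1) * (Y * Klo) := by rw [hN, pow_succ]; ring
      _ ≤ 2^b * (Y * Klo) := Nat.mul_le_mul_right _ h2kb
      _ = Y * Khi := by rw [hKhi]; ring
      _ = H := hYK
  have hN2 : N * Klo ≤ H := by
    have : N * Klo ≤ 2 * N * Klo := by nlinarith
    omega
  set l := H / (C * M) with hldef
  set l' := H / (Lv.C' * (M * Lv.μ)) with hl'def
  -- the error functions
  set I : Finset (ℕ × ZMod m) := (Icc 1 m) ×ˢ (Finset.univ : Finset (ZMod m)) with hI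
  have hIcard : I.card = m * m := by
    rw [hI, Finset.card_product, Nat.card_Icc, Finset.card_univ, ZMod.card]
    rw [show m + 1 - 1 = m by omega]
  set A : ℕ × ZMod m → ℕ → ℝ := fun i n =>
    Av Lv.Q i.1 (fun e => Phi a e (fc (H := H) a v i.2) (gc v (tgt r i.1 - i.2)) n) -
      Phi a 1 (P M l (fc (H := H) a v i.2)) (P M l (gc v (tgt r i.1 - i.2))) n with hA
  have hfa : ∀ c, ∀ x : ZMod H, |fc a v c x| ≤ 1 :=
    fun c x => abs_le.2 ⟨by linarith [fc_nonneg a v c x], fc_le_one a v c x⟩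
  have hga : ∀ c, ∀ x : ZMod H, |gc v c x| ≤ 1 :=
    fun c x => abs_le.2 ⟨by linarith [gc_nonneg v c x], gc_le_one v c x⟩
  have hμH : Lv.μ ∣ H := (Dvd.intro (C * Lv.C' * M) (by ring)).trans hdiv1
  have hTrig : ∀ i ∈ I, Trig H 2 (A i) := by
    intro i hi
    obtain ⟨h1, _⟩ := Finset.mem_product.1 hi
    obtain ⟨hi1, him⟩ := Finset.mem_Icc.1 h1
    have t1 : Trig H 1 (fun n => Av Lv.Q i.1 (fun e => Phi a e (fc (H := H) a v i.2)
        (gc v (tgt r i.1 - i.2)) n)) := by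
      refine Trig_Av Lv.Q i.1 (fun i' _ => Lv.hL i')
        (fun e n => Phi a e (fc (H := H) a v i.2) (gc v (tgt r i.1 - i.2)) n) fun e he => ?_
      exact Trig_Phi ((Lv.hB i.1 him e he).2.2.trans hμH) a _ _ (hfa _) (hga _)
    have t2 : Trig H 1 (fun n => Phi a 1 (P M l (fc (H := H) a v i.2))
        (P M l (gc v (tgt r i.1 - i.2))) n) :=
      Trig_Phi (one_dvd H) a _ _ (P_abs _ _ _ _ zero_le_one (hfa _)) (P_abs _ _ _ _ zero_le_one (hga _))
    have := t1.sub t2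
    norm_num at this
    exact this
  have hgood := good_primes W hW w ε (m * m) hk hw0 N hN8 hkcard I hIcard A
    (fun i hi => hPM N hNN0 H 2 (A i) (hTrig i hi)) (by
      intro i hi
      obtain ⟨h1, _⟩ := Finset.mem_product.1 hi
      obtain ⟨hi1, him⟩ := Finset.mem_Icc.1 h1
      exact hmain a (fc a v i.2) (gc v (tgt r i.1 - i.2)) (fc_nonneg a v _) (fc_le_one a v _)
        (gc_nonneg v _) (gc_le_one v _) (hf _) (hg _) N hN1 hN2 i.1 hi1 him)
  set Good := (PP W N).filter (fun p => |∑ i ∈ I, A i p| ≤ 1/12) with hGood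
  have h3H : 3 ∣ H := (h3M.trans (Dvd.intro (C * Lv.C' * Lv.μ) (by ring))).trans hdiv1
  have hsumA : ∀ p, ∑ i ∈ I, A i p = ∑ j ∈ Icc 1 m, ∑ c, Av Lv.Q j (fun e =>
      Phi a e (fc (H := H) a v c) (gc v (tgt r j - c)) p) - 1/3 := by
    intro p
    rw [← main_term (H := H) hm r M l hl h3M h3H a v p, hI, Finset.sum_product, ← Finset.sum_sub_distrib]
    refine Finset.sum_congr rfl fun j _ => ?_
    rw [← Finset.sum_sub_distrib]
  have hGoodcount : ∀ p ∈ Good, (H:ℝ) / (10 * m * Lv.B) ≤ ((finSet r a H v E p).card : ℝ) := by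
    intro p hp
    obtain ⟨h1, h2⟩ := Finset.mem_filter.1 hp
    rw [hsumA] at h2
    have h3 := (abs_le.1 h2).1
    have hpN := (Finset.mem_Ioc.1 (Finset.mem_filter.1 h1).1).2
    refine prime_count r Lv h3M H a v E hE p ?_ (by linarith)
    have : p * Klo ≤ 2 * H := by
      calc p * Klo ≤ 2 * N * Klo := Nat.mul_le_mul_right _ hpN
        _ ≤ H := h2N
        _ ≤ 2 * H := by omega
    exact_mod_cast this
  have hGoodsub : Good ⊆ PB W (H / Khi) (H / Klo) := by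
    intro p hp
    obtain ⟨h1, _⟩ := Finset.mem_filter.1 hp
    obtain ⟨h3, h4⟩ := Finset.mem_filter.1 h1
    obtain ⟨h5, h6⟩ := Finset.mem_Ioc.1 h3
    refine Finset.mem_filter.2 ⟨Finset.mem_Ioc.2 ⟨by omega, ?_⟩, h4⟩
    rw [Nat.le_div_iff_mul_le hKlo0]
    calc p * Klo ≤ 2 * N * Klo := Nat.mul_le_mul_right _ h6
      _ ≤ H := h2N
  rw [Concl]
  calc 1 / (80 * Nat.totient W * m * Lv.B * (Khi : ℕ)) * (H:ℝ)^2 / Real.log H
      ≤ (Good.card : ℝ) * (H / (10 * m * Lv.B)) := by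
        have hN8' : (8:ℝ) ≤ N := by exact_mod_cast hN8
        have hlogN : 0 < Real.log N := Real.log_pos (by linarith)
        have hNH : (N:ℝ) ≤ H := by
          have : N ≤ H := by nlinarith
          exact_mod_cast this
        have hlogNH : Real.log N ≤ Real.log H := Real.log_le_log (by linarith) hNH
        have hKhi' : (0:ℝ) < Khi := by exact_mod_cast hKhi0
        have hN1' : (H:ℝ) ≤ N * Khi := by exact_mod_cast hN1
        have e1 : (H:ℝ) / Khi / (Nat.totient W * Real.log H) ≤ N / (Nat.totient W * Real.log N) := by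
          have e2 : (H:ℝ) / Khi ≤ N := by rw [div_le_iff₀ hKhi']; exact hN1'
          refine div_le_div₀ (by linarith) e2 (by positivity) ?_
          exact mul_le_mul_of_nonneg_left hlogNH hφ.le
        have e3 : (1/8) * ((H:ℝ) / Khi / (Nat.totient W * Real.log H)) ≤ Good.card :=
          (mul_le_mul_of_nonneg_left e1 (by norm_num)).trans hgood
        have e4 : 0 < (H:ℝ) / (10 * m * Lv.B) := by positivity
        refine le_trans (le_of_eq ?_) (mul_le_mul_of_nonneg_right e3 e4.le)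
        have hlogH : Real.log H ≠ 0 := by linarith
        field_simp
        ring
    _ = ∑ p ∈ Good, (H:ℝ) / (10 * m * Lv.B) := by rw [Finset.sum_const, nsmul_eq_mul]
    _ ≤ ∑ p ∈ Good, ((finSet r a H v E p).card : ℝ) := Finset.sum_le_sum hGoodcount
    _ ≤ _ := Finset.sum_le_sum_of_subset_of_nonneg hGoodsub (fun _ _ _ => Nat.cast_nonneg _)

end Pool.Agent.H55.Odd
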