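import Mathlib

/-!
Averages over arithmetic progressions on `ZMod H`, and the energy increment.
-/

set_option autoImplicit false
set_option linter.unusedSectionVars false

namespace Pool.Agent.H55.Odd

open Finset

variable {H : ℕ} [NeZero H]

/-- Mean over `ZMod H`. -/
noncomputable def mean (F : ZMod H → ℝ) : ℝ := (1 / (H : ℝ)) * ∑ x, F x

/-- Forward average. -/
noncomputable def T (M l : ℕ) (f : ZMod H → ℝ) (x : ZMod H) : ℝ :=
  (1 / (l : ℝ)) * ∑ i ∈ range l, f (x + ((M * i : ℕ) : ZMod H))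

/-- Backward average. -/
noncomputable def Ts (M l : ℕ) (f : ZMod H → ℝ) (x : ZMod H) : ℝ :=
  (1 / (l : ℝ)) * ∑ i ∈ range l, f (x - ((M * i : ℕ) : ZMod H))

noncomputable def P (M l : ℕ) (f : ZMod H → ℝ) : ZMod H → ℝ := Ts M l (T M l f)

noncomputable def En (M l : ℕ) (f : ZMod H → ℝ) : ℝ := mean (fun x => (T M l f x) ^ 2)

lemma HR_pos : (0:ℝ) < H := by exact_mod_cast Nat.pos_of_ne_zero (NeZero.ne H)

lemma mean_add (F G : ZMod H → ℝ) : mean (fun x => F x + G x) = mean F + mean G := by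
  simp only [mean, Finset.sum_add_distrib]; ring

lemma mean_sub (F G : ZMod H → ℝ) : mean (fun x => F x - G x) = mean F - mean G := by
  simp only [mean, Finset.sum_sub_distrib]; ring

lemma mean_mul_left (c : ℝ) (F : ZMod H → ℝ) : mean (fun x => c * F x) = c * mean F := by
  simp only [mean, ← Finset.mul_sum]; ring

lemma mean_sum {ι : Type*} (I : Finset ι) (F : ι → ZMod H → ℝ) :
    mean (fun x => ∑ i ∈ I, F i x) = ∑ i ∈ I, mean (F i) := by
  simp only [mean]
  rw [Finset.sum_comm, Finset.mul_sum]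

lemma mean_const (c : ℝ) : mean (fun _ : ZMod H => c) = c := by
  have := HR_pos (H := H)
  simp [mean, ZMod.card]
  field_simp

lemma mean_mono {F G : ZMod H → ℝ} (h : ∀ x, F x ≤ G x) : mean F ≤ mean G := by
  have := HR_pos (H := H)
  exact mul_le_mul_of_nonneg_left (Finset.sum_le_sum fun x _ => h x) (by positivity)

lemma mean_nonneg {F : ZMod H → ℝ} (h : ∀ x, 0 ≤ F x) : 0 ≤ mean F := by
  have := HR_pos (H := H)
  exact mul_nonneg (by positivity) (Finset.sum_nonneg fun x _ => h x)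

lemma mean_shift (F : ZMod H → ℝ) (t : ZMod H) : mean (fun x => F (x + t)) = mean F := by
  simp only [mean]
  congr 1
  exact Fintype.sum_equiv (Equiv.addRight t) _ _ fun x => rfl

lemma mean_abs_le (F : ZMod H → ℝ) : |mean F| ≤ mean (fun x => |F x|) := by
  have := HR_pos (H := H)
  simp only [mean]
  rw [abs_mul, abs_of_nonneg (by positivity : (0:ℝ) ≤ 1 / H)]
  exact mul_le_mul_of_nonneg_left (Finset.abs_sum_le_sum_abs _ _) (by positivity)

/-- Cauchy-Schwarz. -/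
lemma mean_mul_sq (F G : ZMod H → ℝ) :
    (mean (fun x => F x * G x)) ^ 2 ≤ mean (fun x => F x ^ 2) * mean (fun x => G x ^ 2) := by
  have := HR_pos (H := H)
  simp only [mean]
  have h := Finset.sum_mul_sq_le_sq_mul_sq (Finset.univ : Finset (ZMod H)) F G
  calc (1 / (H:ℝ) * ∑ x, F x * G x) ^ 2 = (1 / (H:ℝ)) ^ 2 * (∑ x, F x * G x) ^ 2 := by ring
    _ ≤ (1 / (H:ℝ)) ^ 2 * ((∑ x, F x ^ 2) * ∑ x, G x ^ 2) :=
        mul_le_mul_of_nonneg_left h (by positivity)
    _ = _ := by ring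

/-! ### Averages of translates -/

lemma avg_abs_le {l : ℕ} (g : ℕ → ℝ) (B : ℝ) (hB : 0 ≤ B) (h : ∀ i < l, |g i| ≤ B) :
    |(1 / (l : ℝ)) * ∑ i ∈ range l, g i| ≤ B := by
  rcases Nat.eq_zero_or_pos l with hl | hl
  · subst hl; simpa using hB
  have hl' : (0:ℝ) < l := by exact_mod_cast hl
  rw [abs_mul, abs_of_nonneg (by positivity : (0:ℝ) ≤ 1 / l)]
  calc (1 / (l:ℝ)) * |∑ i ∈ range l, g i| ≤ (1 / (l:ℝ)) * ∑ i ∈ range l, |g i| :=
        mul_le_mul_of_nonneg_left (Finset.abs_sum_le_sum_abs _ _) (by positivity)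
    _ ≤ (1 / (l:ℝ)) * ∑ i ∈ range l, B :=
        mul_le_mul_of_nonneg_left (Finset.sum_le_sum fun i hi => h i (Finset.mem_range.1 hi)) (by positivity)
    _ = B := by rw [Finset.sum_const, card_range, nsmul_eq_mul]; field_simp

lemma T_abs (M l : ℕ) (f : ZMod H → ℝ) (B : ℝ) (hB : 0 ≤ B) (hf : ∀ x, |f x| ≤ B) (x : ZMod H) :
    |T M l f x| ≤ B := avg_abs_le _ B hB fun _ _ => hf _

lemma Ts_abs (M l : ℕ) (f : ZMod H → ℝ) (B : ℝ) (hB : 0 ≤ B) (hf : ∀ x, |f x| ≤ B) (x : ZMod H) :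
    |Ts M l f x| ≤ B := avg_abs_le _ B hB fun _ _ => hf _

lemma P_abs (M l : ℕ) (f : ZMod H → ℝ) (B : ℝ) (hB : 0 ≤ B) (hf : ∀ x, |f x| ≤ B) (x : ZMod H) :
    |P M l f x| ≤ B := Ts_abs _ _ _ _ hB (T_abs _ _ _ _ hB hf) x

lemma T_nonneg (M l : ℕ) (f : ZMod H → ℝ) (hf : ∀ x, 0 ≤ f x) (x : ZMod H) : 0 ≤ T M l f x :=
  mul_nonneg (by positivity) (Finset.sum_nonneg fun _ _ => hf _)

lemma Ts_nonneg (M l : ℕ) (f : ZMod H → ℝ) (hf : ∀ x, 0 ≤ f x) (x : ZMod H) : 0 ≤ Ts M l f x :=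
  mul_nonneg (by positivity) (Finset.sum_nonneg fun _ _ => hf _)

lemma P_nonneg (M l : ℕ) (f : ZMod H → ℝ) (hf : ∀ x, 0 ≤ f x) (x : ZMod H) : 0 ≤ P M l f x :=
  Ts_nonneg _ _ _ (T_nonneg _ _ _ hf) x

lemma T_sub (M l : ℕ) (f g : ZMod H → ℝ) (x : ZMod H) :
    T M l (fun y => f y - g y) x = T M l f x - T M l g x := by
  simp only [T, Finset.sum_sub_distrib]; ring

lemma Ts_sub (M l : ℕ) (f g : ZMod H → ℝ) (x : ZMod H) :
    Ts M l (fun y => f y - g y) x = Ts M l f x - Ts M l g x := by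
  simp only [Ts, Finset.sum_sub_distrib]; ring

/-- `T` and `Ts` are adjoint. -/
lemma adj (M l : ℕ) (f g : ZMod H → ℝ) :
    mean (fun x => T M l f x * g x) = mean (fun x => f x * Ts M l g x) := by
  simp only [T, Ts]
  have h1 : ∀ x, (1 / (l : ℝ)) * (∑ i ∈ range l, f (x + ((M * i : ℕ) : ZMod H))) * g x =
      (1 / (l : ℝ)) * ∑ i ∈ range l, f (x + ((M * i : ℕ) : ZMod H)) * g x := by
    intro x; rw [mul_assoc, Finset.sum_mul]
  have h2 : ∀ x, f x * ((1 / (l : ℝ)) * ∑ i ∈ range l, g (x - ((M * i : ℕ) : ZMod H))) =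
      (1 / (l : ℝ)) * ∑ i ∈ range l, f x * g (x - ((M * i : ℕ) : ZMod H)) := by
    intro x; rw [mul_left_comm, Finset.mul_sum]
  simp only [h1, h2]
  rw [mean_mul_left, mean_mul_left, mean_sum, mean_sum]
  congr 1
  refine Finset.sum_congr rfl fun i _ => ?_
  rw [← mean_shift (fun x => f x * g (x - ((M * i : ℕ) : ZMod H))) ((M * i : ℕ) : ZMod H)]
  simp only [add_sub_cancel_right]

lemma avg_sq_le {l : ℕ} (g : ℕ → ℝ) :
    ((1 / (l : ℝ)) * ∑ i ∈ range l, g i) ^ 2 ≤ (1 / (l : ℝ)) * ∑ i ∈ range l, g i ^ 2 := by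
  rcases Nat.eq_zero_or_pos l with hl | hl
  · subst hl; simp
  have hl' : (0:ℝ) < l := by exact_mod_cast hl
  have h := sq_sum_le_card_mul_sum_sq (s := range l) (f := g)
  rw [card_range] at h
  calc ((1 / (l : ℝ)) * ∑ i ∈ range l, g i) ^ 2 = (1/(l:ℝ))^2 * (∑ i ∈ range l, g i)^2 := by ring
    _ ≤ (1/(l:ℝ))^2 * (l * ∑ i ∈ range l, g i ^ 2) := mul_le_mul_of_nonneg_left h (by positivity)
    _ = _ := by field_simp

lemma T_sq (M l : ℕ) (f : ZMod H → ℝ) : mean (fun x => (T M l f x)^2) ≤ mean (fun x => f x ^ 2) := by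
  rcases Nat.eq_zero_or_pos l with hl | hl
  · subst hl
    simp only [T, range_zero, sum_empty, mul_zero, ne_eq, OfNat.ofNat_ne_zero, not_false_eq_true,
      zero_pow]
    rw [mean_const]
    exact mean_nonneg fun x => sq_nonneg _
  have hl' : (0:ℝ) < l := by exact_mod_cast hl
  calc mean (fun x => (T M l f x)^2)
      ≤ mean (fun x => (1 / (l : ℝ)) * ∑ i ∈ range l, f (x + ((M * i : ℕ) : ZMod H)) ^ 2) :=
        mean_mono fun x => avg_sq_le _
    _ = mean (fun x => f x ^ 2) := by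
        rw [mean_mul_left, mean_sum]
        rw [Finset.sum_congr rfl fun i _ => mean_shift (fun x => f x ^ 2) ((M * i : ℕ) : ZMod H)]
        rw [Finset.sum_const, card_range, nsmul_eq_mul]; field_simp

lemma Ts_sq (M l : ℕ) (f : ZMod H → ℝ) : mean (fun x => (Ts M l f x)^2) ≤ mean (fun x => f x ^ 2) := by
  rcases Nat.eq_zero_or_pos l with hl | hl
  · subst hl
    simp only [Ts, range_zero, sum_empty, mul_zero, ne_eq, OfNat.ofNat_ne_zero, not_false_eq_true,
      zero_pow]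
    rw [mean_const]
    exact mean_nonneg fun x => sq_nonneg _
  have hl' : (0:ℝ) < l := by exact_mod_cast hl
  calc mean (fun x => (Ts M l f x)^2)
      ≤ mean (fun x => (1 / (l : ℝ)) * ∑ i ∈ range l, f (x - ((M * i : ℕ) : ZMod H)) ^ 2) :=
        mean_mono fun x => avg_sq_le _
    _ = mean (fun x => f x ^ 2) := by
        rw [mean_mul_left, mean_sum]
        have : ∀ i ∈ range l, mean (fun x => f (x - ((M * i : ℕ) : ZMod H)) ^ 2) =
            mean (fun x => f x ^ 2) := by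
          intro i _
          have := mean_shift (fun x => f x ^ 2) (-((M * i : ℕ) : ZMod H))
          simpa [sub_eq_add_neg] using this
        rw [Finset.sum_congr rfl this]
        rw [Finset.sum_const, card_range, nsmul_eq_mul]; field_simp

/-! ### Lipschitz property along `M` -/

/-- `g` changes by at most `δ` under a shift by `M`. -/
def Lip (M : ℕ) (δ : ℝ) (g : ZMod H → ℝ) : Prop := ∀ x, |g (x + (M : ZMod H)) - g x| ≤ δ

lemma Lip.iter {M : ℕ} {δ : ℝ} {g : ZMod H → ℝ} (h : Lip M δ g) (s : ℕ) (x : ZMod H) :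
    |g (x + ((M * s : ℕ) : ZMod H)) - g x| ≤ s * δ := by
  induction s with
  | zero => simp
  | succ s ih =>
    have h1 := h (x + ((M * s : ℕ) : ZMod H))
    have e : x + ((M * (s + 1) : ℕ) : ZMod H) = x + ((M * s : ℕ) : ZMod H) + (M : ZMod H) := by
      push_cast; ring
    rw [e]
    calc |g (x + ((M * s : ℕ) : ZMod H) + (M : ZMod H)) - g x|
        = |(g (x + ((M * s : ℕ) : ZMod H) + (M : ZMod H)) - g (x + ((M * s : ℕ) : ZMod H))) +
          (g (x + ((M * s : ℕ) : ZMod H)) - g x)| := by ring_nf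
      _ ≤ δ + s * δ := (abs_add_le _ _).trans (add_le_add h1 ih)
      _ = _ := by push_cast; ring

lemma Lip.iter_sub {M : ℕ} {δ : ℝ} {g : ZMod H → ℝ} (h : Lip M δ g) (s : ℕ) (x : ZMod H) :
    |g (x - ((M * s : ℕ) : ZMod H)) - g x| ≤ s * δ := by
  have := h.iter s (x - ((M * s : ℕ) : ZMod H))
  rw [sub_add_cancel, abs_sub_comm] at this
  exact this

lemma T_lip (M l : ℕ) (f : ZMod H → ℝ) (hf : ∀ x, |f x| ≤ 1) : Lip M (2 / l) (T M l f) := by
  intro x
  rcases Nat.eq_zero_or_pos l with hl | hl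
  · subst hl; simp [T]
  have hl' : (0:ℝ) < l := by exact_mod_cast hl
  have h1 : T M l f (x + (M : ZMod H)) - T M l f x =
      (1 / (l:ℝ)) * (f (x + ((M * l : ℕ) : ZMod H)) - f x) := by
    simp only [T]
    rw [← mul_sub, ← Finset.sum_sub_distrib]
    congr 1
    have := Finset.sum_range_sub (fun i => f (x + ((M * i : ℕ) : ZMod H))) l
    simp only [mul_zero, Nat.cast_zero, add_zero] at this
    rw [← this]
    refine Finset.sum_congr rfl fun i _ => ?_
    congr 2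
    push_cast; ring
  rw [h1, abs_mul, abs_of_nonneg (by positivity : (0:ℝ) ≤ 1 / l)]
  have h2 : |f (x + ((M * l : ℕ) : ZMod H)) - f x| ≤ 2 := by
    have a := abs_le.1 (hf (x + ((M * l : ℕ) : ZMod H)))
    have b := abs_le.1 (hf x)
    rw [abs_le]; constructor <;> linarith
  calc (1 / (l:ℝ)) * |f (x + ((M * l : ℕ) : ZMod H)) - f x| ≤ (1 / (l:ℝ)) * 2 :=
        mul_le_mul_of_nonneg_left h2 (by positivity)
    _ = 2 / l := by ring

lemma T_lip' {M : ℕ} {δ : ℝ} (hδ : 0 ≤ δ) {g : ZMod H → ℝ} (h : Lip M δ g) (M' l' : ℕ) :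
    Lip M δ (T M' l' g) := by
  intro x
  have : T M' l' g (x + (M : ZMod H)) - T M' l' g x = (1 / (l':ℝ)) * ∑ i ∈ range l',
      (g (x + ((M' * i : ℕ) : ZMod H) + (M : ZMod H)) - g (x + ((M' * i : ℕ) : ZMod H))) := by
    simp only [T]
    rw [← mul_sub, ← Finset.sum_sub_distrib]
    congr 1
    refine Finset.sum_congr rfl fun i _ => ?_
    congr 2
    ring
  rw [this]
  exact avg_abs_le _ _ hδ fun i _ => h _

lemma Ts_lip' {M : ℕ} {δ : ℝ} (hδ : 0 ≤ δ) {g : ZMod H → ℝ} (h : Lip M δ g) (M' l' : ℕ) :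
    Lip M δ (Ts M' l' g) := by
  intro x
  have : Ts M' l' g (x + (M : ZMod H)) - Ts M' l' g x = (1 / (l':ℝ)) * ∑ i ∈ range l',
      (g (x - ((M' * i : ℕ) : ZMod H) + (M : ZMod H)) - g (x - ((M' * i : ℕ) : ZMod H))) := by
    simp only [Ts]
    rw [← mul_sub, ← Finset.sum_sub_distrib]
    congr 1
    refine Finset.sum_congr rfl fun i _ => ?_
    congr 2
    ring
  rw [this]
  exact avg_abs_le _ _ hδ fun i _ => h _

lemma P_lip (M l : ℕ) (f : ZMod H → ℝ) (hf : ∀ x, |f x| ≤ 1) : Lip M (2 / l) (P M l f) :=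
  Ts_lip' (by positivity) (T_lip M l f hf) M l

/-- Averages with a step divisible by `M` hardly change a Lipschitz function. -/
lemma T_absorb {M : ℕ} {δ : ℝ} (hδ : 0 ≤ δ) {g : ZMod H → ℝ} (h : Lip M δ g) (μ l' : ℕ)
    (hl : 0 < l') (x : ZMod H) : |T (M * μ) l' g x - g x| ≤ μ * l' * δ := by
  have hl' : (0:ℝ) < l' := by exact_mod_cast hl
  have : T (M * μ) l' g x - g x = (1 / (l':ℝ)) * ∑ i ∈ range l',
      (g (x + ((M * (μ * i) : ℕ) : ZMod H)) - g x) := by
    simp only [T]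
    rw [Finset.sum_sub_distrib, Finset.sum_const, card_range, nsmul_eq_mul, mul_sub]
    simp only [mul_assoc]
    rw [← mul_assoc (1 / (l':ℝ)), one_div, inv_mul_cancel₀ hl'.ne', one_mul]
  rw [this]
  refine avg_abs_le _ _ (by positivity) fun i hi => (h.iter (μ * i) x).trans ?_
  refine mul_le_mul_of_nonneg_right ?_ hδ
  have : (i:ℝ) ≤ l' := by exact_mod_cast hi.le
  push_cast
  exact mul_le_mul_of_nonneg_left this (Nat.cast_nonneg _)

lemma Ts_absorb {M : ℕ} {δ : ℝ} (hδ : 0 ≤ δ) {g : ZMod H → ℝ} (h : Lip M δ g) (μ l' : ℕ)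
    (hl : 0 < l') (x : ZMod H) : |Ts (M * μ) l' g x - g x| ≤ μ * l' * δ := by
  have hl' : (0:ℝ) < l' := by exact_mod_cast hl
  have : Ts (M * μ) l' g x - g x = (1 / (l':ℝ)) * ∑ i ∈ range l',
      (g (x - ((M * (μ * i) : ℕ) : ZMod H)) - g x) := by
    simp only [Ts]
    rw [Finset.sum_sub_distrib, Finset.sum_const, card_range, nsmul_eq_mul, mul_sub]
    simp only [mul_assoc]
    rw [← mul_assoc (1 / (l':ℝ)), one_div, inv_mul_cancel₀ hl'.ne', one_mul]
  rw [this]
  refine avg_abs_le _ _ (by positivity) fun i hi => (h.iter_sub (μ * i) x).trans ?_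
  refine mul_le_mul_of_nonneg_right ?_ hδ
  have : (i:ℝ) ≤ l' := by exact_mod_cast hi.le
  push_cast
  exact mul_le_mul_of_nonneg_left this (Nat.cast_nonneg _)

lemma P_absorb {M : ℕ} {δ : ℝ} (hδ : 0 ≤ δ) {g : ZMod H → ℝ} (h : Lip M δ g) (μ l' : ℕ)
    (hl : 0 < l') (x : ZMod H) : |P (M * μ) l' g x - g x| ≤ 2 * (μ * l' * δ) := by
  have h1 := Ts_absorb hδ (T_lip' hδ h (M * μ) l') μ l' hl x
  have h2 := T_absorb hδ h μ l' hl x
  calc |P (M * μ) l' g x - g x| = |(Ts (M * μ) l' (T (M * μ) l' g) x - T (M * μ) l' g x) +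
        (T (M * μ) l' g x - g x)| := by rw [P]; ring_nf
    _ ≤ _ := (abs_add_le _ _).trans (by linarith)

/-! ### Commutation -/

lemma T_T_comm (M l M' l' : ℕ) (f : ZMod H → ℝ) (x : ZMod H) :
    T M l (T M' l' f) x = T M' l' (T M l f) x := by
  simp only [T]
  simp only [← Finset.mul_sum]
  rw [mul_left_comm, Finset.sum_comm]
  congr 2
  refine Finset.sum_congr rfl fun i _ => Finset.sum_congr rfl fun j _ => ?_
  congr 1; ring

lemma T_Ts_comm (M l M' l' : ℕ) (f : ZMod H → ℝ) (x : ZMod H) :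
    T M l (Ts M' l' f) x = Ts M' l' (T M l f) x := by
  simp only [T, Ts]
  simp only [← Finset.mul_sum]
  rw [mul_left_comm, Finset.sum_comm]
  congr 2
  refine Finset.sum_congr rfl fun i _ => Finset.sum_congr rfl fun j _ => ?_
  congr 1; ring

lemma T_P_comm (M l M' l' : ℕ) (f : ZMod H → ℝ) (x : ZMod H) :
    T M l (P M' l' f) x = P M' l' (T M l f) x := by
  rw [P, T_Ts_comm, P]
  congr 1
  funext y
  exact T_T_comm _ _ _ _ _ _

/-- The energy increment controls `P' f - P f`. -/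
lemma energy (M l μ l' : ℕ) (hl' : 0 < l') (f : ZMod H → ℝ) (hf : ∀ x, |f x| ≤ 1) :
    mean (fun x => (P (M * μ) l' f x - P M l f x) ^ 2) ≤
      En (M * μ) l' f - En M l f + 8 * (μ * l' / l) := by
  -- pairing
  have h1 : mean (fun x => P (M * μ) l' f x * P M l f x) =
      mean (fun x => P (M * μ) l' (T M l f) x * T M l f x) := by
    have := adj M l (P (M * μ) l' f) (T M l f)
    rw [show (fun x => P (M * μ) l' f x * P M l f x) =
      (fun x => P (M * μ) l' f x * Ts M l (T M l f) x) from rfl, ← this]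
    congr 1
    funext x
    rw [T_P_comm]
  have h2 : En M l f - 4 * (μ * l' / l) ≤ mean (fun x => P (M * μ) l' f x * P M l f x) := by
    rw [h1, En]
    have h3 : ∀ x, (T M l f x)^2 - 4 * (μ * l' / l) ≤ P (M * μ) l' (T M l f) x * T M l f x := by
      intro x
      have a1 := P_absorb (by positivity) (T_lip M l f hf) μ l' hl' x
      have a2 := T_abs M l f 1 zero_le_one hf x
      have a3 : |(P (M * μ) l' (T M l f) x - T M l f x) * T M l f x| ≤ 2 * (μ * l' * (2 / l)) * 1 := by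
        rw [abs_mul]
        exact mul_le_mul a1 a2 (abs_nonneg _) (by positivity)
      have a4 := (abs_le.1 a3).1
      have a5 : 2 * ((μ:ℝ) * l' * (2 / l)) * 1 = 4 * (μ * l' / l) := by ring
      rw [a5] at a4
      nlinarith
    have h4 := mean_mono h3
    rw [mean_sub, mean_const] at h4
    exact h4
  have h5 : mean (fun x => (P (M * μ) l' f x)^2) ≤ En (M * μ) l' f := Ts_sq _ _ _
  have h6 : mean (fun x => (P M l f x)^2) ≤ En M l f := Ts_sq _ _ _
  have h7 : mean (fun x => (P (M * μ) l' f x - P M l f x) ^ 2) =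
      mean (fun x => (P (M * μ) l' f x)^2) - 2 * mean (fun x => P (M * μ) l' f x * P M l f x) +
        mean (fun x => (P M l f x)^2) := by
    rw [← mean_mul_left, ← mean_sub, ← mean_add]
    congr 1; funext x; ring
  rw [h7]
  linarith

lemma En_le_one (M l : ℕ) (f : ZMod H → ℝ) (hf : ∀ x, |f x| ≤ 1) : En M l f ≤ 1 := by
  rw [En, ← mean_const (H := H) 1]
  refine mean_mono fun x => ?_
  have := T_abs M l f 1 zero_le_one hf x
  rw [← sq_abs]
  nlinarith [abs_nonneg (T M l f x)]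

lemma En_nonneg (M l : ℕ) (f : ZMod H → ℝ) : 0 ≤ En M l f := mean_nonneg fun _ => sq_nonneg _

end Pool.Agent.H55.Odd
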