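import Pool.Agent.H41.Eis.Edges
import Pool.Agent.H55.Odd.Link

/-!
Base pairs: existence, size, and the number of coprime pairs.
-/

set_option autoImplicit false

namespace Pool.Agent.H55.Odd

open Pool.Agent.H41.Eis Finset

/-- Existence of the second base vector, with bounds. -/
lemma exists_AB (m3 : ℤ) (hm : 0 < m3) (tau C E : ℤ) (hC0 : 0 < C) (hE0 : 0 < E)
    (hcop : IsCoprime C E) (hC : m3 ∣ C - 1) (hE : m3 ∣ E) :
    ∃ A B : ℤ, C * B - E * A = 1 ∧ m3 ∣ A + B * tau ∧ 0 ≤ A ∧ A ≤ m3 * C ∧ 0 ≤ B ∧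
      B ≤ m3 * E := by
  obtain ⟨u, v, huv⟩ := hcop
  set t : ℤ := v - u * tau with ht
  set A1 : ℤ := -v + t * C with hA1
  set B1 : ℤ := u + t * E with hB1
  have h1 : C * B1 - E * A1 = 1 := by rw [hA1, hB1]; linear_combination huv
  have h2 : m3 ∣ A1 + B1 * tau := by
    have : A1 + B1 * tau = t * (C - 1) + t * tau * E := by rw [hA1, hB1, ht]; ring
    rw [this]
    exact dvd_add (hC.mul_left _) (hE.mul_left _)
  have hmC : 0 < m3 * C := by positivity
  set s : ℤ := A1 / (m3 * C) with hs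
  set A : ℤ := A1 % (m3 * C) with hA
  have hAs : A = A1 - (m3 * C) * s := by rw [hA, hs, Int.emod_def]
  have hA0 : 0 ≤ A := Int.emod_nonneg _ hmC.ne'
  have hAlt : A < m3 * C := Int.emod_lt_of_pos _ hmC
  have h3 : C * (B1 - m3 * E * s) - E * A = 1 := by rw [hAs]; linear_combination h1
  refine ⟨A, B1 - m3 * E * s, h3, ?_, hA0, hAlt.le, ?_, ?_⟩
  · have : A + (B1 - m3 * E * s) * tau = (A1 + B1 * tau) - m3 * (C * s + E * s * tau) := by
      rw [hAs]; ring
    rw [this]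
    exact dvd_sub h2 (Dvd.intro _ rfl)
  · generalize B1 - m3 * E * s = B at h3
    by_contra hcon
    push Not at hcon
    have : E * A ≥ 0 := by positivity
    nlinarith
  · generalize B1 - m3 * E * s = B at h3
    by_contra hcon
    push Not at hcon
    have e1 : C * (m3 * E + 1) ≤ C * B := mul_le_mul_of_nonneg_left (by omega) hC0.le
    have e2 : E * A ≤ E * (m3 * C - 1) := mul_le_mul_of_nonneg_left (by omega) hE0.le
    nlinarith

lemma nrm_le (x y H : ℤ) (hx : |x| ≤ H) (hy : |y| ≤ H) : nrm (x, y) ≤ 3 * H^2 := by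
  have hx' := abs_le.1 hx
  have hy' := abs_le.1 hy
  have h1 : x^2 ≤ H^2 := sq_le_sq' hx'.1 hx'.2
  have h2 : y^2 ≤ H^2 := sq_le_sq' hy'.1 hy'.2
  simp only [nrm]
  nlinarith [sq_nonneg (x - y)]

lemma lin_bound (a K M U V H : ℤ) (ha0 : 0 ≤ a) (ha : a ≤ K) (hU0 : 0 ≤ U) (hU : U ≤ H)
    (hV0 : 0 ≤ V) (hV : V ≤ M * H) : |a * U + V| ≤ (K + M) * H := by
  rw [abs_of_nonneg (by positivity)]
  have h1 : a * U ≤ K * H := mul_le_mul ha hU hU0 (ha0.trans ha)
  linarith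

/-- Size of `k`. -/
lemma k_bound {m : ℕ} {r : ZMod m} (c : Cfg r) (y d : ℕ) (hy : y < c.K) (hd : d ∈ c.DS)
    (k : ℕ) (z w : ℤ × ℤ) (C E A B H : ℤ)
    (hC0 : 0 ≤ C) (hC : C ≤ H) (hE0 : 0 ≤ E) (hE : E ≤ H) (hA0 : 0 ≤ A) (hA : A ≤ c.m3 * H)
    (hB0 : 0 ≤ B) (hB : B ≤ c.m3 * H)
    (h1 : emul (c.δ d) z = Vec C E A B y)
    (h2 : emul (c.δ d) w = Vec C E A B (y - d))
    (h3 : nrm z * nrm w = 3 * (3 * (k:ℤ)^2 + 3 * k + 1)) :
    (k:ℤ) ≤ ((c.K:ℤ) + c.m3)^2 * H^2 := by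
  have f1 := c.dnrm d hd
  have f2 : (0:ℤ) < d := by exact_mod_cast c.dpos d hd
  have hz := nrm_nonneg z
  have hw := nrm_nonneg w
  have hgen : ∀ (y' : ℕ) (v : ℤ × ℤ), y' ≤ c.K → emul (c.δ d) v = Vec C E A B y' →
      nrm v ≤ 3 * (((c.K:ℤ) + c.m3) * H)^2 := by
    intro y' v hy' hv
    have hv0 := nrm_nonneg v
    have hyK : (y':ℤ) ≤ c.K := by exact_mod_cast hy'
    have hy0 : (0:ℤ) ≤ y' := Int.natCast_nonneg _
    have : (d:ℤ) * nrm v ≤ 3 * (((c.K:ℤ) + c.m3) * H)^2 := by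
      rw [← f1, ← nrm_emul, hv]
      exact nrm_le _ _ _ (lin_bound _ _ _ _ _ _ hy0 hyK hC0 hC hA0 hA)
        (lin_bound _ _ _ _ _ _ hy0 hyK hE0 hE hB0 hB)
    nlinarith
  have e1 := hgen y z hy.le h1
  have e2 := hgen (y - d) w (by omega) h2
  set L : ℤ := ((c.K:ℤ) + c.m3) with hL
  have e3 : nrm z * nrm w ≤ (3 * (L * H)^2) * (3 * (L * H)^2) :=
    mul_le_mul e1 e2 hw (by positivity)
  rw [h3] at e3
  have hk : (0:ℤ) ≤ k := Int.natCast_nonneg k
  have e4 : (k:ℤ)^2 ≤ (L^2 * H^2)^2 := by nlinarith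
  exact (abs_le_of_sq_le_sq' e4 (by positivity)).2

/-- Residue classes. -/
lemma card_class (M L n : ℕ) (hn : 0 < n) :
    ((Finset.Icc 1 L).filter (fun c => n ∣ 1 + M * c)).card ≤ L / n + 1 := by
  rw [← Finset.card_range (L / n + 1)]
  refine Finset.card_le_card_of_injOn (fun c => c / n) ?_ ?_
  · intro c hc
    have hc' := Finset.mem_filter.1 (Finset.mem_coe.1 hc)
    have := (Finset.mem_Icc.1 hc'.1).2
    have h2 := Nat.div_le_div_right (c := n) this
    simp only [Finset.coe_range, Set.mem_Iio]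
    omega
  · intro c hc c' hc' he
    have h1 := (Finset.mem_filter.1 (Finset.mem_coe.1 hc)).2
    have h2 := (Finset.mem_filter.1 (Finset.mem_coe.1 hc')).2
    simp only at he
    have hcop : IsCoprime (n:ℤ) (M:ℤ) := by
      obtain ⟨q, hq⟩ := h1
      refine ⟨q, -c, ?_⟩
      have : (1:ℤ) + M * c = n * q := by exact_mod_cast hq
      linear_combination -this
    have h3 : (n:ℤ) ∣ (M:ℤ) * ((c:ℤ) - c') := by
      have g1 : (n:ℤ) ∣ 1 + M * c := by exact_mod_cast h1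
      have g2 : (n:ℤ) ∣ 1 + M * c' := by exact_mod_cast h2
      have := dvd_sub g1 g2
      have e : (1:ℤ) + M * c - (1 + M * c') = (M:ℤ) * ((c:ℤ) - c') := by ring
      rwa [e] at this
    have h4 := hcop.dvd_of_dvd_mul_left h3
    have h5 : (c:ℤ) % n = (c':ℤ) % n := Int.emod_eq_emod_iff_emod_sub_eq_zero.2
        (Int.emod_eq_zero_of_dvd h4)
    have h6 : c % n = c' % n := by exact_mod_cast h5
    rw [← Nat.div_add_mod c n, ← Nat.div_add_mod c' n, he, h6]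

lemma card_mult (L n : ℕ) (hn : 0 < n) :
    ((Finset.Icc 1 L).filter (fun e => n ∣ e)).card ≤ L / n := by
  have : ((Finset.Icc 1 L).filter (fun e => n ∣ e)).card ≤ (Finset.Icc 1 (L / n)).card := by
    refine Finset.card_le_card_of_injOn (fun c => c / n) ?_ ?_
    · intro c hc
      obtain ⟨h1, h2⟩ := Finset.mem_filter.1 (Finset.mem_coe.1 hc)
      obtain ⟨h3, h4⟩ := Finset.mem_Icc.1 h1
      simp only [Finset.coe_Icc, Set.mem_Icc]
      exact ⟨(Nat.one_le_div_iff hn).2 (Nat.le_of_dvd h3 h2), Nat.div_le_div_right h4⟩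
    · intro c hc c' hc' he
      have h2 := (Finset.mem_filter.1 (Finset.mem_coe.1 hc)).2
      have h2' := (Finset.mem_filter.1 (Finset.mem_coe.1 hc')).2
      simp only at he
      rw [← Nat.div_mul_cancel h2, ← Nat.div_mul_cancel h2', he]
  simpa using this

/-- The good parameters. -/
def good (M L : ℕ) : Finset (ℕ × ℕ) :=
  ((Finset.Icc 1 L) ×ˢ (Finset.Icc 1 L)).filter (fun p => Nat.Coprime (1 + M * p.1) p.2)

lemma sum_tele (N : ℕ) (hN : 4 ≤ N) :
    ∑ n ∈ Finset.Icc 5 N, (1:ℝ) / (n * (n - 1)) ≤ 1/4 - 1/N := by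
  induction N, hN using Nat.le_induction with
  | base => norm_num
  | succ N hN ih =>
    rw [Finset.sum_Icc_succ_top (by omega)]
    have hN' : (4:ℝ) ≤ N := by exact_mod_cast hN
    have hN0 : (N:ℝ) ≠ 0 := by linarith
    have hN1 : (N:ℝ) + 1 ≠ 0 := by linarith
    have : (1:ℝ) / (((N+1:ℕ):ℝ) * (((N+1:ℕ):ℝ) - 1)) = 1/N - 1/((N+1:ℕ):ℝ) := by
      push_cast
      rw [show (N:ℝ) + 1 - 1 = N by ring]
      field_simp
      ring
    rw [this]
    linarith

lemma card_good (M L : ℕ) (hM : 6 ∣ M) : (L:ℝ)^2 / 2 ≤ ((good M L).card : ℝ) := by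
  classical
  set P := (Finset.Icc 1 L) ×ˢ (Finset.Icc 1 L) with hP
  set Bad : ℕ → Finset (ℕ × ℕ) := fun n =>
    ((Finset.Icc 1 L).filter (fun c => n ∣ 1 + M * c)) ×ˢ ((Finset.Icc 1 L).filter (fun e => n ∣ e))
    with hBad
  have hsub : P ⊆ good M L ∪ (Finset.Icc 5 L).biUnion Bad := by
    intro p hp
    by_cases hg : Nat.Coprime (1 + M * p.1) p.2
    · exact Finset.mem_union_left _ (Finset.mem_filter.2 ⟨hp, hg⟩)
    · apply Finset.mem_union_right
      rw [hP] at hp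
      obtain ⟨h1, h2⟩ := Finset.mem_product.1 hp
      set n := Nat.gcd (1 + M * p.1) p.2 with hn
      have hd1 : n ∣ 1 + M * p.1 := Nat.gcd_dvd_left _ _
      have hd2 : n ∣ p.2 := Nat.gcd_dvd_right _ _
      have hn1 : n ≠ 1 := hg
      have h2' := Finset.mem_Icc.1 h2
      have hn0 : n ≠ 0 := by
        intro h
        rw [h] at hd2
        have := Nat.eq_zero_of_zero_dvd hd2
        omega
      have hnL : n ≤ L := (Nat.le_of_dvd (by omega) hd2).trans h2'.2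
      have hn5 : 5 ≤ n := by
        by_contra hcon
        have : n = 2 ∨ n = 3 ∨ n = 4 := by omega
        obtain ⟨q, hq⟩ := hM
        have e : 1 + M * p.1 = 1 + 6 * (q * p.1) := by rw [hq]; ring
        rw [e] at hd1
        generalize q * p.1 = s at hd1
        rcases this with h | h | h <;> rw [h] at hd1 <;> omega
      rw [Finset.mem_biUnion]
      refine ⟨n, Finset.mem_Icc.2 ⟨hn5, hnL⟩, ?_⟩
      rw [hBad]
      exact Finset.mem_product.2 ⟨Finset.mem_filter.2 ⟨h1, hd1⟩, Finset.mem_filter.2 ⟨h2, hd2⟩⟩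
  have h1 := (Finset.card_le_card hsub).trans (Finset.card_union_le _ _)
  have h2 : P.card = L^2 := by rw [hP, Finset.card_product, Nat.card_Icc]; simp [sq]
  rw [h2] at h1
  have h3 : (((Finset.Icc 5 L).biUnion Bad).card : ℝ) ≤ (L:ℝ)^2 / 2 := by
    have g1 : (((Finset.Icc 5 L).biUnion Bad).card : ℝ) ≤ ∑ n ∈ Finset.Icc 5 L, ((Bad n).card : ℝ) := by
      exact_mod_cast Finset.card_biUnion_le
    refine g1.trans ?_
    have g2 : ∀ n ∈ Finset.Icc 5 L, ((Bad n).card : ℝ) ≤ 2 * (L:ℝ)^2 * (1 / (n * (n-1))) := by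
      intro n hn
      obtain ⟨hn5, hnL⟩ := Finset.mem_Icc.1 hn
      have e1 : (Bad n).card ≤ (L / n + 1) * (L / n) := by
        rw [hBad, Finset.card_product]
        exact Nat.mul_le_mul (card_class M L n (by omega)) (card_mult L n (by omega))
      have e2 : ((Bad n).card : ℝ) ≤ ((L/n : ℕ) + 1 : ℝ) * ((L/n : ℕ) : ℝ) := by exact_mod_cast e1
      have hn5' : (5:ℝ) ≤ n := by exact_mod_cast hn5
      have hnL' : (n:ℝ) ≤ L := by exact_mod_cast hnL
      have e3 : ((L/n : ℕ) : ℝ) ≤ (L:ℝ) / n := Nat.cast_div_le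
      have e4 : (1:ℝ) ≤ (L:ℝ)/n := by rw [le_div_iff₀ (by linarith)]; linarith
      have e5 : ((L/n : ℕ) + 1 : ℝ) * ((L/n : ℕ) : ℝ) ≤ (2 * ((L:ℝ)/n)) * ((L:ℝ)/n) :=
        mul_le_mul (by linarith) e3 (by positivity) (by positivity)
      refine e2.trans (e5.trans ?_)
      have e6 : (2 * ((L:ℝ)/n)) * ((L:ℝ)/n) = 2 * (L:ℝ)^2 * (1 / (n * n)) := by
        field_simp
      rw [e6]
      refine mul_le_mul_of_nonneg_left ?_ (by positivity)
      refine one_div_le_one_div_of_le (by nlinarith) (by nlinarith)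
    refine (Finset.sum_le_sum g2).trans ?_
    rw [← Finset.mul_sum]
    rcases lt_or_ge L 5 with h | h
    · rw [Finset.Icc_eq_empty (by omega)]
      simp; positivity
    · have := sum_tele L (by omega)
      have hL : (0:ℝ) ≤ 1 / L := by positivity
      have h4 : ∑ n ∈ Finset.Icc 5 L, (1:ℝ) / (n * (n - 1)) ≤ 1/4 := by linarith
      calc 2 * (L:ℝ)^2 * ∑ n ∈ Finset.Icc 5 L, (1:ℝ) / (n * (n - 1)) ≤ 2 * (L:ℝ)^2 * (1/4) :=
            mul_le_mul_of_nonneg_left h4 (by positivity)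
        _ = (L:ℝ)^2 / 2 := by ring
  have h4 : (L:ℝ)^2 ≤ ((good M L).card : ℝ) + (((Finset.Icc 5 L).biUnion Bad).card : ℝ) := by
    exact_mod_cast h1
  linarith

end Pool.Agent.H55.Odd
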