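import Mathlib

/-!
The Selberg weights: algebraic identities.
-/

set_option autoImplicit false
set_option linter.unusedSectionVars false

namespace Pool.Agent.H55.Odd

open Finset ArithmeticFunction
open scoped ArithmeticFunction.Moebius

/-- Support of the sieve weights. -/
def DD (W R : ℕ) : Finset ℕ := (Icc 1 R).filter (fun d => Squarefree d ∧ Nat.Coprime d W)

noncomputable def GG (W R : ℕ) : ℝ := ∑ k ∈ DD W R, (1:ℝ) / Nat.totient k

noncomputable def uu (W R k : ℕ) : ℝ :=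
  if k ∈ DD W R then ((μ k : ℤ) : ℝ) / (Nat.totient k * GG W R) else 0

noncomputable def lam (W R d : ℕ) : ℝ :=
  if d ∈ DD W R then d * ∑ l ∈ DD W R, (if d ∣ l then ((μ (l / d) : ℤ) : ℝ) * uu W R l else 0) else 0

variable {W R : ℕ}

lemma mem_DD {d : ℕ} : d ∈ DD W R ↔ (1 ≤ d ∧ d ≤ R) ∧ Squarefree d ∧ Nat.Coprime d W := by
  simp [DD]

lemma DD_dvd {d l : ℕ} (hl : l ∈ DD W R) (hd : d ∣ l) : d ∈ DD W R := by
  obtain ⟨⟨h1, h2⟩, h3, h4⟩ := mem_DD.1 hl
  exact mem_DD.2 ⟨⟨Nat.pos_of_dvd_of_pos hd h1, (Nat.le_of_dvd h1 hd).trans h2⟩,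
    h3.squarefree_of_dvd hd, h4.coprime_dvd_left hd⟩

lemma GG_ge_one (hR : 1 ≤ R) : 1 ≤ GG W R := by
  have h1 : (1:ℕ) ∈ DD W R := mem_DD.2 ⟨⟨le_rfl, hR⟩, squarefree_one, Nat.coprime_one_left _⟩
  have := Finset.single_le_sum (f := fun k : ℕ => (1:ℝ) / Nat.totient k) (fun k _ => by positivity) h1
  simpa [GG] using this

lemma sum_moebius (n : ℕ) (_ : 0 < n) : ∑ e ∈ n.divisors, ((μ (n / e) : ℤ) : ℝ) = if n = 1 then 1 else 0 := by
  rw [Nat.sum_div_divisors n (fun e => ((μ e : ℤ) : ℝ))]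
  have h : (∑ e ∈ n.divisors, μ e) = if n = 1 then 1 else 0 := by
    rw [← ArithmeticFunction.coe_mul_zeta_apply, ArithmeticFunction.moebius_mul_coe_zeta,
      ArithmeticFunction.one_apply]
  have h2 : ((∑ e ∈ n.divisors, μ e : ℤ) : ℝ) = ((if n = 1 then (1:ℤ) else 0 : ℤ) : ℝ) := by rw [h]
  push_cast at h2
  rw [h2]

lemma inner_moebius {l k : ℕ} (hl : l ∈ DD W R) (hk : 0 < k) :
    ∑ d ∈ DD W R, (if k ∣ d ∧ d ∣ l then ((μ (l / d) : ℤ) : ℝ) else 0) = if l = k then 1 else 0 := by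
  have hl1 := (mem_DD.1 hl).1.1
  by_cases hkl : k ∣ l
  · obtain ⟨n, rfl⟩ := hkl
    have hn : 0 < n := Nat.pos_of_ne_zero (by rintro rfl; simp at hl1)
    rw [← Finset.sum_filter]
    have himg : (DD W R).filter (fun d => k ∣ d ∧ d ∣ k * n) = n.divisors.image (fun e => k * e) := by
      ext d
      simp only [Finset.mem_filter, Finset.mem_image, Nat.mem_divisors]
      constructor
      · rintro ⟨_, ⟨e, rfl⟩, h2⟩
        exact ⟨e, ⟨(Nat.mul_dvd_mul_iff_left hk).1 h2, hn.ne'⟩, rfl⟩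
      · rintro ⟨e, ⟨he, _⟩, rfl⟩
        exact ⟨DD_dvd hl (Nat.mul_dvd_mul_left k he), Dvd.intro _ rfl, Nat.mul_dvd_mul_left k he⟩
    rw [himg, Finset.sum_image]
    · have : ∀ e ∈ n.divisors, ((μ (k * n / (k * e)) : ℤ) : ℝ) = ((μ (n / e) : ℤ) : ℝ) := by
        intro e _
        rw [Nat.mul_div_mul_left _ _ hk]
      rw [Finset.sum_congr rfl this, sum_moebius n hn]
      by_cases h : n = 1
      · subst h; simp
      · rw [if_neg h, if_neg]
        intro h2
        apply h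
        exact Nat.eq_of_mul_eq_mul_left hk (by simpa using h2)
    · intro x _ y _ hxy
      exact Nat.eq_of_mul_eq_mul_left hk hxy
  · rw [if_neg (fun h => hkl (by rw [h]))]
    refine Finset.sum_eq_zero fun d _ => ?_
    rw [if_neg]
    rintro ⟨h1, h2⟩
    exact hkl (h1.trans h2)

/-- Inversion formula. -/
lemma inversion (k : ℕ) (hk : 0 < k) :
    ∑ d ∈ DD W R, (if k ∣ d then lam W R d / d else 0) = uu W R k := by
  have h1 : ∀ d ∈ DD W R, (if k ∣ d then lam W R d / d else 0) =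
      ∑ l ∈ DD W R, uu W R l * (if k ∣ d ∧ d ∣ l then ((μ (l / d) : ℤ) : ℝ) else 0) := by
    intro d hd
    have hd0 : (d:ℝ) ≠ 0 := by
      have := (mem_DD.1 hd).1.1
      exact_mod_cast (by omega : d ≠ 0)
    by_cases h : k ∣ d
    · rw [if_pos h, lam, if_pos hd, mul_div_assoc, mul_div_assoc']
      rw [mul_div_cancel_left₀ _ hd0]
      refine Finset.sum_congr rfl fun l _ => ?_
      by_cases h2 : d ∣ l
      · rw [if_pos h2, if_pos ⟨h, h2⟩, mul_comm]
      · rw [if_neg h2, if_neg (fun h3 => h2 h3.2), mul_zero]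
    · rw [if_neg h]
      symm
      refine Finset.sum_eq_zero fun l _ => ?_
      rw [if_neg (fun h3 => h h3.1), mul_zero]
  rw [Finset.sum_congr rfl h1, Finset.sum_comm]
  have h2 : ∀ l ∈ DD W R, ∑ d ∈ DD W R, uu W R l * (if k ∣ d ∧ d ∣ l then ((μ (l / d) : ℤ) : ℝ) else 0) =
      if l = k then uu W R l else 0 := by
    intro l hl
    rw [← Finset.mul_sum, inner_moebius hl hk]
    split_ifs <;> simp
  rw [Finset.sum_congr rfl h2, Finset.sum_ite_eq']
  split_ifs with h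
  · rfl
  · rw [uu, if_neg h]

lemma sum_totient_gcd (a b R : ℕ) (ha : 1 ≤ a) (haR : a ≤ R) :
    ∑ k ∈ Icc 1 R, (if k ∣ a ∧ k ∣ b then (Nat.totient k : ℝ) else 0) = Nat.gcd a b := by
  rw [← Finset.sum_filter]
  have : (Icc 1 R).filter (fun k => k ∣ a ∧ k ∣ b) = (Nat.gcd a b).divisors := by
    ext k
    simp only [Finset.mem_filter, Finset.mem_Icc, Nat.mem_divisors, Nat.dvd_gcd_iff]
    have hg : Nat.gcd a b ≠ 0 := (Nat.gcd_pos_of_pos_left b ha).ne'
    constructor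
    · rintro ⟨_, h1, h2⟩; exact ⟨⟨h1, h2⟩, hg⟩
    · rintro ⟨⟨h1, h2⟩, _⟩
      exact ⟨⟨Nat.pos_of_dvd_of_pos h1 ha, (Nat.le_of_dvd ha h1).trans haR⟩, h1, h2⟩
  rw [this, ← Nat.cast_sum, Nat.sum_totient]

/-- Diagonalisation of the quadratic form. -/
lemma diag (S : Finset ℕ) (R : ℕ) (o : ℕ → ℕ) (ho : ∀ d ∈ S, 1 ≤ o d ∧ o d ≤ R) (x : ℕ → ℝ) :
    ∑ d ∈ S, ∑ d' ∈ S, x d * x d' / (Nat.lcm (o d) (o d') : ℝ) =
      ∑ k ∈ Icc 1 R, (Nat.totient k : ℝ) * (∑ d ∈ S, (if k ∣ o d then x d / o d else 0)) ^ 2 := by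
  have h1 : ∀ k ∈ Icc 1 R, (Nat.totient k : ℝ) * (∑ d ∈ S, (if k ∣ o d then x d / o d else 0)) ^ 2 =
      ∑ d ∈ S, ∑ d' ∈ S, (x d / o d) * (x d' / o d') *
        (if k ∣ o d ∧ k ∣ o d' then (Nat.totient k : ℝ) else 0) := by
    intro k _
    rw [sq, Finset.sum_mul_sum, Finset.mul_sum]
    refine Finset.sum_congr rfl fun d _ => ?_
    rw [Finset.mul_sum]
    refine Finset.sum_congr rfl fun d' _ => ?_
    by_cases a : k ∣ o d
    · by_cases b : k ∣ o d'
      · rw [if_pos a, if_pos b, if_pos ⟨a, b⟩]; ring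
      · rw [if_neg b, if_neg (show ¬(k ∣ o d ∧ k ∣ o d') from fun h => b h.2)]; ring
    · rw [if_neg a, if_neg (show ¬(k ∣ o d ∧ k ∣ o d') from fun h => a h.1)]; ring
  symm
  rw [Finset.sum_congr rfl h1, Finset.sum_comm]
  refine Finset.sum_congr rfl fun d hd => ?_
  rw [Finset.sum_comm]
  refine Finset.sum_congr rfl fun d' hd' => ?_
  obtain ⟨a1, a2⟩ := ho d hd
  obtain ⟨b1, b2⟩ := ho d' hd'
  symm
  rw [← Finset.mul_sum, sum_totient_gcd (o d) (o d') R a1 a2]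
  have hg : (Nat.gcd (o d) (o d') : ℝ) * (Nat.lcm (o d) (o d') : ℝ) = o d * o d' := by
    exact_mod_cast Nat.gcd_mul_lcm (o d) (o d')
  have hl : (Nat.lcm (o d) (o d') : ℝ) ≠ 0 := by
    have := Nat.lcm_ne_zero (by omega : o d ≠ 0) (by omega : o d' ≠ 0)
    exact_mod_cast this
  have ho1 : (o d : ℝ) ≠ 0 := by exact_mod_cast (by omega : o d ≠ 0)
  have ho2 : (o d' : ℝ) ≠ 0 := by exact_mod_cast (by omega : o d' ≠ 0)
  rw [div_eq_iff hl]
  have : x d / o d * (x d' / o d') * (Nat.gcd (o d) (o d') : ℝ) * (Nat.lcm (o d) (o d') : ℝ) =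
      x d / o d * (x d' / o d') * ((Nat.gcd (o d) (o d') : ℝ) * (Nat.lcm (o d) (o d') : ℝ)) := by ring
  rw [this, hg]
  field_simp

lemma uu_sq_sum (hR : 1 ≤ R) : ∑ k ∈ Icc 1 R, (Nat.totient k : ℝ) * (uu W R k) ^ 2 = 1 / GG W R := by
  have hG : 0 < GG W R := lt_of_lt_of_le one_pos (GG_ge_one hR)
  have h1 : ∀ k ∈ Icc 1 R, (Nat.totient k : ℝ) * (uu W R k) ^ 2 =
      if (Squarefree k ∧ Nat.Coprime k W) then (1 / (GG W R)^2) * (1 / Nat.totient k) else 0 := by
    intro k hk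
    by_cases h : Squarefree k ∧ Nat.Coprime k W
    · have hmem : k ∈ DD W R := mem_DD.2 ⟨Finset.mem_Icc.1 hk, h⟩
      rw [if_pos h, uu, if_pos hmem]
      have hφ : (Nat.totient k : ℝ) ≠ 0 := by
        have := Nat.totient_pos.2 (Finset.mem_Icc.1 hk).1
        exact_mod_cast this.ne'
      have hμ : ((μ k : ℤ) : ℝ)^2 = 1 := by
        have := ArithmeticFunction.moebius_sq_eq_one_of_squarefree h.1
        exact_mod_cast this
      rw [div_pow, hμ]
      field_simp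
    · have hmem : k ∉ DD W R := fun hc => h (mem_DD.1 hc).2
      rw [if_neg h, uu, if_neg hmem]; simp
  rw [Finset.sum_congr rfl h1, ← Finset.sum_filter]
  change ∑ k ∈ DD W R, _ = _
  rw [← Finset.mul_sum]
  change (1 / (GG W R)^2) * GG W R = _
  field_simp

/-- The main quadratic form. -/
lemma V_one (hR : 1 ≤ R) :
    ∑ d ∈ DD W R, ∑ d' ∈ DD W R, lam W R d * lam W R d' / (Nat.lcm d d' : ℝ) = 1 / GG W R := by
  have := diag (DD W R) R (fun d => d) (fun d hd => (mem_DD.1 hd).1) (lam W R)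
  rw [this, ← uu_sq_sum hR]
  refine Finset.sum_congr rfl fun k hk => ?_
  rw [inversion k (Finset.mem_Icc.1 hk).1]

lemma lam_one (hR : 1 ≤ R) : lam W R 1 = 1 := by
  have hG : 0 < GG W R := lt_of_lt_of_le one_pos (GG_ge_one hR)
  have h1 : (1:ℕ) ∈ DD W R := mem_DD.2 ⟨⟨le_rfl, hR⟩, squarefree_one, Nat.coprime_one_left _⟩
  rw [lam, if_pos h1]
  have h2 : ∀ l ∈ DD W R, (if 1 ∣ l then ((μ (l / 1) : ℤ) : ℝ) * uu W R l else 0) =
      (1 / GG W R) * (1 / Nat.totient l) := by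
    intro l hl
    rw [if_pos (one_dvd l), Nat.div_one, uu, if_pos hl]
    have hφ : (Nat.totient l : ℝ) ≠ 0 := by
      have := Nat.totient_pos.2 (mem_DD.1 hl).1.1
      exact_mod_cast this.ne'
    have hμ : ((μ l : ℤ) : ℝ) * ((μ l : ℤ) : ℝ) = 1 := by
      have := ArithmeticFunction.moebius_sq_eq_one_of_squarefree (mem_DD.1 hl).2.1
      rw [sq] at this
      exact_mod_cast this
    rw [← mul_div_assoc, hμ]
    field_simp
  rw [Finset.sum_congr rfl h2, ← Finset.mul_sum]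
  change ((1:ℕ):ℝ) * (1 / GG W R * GG W R) = 1
  field_simp
  simp

lemma uu_abs (k : ℕ) (hk : k ∈ DD W R) : |uu W R k| = 1 / (Nat.totient k * GG W R) := by
  have hG : 0 < GG W R := lt_of_lt_of_le one_pos (GG_ge_one ((mem_DD.1 hk).1.1.trans (mem_DD.1 hk).1.2))
  rw [uu, if_pos hk, abs_div, abs_of_nonneg (by positivity : (0:ℝ) ≤ Nat.totient k * GG W R)]
  congr 1
  have hμ : |μ k| = 1 := ArithmeticFunction.abs_moebius_eq_one_of_squarefree (mem_DD.1 hk).2.1
  exact_mod_cast hμ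

lemma lam_abs (d : ℕ) : |lam W R d| ≤ d := by
  by_cases hd : d ∈ DD W R
  · have hG : 0 < GG W R := lt_of_lt_of_le one_pos (GG_ge_one ((mem_DD.1 hd).1.1.trans (mem_DD.1 hd).1.2))
    rw [lam, if_pos hd, abs_mul, Nat.abs_cast]
    refine mul_le_of_le_one_right (Nat.cast_nonneg _) ?_
    refine (Finset.abs_sum_le_sum_abs _ _).trans ?_
    have h2 : ∀ l ∈ DD W R, |if d ∣ l then ((μ (l / d) : ℤ) : ℝ) * uu W R l else 0| ≤
        (1 / GG W R) * (1 / Nat.totient l) := by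
      intro l hl
      have h3 : 0 ≤ (1 / GG W R) * (1 / (Nat.totient l : ℝ)) := by positivity
      split_ifs
      · rw [abs_mul, uu_abs l hl]
        have hμ : |((μ (l / d) : ℤ) : ℝ)| ≤ 1 := by
          have := ArithmeticFunction.abs_moebius_le_one (n := l / d)
          exact_mod_cast this
        calc |((μ (l / d) : ℤ) : ℝ)| * (1 / (Nat.totient l * GG W R)) ≤
              1 * (1 / (Nat.totient l * GG W R)) := mul_le_mul_of_nonneg_right hμ (by positivity)
          _ = (1 / GG W R) * (1 / Nat.totient l) := by rw [one_mul, one_div_mul_one_div, mul_comm]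
      · simpa using h3
    refine (Finset.sum_le_sum h2).trans (le_of_eq ?_)
    rw [← Finset.mul_sum]
    change 1 / GG W R * GG W R = 1
    field_simp
  · rw [lam, if_neg hd, abs_zero]; exact Nat.cast_nonneg _

/-- `u` at a multiple by a prime. -/
lemma uu_mul_prime {p k : ℕ} (hp : p.Prime) (hk : 0 < k) (hpk : ¬ p ∣ k) :
    uu W R (p * k) = 0 ∨ (k ∈ DD W R ∧ ((p:ℝ) - 1) * uu W R (p * k) = - uu W R k) := by
  by_cases h : p * k ∈ DD W R
  · right
    have hkD : k ∈ DD W R := DD_dvd h (Dvd.intro_left _ rfl)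
    refine ⟨hkD, ?_⟩
    have hG : 0 < GG W R := lt_of_lt_of_le one_pos (GG_ge_one ((mem_DD.1 h).1.1.trans (mem_DD.1 h).1.2))
    have hcop : Nat.Coprime p k := (Nat.Prime.coprime_iff_not_dvd hp).2 hpk
    rw [uu, if_pos h, uu, if_pos hkD, ArithmeticFunction.isMultiplicative_moebius.map_mul_of_coprime hcop,
      ArithmeticFunction.moebius_apply_prime hp, Nat.totient_mul hcop, Nat.totient_prime hp]
    have hp1 : ((p - 1 : ℕ) : ℝ) = (p:ℝ) - 1 := by
      rw [Nat.cast_sub hp.one_lt.le, Nat.cast_one]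
    have hp2 : (p:ℝ) - 1 ≠ 0 := by
      have : (1:ℝ) < p := by exact_mod_cast hp.one_lt
      linarith
    have hφ : (Nat.totient k : ℝ) ≠ 0 := by
      have := Nat.totient_pos.2 hk
      exact_mod_cast this.ne'
    push_cast
    rw [hp1]
    field_simp
  · left
    rw [uu, if_neg h]

/-- Combination of two divisibility conditions. -/
lemma inversion_and {p k : ℕ} (hp : p.Prime) (hk : 0 < k) (hpk : ¬ p ∣ k) :
    ∑ d ∈ DD W R, (if k ∣ d ∧ p ∣ d then lam W R d / d else 0) = uu W R (p * k) := by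
  rw [← inversion (p * k) (Nat.mul_pos hp.pos hk)]
  refine Finset.sum_congr rfl fun d _ => ?_
  have hcop : Nat.Coprime p k := (Nat.Prime.coprime_iff_not_dvd hp).2 hpk
  have : (k ∣ d ∧ p ∣ d) ↔ p * k ∣ d :=
    ⟨fun h => hcop.mul_dvd_of_dvd_of_dvd h.2 h.1,
      fun h => ⟨(Dvd.intro_left _ rfl).trans h, (Dvd.intro _ rfl).trans h⟩⟩
  simp only [this]

/-- The quadratic form restricted to `d` prime to `p`. -/
lemma V_free (hR : 1 ≤ R) {p : ℕ} (hp : p.Prime) :
    ∑ d ∈ DD W R with ¬ p ∣ d, ∑ d' ∈ DD W R with ¬ p ∣ d', lam W R d * lam W R d' / (Nat.lcm d d' : ℝ) ≤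
      4 / GG W R := by
  have hG : 0 < GG W R := lt_of_lt_of_le one_pos (GG_ge_one hR)
  rw [diag ((DD W R).filter (fun d => ¬ p ∣ d)) R (fun d => d)
    (fun d hd => (mem_DD.1 (Finset.mem_filter.1 hd).1).1) (lam W R)]
  have h4 : 4 / GG W R = ∑ k ∈ Icc 1 R, (Nat.totient k : ℝ) * (4 * (uu W R k) ^ 2) := by
    rw [div_eq_mul_one_div, ← uu_sq_sum hR, Finset.mul_sum]
    exact Finset.sum_congr rfl fun k _ => by ring
  rw [h4]
  refine Finset.sum_le_sum fun k hk => mul_le_mul_of_nonneg_left ?_ (Nat.cast_nonneg _)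
  have hk1 := (Finset.mem_Icc.1 hk).1
  rw [Finset.sum_filter]
  by_cases hpk : p ∣ k
  · have : ∀ d ∈ DD W R, (if ¬ p ∣ d then (if k ∣ d then lam W R d / d else 0) else 0) = 0 := by
      intro d _
      by_cases h1 : p ∣ d
      · rw [if_neg (not_not.2 h1)]
      · rw [if_pos h1, if_neg (fun h2 => h1 (hpk.trans h2))]
    rw [Finset.sum_eq_zero this]
    nlinarith [sq_nonneg (uu W R k)]
  · have h1 : ∑ d ∈ DD W R, (if ¬ p ∣ d then (if k ∣ d then lam W R d / d else 0) else 0) =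
        uu W R k - uu W R (p * k) := by
      rw [← inversion k hk1, ← inversion_and hp hk1 hpk, ← Finset.sum_sub_distrib]
      refine Finset.sum_congr rfl fun d _ => ?_
      by_cases a : p ∣ d <;> by_cases b : k ∣ d <;> simp [a, b]
    rw [h1]
    rcases uu_mul_prime (W := W) (R := R) hp hk1 hpk with h | ⟨_, h⟩
    · rw [h]; nlinarith [sq_nonneg (uu W R k)]
    · have hp2 : (1:ℝ) ≤ p - 1 := by
        have : (2:ℝ) ≤ p := by exact_mod_cast hp.two_le
        linarith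
      set v := uu W R (p * k) with hv
      have hu : uu W R k = - ((p:ℝ) - 1) * v := by linarith
      rw [hu]
      nlinarith [sq_nonneg v, mul_nonneg (sq_nonneg v) (by linarith : (0:ℝ) ≤ (p:ℝ) - 1 - 1),
        mul_nonneg (sq_nonneg v) (mul_nonneg (by linarith : (0:ℝ) ≤ (p:ℝ) - 1 - 1)
          (by linarith : (0:ℝ) ≤ (p:ℝ) - 1 - 1))]

lemma lcm_div (p d d' : ℕ) (hd : 0 < d) (hd' : 0 < d') :
    Nat.lcm p (Nat.lcm d d') = p * Nat.lcm (d / Nat.gcd d p) (d' / Nat.gcd d' p) := by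
  have h : ∀ d : ℕ, 0 < d → Nat.lcm p d = p * (d / Nat.gcd d p) := by
    intro d _
    rw [Nat.lcm, Nat.gcd_comm p d, Nat.mul_div_assoc _ (Nat.gcd_dvd_left d p)]
  rw [← Nat.lcm_mul_left, ← h d hd, ← h d' hd']
  apply Nat.dvd_antisymm
  · refine Nat.lcm_dvd ((Nat.dvd_lcm_left p d).trans (Nat.dvd_lcm_left _ _)) (Nat.lcm_dvd ?_ ?_)
    · exact (Nat.dvd_lcm_right p d).trans (Nat.dvd_lcm_left _ _)
    · exact (Nat.dvd_lcm_right p d').trans (Nat.dvd_lcm_right _ _)
  · refine Nat.lcm_dvd (Nat.lcm_dvd (Nat.dvd_lcm_left _ _) ?_) (Nat.lcm_dvd (Nat.dvd_lcm_left _ _) ?_)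
    · exact (Nat.dvd_lcm_left d d').trans (Nat.dvd_lcm_right _ _)
    · exact (Nat.dvd_lcm_right d d').trans (Nat.dvd_lcm_right _ _)

/-- The quadratic form for multiples of a prime `p`. -/
lemma V_mult (hR : 1 ≤ R) {p : ℕ} (hp : p.Prime) :
    ∑ d ∈ DD W R, ∑ d' ∈ DD W R, lam W R d * lam W R d' / (Nat.lcm p (Nat.lcm d d') : ℝ) ≤
      (1 / p) * (1 / GG W R) := by
  have hG : 0 < GG W R := lt_of_lt_of_le one_pos (GG_ge_one hR)
  have hp0 : (0:ℝ) < p := by exact_mod_cast hp.pos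
  have h1 : ∑ d ∈ DD W R, ∑ d' ∈ DD W R, lam W R d * lam W R d' / (Nat.lcm p (Nat.lcm d d') : ℝ) =
      (1 / p) * ∑ d ∈ DD W R, ∑ d' ∈ DD W R, lam W R d * lam W R d' /
        (Nat.lcm (d / Nat.gcd d p) (d' / Nat.gcd d' p) : ℝ) := by
    rw [Finset.mul_sum]
    refine Finset.sum_congr rfl fun d hd => ?_
    rw [Finset.mul_sum]
    refine Finset.sum_congr rfl fun d' hd' => ?_
    rw [lcm_div p d d' (mem_DD.1 hd).1.1 (mem_DD.1 hd').1.1]
    push_cast
    rw [one_div_mul_eq_div, div_div, mul_comm (p:ℝ)]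
  rw [h1]
  refine mul_le_mul_of_nonneg_left ?_ (by positivity)
  have ho : ∀ d ∈ DD W R, 1 ≤ d / Nat.gcd d p ∧ d / Nat.gcd d p ≤ R := by
    intro d hd
    obtain ⟨⟨a, b⟩, -⟩ := mem_DD.1 hd
    refine ⟨?_, (Nat.div_le_self _ _).trans b⟩
    exact Nat.div_pos (Nat.le_of_dvd a (Nat.gcd_dvd_left d p)) (Nat.gcd_pos_of_pos_left p a)
  rw [diag (DD W R) R (fun d => d / Nat.gcd d p) ho (lam W R), ← uu_sq_sum hR]
  refine Finset.sum_le_sum fun k hk => mul_le_mul_of_nonneg_left ?_ (Nat.cast_nonneg _)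
  have hk1 := (Finset.mem_Icc.1 hk).1
  by_cases hpk : p ∣ k
  · have : ∀ d ∈ DD W R, (if k ∣ d / Nat.gcd d p then lam W R d / ((d / Nat.gcd d p : ℕ) : ℝ) else 0) = 0 := by
      intro d hd
      rw [if_neg]
      intro h
      have h2 : p ∣ d / Nat.gcd d p := hpk.trans h
      have h3 : p ∣ d := h2.trans (Nat.div_dvd_of_dvd (Nat.gcd_dvd_left d p))
      rw [Nat.gcd_eq_right h3] at h2
      have h4 : p * p ∣ d := by
        rw [← Nat.div_mul_cancel h3]
        exact Nat.mul_dvd_mul_right h2 p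
      have := (mem_DD.1 hd).2.1 p h4
      exact hp.one_lt.ne' (Nat.isUnit_iff.1 this)
    rw [Finset.sum_eq_zero this]
    nlinarith [sq_nonneg (uu W R k)]
  · have h1 : ∑ d ∈ DD W R, (if k ∣ d / Nat.gcd d p then lam W R d / ((d / Nat.gcd d p : ℕ) : ℝ) else 0) =
        uu W R k + ((p:ℝ) - 1) * uu W R (p * k) := by
      rw [← inversion k hk1, ← inversion_and hp hk1 hpk, Finset.mul_sum, ← Finset.sum_add_distrib]
      refine Finset.sum_congr rfl fun d hd => ?_
      have hd0 : (d:ℝ) ≠ 0 := by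
        have := (mem_DD.1 hd).1.1
        exact_mod_cast (by omega : d ≠ 0)
      by_cases a : p ∣ d
      · rw [Nat.gcd_eq_right a]
        have hiff : k ∣ d / p ↔ k ∣ d := by
          constructor
          · intro h; exact h.trans (Nat.div_dvd_of_dvd a)
          · intro h
            have hcop : Nat.Coprime k p := ((Nat.Prime.coprime_iff_not_dvd hp).2 hpk).symm
            rw [← Nat.div_mul_cancel a] at h
            exact hcop.dvd_of_dvd_mul_right h
        simp only [hiff, a, and_true]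
        split_ifs
        · rw [Nat.cast_div a hp0.ne']
          field_simp
          ring
        · ring
      · have hg : Nat.gcd d p = 1 := ((Nat.Prime.coprime_iff_not_dvd hp).2 a).symm
        rw [hg, Nat.div_one]
        simp only [a, and_false, if_false, mul_zero, add_zero]
    rw [h1]
    rcases uu_mul_prime (W := W) (R := R) hp hk1 hpk with h | ⟨_, h⟩
    · rw [h]; simp
    · rw [h]; simp; positivity

end Pool.Agent.H55.Odd
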