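import Pool.Agent.H55.Odd.Sieve1

/-!
Lower bound for the normalising sum of the Selberg weights.
-/

set_option autoImplicit false
set_option linter.unusedSectionVars false

namespace Pool.Agent.H55.Odd

open Finset UniqueFactorizationMonoid

/-- `n ↦ 1/n` as a multiplicative map. -/
noncomputable def invHom : ℕ →* ℝ where
  toFun n := (n:ℝ)⁻¹
  map_one' := by simp
  map_mul' a b := by push_cast; rw [mul_inv]

lemma fac_sum (k : ℕ) (hk : 0 < k) (S : Finset ℕ) (hS : ∀ m ∈ S, m ≠ 0 ∧ m.primeFactors ⊆ k.primeFactors) :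
    ∑ m ∈ S, (1:ℝ) / m ≤ k / Nat.totient k := by
  have h1 : ∀ {p : ℕ}, p.Prime → ‖invHom p‖ < 1 := by
    intro p hp
    simp only [invHom, MonoidHom.coe_mk, OneHom.coe_mk]
    rw [norm_inv, Real.norm_natCast]
    have : (1:ℝ) < p := by exact_mod_cast hp.one_lt
    exact inv_lt_one_of_one_lt₀ this
  have h2 := (EulerProduct.summable_and_hasSum_factoredNumbers_prod_filter_prime_geometric h1
    k.primeFactors).2
  have h3 : (∏ p ∈ k.primeFactors with p.Prime, (1 - invHom p)⁻¹) = (k:ℝ) / Nat.totient k := by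
    have e1 : k.primeFactors.filter (fun p => p.Prime) = k.primeFactors :=
      Finset.filter_true_of_mem fun p hp => Nat.prime_of_mem_primeFactors hp
    rw [e1]
    have e2 := Nat.totient_eq_mul_prod_factors k
    have e3 : (Nat.totient k : ℝ) = k * ∏ p ∈ k.primeFactors, (1 - (p:ℝ)⁻¹) := by
      have : ((Nat.totient k : ℚ) : ℝ) = ((k * ∏ p ∈ k.primeFactors, (1 - (p:ℚ)⁻¹) : ℚ) : ℝ) := by rw [e2]
      push_cast at this
      exact this
    have hk' : (k:ℝ) ≠ 0 := by exact_mod_cast hk.ne'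
    have hφ : (Nat.totient k : ℝ) ≠ 0 := by exact_mod_cast (Nat.totient_pos.2 hk).ne'
    have e4 : ∏ p ∈ k.primeFactors, (1 - invHom p)⁻¹ = (∏ p ∈ k.primeFactors, (1 - (p:ℝ)⁻¹))⁻¹ := by
      rw [← Finset.prod_inv_distrib]
      rfl
    rw [e4, e3]
    have hP : (∏ p ∈ k.primeFactors, (1 - (p:ℝ)⁻¹)) ≠ 0 := by
      intro h
      rw [e3, h, mul_zero] at hφ
      exact hφ rfl
    field_simp
  rw [h3] at h2
  have h4 : HasSum ((Nat.factoredNumbers k.primeFactors).indicator (fun m => invHom m))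
      ((k:ℝ) / Nat.totient k) := hasSum_subtype_iff_indicator.1 h2
  have h5 := sum_le_hasSum S (fun m _ => Set.indicator_nonneg (fun m _ => by
    simp only [invHom, MonoidHom.coe_mk, OneHom.coe_mk]; positivity) m) h4
  refine le_trans (le_of_eq (Finset.sum_congr rfl fun m hm => ?_)) h5
  have hmem : m ∈ Nat.factoredNumbers k.primeFactors :=
    Nat.mem_factoredNumbers_of_primeFactors_subset (hS m hm).1 (hS m hm).2
  rw [Set.indicator_of_mem hmem]
  simp only [invHom, MonoidHom.coe_mk, OneHom.coe_mk, one_div]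

lemma rad_sum (k : ℕ) (hk : 0 < k) (S : Finset ℕ) (hS : ∀ n ∈ S, n ≠ 0 ∧ radical n = k) :
    ∑ n ∈ S, (1:ℝ) / n ≤ 1 / Nat.totient k := by
  have hk' : (0:ℝ) < k := by exact_mod_cast hk
  have hdvd : ∀ n ∈ S, k ∣ n := fun n hn => (hS n hn).2 ▸ radical_dvd_self
  have h1 : ∑ n ∈ S, (1:ℝ) / n = (1 / k) * ∑ m ∈ S.image (fun n => n / k), (1:ℝ) / m := by
    rw [Finset.sum_image, Finset.mul_sum]
    · refine Finset.sum_congr rfl fun n hn => ?_
      rw [Nat.cast_div (hdvd n hn) hk'.ne']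
      have hn0 : (n:ℝ) ≠ 0 := by exact_mod_cast (hS n hn).1
      field_simp
    · intro x hx y hy hxy
      have e1 := Nat.div_mul_cancel (hdvd x hx)
      have e2 := Nat.div_mul_cancel (hdvd y hy)
      simp only at hxy
      rw [← e1, ← e2, hxy]
  rw [h1]
  have h2 := fac_sum k hk (S.image (fun n => n / k)) (by
    intro m hm
    obtain ⟨n, hn, rfl⟩ := Finset.mem_image.1 hm
    have hn0 := (hS n hn).1
    have hnk : n / k ≠ 0 := (Nat.div_pos (Nat.le_of_dvd (Nat.pos_of_ne_zero hn0) (hdvd n hn)) hk).ne'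
    refine ⟨hnk, ?_⟩
    have e1 : (n / k).primeFactors ⊆ n.primeFactors :=
      Nat.primeFactors_mono (Nat.div_dvd_of_dvd (hdvd n hn)) hn0
    rw [← Nat.primeFactors_radical n, (hS n hn).2] at e1
    exact e1)
  calc (1 / (k:ℝ)) * ∑ m ∈ S.image (fun n => n / k), (1:ℝ) / m ≤ (1 / k) * (k / Nat.totient k) :=
        mul_le_mul_of_nonneg_left h2 (by positivity)
    _ = 1 / Nat.totient k := by field_simp

lemma GG_lower1 (W R : ℕ) :
    ∑ n ∈ (Icc 1 R).filter (fun n => Nat.Coprime n W), (1:ℝ) / n ≤ GG W R := by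
  have hmaps : ∀ n ∈ (Icc 1 R).filter (fun n => Nat.Coprime n W), radical n ∈ DD W R := by
    intro n hn
    obtain ⟨h1, h2⟩ := Finset.mem_filter.1 hn
    obtain ⟨h3, h4⟩ := Finset.mem_Icc.1 h1
    have hd : radical n ∣ n := radical_dvd_self
    exact mem_DD.2 ⟨⟨Nat.pos_of_dvd_of_pos hd h3, (Nat.le_of_dvd h3 hd).trans h4⟩,
      squarefree_radical, h2.coprime_dvd_left hd⟩
  rw [← Finset.sum_fiberwise_of_maps_to hmaps, GG]
  refine Finset.sum_le_sum fun k hk => rad_sum k (mem_DD.1 hk).1.1 _ ?_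
  intro n hn
  obtain ⟨h1, h2⟩ := Finset.mem_filter.1 hn
  have := (Finset.mem_Icc.1 (Finset.mem_filter.1 h1).1).1
  exact ⟨by omega, h2⟩

lemma GG_lower2 (W K : ℕ) (hW : 0 < W) :
    (Nat.totient W / W : ℝ) * Real.log (K + 1) ≤
      ∑ n ∈ (Icc 1 (W * K)).filter (fun n => Nat.Coprime n W), (1:ℝ) / n := by
  have hW' : (0:ℝ) < W := by exact_mod_cast hW
  have hblock : ∀ i : ℕ, (Nat.totient W / W : ℝ) * (1 / ((i:ℝ) + 1)) ≤
      ∑ n ∈ (Ioc (W * i) (W * (i + 1))).filter (fun n => Nat.Coprime n W), (1:ℝ) / n := by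
    intro i
    have hcard : ((Ioc (W * i) (W * (i + 1))).filter (fun n => Nat.Coprime n W)).card = Nat.totient W := by
      have h1 := Nat.filter_coprime_Ico_eq_totient W (W * i + 1)
      rw [← h1]
      congr 1
      ext n
      simp only [Finset.mem_filter, Finset.mem_Ioc, Finset.mem_Ico, Nat.coprime_comm]
      constructor
      · rintro ⟨⟨a, b⟩, c⟩; exact ⟨⟨by omega, by rw [mul_add] at b; omega⟩, c⟩
      · rintro ⟨⟨a, b⟩, c⟩; exact ⟨⟨by omega, by rw [mul_add]; omega⟩, c⟩
    have h2 : ∀ n ∈ (Ioc (W * i) (W * (i + 1))).filter (fun n => Nat.Coprime n W),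
        (1:ℝ) / (W * (i + 1)) ≤ 1 / n := by
      intro n hn
      obtain ⟨a, b⟩ := Finset.mem_Ioc.1 (Finset.mem_filter.1 hn).1
      have hn0 : (0:ℝ) < n := by exact_mod_cast (by omega : 0 < n)
      refine one_div_le_one_div_of_le hn0 ?_
      exact_mod_cast b
    have h3 := Finset.sum_le_sum h2
    rw [Finset.sum_const, hcard, nsmul_eq_mul] at h3
    refine le_trans (le_of_eq ?_) h3
    field_simp
  have h1 : ∀ K : ℕ, (Nat.totient W / W : ℝ) * ∑ i ∈ range K, (1 / ((i:ℝ) + 1)) ≤
      ∑ n ∈ (Icc 1 (W * K)).filter (fun n => Nat.Coprime n W), (1:ℝ) / n := by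
    intro K
    induction K with
    | zero => simp
    | succ K ih =>
      rw [Finset.sum_range_succ, mul_add]
      have hsplit : (Icc 1 (W * (K + 1))).filter (fun n => Nat.Coprime n W) =
          (Icc 1 (W * K)).filter (fun n => Nat.Coprime n W) ∪
          (Ioc (W * K) (W * (K + 1))).filter (fun n => Nat.Coprime n W) := by
        rw [← Finset.filter_union]
        congr 1
        ext n
        simp only [Finset.mem_union, Finset.mem_Icc, Finset.mem_Ioc]
        have : W * K ≤ W * (K + 1) := Nat.mul_le_mul_left W (Nat.le_succ K)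
        omega
      rw [hsplit, Finset.sum_union]
      · exact add_le_add ih (hblock K)
      · rw [Finset.disjoint_left]
        intro n h1 h2
        have a := (Finset.mem_Icc.1 (Finset.mem_filter.1 h1).1).2
        have b := (Finset.mem_Ioc.1 (Finset.mem_filter.1 h2).1).1
        omega
  refine le_trans (mul_le_mul_of_nonneg_left ?_ (by positivity)) (h1 K)
  have h2 := log_add_one_le_harmonic K
  rw [harmonic] at h2
  push_cast at h2
  simpa [one_div] using h2

/-- Lower bound for the sum. -/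
lemma GG_lower (W R : ℕ) (hW : 0 < W) :
    (Nat.totient W / W : ℝ) * Real.log ((R:ℝ) / W) ≤ GG W R := by
  rcases Nat.eq_zero_or_pos R with h | hR
  · subst h
    simp only [Nat.cast_zero, zero_div, Real.log_zero, mul_zero]
    exact Finset.sum_nonneg fun _ _ => by positivity
  have hW' : (0:ℝ) < W := by exact_mod_cast hW
  refine le_trans ?_ (GG_lower1 W R)
  have h1 := GG_lower2 W (R / W) hW
  have h2 : ∑ n ∈ (Icc 1 (W * (R / W))).filter (fun n => Nat.Coprime n W), (1:ℝ) / n ≤
      ∑ n ∈ (Icc 1 R).filter (fun n => Nat.Coprime n W), (1:ℝ) / n := by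
    refine Finset.sum_le_sum_of_subset_of_nonneg ?_ (fun _ _ _ => by positivity)
    exact Finset.filter_subset_filter _ (Finset.Icc_subset_Icc_right (Nat.mul_div_le R W))
  refine le_trans (mul_le_mul_of_nonneg_left ?_ (by positivity)) (h1.trans h2)
  refine Real.log_le_log (by positivity) ?_
  rw [div_le_iff₀ hW']
  have := Nat.lt_mul_div_succ R hW
  have h3 : (R:ℝ) < W * ((R / W : ℕ) + 1) := by exact_mod_cast this
  linarith

end Pool.Agent.H55.Odd
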