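import Mathlib

/-!
Exponential sums over arithmetic progressions.
-/

set_option autoImplicit false
set_option linter.unusedSectionVars false

namespace Pool.Agent.H55.Odd

open Finset

noncomputable def ex (x : ℝ) : ℂ := Complex.exp (2 * Real.pi * Complex.I * x)

lemma ex_add (x y : ℝ) : ex (x + y) = ex x * ex y := by
  rw [ex, ex, ex, ← Complex.exp_add]; congr 1; push_cast; ring

lemma ex_eq (x : ℝ) : ex x = Complex.exp (((2 * Real.pi * x : ℝ) : ℂ) * Complex.I) := by
  rw [ex]; congr 1; push_cast; ring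

lemma norm_ex (x : ℝ) : ‖ex x‖ = 1 := by
  rw [ex_eq]; exact Complex.norm_exp_ofReal_mul_I _

lemma ex_int (n : ℤ) : ex n = 1 := by
  rw [ex]
  have := Complex.exp_int_mul_two_pi_mul_I n
  rw [← this]; congr 1; push_cast; ring

lemma ex_zero : ex 0 = 1 := by simpa using ex_int 0

lemma ex_upper (x : ℝ) : ‖ex x - 1‖ ≤ 2 * Real.pi * |x| := by
  have : ex x = Complex.exp (Complex.I * ((2 * Real.pi * x : ℝ) : ℂ)) := by
    rw [ex]; congr 1; push_cast; ring
  rw [this]
  refine (Real.norm_exp_I_mul_ofReal_sub_one_le).trans (le_of_eq ?_)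
  rw [Real.norm_eq_abs, abs_mul, abs_mul, abs_of_pos Real.pi_pos, abs_two]

lemma ex_lower {x : ℝ} (hx : |x| ≤ 1/2) : 4 * |x| ≤ ‖ex x - 1‖ := by
  have : ex x = Complex.exp (Complex.I * ((2 * Real.pi * x : ℝ) : ℂ)) := by
    rw [ex]; congr 1; push_cast; ring
  rw [this, Complex.norm_exp_I_mul_ofReal_sub_one, Real.norm_eq_abs, abs_mul, abs_two]
  have h1 : |Real.sin (2 * Real.pi * x / 2)| = Real.sin (Real.pi * |x|) := by
    rw [show 2 * Real.pi * x / 2 = Real.pi * x by ring]
    rcases le_total 0 x with h | h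
    · rw [abs_of_nonneg h, abs_of_nonneg]
      rw [abs_of_nonneg h] at hx
      exact Real.sin_nonneg_of_nonneg_of_le_pi (by positivity) (by nlinarith [Real.pi_pos])
    · rw [abs_of_nonpos h]
      rw [abs_of_nonpos h] at hx
      rw [show Real.pi * -x = -(Real.pi * x) by ring, Real.sin_neg, abs_of_nonpos]
      have : 0 ≤ Real.sin (Real.pi * -x) :=
        Real.sin_nonneg_of_nonneg_of_le_pi (by nlinarith [Real.pi_pos]) (by nlinarith [Real.pi_pos])
      rw [show Real.pi * -x = -(Real.pi * x) by ring, Real.sin_neg] at this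
      linarith
  rw [h1]
  have h2 := Real.mul_le_sin (x := Real.pi * |x|) (by positivity) (by nlinarith [Real.pi_pos])
  have h3 : 2 / Real.pi * (Real.pi * |x|) = 2 * |x| := by field_simp
  rw [h3] at h2
  linarith

/-- Lower bound from the distance to all integers. -/
lemma ex_lower_int {x δ : ℝ} (h : ∀ n : ℤ, δ ≤ |x - n|) : 4 * δ ≤ ‖ex x - 1‖ := by
  have h1 : ex x = ex (x - round x) := by
    have : x = (x - round x) + (round x : ℝ) := by ring
    conv_lhs => rw [this]
    rw [ex_add, ex_int, mul_one]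
  rw [h1]
  exact (by linarith [h (round x)] : 4 * δ ≤ 4 * |x - round x|).trans
    (ex_lower (abs_sub_round x))

/-- The sum of `g` over `n ∈ (a, b]` in a residue class. -/
noncomputable def prog (K c a b : ℕ) (g : ℕ → ℂ) : ℂ :=
  ∑ n ∈ (Ioc a b).filter (fun n => n % K = c % K), g n

lemma prog_split (K c : ℕ) {a b d : ℕ} (h1 : a ≤ b) (h2 : b ≤ d) (g : ℕ → ℂ) :
    prog K c a d g = prog K c a b g + prog K c b d g := by
  rw [prog, prog, prog, ← Finset.sum_union]
  · congr 1
    rw [← Finset.filter_union, Finset.Ioc_union_Ioc_eq_Ioc h1 h2]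
  · rw [Finset.disjoint_left]
    intro n h1 h2
    have a := (Finset.mem_Ioc.1 (Finset.mem_filter.1 h1).1).2
    have b := (Finset.mem_Ioc.1 (Finset.mem_filter.1 h2).1).1
    omega

lemma prog_shift (K c a b i : ℕ) (g : ℕ → ℂ) :
    prog K (c + i) (a + i) (b + i) g = prog K c a b (fun n => g (n + i)) := by
  rw [prog, prog]
  symm
  refine Finset.sum_bij (fun n _ => n + i) ?_ ?_ ?_ ?_
  · intro n hn
    obtain ⟨h1, h2⟩ := Finset.mem_filter.1 hn
    obtain ⟨h3, h4⟩ := Finset.mem_Ioc.1 h1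
    refine Finset.mem_filter.2 ⟨Finset.mem_Ioc.2 ⟨by omega, by omega⟩, ?_⟩
    exact Nat.ModEq.add_right i h2
  · intro n _ n' _ h; omega
  · intro n hn
    obtain ⟨h1, h2⟩ := Finset.mem_filter.1 hn
    obtain ⟨h3, h4⟩ := Finset.mem_Ioc.1 h1
    refine ⟨n - i, Finset.mem_filter.2 ⟨Finset.mem_Ioc.2 ⟨by omega, by omega⟩, ?_⟩, by omega⟩
    have h5 : n = (n - i) + i := by omega
    rw [h5] at h2
    exact Nat.ModEq.add_right_cancel' i h2
  · intro n _; rfl

lemma card_short (K c a b : ℕ) (hab : b ≤ a + K) :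
    ((Ioc a b).filter (fun n => n % K = c % K)).card ≤ 1 := by
  rw [Finset.card_le_one]
  intro x hx y hy
  obtain ⟨h1, h2⟩ := Finset.mem_filter.1 hx
  obtain ⟨h3, h4⟩ := Finset.mem_filter.1 hy
  obtain ⟨a1, a2⟩ := Finset.mem_Ioc.1 h1
  obtain ⟨b1, b2⟩ := Finset.mem_Ioc.1 h3
  have hxy : x % K = y % K := h2.trans h4.symm
  rcases Nat.lt_trichotomy x y with h | h | h
  · exfalso
    have h5 : K ∣ y - x := (Nat.modEq_iff_dvd' h.le).1 hxy
    have := Nat.le_of_dvd (by omega) h5
    omega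
  · exact h
  · exfalso
    have h5 : K ∣ x - y := (Nat.modEq_iff_dvd' h.le).1 hxy.symm
    have := Nat.le_of_dvd (by omega) h5
    omega

lemma prog_short (K c a b : ℕ) (hab : b ≤ a + K) (g : ℕ → ℂ) (hg : ∀ n, ‖g n‖ ≤ 1) :
    ‖prog K c a b g‖ ≤ 1 := by
  rw [prog]
  refine (norm_sum_le _ _).trans ?_
  refine (Finset.sum_le_sum fun n _ => hg n).trans ?_
  rw [Finset.sum_const, nsmul_eq_mul, mul_one]
  exact_mod_cast card_short K c a b hab

/-- The geometric series bound. -/
lemma prog_geom (K c N : ℕ) (θ : ℝ) :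
    ‖prog K c N (2 * N) (fun n => ex (θ * n))‖ * ‖ex (θ * K) - 1‖ ≤ 2 := by
  set S := prog K c N (2 * N) (fun n => ex (θ * n)) with hS
  have h1 : S * ex (θ * K) = prog K (c + K) (N + K) (2 * N + K) (fun n => ex (θ * n)) := by
    rw [prog_shift, hS, prog, prog, Finset.sum_mul]
    refine Finset.sum_congr rfl fun n _ => ?_
    rw [← ex_add]; congr 1; push_cast; ring
  have h2 : prog K (c + K) (N + K) (2 * N + K) (fun n => ex (θ * n)) =
      prog K c (N + K) (2 * N + K) (fun n => ex (θ * n)) := by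
    rw [prog, prog]; simp
  have h3 : S * (ex (θ * K) - 1) = prog K c (2 * N) (2 * N + K) (fun n => ex (θ * n)) -
      prog K c N (N + K) (fun n => ex (θ * n)) := by
    have e1 := prog_split K c (a := N) (b := 2 * N) (d := 2 * N + K) (by omega) (by omega)
      (fun n => ex (θ * n))
    have e2 := prog_split K c (a := N) (b := N + K) (d := 2 * N + K) (by omega) (by omega)
      (fun n => ex (θ * n))
    rw [mul_sub, mul_one, h1, h2]
    have : S + prog K c (2 * N) (2 * N + K) (fun n => ex (θ * n)) =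
        prog K c N (N + K) (fun n => ex (θ * n)) + prog K c (N + K) (2 * N + K) (fun n => ex (θ * n)) := by
      rw [← e1, ← e2]
    linear_combination (-1 : ℂ) * this
  rw [← norm_mul, h3]
  have hg : ∀ n : ℕ, ‖(fun n : ℕ => ex (θ * n)) n‖ ≤ 1 := fun n => (norm_ex _).le
  have e1 := prog_short K c (2 * N) (2 * N + K) le_rfl (fun n => ex (θ * n)) hg
  have e2 := prog_short K c N (N + K) le_rfl (fun n => ex (θ * n)) hg
  exact (norm_sub_le _ _).trans (by linarith)

lemma card_prog (K c a b : ℕ) (hK : 0 < K) (hab : a ≤ b) :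
    (((Ioc a b).filter (fun n => n % K = c % K)).card : ℝ) ≤ ((b:ℝ) - a) / K + 1 := by
  have hK' : (0:ℝ) < K := by exact_mod_cast hK
  have h1 : ((Ioc a b).filter (fun n => n % K = c % K)).card ≤ (b - a) / K + 1 := by
    rw [← Finset.card_range ((b - a) / K + 1)]
    refine Finset.card_le_card_of_injOn (fun n => (n - a - 1) / K) ?_ ?_
    · intro n hn
      obtain ⟨a1, a2⟩ := Finset.mem_Ioc.1 (Finset.mem_filter.1 (Finset.mem_coe.1 hn)).1
      simp only [Finset.coe_range, Set.mem_Iio]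
      have : (n - a - 1) / K ≤ (b - a) / K := Nat.div_le_div_right (by omega)
      omega
    · intro x hx y hy hxy
      obtain ⟨h1, h2⟩ := Finset.mem_filter.1 (Finset.mem_coe.1 hx)
      obtain ⟨h3, h4⟩ := Finset.mem_filter.1 (Finset.mem_coe.1 hy)
      obtain ⟨a1, a2⟩ := Finset.mem_Ioc.1 h1
      obtain ⟨b1, b2⟩ := Finset.mem_Ioc.1 h3
      simp only at hxy
      have hm : (x - a - 1) % K = (y - a - 1) % K := by
        have e1 : x = (x - a - 1) + (a + 1) := by omega
        have e2 : y = (y - a - 1) + (a + 1) := by omega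
        have : x % K = y % K := h2.trans h4.symm
        rw [e1, e2] at this
        exact Nat.ModEq.add_right_cancel' (a + 1) this
      have e1 := Nat.div_add_mod (x - a - 1) K
      have e2 := Nat.div_add_mod (y - a - 1) K
      rw [hxy, hm, e2] at e1
      omega
  have h2 : (((b - a) / K : ℕ) : ℝ) ≤ ((b:ℝ) - a) / K := by
    refine Nat.cast_div_le.trans ?_
    rw [Nat.cast_sub hab]
  calc (((Ioc a b).filter (fun n => n % K = c % K)).card : ℝ) ≤ (((b - a) / K + 1 : ℕ) : ℝ) := by
        exact_mod_cast h1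
    _ ≤ _ := by push_cast; linarith

lemma lip_iter (g : ℕ → ℂ) (η : ℝ) (hη : ∀ n, ‖g (n + 1) - g n‖ ≤ η) (n i : ℕ) :
    ‖g (n + i) - g n‖ ≤ i * η := by
  induction i with
  | zero => simp
  | succ i ih =>
    have h1 := hη (n + i)
    calc ‖g (n + (i + 1)) - g n‖ = ‖(g (n + i + 1) - g (n + i)) + (g (n + i) - g n)‖ := by
          congr 1; rw [← add_assoc]; ring
      _ ≤ η + i * η := (norm_add_le _ _).trans (add_le_add h1 ih)
      _ = _ := by push_cast; ring

/-- Two classes have almost the same sum. -/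
lemma prog_diff (K c i N : ℕ) (hK : 0 < K) (hi : i ≤ K) (g : ℕ → ℂ) (η : ℝ)
    (hg : ∀ n, ‖g n‖ ≤ 1) (hη : ∀ n, ‖g (n + 1) - g n‖ ≤ η) :
    ‖prog K (c + i) N (2 * N) g - prog K c N (2 * N) g‖ ≤ 2 + (N + K) * η := by
  have hK' : (0:ℝ) < K := by exact_mod_cast hK
  have hη0 : 0 ≤ η := (norm_nonneg _).trans (hη 0)
  have e1 := prog_split K (c + i) (a := N) (b := 2 * N) (d := 2 * N + i) (by omega) (by omega) g
  have e2 := prog_split K (c + i) (a := N) (b := N + i) (d := 2 * N + i) (by omega) (by omega) g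
  have e3 := prog_shift K c N (2 * N) i g
  have h1 : prog K (c + i) N (2 * N) g - prog K c N (2 * N) g =
      (prog K (c + i) N (N + i) g - prog K (c + i) (2 * N) (2 * N + i) g) +
      ∑ n ∈ (Ioc N (2 * N)).filter (fun n => n % K = c % K), (g (n + i) - g n) := by
    rw [Finset.sum_sub_distrib]
    change _ = _ + (prog K c N (2 * N) (fun n => g (n + i)) - prog K c N (2 * N) g)
    rw [← e3]
    linear_combination e2 - e1
  rw [h1]
  have b1 := prog_short K (c + i) N (N + i) (by omega) g hg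
  have b2 := prog_short K (c + i) (2 * N) (2 * N + i) (by omega) g hg
  have b3 : ‖∑ n ∈ (Ioc N (2 * N)).filter (fun n => n % K = c % K), (g (n + i) - g n)‖ ≤ (N + K) * η := by
    refine (norm_sum_le _ _).trans ?_
    have hiK : (i:ℝ) ≤ K := by exact_mod_cast hi
    have : ∀ n ∈ (Ioc N (2 * N)).filter (fun n => n % K = c % K), ‖g (n + i) - g n‖ ≤ K * η :=
      fun n _ => (lip_iter g η hη n i).trans (mul_le_mul_of_nonneg_right hiK hη0)
    refine (Finset.sum_le_sum this).trans ?_
    rw [Finset.sum_const, nsmul_eq_mul]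
    have h2 := card_prog K c N (2 * N) hK (by omega)
    push_cast at h2
    have h3 : (((Ioc N (2 * N)).filter (fun n => n % K = c % K)).card : ℝ) ≤ (N:ℝ) / K + 1 := by
      have : (2 * (N:ℝ) - N) / K + 1 = (N:ℝ)/K + 1 := by ring
      linarith
    calc (((Ioc N (2 * N)).filter (fun n => n % K = c % K)).card : ℝ) * (K * η) ≤
          ((N:ℝ) / K + 1) * (K * η) := mul_le_mul_of_nonneg_right h3 (by positivity)
      _ = (N + K) * η := by field_simp
  calc ‖(prog K (c + i) N (N + i) g - prog K (c + i) (2 * N) (2 * N + i) g) +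
      ∑ n ∈ (Ioc N (2 * N)).filter (fun n => n % K = c % K), (g (n + i) - g n)‖
      ≤ ‖prog K (c + i) N (N + i) g - prog K (c + i) (2 * N) (2 * N + i) g‖ + (N + K) * η :=
        (norm_add_le _ _).trans (add_le_add le_rfl b3)
    _ ≤ _ := by
        have := norm_sub_le (prog K (c + i) N (N + i) g) (prog K (c + i) (2 * N) (2 * N + i) g)
        linarith

/-- A class sum compared with the full sum. -/
lemma prog_compare (K c N : ℕ) (hK : 0 < K) (g : ℕ → ℂ) (η : ℝ)
    (hg : ∀ n, ‖g n‖ ≤ 1) (hη : ∀ n, ‖g (n + 1) - g n‖ ≤ η) :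
    ‖prog K c N (2 * N) g - (1 / (K:ℂ)) * ∑ n ∈ Ioc N (2 * N), g n‖ ≤ 2 + (N + K) * η := by
  have hK' : (0:ℝ) < K := by exact_mod_cast hK
  have hKC : (K:ℂ) ≠ 0 := by exact_mod_cast hK.ne'
  have hmod : prog K c N (2 * N) g = prog K (c % K) N (2 * N) g := by
    rw [prog, prog, Nat.mod_mod]
  rw [hmod]
  set c' := c % K with hc'
  have hc'K : c' < K := Nat.mod_lt _ hK
  have hsum : ∑ n ∈ Ioc N (2 * N), g n = ∑ j ∈ range K, prog K j N (2 * N) g := by
    have : ∀ n ∈ Ioc N (2 * N), n % K ∈ range K := fun n _ => Finset.mem_range.2 (Nat.mod_lt _ hK)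
    rw [← Finset.sum_fiberwise_of_maps_to this]
    refine Finset.sum_congr rfl fun j hj => ?_
    rw [prog, Nat.mod_eq_of_lt (Finset.mem_range.1 hj)]
  have h1 : prog K c' N (2 * N) g - (1 / (K:ℂ)) * ∑ n ∈ Ioc N (2 * N), g n =
      (1 / (K:ℂ)) * ∑ j ∈ range K, (prog K c' N (2 * N) g - prog K j N (2 * N) g) := by
    rw [hsum, Finset.sum_sub_distrib, Finset.sum_const, card_range, nsmul_eq_mul]
    field_simp
  rw [h1, norm_mul]
  have h2 : ∀ j ∈ range K, ‖prog K c' N (2 * N) g - prog K j N (2 * N) g‖ ≤ 2 + (N + K) * η := by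
    intro j hj
    have hj' := Finset.mem_range.1 hj
    rcases Nat.le_total c' j with h | h
    · have := prog_diff K c' (j - c') N hK (by omega) g η hg hη
      rw [show c' + (j - c') = j by omega] at this
      rw [norm_sub_rev]
      exact this
    · have := prog_diff K j (c' - j) N hK (by omega) g η hg hη
      rw [show j + (c' - j) = c' by omega] at this
      exact this
  calc ‖1 / (K:ℂ)‖ * ‖∑ j ∈ range K, (prog K c' N (2 * N) g - prog K j N (2 * N) g)‖
      ≤ (1 / (K:ℝ)) * ∑ j ∈ range K, (2 + (N + K) * η) := by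
        refine mul_le_mul (le_of_eq (by simp)) ?_ (norm_nonneg _) (by positivity)
        exact (norm_sum_le _ _).trans (Finset.sum_le_sum h2)
    _ = _ := by rw [Finset.sum_const, card_range, nsmul_eq_mul]; field_simp

end Pool.Agent.H55.Odd
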