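import Pool.Agent.H55.Odd.Sieve2
import Pool.Agent.H55.Odd.Sieve3

/-!
The majorant is Fourier-uniform on the progression `1` modulo `W`.
-/

set_option autoImplicit false
set_option linter.unusedSectionVars false

namespace Pool.Agent.H55.Odd

open Finset

/-- The integers `≡ 1 (mod W)` in `(N, 2N]`. -/
def II (W N : ℕ) : Finset ℕ := (Ioc N (2 * N)).filter (fun n => n % W = 1 % W)

lemma mem_II {W N n : ℕ} : n ∈ II W N ↔ (N < n ∧ n ≤ 2 * N) ∧ n % W = 1 % W := by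
  simp [II]

lemma II_dvd_eq (W D : ℕ) (hcop : Nat.Coprime W D) :
    ∃ c, ∀ N, (II W N).filter (fun n => D ∣ n) = (Ioc N (2 * N)).filter (fun n => n % (W * D) = c % (W * D)) := by
  obtain ⟨c, hc1, hc2⟩ := Nat.chineseRemainder hcop 1 0
  refine ⟨c, fun N => ?_⟩
  ext n
  simp only [Finset.mem_filter, mem_II, Finset.mem_Ioc]
  constructor
  · rintro ⟨⟨h1, h2⟩, h3⟩
    refine ⟨h1, ?_⟩
    apply (Nat.modEq_and_modEq_iff_modEq_mul hcop).1
    refine ⟨?_, ?_⟩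
    · exact (show n ≡ 1 [MOD W] from h2).trans hc1.symm
    · exact ((Nat.modEq_zero_iff_dvd).2 h3).trans hc2.symm
  · rintro ⟨h1, h2⟩
    obtain ⟨a, b⟩ := (Nat.modEq_and_modEq_iff_modEq_mul hcop).2 (show n ≡ c [MOD W * D] from h2)
    exact ⟨⟨h1, a.trans hc1⟩, (Nat.modEq_zero_iff_dvd).1 (b.trans hc2)⟩

lemma sum_II_dvd (W D : ℕ) (hcop : Nat.Coprime W D) :
    ∃ c, ∀ N (F : ℕ → ℂ), ∑ n ∈ (II W N).filter (fun n => D ∣ n), F n = prog (W * D) c N (2 * N) F := by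
  obtain ⟨c, hc⟩ := II_dvd_eq W D hcop
  exact ⟨c, fun N F => by rw [hc, prog]⟩

lemma count_II (W D N : ℕ) (hW : 0 < W) (hD : 0 < D) (hcop : Nat.Coprime W D) :
    |(((II W N).filter (fun n => D ∣ n)).card : ℝ) - N / (W * D)| ≤ 2 := by
  obtain ⟨c, hc⟩ := sum_II_dvd W D hcop
  have h1 := prog_compare (W * D) c N (Nat.mul_pos hW hD) (fun _ => 1) 0 (fun _ => by simp)
    (fun _ => by simp)
  rw [← hc N (fun _ => 1)] at h1
  simp only [Finset.sum_const, nsmul_eq_mul, mul_one, Nat.card_Ioc, mul_zero, add_zero] at h1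
  have h2 : ((((II W N).filter (fun n => D ∣ n)).card : ℂ) - 1 / ((W * D : ℕ) : ℂ) * ((2 * N - N : ℕ) : ℂ)) =
      (((((II W N).filter (fun n => D ∣ n)).card : ℝ) - N / (W * D) : ℝ) : ℂ) := by
    rw [show 2 * N - N = N by omega]
    push_cast
    ring
  rw [h2, Complex.norm_real, Real.norm_eq_abs] at h1
  exact h1

/-- Expansion of the square of a divisor sum. -/
lemma quad_expand {E : Type*} [AddCommGroup E] [Module ℝ E] (S : Finset ℕ) (x : ℕ → ℝ) (J : Finset ℕ)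
    (F : ℕ → E) :
    ∑ n ∈ J, ((∑ d ∈ S, (if d ∣ n then x d else 0)) ^ 2 : ℝ) • F n =
      ∑ d ∈ S, ∑ d' ∈ S, (x d * x d') • ∑ n ∈ J.filter (fun n => Nat.lcm d d' ∣ n), F n := by
  have h1 : ∀ n ∈ J, ((∑ d ∈ S, (if d ∣ n then x d else 0)) ^ 2 : ℝ) • F n =
      ∑ d ∈ S, ∑ d' ∈ S, (x d * x d') • (if Nat.lcm d d' ∣ n then F n else 0) := by
    intro n _
    rw [sq, Finset.sum_mul_sum, Finset.sum_smul]
    refine Finset.sum_congr rfl fun d _ => ?_
    rw [Finset.sum_smul]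
    refine Finset.sum_congr rfl fun d' _ => ?_
    simp only [Nat.lcm_dvd_iff]
    by_cases a : d ∣ n <;> by_cases b : d' ∣ n <;> simp [a, b]
  rw [Finset.sum_congr rfl h1, Finset.sum_comm]
  refine Finset.sum_congr rfl fun d _ => ?_
  rw [Finset.sum_comm]
  refine Finset.sum_congr rfl fun d' _ => ?_
  rw [← Finset.smul_sum, Finset.sum_filter]

variable {W R : ℕ}

/-- The majorant. -/
noncomputable def nu (W R n : ℕ) : ℝ := (∑ d ∈ DD W R, (if d ∣ n then lam W R d else 0)) ^ 2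

/-- The majorant without the prime `p`. -/
noncomputable def nup (W R p n : ℕ) : ℝ :=
  (∑ d ∈ (DD W R).filter (fun d => ¬ p ∣ d), (if d ∣ n then lam W R d else 0)) ^ 2

lemma nu_nonneg (n : ℕ) : 0 ≤ nu W R n := sq_nonneg _
lemma nup_nonneg (p n : ℕ) : 0 ≤ nup W R p n := sq_nonneg _

lemma nu_eq_nup {p n : ℕ} (h : ¬ p ∣ n) : nu W R n = nup W R p n := by
  rw [nu, nup, Finset.sum_filter]
  congr 1
  refine Finset.sum_congr rfl fun d _ => ?_
  by_cases a : d ∣ n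
  · rw [if_pos a, if_pos (fun hp => h (hp.trans a))]
  · simp [a]

lemma sum_lam_abs (S : Finset ℕ) (hS : S ⊆ DD W R) : ∑ d ∈ S, |lam W R d| ≤ (R:ℝ)^2 := by
  have h1 : ∑ d ∈ S, |lam W R d| ≤ ∑ d ∈ Icc 1 R, (R:ℝ) := by
    refine (Finset.sum_le_sum_of_subset_of_nonneg (hS.trans (Finset.filter_subset _ _))
      (fun _ _ _ => abs_nonneg _)).trans ?_
    refine Finset.sum_le_sum fun d hd => (lam_abs d).trans ?_
    exact_mod_cast (Finset.mem_Icc.1 hd).2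
  refine h1.trans (le_of_eq ?_)
  rw [Finset.sum_const, Nat.card_Icc, nsmul_eq_mul]
  simp [sq]

lemma quad_err {E : Type*} [NormedAddCommGroup E] [NormedSpace ℝ E] (S : Finset ℕ) (hS : S ⊆ DD W R)
    (A B : ℕ → ℕ → E) (E0 : ℝ) (hE0 : 0 ≤ E0) (h : ∀ d ∈ S, ∀ d' ∈ S, ‖A d d' - B d d'‖ ≤ E0) :
    ‖∑ d ∈ S, ∑ d' ∈ S, (lam W R d * lam W R d') • A d d' -
      ∑ d ∈ S, ∑ d' ∈ S, (lam W R d * lam W R d') • B d d'‖ ≤ (R:ℝ)^4 * E0 := by
  rw [← Finset.sum_sub_distrib]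
  have h1 : ∀ d ∈ S, ‖∑ d' ∈ S, (lam W R d * lam W R d') • A d d' -
      ∑ d' ∈ S, (lam W R d * lam W R d') • B d d'‖ ≤ |lam W R d| * ((R:ℝ)^2 * E0) := by
    intro d hd
    rw [← Finset.sum_sub_distrib]
    calc ‖∑ d' ∈ S, ((lam W R d * lam W R d') • A d d' - (lam W R d * lam W R d') • B d d')‖
        ≤ ∑ d' ∈ S, |lam W R d| * (|lam W R d'| * E0) := by
          refine (norm_sum_le _ _).trans (Finset.sum_le_sum fun d' hd' => ?_)
          rw [← smul_sub, norm_smul, Real.norm_eq_abs, abs_mul, mul_assoc]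
          gcongr
          exact h d hd d' hd'
      _ = |lam W R d| * ((∑ d' ∈ S, |lam W R d'|) * E0) := by
          rw [← Finset.mul_sum, ← Finset.sum_mul]
      _ ≤ _ := by
          gcongr
          exact sum_lam_abs S hS
  refine (norm_sum_le _ _).trans ((Finset.sum_le_sum h1).trans ?_)
  rw [← Finset.sum_mul]
  calc (∑ d ∈ S, |lam W R d|) * ((R:ℝ)^2 * E0) ≤ (R:ℝ)^2 * ((R:ℝ)^2 * E0) := by
        gcongr
        exact sum_lam_abs S hS
    _ = _ := by ring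

lemma lcm_bound {d d' : ℕ} (hd : d ∈ DD W R) (hd' : d' ∈ DD W R) :
    1 ≤ Nat.lcm d d' ∧ Nat.lcm d d' ≤ R^2 ∧ Nat.Coprime W (Nat.lcm d d') := by
  obtain ⟨⟨a1, a2⟩, -, a4⟩ := mem_DD.1 hd
  obtain ⟨⟨b1, b2⟩, -, b4⟩ := mem_DD.1 hd'
  refine ⟨Nat.lcm_pos (by omega) (by omega), ?_, ?_⟩
  · calc Nat.lcm d d' ≤ d * d' := Nat.le_of_dvd (Nat.mul_pos (by omega) (by omega)) (Nat.lcm_dvd_mul d d')
      _ ≤ R * R := Nat.mul_le_mul a2 b2
      _ = R^2 := (sq R).symm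
  · exact (Nat.Coprime.coprime_dvd_left (Nat.lcm_dvd_mul d d') (a4.mul_left b4)).symm

lemma II_filter_filter (N q D : ℕ) : ((II W N).filter (fun n => q ∣ n)).filter (fun n => D ∣ n) =
    (II W N).filter (fun n => Nat.lcm q D ∣ n) := by
  ext n
  simp only [Finset.mem_filter, Nat.lcm_dvd_iff]
  tauto

/-- Mass of the majorant on multiples of a prime. -/
lemma mass_mult (hR : 1 ≤ R) (hW : 0 < W) {p : ℕ} (hp : p.Prime) (hpW : ¬ p ∣ W) (N : ℕ) :
    ∑ n ∈ (II W N).filter (fun n => p ∣ n), (nu W R n + nup W R p n) ≤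
      5 * N / (W * p * GG W R) + 4 * (R:ℝ)^4 := by
  have hG : 0 < GG W R := lt_of_lt_of_le one_pos (GG_ge_one hR)
  have hW' : (0:ℝ) < W := by exact_mod_cast hW
  have hp0 : (0:ℝ) < p := by exact_mod_cast hp.pos
  have hcopp : Nat.Coprime W p := ((Nat.Prime.coprime_iff_not_dvd hp).2 hpW).symm
  have key : ∀ S ⊆ DD W R, ∑ n ∈ (II W N).filter (fun n => p ∣ n),
      (∑ d ∈ S, (if d ∣ n then lam W R d else 0)) ^ 2 ≤
      (N / W) * ∑ d ∈ S, ∑ d' ∈ S, lam W R d * lam W R d' / (Nat.lcm p (Nat.lcm d d') : ℝ) +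
        2 * (R:ℝ)^4 := by
    intro S hS
    have h1 := quad_expand S (lam W R) ((II W N).filter (fun n => p ∣ n)) (fun _ => (1:ℝ))
    simp only [smul_eq_mul, mul_one] at h1
    rw [h1]
    have h2 := quad_err S hS (fun d d' => ∑ n ∈ ((II W N).filter (fun n => p ∣ n)).filter
      (fun n => Nat.lcm d d' ∣ n), (1:ℝ)) (fun d d' => (N:ℝ) / (W * (Nat.lcm p (Nat.lcm d d') : ℕ))) 2
      (by norm_num) (by
        intro d hd d' hd'
        rw [II_filter_filter]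
        obtain ⟨a1, a2, a3⟩ := lcm_bound (hS hd) (hS hd')
        have hcop : Nat.Coprime W (Nat.lcm p (Nat.lcm d d')) :=
          Nat.Coprime.coprime_dvd_right (Nat.lcm_dvd_mul _ _) (hcopp.mul_right a3)
        have := count_II W (Nat.lcm p (Nat.lcm d d')) N hW (Nat.lcm_pos hp.pos a1) hcop
        simpa using this)
    rw [Real.norm_eq_abs] at h2
    simp only [smul_eq_mul] at h2
    have h3 := (abs_le.1 h2).2
    have h4 : ∑ d ∈ S, ∑ d' ∈ S, lam W R d * lam W R d' * ((N:ℝ) / (W * (Nat.lcm p (Nat.lcm d d') : ℕ))) =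
        (N / W) * ∑ d ∈ S, ∑ d' ∈ S, lam W R d * lam W R d' / (Nat.lcm p (Nat.lcm d d') : ℝ) := by
      rw [Finset.mul_sum]
      refine Finset.sum_congr rfl fun d _ => ?_
      rw [Finset.mul_sum]
      refine Finset.sum_congr rfl fun d' _ => ?_
      rw [div_mul_eq_div_div]; ring
    rw [h4] at h3
    simp only [Finset.sum_const, nsmul_eq_mul, mul_one] at h3 ⊢
    linarith
  rw [Finset.sum_add_distrib]
  have e1 := key (DD W R) (Finset.Subset.refl _)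
  have e2 := key ((DD W R).filter (fun d => ¬ p ∣ d)) (Finset.filter_subset _ _)
  have v1 := V_mult (W := W) (R := R) hR hp
  have v2 := V_free (W := W) (R := R) hR hp
  have v3 : ∑ d ∈ DD W R with ¬ p ∣ d, ∑ d' ∈ DD W R with ¬ p ∣ d',
      lam W R d * lam W R d' / (Nat.lcm p (Nat.lcm d d') : ℝ) ≤ (1 / p) * (4 / GG W R) := by
    have : ∑ d ∈ DD W R with ¬ p ∣ d, ∑ d' ∈ DD W R with ¬ p ∣ d',
      lam W R d * lam W R d' / (Nat.lcm p (Nat.lcm d d') : ℝ) =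
      (1 / p) * ∑ d ∈ DD W R with ¬ p ∣ d, ∑ d' ∈ DD W R with ¬ p ∣ d', lam W R d * lam W R d' / (Nat.lcm d d' : ℝ) := by
      rw [Finset.mul_sum]
      refine Finset.sum_congr rfl fun d hd => ?_
      rw [Finset.mul_sum]
      refine Finset.sum_congr rfl fun d' hd' => ?_
      have c1 : Nat.Coprime p d := (Nat.Prime.coprime_iff_not_dvd hp).2 (Finset.mem_filter.1 hd).2
      have c2 : Nat.Coprime p d' := (Nat.Prime.coprime_iff_not_dvd hp).2 (Finset.mem_filter.1 hd').2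
      have c3 : Nat.Coprime p (Nat.lcm d d') :=
        Nat.Coprime.coprime_dvd_right (Nat.lcm_dvd_mul _ _) (c1.mul_right c2)
      rw [c3.lcm_eq_mul]
      push_cast
      rw [one_div_mul_eq_div, div_div, mul_comm (p:ℝ)]
    rw [this]
    exact mul_le_mul_of_nonneg_left v2 (by positivity)
  have f1 : (N / W : ℝ) * ∑ d ∈ DD W R, ∑ d' ∈ DD W R, lam W R d * lam W R d' / (Nat.lcm p (Nat.lcm d d') : ℝ) ≤
      (N / W) * ((1 / p) * (1 / GG W R)) := mul_le_mul_of_nonneg_left v1 (by positivity)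
  have f2 : (N / W : ℝ) * ∑ d ∈ DD W R with ¬ p ∣ d, ∑ d' ∈ DD W R with ¬ p ∣ d',
      lam W R d * lam W R d' / (Nat.lcm p (Nat.lcm d d') : ℝ) ≤
      (N / W) * ((1 / p) * (4 / GG W R)) := mul_le_mul_of_nonneg_left v3 (by positivity)
  have f3 : (N / W : ℝ) * ((1 / p) * (1 / GG W R)) + (N / W) * ((1 / p) * (4 / GG W R)) =
      5 * N / (W * p * GG W R) := by field_simp; ring
  have e1' : ∑ n ∈ (II W N).filter (fun n => p ∣ n), nu W R n ≤
      (N / W) * ∑ d ∈ DD W R, ∑ d' ∈ DD W R, lam W R d * lam W R d' / (Nat.lcm p (Nat.lcm d d') : ℝ) +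
        2 * (R:ℝ)^4 := e1
  have e2' : ∑ n ∈ (II W N).filter (fun n => p ∣ n), nup W R p n ≤
      (N / W) * ∑ d ∈ DD W R with ¬ p ∣ d, ∑ d' ∈ DD W R with ¬ p ∣ d',
      lam W R d * lam W R d' / (Nat.lcm p (Nat.lcm d d') : ℝ) + 2 * (R:ℝ)^4 := e2
  linarith

/-- A frequency far from all rationals with denominator dividing `D`. -/
lemma far (hR : 1 ≤ R) (θ : ℝ) (r : ℚ) (hr : |(W:ℝ) * θ - r| ≤ 1 / ((4 * R^2 + 1 : ℝ) * r.den))
    (hden : (r.den : ℝ) ≤ 4 * R^2) {p D : ℕ} (hp : p ∣ r.den) (hpD : ¬ p ∣ D) (hDR : (D:ℝ) ≤ R^2)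
    (j : ℤ) : 3 / (16 * (R:ℝ)^2) ≤ |θ * ((W * D : ℕ) : ℝ) - j| := by
  have hR' : (1:ℝ) ≤ R := by exact_mod_cast hR
  have hd0 : (0:ℝ) < r.den := by exact_mod_cast r.den_pos
  have h1 : (1:ℝ) / r.den ≤ |(D:ℝ) * r - j| := by
    have hr' : (r:ℝ) = (r.num : ℝ) / (r.den : ℝ) := by exact_mod_cast (Rat.num_div_den r).symm
    have h2 : (D:ℝ) * r - j = (((D:ℤ) * r.num - j * r.den : ℤ) : ℝ) / r.den := by
      rw [hr']; push_cast; field_simp
    have h3 : (D:ℤ) * r.num - j * r.den ≠ 0 := by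
      intro h
      apply hpD
      have h4 : (r.den : ℤ) ∣ (D:ℤ) * r.num := ⟨j, by linarith⟩
      have h5 : IsCoprime (r.den : ℤ) r.num := by
        rw [Int.isCoprime_iff_gcd_eq_one]
        have := r.reduced
        rw [Nat.Coprime] at this
        simpa [Int.gcd, Nat.gcd_comm] using this
      have h6 : (r.den : ℤ) ∣ (D:ℤ) := h5.dvd_of_dvd_mul_right h4
      exact hp.trans (Int.natCast_dvd_natCast.1 h6)
    rw [h2, abs_div, abs_of_pos hd0]
    have h4 : (1:ℝ) ≤ |(((D:ℤ) * r.num - j * r.den : ℤ) : ℝ)| := by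
      exact_mod_cast Int.one_le_abs h3
    gcongr
  have h2 : |(D:ℝ) * ((W:ℝ) * θ - r)| ≤ 1 / (4 * r.den) := by
    rw [abs_mul, Nat.abs_cast]
    calc (D:ℝ) * |(W:ℝ) * θ - r| ≤ R^2 * (1 / ((4 * R^2 + 1 : ℝ) * r.den)) :=
          mul_le_mul hDR hr (abs_nonneg _) (by positivity)
      _ ≤ 1 / (4 * r.den) := by
          rw [mul_one_div, div_le_div_iff₀ (by positivity) (by positivity)]
          nlinarith
  have h3 : θ * ((W * D : ℕ) : ℝ) - j = (D:ℝ) * ((W:ℝ) * θ - r) + ((D:ℝ) * r - j) := by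
    push_cast; ring
  rw [h3]
  have h4 : |(D:ℝ) * r - j| ≤ |(D:ℝ) * ((W:ℝ) * θ - r) + ((D:ℝ) * r - j)| + |(D:ℝ) * ((W:ℝ) * θ - r)| := by
    have := abs_sub_abs_le_abs_sub ((D:ℝ) * r - j) (-((D:ℝ) * ((W:ℝ) * θ - r)))
    rw [abs_neg] at this
    rw [show (D:ℝ) * r - j - -((D:ℝ) * ((W:ℝ) * θ - r)) = (D:ℝ) * ((W:ℝ) * θ - r) + ((D:ℝ) * r - j) by ring] at this
    linarith
  have h5 : (1:ℝ) / r.den - 1 / (4 * r.den) = (3/4) * (1 / r.den) := by field_simp; ring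
  have h6 : 3 / (16 * (R:ℝ)^2) ≤ (3/4) * (1 / r.den) := by
    have : 1 / (4 * (R:ℝ)^2) ≤ 1 / r.den := one_div_le_one_div_of_le hd0 hden
    calc 3 / (16 * (R:ℝ)^2) = (3/4) * (1 / (4 * (R:ℝ)^2)) := by field_simp; ring
      _ ≤ _ := mul_le_mul_of_nonneg_left this (by norm_num)
  linarith

end Pool.Agent.H55.Odd
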