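import Pool.Agent.H55.Odd.Sieve4

/-!
The majorant is Fourier-uniform: the main estimate.
-/

set_option autoImplicit false
set_option linter.unusedSectionVars false

namespace Pool.Agent.H55.Odd

open Finset

variable {W R : ℕ}

lemma prog_small (K c N : ℕ) (θ δ : ℝ) (hδ : 0 < δ) (h : 4 * δ ≤ ‖ex (θ * K) - 1‖) :
    ‖prog K c N (2 * N) (fun n => ex (θ * n))‖ ≤ 1 / (2 * δ) := by
  have h1 := prog_geom K c N θ
  have h2 : ‖prog K c N (2 * N) (fun n => ex (θ * n))‖ * (4 * δ) ≤ 2 :=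
    (mul_le_mul_of_nonneg_left h (norm_nonneg _)).trans h1
  rw [le_div_iff₀ (by positivity)]
  linarith

/-- Exponential sums far from the relevant rationals are small. -/
lemma far_sum (hR : 1 ≤ R) (N : ℕ) (θ : ℝ) (r : ℚ)
    (hr : |(W:ℝ) * θ - r| ≤ 1 / ((4 * R^2 + 1 : ℝ) * r.den))
    (hden : (r.den : ℝ) ≤ 4 * R^2) {p D : ℕ} (hp : p ∣ r.den) (hpD : ¬ p ∣ D) (hDR : (D:ℝ) ≤ R^2)
    (hcop : Nat.Coprime W D) :
    ‖∑ n ∈ (II W N).filter (fun n => D ∣ n), ex (θ * n)‖ ≤ 3 * (R:ℝ)^2 := by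
  have hR' : (1:ℝ) ≤ R := by exact_mod_cast hR
  obtain ⟨c, hc⟩ := sum_II_dvd W D hcop
  rw [hc]
  have h1 := ex_lower_int (x := θ * ((W * D : ℕ) : ℝ)) (δ := 3 / (16 * (R:ℝ)^2))
    (far hR θ r hr hden hp hpD hDR)
  refine (prog_small (W * D) c N θ _ (by positivity) h1).trans ?_
  rw [div_le_iff₀ (by positivity)]
  have : 3 * (R:ℝ)^2 * (2 * (3 / (16 * (R:ℝ)^2))) = 18/16 := by field_simp; ring
  rw [this]; norm_num

/-- Near an integer frequency: comparison of the sums over multiples. -/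
lemma near_sum (hR : 1 ≤ R) (hW : 0 < W) (N : ℕ) (hN : W * R^2 ≤ N) (θ : ℝ) (a : ℤ)
    (ha : |(W:ℝ) * θ - a| ≤ 1 / (4 * (R:ℝ)^2 + 1)) (D : ℕ) (hD : 1 ≤ D) (hDR : D ≤ R^2)
    (hcop : Nat.Coprime W D) :
    ‖∑ n ∈ (II W N).filter (fun n => D ∣ n), ex (θ * n) -
      (1 / (D:ℂ)) * ∑ n ∈ (II W N).filter (fun n => 1 ∣ n), ex (θ * n)‖ ≤ 30 * Real.sqrt N := by
  have hR' : (1:ℝ) ≤ R := by exact_mod_cast hR
  have hW' : (0:ℝ) < W := by exact_mod_cast hW
  have hW1 : (1:ℝ) ≤ W := by exact_mod_cast hW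
  have hD' : (1:ℝ) ≤ D := by exact_mod_cast hD
  have hDR' : (D:ℝ) ≤ R^2 := by exact_mod_cast hDR
  have hN1 : 1 ≤ N := le_trans (Nat.mul_pos hW (pow_pos (by omega) 2)) hN
  have hN1' : (1:ℝ) ≤ N := by exact_mod_cast hN1
  have hN' : (W:ℝ) * R^2 ≤ N := by exact_mod_cast hN
  have hsq : Real.sqrt N * Real.sqrt N = N := Real.mul_self_sqrt (by linarith)
  have hsq1 : 1 ≤ Real.sqrt N := by
    rw [Real.one_le_sqrt]; exact hN1'
  set β : ℝ := (W:ℝ) * θ - a with hβ
  set γ : ℝ := β / W with hγ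
  have hβ4 : |β| ≤ 1 / (4 * (R:ℝ)^2) := ha.trans (one_div_le_one_div_of_le (by positivity) (by linarith))
  have hγW : γ * W = β := by rw [hγ]; field_simp
  -- the phase
  have hphase : ∀ D' : ℕ, ∑ n ∈ (II W N).filter (fun n => D' ∣ n), ex (θ * n) =
      ex (θ - γ) * ∑ n ∈ (II W N).filter (fun n => D' ∣ n), ex (γ * n) := by
    intro D'
    rw [Finset.mul_sum]
    refine Finset.sum_congr rfl fun n hn => ?_
    obtain ⟨⟨h1, h2⟩, h3⟩ := mem_II.1 (Finset.mem_filter.1 hn).1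
    have h4 : W ∣ n - 1 := (Nat.modEq_iff_dvd' (by omega)).1 (show 1 ≡ n [MOD W] from h3.symm)
    obtain ⟨t, ht⟩ := h4
    have h5 : (n:ℝ) = 1 + W * t := by
      have : n = 1 + W * t := by omega
      rw [this]; push_cast; ring
    rw [← ex_add]
    have h6 : θ * n = (θ - γ + γ * n) + ((a * t : ℤ) : ℝ) := by
      rw [h5]; push_cast
      have : θ * (W * t) = (β + a) * t := by rw [hβ]; ring
      have h7 : γ * (W * t) = β * t := by rw [← hγW]; ring
      linear_combination this - h7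
    rw [h6, ex_add, ex_int, mul_one]
  have hfac : ∑ n ∈ (II W N).filter (fun n => D ∣ n), ex (θ * n) -
      (1 / (D:ℂ)) * ∑ n ∈ (II W N).filter (fun n => 1 ∣ n), ex (θ * n) =
      ex (θ - γ) * (∑ n ∈ (II W N).filter (fun n => D ∣ n), ex (γ * n) -
      (1 / (D:ℂ)) * ∑ n ∈ (II W N).filter (fun n => 1 ∣ n), ex (γ * n)) := by
    rw [hphase D, hphase 1]; ring
  rw [hfac, norm_mul, norm_ex, one_mul]
  obtain ⟨c, hc⟩ := sum_II_dvd W D hcop
  obtain ⟨c1, hc1⟩ := sum_II_dvd W 1 (Nat.coprime_one_right W)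
  rw [hc, hc1]
  have hnormD : ‖(1 / (D:ℂ))‖ ≤ 1 := by
    rw [norm_div, norm_one, Complex.norm_natCast]
    rw [div_le_one (by linarith)]; exact hD'
  by_cases hcase : 1 ≤ |γ| * Real.sqrt N
  · -- both sums are small
    have hsmall : ∀ D' : ℕ, 1 ≤ D' → D' ≤ R^2 → ∀ c', ‖prog (W * D') c' N (2 * N) (fun n => ex (γ * n))‖ ≤
        Real.sqrt N := by
      intro D' h1 h2 c'
      have h1' : (1:ℝ) ≤ D' := by exact_mod_cast h1
      have h2' : (D':ℝ) ≤ R^2 := by exact_mod_cast h2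
      have hγ0 : 0 < |γ| := by
        by_contra hcon
        have : |γ| = 0 := le_antisymm (not_lt.1 hcon) (abs_nonneg _)
        rw [this] at hcase
        linarith
      have e1 : γ * ((W * D' : ℕ) : ℝ) = β * D' := by rw [← hγW]; push_cast; ring
      have e2 : |γ * ((W * D' : ℕ) : ℝ)| ≤ 1/2 := by
        rw [e1, abs_mul, Nat.abs_cast]
        calc |β| * D' ≤ 1 / (4 * (R:ℝ)^2) * R^2 := mul_le_mul hβ4 h2' (by positivity) (by positivity)
          _ = 1/4 := by field_simp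
          _ ≤ 1/2 := by norm_num
      have e3 := ex_lower e2
      have e4 : 4 * |γ| ≤ ‖ex (γ * ((W * D' : ℕ) : ℝ)) - 1‖ := by
        refine le_trans ?_ e3
        have : |γ| ≤ |γ * ((W * D' : ℕ) : ℝ)| := by
          rw [abs_mul]
          refine le_mul_of_one_le_right (abs_nonneg _) ?_
          push_cast
          rw [abs_of_nonneg (by positivity)]
          nlinarith
        linarith
      refine (prog_small (W * D') c' N γ _ hγ0 e4).trans ?_
      rw [div_le_iff₀ (by positivity)]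
      nlinarith
    have a1 := hsmall D hD hDR c
    have a2 := hsmall 1 le_rfl (Nat.one_le_pow _ _ (by omega)) c1
    calc ‖prog (W * D) c N (2 * N) (fun n => ex (γ * n)) -
          1 / (D:ℂ) * prog (W * 1) c1 N (2 * N) (fun n => ex (γ * n))‖
        ≤ ‖prog (W * D) c N (2 * N) (fun n => ex (γ * n))‖ +
          ‖1 / (D:ℂ) * prog (W * 1) c1 N (2 * N) (fun n => ex (γ * n))‖ := norm_sub_le _ _
      _ ≤ Real.sqrt N + 1 * Real.sqrt N := by
          refine add_le_add a1 ?_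
          rw [norm_mul]
          exact mul_le_mul hnormD a2 (norm_nonneg _) zero_le_one
      _ ≤ 30 * Real.sqrt N := by nlinarith
  · push Not at hcase
    set η : ℝ := 2 * Real.pi * |γ| with hη
    have hη0 : 0 ≤ η := by rw [hη]; positivity
    have hlip : ∀ n : ℕ, ‖(fun n : ℕ => ex (γ * n)) (n + 1) - (fun n : ℕ => ex (γ * n)) n‖ ≤ η := by
      intro n
      have : ex (γ * ((n + 1 : ℕ) : ℝ)) - ex (γ * n) = ex (γ * n) * (ex γ - 1) := by
        rw [mul_sub, mul_one, ← ex_add]; congr 2; push_cast; ring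
      simp only
      rw [this, norm_mul, norm_ex, one_mul]
      exact ex_upper γ
    have hnorm : ∀ n : ℕ, ‖(fun n : ℕ => ex (γ * n)) n‖ ≤ 1 := fun n => (norm_ex _).le
    have hηN : (2 * N) * η ≤ 13 * Real.sqrt N := by
      have h1 : |γ| * N ≤ Real.sqrt N := by
        calc |γ| * N = (|γ| * Real.sqrt N) * Real.sqrt N := by rw [mul_assoc, hsq]
          _ ≤ 1 * Real.sqrt N := mul_le_mul_of_nonneg_right hcase.le (by linarith)
          _ = Real.sqrt N := one_mul _
      have hpi := Real.pi_lt_d2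
      rw [hη]
      have : 2 * (N:ℝ) * (2 * Real.pi * |γ|) = (4 * Real.pi) * (|γ| * N) := by ring
      rw [this]
      have h2 : 0 ≤ |γ| * N := by positivity
      nlinarith [Real.pi_pos]
    have hcmp : ∀ D' : ℕ, 1 ≤ D' → D' ≤ R^2 → ∀ c', ‖prog (W * D') c' N (2 * N) (fun n => ex (γ * n)) -
        1 / ((W * D' : ℕ) : ℂ) * ∑ n ∈ Ioc N (2 * N), ex (γ * n)‖ ≤ 15 * Real.sqrt N := by
      intro D' h1 h2 c'
      have h3 := prog_compare (W * D') c' N (Nat.mul_pos hW h1) (fun n => ex (γ * n)) η hnorm hlip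
      refine h3.trans ?_
      have h4 : ((W * D' : ℕ) : ℝ) ≤ N := by
        have : W * D' ≤ N := (Nat.mul_le_mul_left W h2).trans hN
        exact_mod_cast this
      have h5 : ((N:ℝ) + ((W * D' : ℕ) : ℝ)) * η ≤ (2 * N) * η :=
        mul_le_mul_of_nonneg_right (by linarith) hη0
      linarith
    have a1 := hcmp D hD hDR c
    have a2 := hcmp 1 le_rfl (Nat.one_le_pow _ _ (by omega)) c1
    set F0 := ∑ n ∈ Ioc N (2 * N), ex (γ * n) with hF0
    have hDC : (D:ℂ) ≠ 0 := by exact_mod_cast (by omega : D ≠ 0)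
    have hWC : (W:ℂ) ≠ 0 := by exact_mod_cast hW.ne'
    have hdecomp : prog (W * D) c N (2 * N) (fun n => ex (γ * n)) -
          1 / (D:ℂ) * prog (W * 1) c1 N (2 * N) (fun n => ex (γ * n)) =
        (prog (W * D) c N (2 * N) (fun n => ex (γ * n)) - 1 / ((W * D : ℕ) : ℂ) * F0) -
        1 / (D:ℂ) * (prog (W * 1) c1 N (2 * N) (fun n => ex (γ * n)) - 1 / ((W * 1 : ℕ) : ℂ) * F0) := by
      push_cast
      field_simp
      ring
    rw [hdecomp]
    calc _ ≤ ‖prog (W * D) c N (2 * N) (fun n => ex (γ * n)) - 1 / ((W * D : ℕ) : ℂ) * F0‖ +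
          ‖1 / (D:ℂ) * (prog (W * 1) c1 N (2 * N) (fun n => ex (γ * n)) - 1 / ((W * 1 : ℕ) : ℂ) * F0)‖ :=
          norm_sub_le _ _
      _ ≤ 15 * Real.sqrt N + 1 * (15 * Real.sqrt N) := by
          refine add_le_add a1 ?_
          rw [norm_mul]
          exact mul_le_mul hnormD a2 (norm_nonneg _) zero_le_one
      _ ≤ 30 * Real.sqrt N := by linarith

/-- **Fourier uniformity of the majorant.** -/
theorem expo (hR : 1 ≤ R) (hW : 0 < W) (w : ℝ) (hw0 : 0 < w) (hw : ∀ p : ℕ, p.Prime → (p:ℝ) ≤ w → p ∣ W)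
    (N : ℕ) (hN : W * R^2 ≤ N) (θ : ℝ) :
    ‖∑ n ∈ II W N, (nu W R n) • ex (θ * n) - (1 / GG W R) • ∑ n ∈ II W N, ex (θ * n)‖ ≤
      5 * N / (W * w * GG W R) + 10 * (R:ℝ)^6 + 30 * (R:ℝ)^4 * Real.sqrt N := by
  have hG1 : 1 ≤ GG W R := GG_ge_one hR
  have hG : 0 < GG W R := lt_of_lt_of_le one_pos hG1
  have hR' : (1:ℝ) ≤ R := by exact_mod_cast hR
  have hW' : (0:ℝ) < W := by exact_mod_cast hW
  obtain ⟨r, hr1, hr2⟩ := Real.exists_rat_abs_sub_le_and_den_le ((W:ℝ) * θ) (n := 4 * R^2)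
    (by positivity)
  have hr1' : |(W:ℝ) * θ - r| ≤ 1 / ((4 * R^2 + 1 : ℝ) * r.den) := by
    push_cast at hr1; exact hr1
  have hr2' : (r.den : ℝ) ≤ 4 * R^2 := by exact_mod_cast hr2
  have hexp : ∀ S ⊆ DD W R, ∑ n ∈ II W N, ((∑ d ∈ S, (if d ∣ n then lam W R d else 0)) ^ 2 : ℝ) • ex (θ * n) =
      ∑ d ∈ S, ∑ d' ∈ S, (lam W R d * lam W R d') •
        ∑ n ∈ (II W N).filter (fun n => Nat.lcm d d' ∣ n), ex (θ * n) := by
    intro S _
    exact quad_expand S (lam W R) (II W N) (fun n : ℕ => ex (θ * n))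
  have hII1 : (II W N).filter (fun n => 1 ∣ n) = II W N := Finset.filter_true_of_mem fun n _ => one_dvd n
  have hR6 : (R:ℝ)^2 ≤ (R:ℝ)^6 := pow_le_pow_right₀ hR' (by norm_num)
  have hR46 : (R:ℝ)^4 ≤ (R:ℝ)^6 := pow_le_pow_right₀ hR' (by norm_num)
  by_cases hden : r.den = 1
  · -- near an integer
    have hr' : (r:ℝ) = (r.num : ℝ) := by
      have := Rat.num_div_den r
      rw [hden] at this
      have h2 : ((r.num : ℚ) / ((1:ℕ):ℚ) : ℚ) = r := this
      have h3 : (r : ℝ) = (((r.num : ℚ) / ((1:ℕ):ℚ) : ℚ) : ℝ) := by rw [h2]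
      rw [h3]; push_cast; ring
    have ha : |(W:ℝ) * θ - (r.num : ℤ)| ≤ 1 / (4 * (R:ℝ)^2 + 1) := by
      rw [← hr']
      rw [hden] at hr1'
      simpa using hr1'
    have h1 := hexp (DD W R) (Finset.Subset.refl _)
    have h2 : ∑ n ∈ II W N, (nu W R n) • ex (θ * n) = _ := h1
    rw [h2]
    have h3 := quad_err (W := W) (R := R) (DD W R) (Finset.Subset.refl _)
      (fun d d' => ∑ n ∈ (II W N).filter (fun n => Nat.lcm d d' ∣ n), ex (θ * n))
      (fun d d' => (1 / ((Nat.lcm d d' : ℕ) : ℂ)) * ∑ n ∈ II W N, ex (θ * n))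
      (30 * Real.sqrt N) (by positivity) (by
        intro d hd d' hd'
        obtain ⟨a1, a2, a3⟩ := lcm_bound hd hd'
        have := near_sum hR hW N hN θ r.num ha (Nat.lcm d d') a1 a2 a3
        rw [hII1] at this
        exact this)
    have h4 : ∑ d ∈ DD W R, ∑ d' ∈ DD W R, (lam W R d * lam W R d') •
        ((1 / ((Nat.lcm d d' : ℕ) : ℂ)) * ∑ n ∈ II W N, ex (θ * n)) =
        (1 / GG W R) • ∑ n ∈ II W N, ex (θ * n) := by
      rw [← V_one (W := W) hR, Finset.sum_smul]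
      refine Finset.sum_congr rfl fun d _ => ?_
      rw [Finset.sum_smul]
      refine Finset.sum_congr rfl fun d' _ => ?_
      rw [Complex.real_smul, Complex.real_smul]
      push_cast; ring
    rw [h4] at h3
    refine h3.trans ?_
    have : 0 ≤ 5 * (N:ℝ) / (W * w * GG W R) := by positivity
    have h5 : 0 ≤ 10 * (R:ℝ)^6 := by positivity
    linarith
  · -- far from the integers
    set p := r.den.minFac with hp
    have hpp : p.Prime := Nat.minFac_prime hden
    have hpd : p ∣ r.den := Nat.minFac_dvd _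
    -- the sum of ex
    have hS1 : ‖∑ n ∈ II W N, ex (θ * n)‖ ≤ 3 * (R:ℝ)^2 := by
      rw [← hII1]
      refine far_sum hR N θ r hr1' hr2' hpd (fun h => hpp.one_lt.ne' (Nat.dvd_one.1 h)) ?_
        (Nat.coprime_one_right W)
      have : (1:ℝ) ≤ (R:ℝ)^2 := by nlinarith
      simpa using this
    -- the sum without p
    have hSp : ‖∑ n ∈ II W N, (nup W R p n) • ex (θ * n)‖ ≤ (R:ℝ)^4 * (3 * (R:ℝ)^2) := by
      have h1 := hexp ((DD W R).filter (fun d => ¬ p ∣ d)) (Finset.filter_subset _ _)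
      have h2 : ∑ n ∈ II W N, (nup W R p n) • ex (θ * n) = _ := h1
      rw [h2]
      have h3 := quad_err (W := W) (R := R) ((DD W R).filter (fun d => ¬ p ∣ d)) (Finset.filter_subset _ _)
        (fun d d' => ∑ n ∈ (II W N).filter (fun n => Nat.lcm d d' ∣ n), ex (θ * n))
        (fun _ _ => 0) (3 * (R:ℝ)^2) (by positivity) (by
          intro d hd d' hd'
          obtain ⟨b1, b2⟩ := Finset.mem_filter.1 hd
          obtain ⟨b3, b4⟩ := Finset.mem_filter.1 hd'
          obtain ⟨a1, a2, a3⟩ := lcm_bound b1 b3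
          rw [sub_zero]
          refine far_sum hR N θ r hr1' hr2' hpd ?_ (by exact_mod_cast a2) a3
          intro h
          rcases (Nat.Prime.dvd_mul hpp).1 (h.trans (Nat.lcm_dvd_mul d d')) with h | h
          · exact b2 h
          · exact b4 h)
      simpa using h3
    -- the multiples of p
    have hmult : ‖∑ n ∈ (II W N).filter (fun n => p ∣ n), (nu W R n - nup W R p n) • ex (θ * n)‖ ≤
        5 * N / (W * w * GG W R) + 4 * (R:ℝ)^4 := by
      have h0 : 0 ≤ 5 * (N:ℝ) / (W * w * GG W R) := by positivity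
      by_cases hpW : p ∣ W
      · have : (II W N).filter (fun n => p ∣ n) = ∅ := by
          rw [Finset.filter_eq_empty_iff]
          intro n hn h
          obtain ⟨_, h3⟩ := mem_II.1 hn
          have h4 : n ≡ 1 [MOD p] := Nat.ModEq.of_dvd hpW h3
          have h5 : (0:ℕ) ≡ 1 [MOD p] := ((Nat.modEq_zero_iff_dvd).2 h).symm.trans h4
          have h6 : p ∣ 1 := (Nat.modEq_zero_iff_dvd).1 h5.symm
          exact hpp.one_lt.ne' (Nat.dvd_one.1 h6)
        rw [this, Finset.sum_empty, norm_zero]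
        positivity
      · have hpw : w < p := by
          by_contra hcon
          exact hpW (hw p hpp (not_lt.1 hcon))
        refine (norm_sum_le _ _).trans ?_
        have h1 : ∀ n ∈ (II W N).filter (fun n => p ∣ n), ‖(nu W R n - nup W R p n) • ex (θ * n)‖ ≤
            nu W R n + nup W R p n := by
          intro n _
          rw [norm_smul, norm_ex, mul_one, Real.norm_eq_abs, abs_le]
          have a1 := nu_nonneg (W := W) (R := R) n
          have a2 := nup_nonneg (W := W) (R := R) p n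
          constructor <;> linarith
        refine (Finset.sum_le_sum h1).trans ((mass_mult hR hW hpp hpW N).trans ?_)
        have h2 : 5 * (N:ℝ) / (W * p * GG W R) ≤ 5 * N / (W * w * GG W R) := by
          refine div_le_div_of_nonneg_left (by positivity) (by positivity) ?_
          gcongr
        linarith
    have hdec : ∑ n ∈ II W N, (nu W R n) • ex (θ * n) = ∑ n ∈ II W N, (nup W R p n) • ex (θ * n) +
        ∑ n ∈ (II W N).filter (fun n => p ∣ n), (nu W R n - nup W R p n) • ex (θ * n) := by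
      rw [Finset.sum_filter, ← Finset.sum_add_distrib]
      refine Finset.sum_congr rfl fun n _ => ?_
      by_cases h : p ∣ n
      · rw [if_pos h, sub_smul]; abel
      · rw [if_neg h, add_zero, nu_eq_nup h]
    have hinv : 1 / GG W R ≤ 1 := by rw [div_le_one hG]; exact hG1
    calc ‖∑ n ∈ II W N, (nu W R n) • ex (θ * n) - (1 / GG W R) • ∑ n ∈ II W N, ex (θ * n)‖
        ≤ ‖∑ n ∈ II W N, (nu W R n) • ex (θ * n)‖ + ‖(1 / GG W R) • ∑ n ∈ II W N, ex (θ * n)‖ :=
          norm_sub_le _ _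
      _ ≤ ((R:ℝ)^4 * (3 * (R:ℝ)^2) + (5 * N / (W * w * GG W R) + 4 * (R:ℝ)^4)) + 1 * (3 * (R:ℝ)^2) := by
          refine add_le_add ?_ ?_
          · rw [hdec]
            exact (norm_add_le _ _).trans (add_le_add hSp hmult)
          · rw [norm_smul, Real.norm_of_nonneg (by positivity : (0:ℝ) ≤ 1 / GG W R)]
            exact mul_le_mul hinv hS1 (norm_nonneg _) zero_le_one
      _ ≤ _ := by
          have h5 : 0 ≤ 30 * (R:ℝ)^4 * Real.sqrt N := by positivity
          have h6 : (R:ℝ)^4 * (3 * (R:ℝ)^2) = 3 * (R:ℝ)^6 := by ring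
          rw [h6]
          linarith

end Pool.Agent.H55.Odd
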