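import Pool.Agent.H55.Odd.Decrement

/-!
One step of the decrement.
-/

set_option autoImplicit false
set_option linter.unusedSectionVars false

namespace Pool.Agent.H55.Odd

open Finset

lemma per_sum (R : ℕ) (F : ℕ → ℝ) (hF : ∀ n, F (n + R) = F n) (t : ℕ) :
    ∑ n ∈ range R, F (n + t) = ∑ n ∈ range R, F n := by
  induction t with
  | zero => rfl
  | succ t ih =>
    rw [← ih]
    have h1 := Finset.sum_range_succ (fun n => F (n + t)) R
    have h2 := Finset.sum_range_succ' (fun n => F (n + t)) R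
    have h3 : F (R + t) = F (0 + t) := by rw [add_comm R t, zero_add]; exact hF t
    have h4 : ∑ n ∈ range R, F (n + 1 + t) = ∑ n ∈ range R, F (n + (t + 1)) := by
      refine Finset.sum_congr rfl fun n _ => ?_
      congr 1; ring
    rw [h4] at h2
    linarith

lemma card_class_eq (R K n0 : ℕ) (h : n0 < R) :
    ((range (R * K)).filter (fun n => n % R = n0 % R)).card = K := by
  have hR : 0 < R := by omega
  have himg : (range (R * K)).filter (fun n => n % R = n0 % R) = (range K).image (fun t => n0 + R * t) := by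
    ext n
    simp only [Finset.mem_filter, Finset.mem_range, Finset.mem_image]
    rw [Nat.mod_eq_of_lt h]
    constructor
    · rintro ⟨h1, h2⟩
      refine ⟨n / R, ?_, ?_⟩
      · rw [Nat.div_lt_iff_lt_mul hR, mul_comm]; exact h1
      · have := Nat.mod_add_div n R
        omega
    · rintro ⟨t, ht, rfl⟩
      refine ⟨?_, ?_⟩
      · calc n0 + R * t < R + R * t := by omega
          _ = R * (t + 1) := by ring
          _ ≤ R * K := Nat.mul_le_mul_left R ht
      · rw [Nat.add_mul_mod_self_left, Nat.mod_eq_of_lt h]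
  rw [himg, Finset.card_image_of_injOn, Finset.card_range]
  intro a _ b _ hab
  simp only at hab
  exact Nat.eq_of_mul_eq_mul_left hR (by omega)

variable {m : ℕ} [NeZero m]

/-- The decrement. -/
lemma step (r : ZMod m) (E : Finset ℕ) (R : ℕ) (hR : 0 < R) (h3R : 3 ∣ R) (hER : ∀ e ∈ E, e ∣ R)
    (PS S : Finset ℕ) (hPS : ∀ p ∈ PS, p ∣ R) (B H : ℕ)
    (hS : ∀ p ∈ S, p.Prime ∧ ¬ p ∣ R ∧ p ≤ B * H)
    (κ : ℝ) (hκ : ∀ (a : ℕ) (v : ℕ → ZMod m), κ ≤ ∑ p ∈ S, ((finSet r a (B * H) v E p).card : ℝ))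
    (hne : ∀ n, (VV r E n H PS).Nonempty) (hne' : ∀ n, (VV r E n (B * H) (PS ∪ S)).Nonempty) :
    ∑ n ∈ range (R * ∏ p ∈ S, p), Real.log ((VV r E n (B * H) (PS ∪ S)).card : ℝ) ≤
      ((∏ p ∈ S, p : ℕ) : ℝ) * (B * ∑ n ∈ range R, Real.log ((VV r E n H PS).card : ℝ) -
        R * (κ / (2 * (B * H : ℕ)))) := by
  classical
  set Pi0 : ℕ := ∏ p ∈ S, p with hPi
  have hPi0 : 0 < Pi0 := Finset.prod_pos fun p hp => (hS p hp).1.pos
  have hPi' : (0:ℝ) < Pi0 := by exact_mod_cast hPi0
  set κ' : ℝ := κ / (2 * (B * H : ℕ)) with hκ'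
  set F : ℕ → ℝ := fun n => Real.log ((VV r E n H PS).card : ℝ) with hF
  have hclass : ∀ n0 ∈ range R, ∑ n ∈ (range (R * Pi0)).filter (fun n => n % R = n0 % R),
      Real.log ((VV r E n (B * H) (PS ∪ S)).card : ℝ) ≤
      Pi0 * (∑ k ∈ range B, F (n0 + k * H) - κ') := by
    intro n0 hn0
    have hn0' := Finset.mem_range.1 hn0
    set Cl := (range (R * Pi0)).filter (fun n => n % R = n0 % R) with hCl
    have hClcard : Cl.card = Pi0 := card_class_eq R Pi0 n0 hn0'
    set s : ℝ := (∏ k ∈ range B, ((VV r E (n0 + k * H) H PS).card : ℝ)) * Real.exp (-κ') with hs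
    have hpos : ∀ n, (0:ℝ) < ((VV r E n H PS).card : ℝ) := fun n => by
      exact_mod_cast Finset.card_pos.2 (hne n)
    have hs0 : 0 < s := mul_pos (Finset.prod_pos fun k _ => hpos _) (Real.exp_pos _)
    -- the total number of valid pairs
    have htotal : ∑ n ∈ Cl, ((VV r E n (B * H) (PS ∪ S)).card : ℝ) ≤ Pi0 * s := by
      set VB : Finset (Fin (B * H) → ZMod m) :=
        Finset.univ.filter (fun u => ∀ k : Fin B, blk u k ∈ VV r E (n0 + k.val * H) H PS) with hVB
      have hVBcard : (VB.card : ℝ) ≤ ∏ k ∈ range B, ((VV r E (n0 + k * H) H PS).card : ℝ) := by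
        have h1 : VB.card ≤ (Fintype.piFinset (fun k : Fin B => VV r E (n0 + k.val * H) H PS)).card := by
          refine Finset.card_le_card_of_injOn (fun u => blk u) ?_ ?_
          · intro u hu
            have := (Finset.mem_filter.1 (Finset.mem_coe.1 hu)).2
            exact Finset.mem_coe.2 (Fintype.mem_piFinset.2 this)
          · intro u _ u' _ h
            exact blk_injective h
        rw [Fintype.card_piFinset] at h1
        have h2 : ∏ k : Fin B, (VV r E (n0 + k.val * H) H PS).card =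
            ∏ k ∈ range B, (VV r E (n0 + k * H) H PS).card := by
          rw [Finset.prod_range]
        rw [h2] at h1
        exact_mod_cast h1
      have hsub : ∀ n ∈ Cl, VV r E n (B * H) (PS ∪ S) ⊆ VB.filter (fun u =>
          ∀ p ∈ S, ∀ x ∈ finSet r n0 (B * H) (extv u) E p, ¬ p ∣ n + x) := by
        intro n hn u hu
        obtain ⟨_, hn2⟩ := Finset.mem_filter.1 hn
        have hmod : n ≡ n0 [MOD R] := hn2
        have huv := mem_VV.1 hu
        refine Finset.mem_filter.2 ⟨Finset.mem_filter.2 ⟨Finset.mem_univ _, fun k => ?_⟩, ?_⟩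
        · rw [← VV_congr r E (n + k.val * H) (n0 + k.val * H) H R PS h3R hER hPS (hmod.add_right _), mem_VV]
          exact blk_valid r E n B H PS (PS ∪ S) Finset.subset_union_left u huv k
        · intro p hp x hx hd
          obtain ⟨x1, x2, e, he, x3, x4, x5⟩ := Finset.mem_filter.1 hx
          have key : ∀ d, d ∣ R → d ∣ n0 + x → d ∣ n + x := by
            intro d hd hdx
            have h1 : n + x ≡ n0 + x [MOD d] := (hmod.of_dvd hd).add_right x
            exact (Nat.modEq_zero_iff_dvd).1 (h1.trans ((Nat.modEq_zero_iff_dvd).2 hdx))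
          exact huv x (Finset.mem_range.1 x1) p (Finset.mem_union_right _ hp) e he (key 3 h3R x2)
            (key e (hER e he) x3) hd x4 x5
      have h1 : ∑ n ∈ Cl, (VV r E n (B * H) (PS ∪ S)).card ≤ ∑ u ∈ VB, (Cl.filter (fun n =>
          ∀ p ∈ S, ∀ x ∈ finSet r n0 (B * H) (extv u) E p, ¬ p ∣ n + x)).card := by
        refine (Finset.sum_le_sum fun n hn => Finset.card_le_card (hsub n hn)).trans (le_of_eq ?_)
        simp only [Finset.card_filter]
        rw [Finset.sum_comm]
      have h2 : ∀ u ∈ VB, ((Cl.filter (fun n =>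
          ∀ p ∈ S, ∀ x ∈ finSet r n0 (B * H) (extv u) E p, ¬ p ∣ n + x)).card : ℝ) ≤ Pi0 * Real.exp (-κ') := by
        intro u _
        have h3 := residue_count r E R n0 hR S (B * H) hS (extv u) κ (hκ n0 (extv u))
        rw [hCl, Finset.filter_filter]
        exact h3
      calc ∑ n ∈ Cl, ((VV r E n (B * H) (PS ∪ S)).card : ℝ)
          ≤ ∑ u ∈ VB, ((Cl.filter (fun n =>
          ∀ p ∈ S, ∀ x ∈ finSet r n0 (B * H) (extv u) E p, ¬ p ∣ n + x)).card : ℝ) := by exact_mod_cast h1
        _ ≤ ∑ u ∈ VB, (Pi0:ℝ) * Real.exp (-κ') := Finset.sum_le_sum h2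
        _ = VB.card * ((Pi0:ℝ) * Real.exp (-κ')) := by rw [Finset.sum_const, nsmul_eq_mul]
        _ ≤ (∏ k ∈ range B, ((VV r E (n0 + k * H) H PS).card : ℝ)) * ((Pi0:ℝ) * Real.exp (-κ')) :=
            mul_le_mul_of_nonneg_right hVBcard (by positivity)
        _ = Pi0 * s := by rw [hs]; ring
    -- Jensen
    have hlog : ∀ n ∈ Cl, Real.log ((VV r E n (B * H) (PS ∪ S)).card : ℝ) ≤
        Real.log s + ((VV r E n (B * H) (PS ∪ S)).card : ℝ) / s - 1 := by
      intro n _
      have ht : (0:ℝ) < ((VV r E n (B * H) (PS ∪ S)).card : ℝ) := by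
        exact_mod_cast Finset.card_pos.2 (hne' n)
      have h1 := Real.log_le_sub_one_of_pos (div_pos ht hs0)
      rw [Real.log_div ht.ne' hs0.ne'] at h1
      linarith
    refine (Finset.sum_le_sum hlog).trans ?_
    rw [Finset.sum_sub_distrib, Finset.sum_add_distrib, Finset.sum_const, Finset.sum_const, hClcard,
      nsmul_eq_mul, nsmul_eq_mul, ← Finset.sum_div]
    have h3 : (∑ n ∈ Cl, ((VV r E n (B * H) (PS ∪ S)).card : ℝ)) / s ≤ Pi0 := by
      rw [div_le_iff₀ hs0]; exact htotal
    have h4 : Real.log s = ∑ k ∈ range B, F (n0 + k * H) - κ' := by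
      rw [hs, Real.log_mul (Finset.prod_pos fun k _ => hpos _).ne' (Real.exp_pos _).ne', Real.log_exp,
        Real.log_prod fun k _ => (hpos _).ne']
      ring
    rw [h4]
    linarith
  -- sum over the classes
  have hfib : ∑ n ∈ range (R * Pi0), Real.log ((VV r E n (B * H) (PS ∪ S)).card : ℝ) =
      ∑ n0 ∈ range R, ∑ n ∈ (range (R * Pi0)).filter (fun n => n % R = n0 % R),
        Real.log ((VV r E n (B * H) (PS ∪ S)).card : ℝ) := by
    have hmaps : ∀ n ∈ range (R * Pi0), n % R ∈ range R := fun n _ => Finset.mem_range.2 (Nat.mod_lt _ hR)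
    rw [← Finset.sum_fiberwise_of_maps_to hmaps]
    refine Finset.sum_congr rfl fun n0 hn0 => ?_
    rw [Nat.mod_eq_of_lt (Finset.mem_range.1 hn0)]
  rw [hfib]
  refine (Finset.sum_le_sum hclass).trans (le_of_eq ?_)
  rw [← Finset.mul_sum, Finset.sum_sub_distrib, Finset.sum_comm]
  congr 1
  have hper : ∀ n, F (n + R) = F n := by
    intro n
    rw [hF]
    simp only
    rw [VV_congr r E (n + R) n H R PS h3R hER hPS (by simp [Nat.ModEq])]
  rw [Finset.sum_congr rfl fun k _ => per_sum R F hper (k * H), Finset.sum_const, card_range,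
    nsmul_eq_mul, Finset.sum_const, card_range, nsmul_eq_mul]


end Pool.Agent.H55.Odd
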